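import Pool.Agent.Work.MP_275abe_gt.OUniq

/-!
Uniform existence time implies existence for all times (inside an invariant set). Iterate: glue a solution on (-eps, eps)
through gamma(± eps / 2), by uniqueness on intervals. (Compare Mathlib.Geometry.Manifold.IntegralCurve.UniformTime; here
only the points of S are used.)
-/

namespace Pool.Agent.Work.MP_275abe_gt

open MeasureTheory Set
open scoped ContDiff

noncomputable section

/-- One extension step: from `(-a, a)` to `(-3a/2, 3a/2)`. -/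
lemma OGlob.step {E : Type*} [NormedAddCommGroup E] [NormedSpace ℝ E] {Z : E → E}
    (hZ : ContDiff ℝ 1 Z) (S : Set E) (a : ℝ) (ha : 0 < a)
    (h : ∀ z ∈ S, ∃ γ : ℝ → E, γ 0 = z ∧ ∀ t ∈ Ioo (-a) a, γ t ∈ S ∧ HasDerivAt γ (Z (γ t)) t) :
    ∀ z ∈ S, ∃ γ : ℝ → E, γ 0 = z ∧
      ∀ t ∈ Ioo (-(3 / 2 * a)) (3 / 2 * a), γ t ∈ S ∧ HasDerivAt γ (Z (γ t)) t := by
  intro z hz
  obtain ⟨γ, h0, hγ⟩ := h z hz
  obtain ⟨γ1, h10, hγ1⟩ := h (γ (a / 2)) (hγ (a / 2) ⟨by linarith, by linarith⟩).1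
  obtain ⟨γ2, h20, hγ2⟩ := h (γ (-(a / 2))) (hγ (-(a / 2)) ⟨by linarith, by linarith⟩).1
  -- uniqueness
  have hu1 : ∀ u ∈ Ioo (-a) (a / 2), γ (u + a / 2) = γ1 u := by
    refine integral_unique_on hZ (by linarith) (by linarith) (fun t ht => ?_)
      (fun t ht => (hγ1 t ⟨ht.1, by linarith [ht.2]⟩).2) (by simp [h10])
    exact (hγ (t + a / 2) ⟨by linarith [ht.1], by linarith [ht.2]⟩).2.comp_add_const t (a / 2)
  have hu2 : ∀ u ∈ Ioo (-(a / 2)) a, γ (u + -(a / 2)) = γ2 u := by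
    refine integral_unique_on hZ (by linarith) (by linarith) (fun t ht => ?_)
      (fun t ht => (hγ2 t ⟨by linarith [ht.1], ht.2⟩).2) (by simp [h20])
    exact (hγ (t + -(a / 2)) ⟨by linarith [ht.1], by linarith [ht.2]⟩).2.comp_add_const t (-(a / 2))
  classical
  set η : ℝ → E := fun t => if 0 ≤ t then γ1 (t + -(a / 2)) else γ2 (t + a / 2) with hη
  have hη1 : ∀ t ∈ Ioo (-(a / 2)) (3 / 2 * a), η t = γ1 (t + -(a / 2)) := by
    intro t ht
    simp only [hη]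
    split_ifs with h3
    · rfl
    · push Not at h3
      rw [← hu1 (t + -(a / 2)) ⟨by linarith [ht.1], by linarith⟩,
        ← hu2 (t + a / 2) ⟨by linarith [ht.1], by linarith⟩]
      ring_nf
  have hη2 : ∀ t ∈ Ioo (-(3 / 2 * a)) (a / 2), η t = γ2 (t + a / 2) := by
    intro t ht
    simp only [hη]
    split_ifs with h3
    · rw [← hu1 (t + -(a / 2)) ⟨by linarith, by linarith [ht.2]⟩,
        ← hu2 (t + a / 2) ⟨by linarith, by linarith [ht.2]⟩]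
      ring_nf
    · rfl
  refine ⟨η, ?_, fun t ht => ?_⟩
  · rw [hη1 0 ⟨by linarith, by linarith⟩, ← hu1 (0 + -(a / 2)) ⟨by linarith, by linarith⟩]
    rw [← h0]; ring_nf
  · rcases le_or_gt 0 t with h3 | h3
    · have hm : t ∈ Ioo (-(a / 2)) (3 / 2 * a) := ⟨by linarith, ht.2⟩
      have h4 := hγ1 (t + -(a / 2)) ⟨by linarith, by linarith [ht.2]⟩
      rw [hη1 t hm]
      refine ⟨h4.1, (h4.2.comp_add_const t (-(a / 2))).congr_of_eventuallyEq ?_⟩
      exact Filter.eventually_of_mem (Ioo_mem_nhds hm.1 hm.2) fun u hu => hη1 u hu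
    · have hm : t ∈ Ioo (-(3 / 2 * a)) (a / 2) := ⟨ht.1, by linarith⟩
      have h4 := hγ2 (t + a / 2) ⟨by linarith [ht.1], by linarith⟩
      rw [hη2 t hm]
      refine ⟨h4.1, (h4.2.comp_add_const t (a / 2)).congr_of_eventuallyEq ?_⟩
      exact Filter.eventually_of_mem (Ioo_mem_nhds hm.1 hm.2) fun u hu => hη2 u hu

theorem global_of_uniform {E : Type*} [NormedAddCommGroup E] [NormedSpace ℝ E] {Z : E → E}
    (hZ : ContDiff ℝ 1 Z) (S : Set E) (ε : ℝ) (hε : 0 < ε)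
    (h : ∀ z ∈ S, ∃ γ : ℝ → E, γ 0 = z ∧ ∀ t ∈ Ioo (-ε) ε, γ t ∈ S ∧ HasDerivAt γ (Z (γ t)) t) :
    ∀ z ∈ S, ∃ γ : ℝ → E, γ 0 = z ∧ ∀ t, γ t ∈ S ∧ HasDerivAt γ (Z (γ t)) t := by
  have hall : ∀ n : ℕ, ∀ z ∈ S, ∃ γ : ℝ → E, γ 0 = z ∧
      ∀ t ∈ Ioo (-((3 / 2) ^ n * ε)) ((3 / 2) ^ n * ε), γ t ∈ S ∧ HasDerivAt γ (Z (γ t)) t := by
    intro n
    induction n with
    | zero => simpa using h
    | succ n ih =>
      have := OGlob.step hZ S ((3 / 2) ^ n * ε) (by positivity) ih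
      rw [pow_succ]
      have h1 : (3 / 2 : ℝ) ^ n * (3 / 2) * ε = 3 / 2 * ((3 / 2) ^ n * ε) := by ring
      rw [h1]
      exact this
  intro z hz
  choose γ h0 hγ using fun n => hall n z hz
  have hmono : ∀ m n : ℕ, m ≤ n → (3 / 2 : ℝ) ^ m * ε ≤ (3 / 2) ^ n * ε := fun m n hmn =>
    mul_le_mul_of_nonneg_right (pow_le_pow_right₀ (by norm_num) hmn) hε.le
  have hagree : ∀ m n : ℕ, m ≤ n → ∀ t ∈ Ioo (-((3 / 2) ^ m * ε)) ((3 / 2) ^ m * ε),
      γ m t = γ n t := by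
    intro m n hmn
    have hp : 0 < (3 / 2 : ℝ) ^ m * ε := by positivity
    have := hmono m n hmn
    exact integral_unique_on hZ (by linarith) hp (fun t ht => (hγ m t ht).2)
      (fun t ht => (hγ n t ⟨by linarith [ht.1], by linarith [ht.2]⟩).2) (by rw [h0, h0])
  have hN : ∀ t : ℝ, ∃ n : ℕ, |t| < (3 / 2) ^ n * ε := by
    intro t
    obtain ⟨n, hn⟩ := pow_unbounded_of_one_lt (|t| / ε) (show (1 : ℝ) < 3 / 2 by norm_num)
    exact ⟨n, by rwa [div_lt_iff₀ hε] at hn⟩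
  choose N hN using hN
  have key : ∀ n : ℕ, ∀ t ∈ Ioo (-((3 / 2) ^ n * ε)) ((3 / 2) ^ n * ε), γ (N t) t = γ n t := by
    intro n t ht
    have h2 : t ∈ Ioo (-((3 / 2) ^ (N t) * ε)) ((3 / 2) ^ (N t) * ε) := abs_lt.1 (hN t)
    rcases le_total (N t) n with h | h
    · exact hagree _ _ h t h2
    · exact (hagree _ _ h t ht).symm
  refine ⟨fun t => γ (N t) t, h0 _, fun t => ?_⟩
  have h2 : t ∈ Ioo (-((3 / 2) ^ (N t) * ε)) ((3 / 2) ^ (N t) * ε) := abs_lt.1 (hN t)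
  refine ⟨(hγ _ t h2).1, (hγ _ t h2).2.congr_of_eventuallyEq ?_⟩
  exact Filter.eventually_of_mem (Ioo_mem_nhds h2.1 h2.2) fun u hu => key (N t) u hu

end

end Pool.Agent.Work.MP_275abe_gt
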