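import Pool.Agent.Work.MP_275abe_gt.OUniq

/-!
Uniform local existence near a compact set: Picard-Lindelof near each point of K (Mathlib
ContDiffAt.exists_forall_mem_closedBall_exists_eq_forall_mem_Ioo_hasDerivAt or similar) and compactness.
-/

namespace Pool.Agent.Work.MP_275abe_gt

open MeasureTheory Set
open scoped ContDiff

noncomputable section

theorem uniform_local {E : Type*} [NormedAddCommGroup E] [NormedSpace ℝ E] [CompleteSpace E]
    {Z : E → E} (hZ : ContDiff ℝ 1 Z) {K : Set E} (hK : IsCompact K) :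
    ∃ ε > 0, ∀ z ∈ K, ∃ γ : ℝ → E, γ 0 = z ∧ ∀ t ∈ Ioo (-ε) ε, HasDerivAt γ (Z (γ t)) t := by
  refine hK.induction_on (p := fun K : Set E => ∃ ε > 0, ∀ z ∈ K, ∃ γ : ℝ → E, γ 0 = z ∧
    ∀ t ∈ Ioo (-ε) ε, HasDerivAt γ (Z (γ t)) t) ?_ ?_ ?_ ?_
  · exact ⟨1, one_pos, fun z hz => absurd hz (notMem_empty z)⟩
  · rintro s t hst ⟨ε, hε, h⟩
    exact ⟨ε, hε, fun z hz => h z (hst hz)⟩
  · rintro s t ⟨ε, hε, h⟩ ⟨ε', hε', h'⟩
    refine ⟨min ε ε', lt_min hε hε', fun z hz => ?_⟩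
    rcases hz with hz | hz
    · obtain ⟨γ, h0, h1⟩ := h z hz
      exact ⟨γ, h0, fun t ht => h1 t ⟨by linarith [ht.1, min_le_left ε ε'],
        by linarith [ht.2, min_le_left ε ε']⟩⟩
    · obtain ⟨γ, h0, h1⟩ := h' z hz
      exact ⟨γ, h0, fun t ht => h1 t ⟨by linarith [ht.1, min_le_right ε ε'],
        by linarith [ht.2, min_le_right ε ε']⟩⟩
  · intro x _
    obtain ⟨r, hr, ε, hε, H⟩ :=
      (hZ.contDiffAt (x := x)).exists_forall_mem_closedBall_exists_eq_forall_mem_Ioo_hasDerivAt 0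
    refine ⟨Metric.closedBall x r, mem_nhdsWithin_of_mem_nhds (Metric.closedBall_mem_nhds x hr), ε, hε,
      fun z hz => ?_⟩
    obtain ⟨α, h0, h1⟩ := H z hz
    exact ⟨α, h0, fun t ht => h1 t ⟨by linarith [ht.1], by linarith [ht.2]⟩⟩

end

end Pool.Agent.Work.MP_275abe_gt
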