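import Pool.Agent.Work.MP_275abe_gt.IsoA
import Pool.Agent.Work.MP_275abe_gt.OGlob
import Pool.Agent.Work.MP_275abe_gt.OLoc

/-!
Completeness. Let S = {v | sp G v <= 1}. Over the compact set C (cocompact) the set of v in S is compact (ip is positive
definite and continuous, so |ξ| is bounded), so there is a uniform existence time ε there (uniform_local; the speed is
constant along solutions, energy_deriv, so they stay in S); for v in S choose f in Γ with f v.1 in C and transport the
solution of act f v by act f⁻¹ (act_spray; act f⁻¹ (act f v) = v by the chain rule). global_of_uniform gives global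
solutions in S; for general v scale the velocity and the time.
-/

namespace Pool.Agent.Work.MP_275abe_gt

open MeasureTheory Set
open scoped ContDiff

noncomputable section

lemma Compl.ip_self_nonneg (G : Met) (x u : Pt) : 0 ≤ ip G x u u := by
  rcases eq_or_ne u 0 with h | h
  · have := ip_smul G x 0 0 u
    rw [zero_smul, zero_mul] at this
    rw [h] at this ⊢
    exact this.ge
  · exact (ip_pos G x u h).le

lemma Compl.ip_smul2 (G : Met) (x : Pt) (c : ℝ) (u : Pt) :
    ip G x (c • u) (c • u) = c ^ 2 * ip G x u u := by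
  rw [ip_smul, ip_symm, ip_smul]; ring

lemma Compl.cont_ip (G : Met) : Continuous fun v : Pt × Pt => ip G v.1 v.2 v.2 :=
  (ip_smooth G).continuous.comp (by fun_prop : Continuous fun v : Pt × Pt => ((v.1, v.2, v.2) : Pt × Pt × Pt))

/-- The unit ball bundle over a compact set is compact. -/
lemma Compl.compact_ball (G : Met) {C : Set Pt} (hC : IsCompact C) :
    IsCompact {v : Pt × Pt | v.1 ∈ C ∧ sp G v ≤ 1} := by
  rcases C.eq_empty_or_nonempty with hE | hne
  · rw [hE]; simp
  have hcp : IsCompact (C ×ˢ Metric.sphere (0 : Pt) 1) := hC.prod (isCompact_sphere 0 1)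
  have hne2 : (C ×ˢ Metric.sphere (0 : Pt) 1).Nonempty :=
    hne.prod (NormedSpace.sphere_nonempty.2 zero_le_one)
  obtain ⟨⟨x0, u0⟩, hm, hmin⟩ := hcp.exists_isMinOn hne2 (Compl.cont_ip G).continuousOn
  set m := ip G x0 u0 u0 with hmdef
  have hu0 : u0 ≠ 0 := by
    have h := hm.2
    rintro h0
    simp [h0] at h
  have hm0 : 0 < m := ip_pos G x0 u0 hu0
  have hlow : ∀ x ∈ C, ∀ u : Pt, m * ‖u‖ ^ 2 ≤ ip G x u u := by
    intro x hx u
    rcases eq_or_ne u 0 with h | h
    · rw [h, norm_zero]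
      simpa using Compl.ip_self_nonneg G x 0
    · have hn : 0 < ‖u‖ := norm_pos_iff.2 h
      have h1 : m ≤ ip G x (‖u‖⁻¹ • u) (‖u‖⁻¹ • u) := hmin (show (x, ‖u‖⁻¹ • u) ∈ _ from
        ⟨hx, by simp [norm_smul, hn.ne']⟩)
      rw [Compl.ip_smul2] at h1
      have h2 : m * ‖u‖ ^ 2 ≤ (‖u‖⁻¹ ^ 2 * ip G x u u) * ‖u‖ ^ 2 :=
        mul_le_mul_of_nonneg_right h1 (by positivity)
      refine h2.trans (le_of_eq ?_)
      field_simp
  refine (hC.prod (isCompact_closedBall (0 : Pt) (√(1 / m)))).of_isClosed_subset ?_ ?_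
  · have h1 : IsClosed {v : Pt × Pt | v.1 ∈ C} := hC.isClosed.preimage continuous_fst
    have h2 : IsClosed {v : Pt × Pt | sp G v ≤ 1} :=
      isClosed_le (Real.continuous_sqrt.comp (Compl.cont_ip G)) continuous_const
    exact h1.inter h2
  · rintro ⟨x, u⟩ ⟨hx, hs⟩
    refine ⟨hx, ?_⟩
    rw [mem_closedBall_zero_iff]
    apply Real.le_sqrt_of_sq_le
    rw [le_div_iff₀ hm0, mul_comm]
    refine (hlow x hx u).trans ?_
    have h3 : ip G x u u = sp G (x, u) ^ 2 := (Real.sq_sqrt (Compl.ip_self_nonneg G x u)).symm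
    rw [h3]
    have h4 : 0 ≤ sp G (x, u) := Real.sqrt_nonneg _
    have h5 : sp G (x, u) ≤ 1 := hs
    nlinarith

theorem exists_phi {G : Met} {Γ : Subgroup (Equiv.Perm Pt)} (hΓ : IsClosedSurf G Γ) :
    ∃ φ : ℝ → Pt × Pt → Pt × Pt, IsFlow (spray G) φ := by
  obtain ⟨C, hC, hCf⟩ := hΓ.cocompact
  have hsm : ContDiff ℝ 1 (spray G) := (spray_smooth G).of_le (by norm_cast)
  obtain ⟨ε, hε, hloc⟩ := uniform_local hsm (Compl.compact_ball G hC)
  set S : Set (Pt × Pt) := {v | sp G v ≤ 1} with hS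
  have hunif : ∀ z ∈ S, ∃ γ : ℝ → Pt × Pt, γ 0 = z ∧
      ∀ t ∈ Ioo (-ε) ε, γ t ∈ S ∧ HasDerivAt γ (spray G (γ t)) t := by
    intro v hv
    obtain ⟨f, hf, hfC⟩ := hCf v.1
    have hg : f⁻¹ ∈ Γ := Γ.inv_mem hf
    have hfd : Differentiable ℝ (f : Pt → Pt) := (hΓ.smooth f hf).differentiable (by simp)
    have hgd : Differentiable ℝ (f⁻¹ : Equiv.Perm Pt) := (hΓ.smooth _ hg).differentiable (by simp)
    obtain ⟨γ, h0, hγ⟩ := hloc (act f v) ⟨hfC, by
      rw [sp_act G (hΓ.isom f hf)]; exact hv⟩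
    have hsp : ∀ t ∈ Ioo (-ε) ε, sp G (γ t) ≤ 1 := by
      intro t ht
      have h1 : ip G (γ t).1 (γ t).2 (γ t).2 = ip G (γ 0).1 (γ 0).2 (γ 0).2 := by
        have h2 := (convex_Ioo (-ε) ε).norm_image_sub_le_of_norm_hasDerivWithin_le (C := 0)
          (f := fun s => ip G (γ s).1 (γ s).2 (γ s).2) (f' := fun _ => (0 : ℝ))
          (fun s hs => (energy_deriv G (hγ s hs)).hasDerivWithinAt) (fun s _ => by simp)
          (show (0 : ℝ) ∈ Ioo (-ε) ε from ⟨by linarith, hε⟩) ht
        rw [zero_mul] at h2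
        exact sub_eq_zero.1 (norm_le_zero_iff.1 h2)
      have h3 : sp G (γ t) = sp G (γ 0) := by simp only [sp, h1]
      rw [h3, h0, sp_act G (hΓ.isom f hf)]
      exact hv
    refine ⟨fun t => act (f⁻¹ : Equiv.Perm Pt) (γ t), ?_, fun t ht => ⟨?_, ?_⟩⟩
    · simp only [h0, act]
      have hcomp : (f⁻¹ : Equiv.Perm Pt) ∘ (f : Pt → Pt) = id := by
        funext y
        exact Equiv.symm_apply_apply f y
      have hchain : (fderiv ℝ (f⁻¹ : Equiv.Perm Pt) (f v.1)).comp (fderiv ℝ f v.1) =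
          ContinuousLinearMap.id ℝ Pt := by
        rw [← fderiv_comp v.1 (hgd _) (hfd _), hcomp, fderiv_id]
      refine Prod.ext (Equiv.symm_apply_apply f v.1) ?_
      have := congrArg (fun A : Pt →L[ℝ] Pt => A v.2) hchain
      simpa using this
    · change sp G (act (f⁻¹ : Equiv.Perm Pt) (γ t)) ≤ 1
      rw [sp_act G (hΓ.isom _ hg)]
      exact hsp t ht
    · exact act_spray G (hΓ.smooth _ hg) (hΓ.isom _ hg) (hγ t ht)
  have hglob := global_of_uniform hsm S ε hε hunif
  have hex : ∀ v : Pt × Pt, ∃ γ : ℝ → Pt × Pt, γ 0 = v ∧ ∀ t, HasDerivAt γ (spray G (γ t)) t := by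
    intro v
    set c : ℝ := sp G v + 1 with hc
    have hsp0 : 0 ≤ sp G v := Real.sqrt_nonneg _
    have hc0 : 0 < c := by positivity
    have hmem : (v.1, c⁻¹ • v.2) ∈ S := by
      change sp G (v.1, c⁻¹ • v.2) ≤ 1
      have h1 : sp G (v.1, c⁻¹ • v.2) = c⁻¹ * sp G v := by
        simp only [sp]
        rw [Compl.ip_smul2, Real.sqrt_mul (by positivity), Real.sqrt_sq (by positivity)]
      rw [h1, inv_mul_le_iff₀ hc0]
      linarith
    obtain ⟨γ, h0, hγ⟩ := hglob _ hmem
    refine ⟨fun t => ((γ (c * t)).1, c • (γ (c * t)).2), ?_, fun t => ?_⟩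
    · simp only [mul_zero, h0, smul_smul, mul_inv_cancel₀ hc0.ne', one_smul]
    · have h1 : HasDerivAt (fun t => γ (c * t)) (c • spray G (γ (c * t))) t := by
        have h2 : HasDerivAt (fun t : ℝ => c * t) c t := by
          simpa using (hasDerivAt_id t).const_mul c
        exact (hγ (c * t)).2.scomp t h2
      set A : Pt × Pt →L[ℝ] Pt × Pt := (ContinuousLinearMap.fst ℝ Pt Pt).prod
        (c • ContinuousLinearMap.snd ℝ Pt Pt) with hA
      have h3 : HasDerivAt (fun t => A (γ (c * t))) (A (c • spray G (γ (c * t)))) t :=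
        A.hasFDerivAt.comp_hasDerivAt t h1
      have h4 : A (c • spray G (γ (c * t))) =
          spray G ((γ (c * t)).1, c • (γ (c * t)).2) := by
        refine Prod.ext ?_ ?_
        · simp [hA, spray]
        · simp only [hA, spray, Prod.smul_mk, ContinuousLinearMap.prod_apply,
            _root_.smul_apply, ContinuousLinearMap.coe_snd']
          rw [cV_smul, cV_symm G _ _ (c • _), cV_smul]
          simp only [smul_neg]
      rw [h4] at h3
      exact h3
  choose φ h0 hφ using hex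
  exact ⟨fun t v => φ v t, h0, fun z t => hφ z t⟩

end

end Pool.Agent.Work.MP_275abe_gt
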