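import Pool.Agent.Work.MP_275abe_gt.Levi

/-!
The curvature of the metric is the curvature of its frame. In coordinates: with A_i = p ip(∂_i, a) + q ip(∂_i, b), the
Levi-Civita formulas say ∂_i b_l = - Σ_j Γ^l_{ij} b_j + A_i a_l and ∂_i a_l = - Σ_j Γ^l_{ij} a_j - A_i b_l. Symmetry of second
derivatives gives Σ_j R^l_j b_j = dA a_l, Σ_j R^l_j a_j = - dA b_l, dA = ∂_0 A_1 - ∂_1 A_0, R^l_j the components of the curvature
operator of (∂_0, ∂_1). So R(∂_0, ∂_1) ∂_1 = dA (β_1 a - α_1 b), and curv dt = dA (α_0 β_1 - α_1 β_0) = dA √dt. On the other hand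
p = A_0 a_0 + A_1 a_1, q = A_0 b_0 + A_1 b_1, so a(q) - b(p) = (a_0 b_1 - a_1 b_0) dA + p² + q².
-/

namespace Pool.Agent.Work.MP_275abe_gt

open MeasureTheory Set
open scoped ContDiff

noncomputable section

theorem cq_diff {f : Pt → ℝ} (hf : ContDiff ℝ ∞ f) : Differentiable ℝ f :=
  hf.differentiable (by simp)

theorem cq_mul {f g : Pt → ℝ} (hf : ContDiff ℝ ∞ f) (hg : ContDiff ℝ ∞ g) (i : Fin 2) (x : Pt) :
    pd i (fun y => f y * g y) x = pd i f x * g x + f x * pd i g x := by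
  unfold pd
  rw [fderiv_fun_mul (cq_diff hf x) (cq_diff hg x)]
  simp
  ring

theorem cq_add {f g : Pt → ℝ} (hf : ContDiff ℝ ∞ f) (hg : ContDiff ℝ ∞ g) (i : Fin 2) (x : Pt) :
    pd i (fun y => f y + g y) x = pd i f x + pd i g x := by
  unfold pd
  rw [fderiv_fun_add (cq_diff hf x) (cq_diff hg x)]
  simp

theorem cq_neg {f : Pt → ℝ} (i : Fin 2) (x : Pt) :
    pd i (fun y => -f y) x = -pd i f x := by
  unfold pd
  rw [fderiv_fun_neg]
  simp

theorem cq_comm {f : Pt → ℝ} (hf : ContDiff ℝ ∞ f) (x : Pt) :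
    pd 0 (pd 1 f) x = pd 1 (pd 0 f) x := by
  have h2 : ContDiff ℝ ∞ (fderiv ℝ f) := hf.fderiv_right (by simp)
  have hd : DifferentiableAt ℝ (fderiv ℝ f) x := h2.differentiable (by simp) x
  have hs : IsSymmSndFDerivAt ℝ f x := hf.contDiffAt.isSymmSndFDerivAt
    (by simp only [minSmoothness_of_isRCLikeNormedField]; exact WithTop.coe_le_coe.2 le_top)
  have key : ∀ i j : Fin 2, pd i (pd j f) x =
      fderiv ℝ (fderiv ℝ f) x (Pi.single i 1) (Pi.single j 1) := by
    intro i j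
    show fderiv ℝ (fun y => fderiv ℝ f y (Pi.single j 1)) x (Pi.single i 1) = _
    rw [fderiv_clm_apply hd (differentiableAt_const _)]
    simp
  rw [key, key]
  exact hs _ _

/-- Components of the curvature operator. -/
def cq_R (G : Met) (l j : Fin 2) (x : Pt) : ℝ :=
  pd 0 (chr G l 1 j) x - pd 1 (chr G l 0 j) x +
    ∑ m, (chr G l 0 m x * chr G m 1 j x - chr G l 1 m x * chr G m 0 j x)

/-- The connection form in coordinates. -/
def cq_A (G : Met) (i : Fin 2) (y : Pt) : ℝ :=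
  (frOf G).p y * ip G y (Pi.single i 1) (fa G y) + (frOf G).q y * ip G y (Pi.single i 1) (fb G y)

theorem cq_ip_smooth (G : Met) (u : Pt) {w : Pt → Pt} (hw : ContDiff ℝ ∞ w) :
    ContDiff ℝ ∞ fun y => ip G y u (w y) :=
  (ip_smooth G).comp (contDiff_id.prodMk (contDiff_const.prodMk hw))

theorem cq_A_smooth (G : Met) (i : Fin 2) : ContDiff ℝ ∞ (cq_A G i) :=
  ((frOf G).hp.mul (cq_ip_smooth G _ (fa_smooth G))).add
    ((frOf G).hq.mul (cq_ip_smooth G _ (fb_smooth G)))

theorem cq_comp {w : Pt → Pt} (hw : ContDiff ℝ ∞ w) (l : Fin 2) : ContDiff ℝ ∞ fun y => w y l :=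
  contDiff_pi.1 hw l

theorem cq_fderiv {w : Pt → Pt} (hw : ContDiff ℝ ∞ w) (i l : Fin 2) (x : Pt) :
    pd i (fun y => w y l) x = fderiv ℝ w x (Pi.single i 1) l := by
  unfold pd
  have h : HasFDerivAt w (fderiv ℝ w x) x := (hw.differentiable (by simp) x).hasFDerivAt
  have h2 := (hasFDerivAt_pi'.1 h) l
  rw [h2.fderiv]
  rfl

theorem cq_cV (G : Met) (x : Pt) (i l : Fin 2) (w : Pt) :
    cV G x (Pi.single i 1) w l = ∑ j, chr G l i j x * w j := by
  unfold cV
  fin_cases i <;> simp [Fin.sum_univ_two]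

theorem cq_a (G : Met) (i l : Fin 2) (x : Pt) : pd i (fun y => fa G y l) x =
    -(chr G l i 0 x * fa G x 0 + chr G l i 1 x * fa G x 1) - cq_A G i x * fb G x l := by
  rw [cq_fderiv (fa_smooth G)]
  have h := congrFun (nabla_a G x (Pi.single i 1)) l
  simp only [Pi.add_apply, Pi.smul_apply, smul_eq_mul, cq_cV, Fin.sum_univ_two] at h
  unfold cq_A
  linarith

theorem cq_b (G : Met) (i l : Fin 2) (x : Pt) : pd i (fun y => fb G y l) x =
    -(chr G l i 0 x * fb G x 0 + chr G l i 1 x * fb G x 1) + cq_A G i x * fa G x l := by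
  rw [cq_fderiv (fb_smooth G)]
  have h := congrFun (nabla_b G x (Pi.single i 1)) l
  simp only [Pi.add_apply, Pi.smul_apply, smul_eq_mul, cq_cV, Fin.sum_univ_two] at h
  unfold cq_A
  linarith

theorem cq_Rb (G : Met) (l : Fin 2) (x : Pt) :
    cq_R G l 0 x * fb G x 0 + cq_R G l 1 x * fb G x 1 =
      (pd 0 (cq_A G 1) x - pd 1 (cq_A G 0) x) * fa G x l := by
  have hb : ∀ l, ContDiff ℝ ∞ fun y => fb G y l := fun l => cq_comp (fb_smooth G) l
  have ha : ∀ l, ContDiff ℝ ∞ fun y => fa G y l := fun l => cq_comp (fa_smooth G) l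
  have hc := chr_smooth G
  have hA := cq_A_smooth G
  have e : ∀ i k : Fin 2, pd k (pd i (fun y => fb G y l)) x =
      -(pd k (chr G l i 0) x * fb G x 0 + chr G l i 0 x * pd k (fun y => fb G y 0) x +
        (pd k (chr G l i 1) x * fb G x 1 + chr G l i 1 x * pd k (fun y => fb G y 1) x)) +
        (pd k (cq_A G i) x * fa G x l + cq_A G i x * pd k (fun y => fa G y l) x) := by
    intro i k
    have h1 : pd i (fun y => fb G y l) = fun x =>
      -(chr G l i 0 x * fb G x 0 + chr G l i 1 x * fb G x 1) + cq_A G i x * fa G x l :=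
      funext fun x => cq_b G i l x
    rw [h1, cq_add ((((hc l i 0).mul (hb 0)).add ((hc l i 1).mul (hb 1))).neg)
      ((hA i).mul (ha l)), cq_neg, cq_add ((hc l i 0).mul (hb 0)) ((hc l i 1).mul (hb 1)),
      cq_mul (hc l i 0) (hb 0), cq_mul (hc l i 1) (hb 1), cq_mul (hA i) (ha l)]
  have hs := cq_comm (hb l) x
  rw [e 1 0, e 0 1] at hs
  simp only [cq_b, cq_a] at hs
  unfold cq_R
  simp only [Fin.sum_univ_two]
  linear_combination -hs

theorem cq_Ra (G : Met) (l : Fin 2) (x : Pt) :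
    cq_R G l 0 x * fa G x 0 + cq_R G l 1 x * fa G x 1 =
      -((pd 0 (cq_A G 1) x - pd 1 (cq_A G 0) x) * fb G x l) := by
  have hb : ∀ l, ContDiff ℝ ∞ fun y => fb G y l := fun l => cq_comp (fb_smooth G) l
  have ha : ∀ l, ContDiff ℝ ∞ fun y => fa G y l := fun l => cq_comp (fa_smooth G) l
  have hc := chr_smooth G
  have hA := cq_A_smooth G
  have e : ∀ i k : Fin 2, pd k (pd i (fun y => fa G y l)) x =
      -(pd k (chr G l i 0) x * fa G x 0 + chr G l i 0 x * pd k (fun y => fa G y 0) x +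
        (pd k (chr G l i 1) x * fa G x 1 + chr G l i 1 x * pd k (fun y => fa G y 1) x)) +
        -(pd k (cq_A G i) x * fb G x l + cq_A G i x * pd k (fun y => fb G y l) x) := by
    intro i k
    have h1 : pd i (fun y => fa G y l) = fun x =>
      -(chr G l i 0 x * fa G x 0 + chr G l i 1 x * fa G x 1) + -(cq_A G i x * fb G x l) :=
      funext fun x => by rw [cq_a G i l x]; ring
    rw [h1, cq_add ((((hc l i 0).mul (ha 0)).add ((hc l i 1).mul (ha 1))).neg)
      ((hA i).mul (hb l)).neg, cq_neg, cq_neg,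
      cq_add ((hc l i 0).mul (ha 0)) ((hc l i 1).mul (ha 1)),
      cq_mul (hc l i 0) (ha 0), cq_mul (hc l i 1) (ha 1), cq_mul (hA i) (hb l)]
  have hs := cq_comm (ha l) x
  rw [e 1 0, e 0 1] at hs
  simp only [cq_b, cq_a] at hs
  unfold cq_R
  simp only [Fin.sum_univ_two]
  linear_combination -hs

theorem cq_ip_vec (G : Met) (y u w : Pt) :
    ip G y u w = u 0 * ip G y (Pi.single 0 1) w + u 1 * ip G y (Pi.single 1 1) w := by
  unfold ip
  simp [Fin.sum_univ_two]
  ring

theorem cq_p (G : Met) (y : Pt) :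
    (frOf G).p y = cq_A G 0 y * fa G y 0 + cq_A G 1 y * fa G y 1 := by
  have h1 := cq_ip_vec G y (fa G y) (fa G y)
  have h2 := cq_ip_vec G y (fa G y) (fb G y)
  rw [ip_aa] at h1
  rw [ip_ab] at h2
  unfold cq_A
  linear_combination (frOf G).p y * h1 + (frOf G).q y * h2

theorem cq_q (G : Met) (y : Pt) :
    (frOf G).q y = cq_A G 0 y * fb G y 0 + cq_A G 1 y * fb G y 1 := by
  have h1 := cq_ip_vec G y (fb G y) (fa G y)
  have h2 := cq_ip_vec G y (fb G y) (fb G y)
  rw [ip_symm, ip_ab] at h1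
  rw [ip_bb] at h2
  unfold cq_A
  linear_combination (frOf G).p y * h1 + (frOf G).q y * h2

theorem curv_eq (G : Met) (x : Pt) : curv G x = (frOf G).K x := by
  have hb : ∀ l, ContDiff ℝ ∞ fun y => fb G y l := fun l => cq_comp (fb_smooth G) l
  have ha : ∀ l, ContDiff ℝ ∞ fun y => fa G y l := fun l => cq_comp (fa_smooth G) l
  have hA := cq_A_smooth G
  set dA := pd 0 (cq_A G 1) x - pd 1 (cq_A G 0) x with hdA
  -- the right side
  have hp : ∀ i, pd i (frOf G).p x = pd i (cq_A G 0) x * fa G x 0 +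
      cq_A G 0 x * pd i (fun y => fa G y 0) x + (pd i (cq_A G 1) x * fa G x 1 +
      cq_A G 1 x * pd i (fun y => fa G y 1) x) := by
    intro i
    have h1 : (frOf G).p = fun y => cq_A G 0 y * fa G y 0 + cq_A G 1 y * fa G y 1 :=
      funext (cq_p G)
    rw [h1, cq_add ((hA 0).mul (ha 0)) ((hA 1).mul (ha 1)), cq_mul (hA 0) (ha 0),
      cq_mul (hA 1) (ha 1)]
  have hq : ∀ i, pd i (frOf G).q x = pd i (cq_A G 0) x * fb G x 0 +
      cq_A G 0 x * pd i (fun y => fb G y 0) x + (pd i (cq_A G 1) x * fb G x 1 +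
      cq_A G 1 x * pd i (fun y => fb G y 1) x) := by
    intro i
    have h1 : (frOf G).q = fun y => cq_A G 0 y * fb G y 0 + cq_A G 1 y * fb G y 1 :=
      funext (cq_q G)
    rw [h1, cq_add ((hA 0).mul (hb 0)) ((hA 1).mul (hb 1)), cq_mul (hA 0) (hb 0),
      cq_mul (hA 1) (hb 1)]
  have hbr : ∀ l, fa G x 0 * pd 0 (fun y => fb G y l) x + fa G x 1 * pd 1 (fun y => fb G y l) x -
      (fb G x 0 * pd 0 (fun y => fa G y l) x + fb G x 1 * pd 1 (fun y => fa G y l) x) =
      (frOf G).p x * fa G x l + (frOf G).q x * fb G x l := by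
    intro l
    have h := congrFun ((frOf G).br x) l
    have e : ∀ (w : Pt → Pt) (hw : ContDiff ℝ ∞ w) (u : Pt), fderiv ℝ w x u l =
        u 0 * pd 0 (fun y => w y l) x + u 1 * pd 1 (fun y => w y l) x := by
      intro w hw u
      rw [cq_fderiv hw, cq_fderiv hw]
      have hu : u = u 0 • (Pi.single 0 1 : Pt) + u 1 • (Pi.single 1 1 : Pt) := by
        ext i; fin_cases i <;> simp
      conv_lhs => rw [hu]
      rw [map_add, map_smul, map_smul]
      simp
    have h1 : (frOf G).a = fa G := rfl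
    have h2 : (frOf G).b = fb G := rfl
    simp only [Pi.sub_apply, Pi.add_apply, Pi.smul_apply, smul_eq_mul, h1, h2] at h
    rw [e _ (fb_smooth G), e _ (fa_smooth G)] at h
    linarith
  have hK : (frOf G).K x = (fa G x 0 * fb G x 1 - fa G x 1 * fb G x 0) * dA := by
    have h1 : (frOf G).a = fa G := rfl
    have h2 : (frOf G).b = fb G := rfl
    unfold Fr.K
    rw [fderiv_eq_pd, fderiv_eq_pd, h1, h2]
    simp only [Fin.sum_univ_two]
    rw [hp 0, hp 1, hq 0, hq 1]
    have b0 := hbr 0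
    have b1 := hbr 1
    have p0 := cq_p G x
    have q0 := cq_q G x
    rw [hdA]
    linear_combination cq_A G 0 x * b0 + cq_A G 1 x * b1 - (frOf G).p x * p0 - (frOf G).q x * q0
  -- the left side
  have hdt := dt_pos G x
  have hrie : ∀ l, rie G l x = cq_R G l 1 x := fun l => rfl
  have hE : (Pi.single 1 1 : Pt) = ip G x (Pi.single 1 1) (fa G x) • fa G x +
      ip G x (Pi.single 1 1) (fb G x) • fb G x := ip_expand G x _
  have hE0 := congrFun hE 0
  have hE1 := congrFun hE 1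
  have hF : (Pi.single 0 1 : Pt) = ip G x (Pi.single 0 1) (fa G x) • fa G x +
      ip G x (Pi.single 0 1) (fb G x) • fb G x := ip_expand G x _
  have hF0 := congrFun hF 0
  have hF1 := congrFun hF 1
  simp only [Pi.add_apply, Pi.smul_apply, smul_eq_mul, Pi.single_eq_same, ne_eq,
    one_ne_zero, not_false_eq_true, Pi.single_eq_of_ne, zero_ne_one] at hE0 hE1 hF0 hF1
  set α0 := ip G x (Pi.single 0 1) (fa G x) with hα0
  set β0 := ip G x (Pi.single 0 1) (fb G x) with hβ0
  set α1 := ip G x (Pi.single 1 1) (fa G x) with hα1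
  set β1 := ip G x (Pi.single 1 1) (fb G x) with hβ1
  have hR : ∀ l, cq_R G l 1 x = dA * (β1 * fa G x l - α1 * fb G x l) := by
    intro l
    have r1 := cq_Ra G l x
    have r2 := cq_Rb G l x
    have : cq_R G l 1 x = cq_R G l 0 x * (α1 * fa G x 0 + β1 * fb G x 0) +
        cq_R G l 1 x * (α1 * fa G x 1 + β1 * fb G x 1) := by
      rw [← hE0, ← hE1]; ring
    rw [this]
    linear_combination α1 * r1 + β1 * r2
  have hα0' : α0 = G.g 0 0 x * fa G x 0 + G.g 0 1 x * fa G x 1 := by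
    rw [hα0]; unfold ip; simp [Fin.sum_univ_two]
  have hβ0' : β0 = G.g 0 0 x * fb G x 0 + G.g 0 1 x * fb G x 1 := by
    rw [hβ0]; unfold ip; simp [Fin.sum_univ_two]
  have hleft : (∑ l, G.g 0 l x * rie G l x) = dA * (α0 * β1 - α1 * β0) := by
    rw [Fin.sum_univ_two, hrie, hrie, hR, hR, hα0', hβ0']
    ring
  have hdet := ab_det G x
  have hΔ : (α0 * β1 - α1 * β0) * (fa G x 0 * fb G x 1 - fa G x 1 * fb G x 0) = 1 := by
    have : (1 : ℝ) = 1 * 1 - 0 * 0 := by norm_num
    rw [this]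
    nth_rewrite 1 [hF0]
    nth_rewrite 1 [hE1]
    nth_rewrite 1 [hF1]
    nth_rewrite 1 [hE0]
    ring
  have hsq : 0 < √(dt G x) := Real.sqrt_pos.2 hdt
  have hΔ2 : α0 * β1 - α1 * β0 = √(dt G x) := by
    rw [hdet] at hΔ
    field_simp at hΔ
    linarith
  rw [curv, hleft, hK, hdet, hΔ2]
  have h3 : dt G x = √(dt G x) * √(dt G x) := (Real.mul_self_sqrt hdt.le).symm
  rw [div_eq_iff hdt.ne']
  nth_rewrite 3 [h3]
  field_simp

end

end Pool.Agent.Work.MP_275abe_gt
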