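import Pool.Agent.Work.MP_275abe_gt.MetB

/-!
Isometries preserve the Christoffel connection. Let B(u, w) = D²f(u, w) + Γ_{f x}(Df u, Df w) - Df Γ_x(u, w), symmetric
(second derivatives of a smooth map are symmetric, cV_symm). Differentiating ip (f x) (Df u) (Df w) = ip x u w in the
direction z (hasDerivAt_ip along x + s z, on both sides): ip(B(z, u), Df w) + ip(Df u, B(z, w)) = 0. So
S(z, u, w) = ip(B(z, u), Df w) is symmetric in z, u and antisymmetric in u, w, hence 0; Df is injective (ip_pos), so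
bijective, and B = 0. act_spray follows.
-/

namespace Pool.Agent.Work.MP_275abe_gt

open MeasureTheory Set
open scoped ContDiff

noncomputable section

private theorem hasDerivAt_line (x z : Pt) : HasDerivAt (fun s : ℝ => x + s • z) z 0 := by
  have h := ((hasDerivAt_id (0 : ℝ)).smul_const z).const_add x
  rwa [one_smul] at h

private theorem fd_symm {f : Pt → Pt} (hf : ContDiff ℝ ∞ f) (x u w : Pt) :
    fderiv ℝ (fun y => fderiv ℝ f y w) x u = fderiv ℝ (fun y => fderiv ℝ f y u) x w := by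
  have hd : DifferentiableAt ℝ (fderiv ℝ f) x :=
    (hf.fderiv_right (m := ∞) (by simp)).differentiable (by simp) x
  have h : ∀ a b, fderiv ℝ (fun y => fderiv ℝ f y a) x b = fderiv ℝ (fderiv ℝ f) x b a := by
    intro a b
    have := (hd.hasFDerivAt.clm_apply (hasFDerivAt_const a x)).fderiv
    rw [this]
    simp
  rw [h, h]
  have h1 : ContDiffAt ℝ 2 f x := (contDiff_infty.1 hf 2).contDiffAt
  exact (h1.isSymmSndFDerivAt (by simp)).eq u w

private theorem hasDerivAt_df {f : Pt → Pt} (hf : ContDiff ℝ ∞ f) (x z u : Pt) :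
    HasDerivAt (fun s : ℝ => fderiv ℝ f (x + s • z) u) (fderiv ℝ (fun y => fderiv ℝ f y u) x z) 0 := by
  have hd : Differentiable ℝ (fun y => fderiv ℝ f y u) :=
    ((hf.fderiv_right (m := ∞) (by simp)).clm_apply contDiff_const).differentiable (by simp)
  have h1 : HasFDerivAt (fun y => fderiv ℝ f y u) (fderiv ℝ (fun y => fderiv ℝ f y u) x)
      (x + (0 : ℝ) • z) := by
    rw [zero_smul, add_zero]
    exact (hd x).hasFDerivAt
  exact h1.comp_hasDerivAt 0 (hasDerivAt_line x z)

private theorem ip_add_right (G : Met) (x u w w' : Pt) :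
    ip G x u (w + w') = ip G x u w + ip G x u w' := by
  rw [ip_symm, ip_add, ip_symm G x w, ip_symm G x w']

private theorem ip_neg_left (G : Met) (x u w : Pt) : ip G x (-u) w = -ip G x u w := by
  rw [← neg_one_smul ℝ u, ip_smul]
  ring

private theorem key (G : Met) {f : Pt → Pt} (hf : ContDiff ℝ ∞ f)
    (hi : ∀ x u w, ip G (f x) (fderiv ℝ f x u) (fderiv ℝ f x w) = ip G x u w) (x z u w : Pt) :
    ip G (f x) (fderiv ℝ (fun y => fderiv ℝ f y u) x z + cV G (f x) (fderiv ℝ f x z) (fderiv ℝ f x u) -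
        fderiv ℝ f x (cV G x z u)) (fderiv ℝ f x w) +
      ip G (f x) (fderiv ℝ f x u) (fderiv ℝ (fun y => fderiv ℝ f y w) x z +
        cV G (f x) (fderiv ℝ f x z) (fderiv ℝ f x w) - fderiv ℝ f x (cV G x z w)) = 0 := by
  have hl := hasDerivAt_line x z
  have hf1 : HasDerivAt (fun s : ℝ => f (x + s • z)) (fderiv ℝ f x z) 0 := by
    have h1 : HasFDerivAt f (fderiv ℝ f x) (x + (0 : ℝ) • z) := by
      rw [zero_smul, add_zero]
      exact (hf.differentiable (by simp) x).hasFDerivAt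
    exact h1.comp_hasDerivAt 0 hl
  have h1 := hasDerivAt_ip G hf1 (hasDerivAt_df hf x z u) (hasDerivAt_df hf x z w)
  have h2 := hasDerivAt_ip G hl (hasDerivAt_const (0 : ℝ) u) (hasDerivAt_const (0 : ℝ) w)
  have h3 : (fun s : ℝ => ip G (f (x + s • z)) (fderiv ℝ f (x + s • z) u) (fderiv ℝ f (x + s • z) w)) =
      fun s : ℝ => ip G (x + s • z) u w := funext fun s => hi _ _ _
  rw [h3] at h1
  have h4 := h1.unique h2
  simp only [zero_smul, add_zero, zero_add] at h4
  rw [← hi x (cV G x z u) w, ← hi x u (cV G x z w)] at h4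
  rw [sub_eq_add_neg, sub_eq_add_neg, ip_add G (f x) _ (-fderiv ℝ f x (cV G x z u)), ip_add_right,
    ip_neg_left, ip_symm G (f x) (fderiv ℝ f x u) (-fderiv ℝ f x (cV G x z w)), ip_neg_left,
    ip_symm G (f x) (fderiv ℝ f x (cV G x z w))]
  linarith

theorem iso_chr (G : Met) {f : Pt → Pt} (hf : ContDiff ℝ ∞ f)
    (hi : ∀ x u w, ip G (f x) (fderiv ℝ f x u) (fderiv ℝ f x w) = ip G x u w) (x u w : Pt) :
    fderiv ℝ (fun y => fderiv ℝ f y w) x u + cV G (f x) (fderiv ℝ f x u) (fderiv ℝ f x w) =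
      fderiv ℝ f x (cV G x u w) := by
  set B : Pt → Pt → Pt := fun z u => fderiv ℝ (fun y => fderiv ℝ f y u) x z +
    cV G (f x) (fderiv ℝ f x z) (fderiv ℝ f x u) - fderiv ℝ f x (cV G x z u) with hB
  have hBs : ∀ z u, B z u = B u z := by
    intro z u
    simp only [hB]
    rw [fd_symm hf, cV_symm G (f x), cV_symm G x]
  have hk : ∀ z u w, ip G (f x) (B z u) (fderiv ℝ f x w) = -ip G (f x) (B z w) (fderiv ℝ f x u) := by
    intro z u w
    have h := key G hf hi x z u w
    rw [ip_symm G (f x) (fderiv ℝ f x u)] at h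
    linarith
  have h0 : ∀ z u w, ip G (f x) (B z u) (fderiv ℝ f x w) = 0 := by
    intro z u w
    have h1 := hk z u w
    have h2 := hk w z u
    have h3 := hk u w z
    rw [hBs w z] at h2
    rw [hBs u w, hBs u z] at h3
    linarith
  have hinj : Function.Injective (fderiv ℝ f x) := by
    rw [injective_iff_map_eq_zero]
    intro a ha
    by_contra h
    have h1 := ip_pos G x a h
    rw [← hi x a a, ha] at h1
    simp [ip] at h1
  have hsurj : Function.Surjective (fderiv ℝ f x) :=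
    (LinearMap.injective_iff_surjective (f := (fderiv ℝ f x).toLinearMap)).1 hinj
  have h4 : B u w = 0 := by
    by_contra h
    obtain ⟨c, hc⟩ := hsurj (B u w)
    have h1 := ip_pos G (f x) _ h
    have h2 := h0 u w c
    rw [hc] at h2
    linarith
  exact sub_eq_zero.1 h4

theorem act_spray (G : Met) {f : Pt → Pt} (hf : ContDiff ℝ ∞ f)
    (hi : ∀ x u w, ip G (f x) (fderiv ℝ f x u) (fderiv ℝ f x w) = ip G x u w) {z : ℝ → Pt × Pt}
    {t : ℝ} (hz : HasDerivAt z (spray G (z t)) t) :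
    HasDerivAt (fun s => act f (z s)) (spray G (act f (z t))) t := by
  have hz1 : HasDerivAt (fun s => (z s).1) (z t).2 t :=
    (hasFDerivAt_fst (𝕜 := ℝ) (E := Pt) (F := Pt)).comp_hasDerivAt t hz
  have hz2 : HasDerivAt (fun s => (z s).2) (-cV G (z t).1 (z t).2 (z t).2) t :=
    (hasFDerivAt_snd (𝕜 := ℝ) (E := Pt) (F := Pt)).comp_hasDerivAt t hz
  have h1 : HasDerivAt (fun s => f (z s).1) (fderiv ℝ f (z t).1 (z t).2) t :=
    (hf.differentiable (by simp) _).hasFDerivAt.comp_hasDerivAt t hz1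
  have hd : DifferentiableAt ℝ (fderiv ℝ f) (z t).1 :=
    (hf.fderiv_right (m := ∞) (by simp)).differentiable (by simp) _
  have h2 : HasDerivAt (fun s => fderiv ℝ f (z s).1) (fderiv ℝ (fderiv ℝ f) (z t).1 (z t).2) t :=
    hd.hasFDerivAt.comp_hasDerivAt t hz1
  have h3 := h2.clm_apply hz2
  have h4 : fderiv ℝ (fderiv ℝ f) (z t).1 (z t).2 (z t).2 =
      fderiv ℝ (fun y => fderiv ℝ f y (z t).2) (z t).1 (z t).2 := by
    have := (hd.hasFDerivAt.clm_apply (hasFDerivAt_const (z t).2 (z t).1)).fderiv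
    rw [this]
    simp
  have h5 := iso_chr G hf hi (z t).1 (z t).2 (z t).2
  have h6 : fderiv ℝ (fderiv ℝ f) (z t).1 (z t).2 (z t).2 +
      fderiv ℝ f (z t).1 (-cV G (z t).1 (z t).2 (z t).2) =
      -cV G (f (z t).1) (fderiv ℝ f (z t).1 (z t).2) (fderiv ℝ f (z t).1 (z t).2) := by
    rw [h4, map_neg, ← h5]
    abel
  rw [h6] at h3
  exact h1.prodMk h3

theorem sp_act (G : Met) {f : Pt → Pt}
    (hi : ∀ x u w, ip G (f x) (fderiv ℝ f x u) (fderiv ℝ f x w) = ip G x u w) (v : Pt × Pt) :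
    sp G (act f v) = sp G v := by
  unfold sp act
  rw [hi]

end

end Pool.Agent.Work.MP_275abe_gt
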