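import Pool.Agent.Work.MP_275abe_gt.FrOf

/-!
Rotations of tangent vectors (in the orthonormal frame: jj (r unitVec θ) = r unitVec (θ + π/2)).
-/

namespace Pool.Agent.Work.MP_275abe_gt

open MeasureTheory Set
open scoped ContDiff

noncomputable section

private theorem ra_ipa (G : Met) (x : Pt) (r θ : ℝ) :
    ip G x (r • unitVec G x θ) (fa G x) = r * Real.cos θ := by
  rw [unitVec, ip_smul, ip_add, ip_smul, ip_smul, ip_aa, ip_symm G x (fb G x), ip_ab]
  ring

private theorem ra_ipb (G : Met) (x : Pt) (r θ : ℝ) :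
    ip G x (r • unitVec G x θ) (fb G x) = r * Real.sin θ := by
  rw [unitVec, ip_smul, ip_add, ip_smul, ip_smul, ip_bb, ip_ab]
  ring

theorem rot_dir (G : Met) (α : ℝ) (x : Pt) (r θ : ℝ) :
    rot G α (x, r • unitVec G x θ) = (x, r • unitVec G x (θ + α)) := by
  refine Prod.ext rfl ?_
  simp only [rot, jj]
  rw [ra_ipa, ra_ipb, unitVec, unitVec, Real.cos_add, Real.sin_add]
  funext i
  simp only [Pi.add_apply, Pi.sub_apply, Pi.smul_apply, smul_eq_mul]
  ring

theorem rot_rot (G : Met) (α β : ℝ) (v : Pt × Pt) : rot G α (rot G β v) = rot G (α + β) v := by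
  obtain ⟨θ, hθ⟩ := exists_dir G v
  have h : v = (v.1, sp G v • unitVec G v.1 θ) := Prod.ext rfl hθ
  rw [h]
  simp only [rot_dir]
  rw [add_comm α β, add_assoc]

theorem rot_zero (G : Met) (v : Pt × Pt) : rot G 0 v = v := by
  simp [rot]

theorem sp_smul (G : Met) (c : ℝ) (x ξ : Pt) : sp G (x, c • ξ) = |c| * sp G (x, ξ) := by
  simp only [sp]
  rw [ip_smul, ip_symm G x ξ (c • ξ), ip_smul, ← mul_assoc, Real.sqrt_mul (mul_self_nonneg c),
    Real.sqrt_mul_self_eq_abs]

private theorem ra_sp_dir (G : Met) (x : Pt) (θ : ℝ) : sp G (x, unitVec G x θ) = 1 := by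
  simp only [sp]
  rw [ip_dir, Real.sqrt_one]

theorem sp_rot (G : Met) (α : ℝ) (v : Pt × Pt) : sp G (rot G α v) = sp G v := by
  obtain ⟨θ, hθ⟩ := exists_dir G v
  have h : v = (v.1, sp G v • unitVec G v.1 θ) := Prod.ext rfl hθ
  rw [h]
  simp only [rot_dir]
  rw [sp_smul, sp_smul, ra_sp_dir, ra_sp_dir]

theorem rot_smul (G : Met) (α c : ℝ) (v : Pt × Pt) :
    rot G α (v.1, c • v.2) = ((rot G α v).1, c • (rot G α v).2) := by
  refine Prod.ext rfl ?_
  simp only [rot, jj]
  rw [ip_smul, ip_smul]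
  funext i
  simp only [Pi.add_apply, Pi.sub_apply, Pi.smul_apply, smul_eq_mul]
  ring

theorem rot_cont (G : Met) : Continuous fun y : ℝ × (Pt × Pt) => rot G y.1 y.2 := by
  have ha := (fa_smooth G).continuous
  have hb := (fb_smooth G).continuous
  have hip := (ip_smooth G).continuous
  have ha' : Continuous fun y : ℝ × (Pt × Pt) => fa G y.2.1 :=
    ha.comp (continuous_fst.comp continuous_snd)
  have hb' : Continuous fun y : ℝ × (Pt × Pt) => fb G y.2.1 :=
    hb.comp (continuous_fst.comp continuous_snd)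
  have h1 : Continuous fun y : ℝ × (Pt × Pt) => ip G y.2.1 y.2.2 (fa G y.2.1) :=
    hip.comp ((continuous_fst.comp continuous_snd).prodMk
      ((continuous_snd.comp continuous_snd).prodMk ha'))
  have h2 : Continuous fun y : ℝ × (Pt × Pt) => ip G y.2.1 y.2.2 (fb G y.2.1) :=
    hip.comp ((continuous_fst.comp continuous_snd).prodMk
      ((continuous_snd.comp continuous_snd).prodMk hb'))
  have hj : Continuous fun y : ℝ × (Pt × Pt) => jj G y.2.1 y.2.2 := by
    unfold jj
    exact (h1.smul hb').sub (h2.smul ha')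
  unfold rot
  exact (continuous_fst.comp continuous_snd).prodMk
    (((Real.continuous_cos.comp continuous_fst).smul (continuous_snd.comp continuous_snd)).add
      ((Real.continuous_sin.comp continuous_fst).smul hj))

theorem sp_cont (G : Met) : Continuous (sp G) := by
  have hip := (ip_smooth G).continuous
  unfold sp
  exact Real.continuous_sqrt.comp (hip.comp (continuous_fst.prodMk (continuous_snd.prodMk continuous_snd)))

theorem sp_pos (G : Met) (v : Pt × Pt) (hv : v.2 ≠ 0) : 0 < sp G v :=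
  Real.sqrt_pos.2 (ip_pos G v.1 v.2 hv)

end

end Pool.Agent.Work.MP_275abe_gt
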