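import Pool.Agent.Work.MP_275abe_gt.GeoRel
import Pool.Agent.Work.MP_275abe_gt.RotA
import Pool.Agent.Work.MP_275abe_gt.IsoA

/-!
Equivariance under Γ. act f is smooth; act (f g) = act f ∘ act g (chain rule). phi_act: act_spray and uniqueness.
rot_act: a linear isometry of oriented planes commutes with the left turn jj: for u ≠ 0, jj u is the unique vector with
ip(jj u, u) = 0, ip(jj u, jj u) = ip(u, u) and positive determinant of (u, jj u); the determinant of (Df u, Df w) is
det Df times that of (u, w).
-/

namespace Pool.Agent.Work.MP_275abe_gt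

open MeasureTheory Set
open scoped ContDiff

noncomputable section

theorem act_cont {f : Pt → Pt} (hf : ContDiff ℝ ∞ f) : Continuous (act f) := by
  have h1 : Continuous (fderiv ℝ f) := hf.continuous_fderiv (by simp)
  exact (hf.continuous.comp continuous_fst).prodMk ((h1.comp continuous_fst).clm_apply continuous_snd)

theorem act_mul {f g : Pt → Pt} (hf : ContDiff ℝ ∞ f) (hg : ContDiff ℝ ∞ g) (v : Pt × Pt) :
    act (f ∘ g) v = act f (act g v) := by
  unfold act
  rw [fderiv_comp _ (hf.differentiable (by simp) _) (hg.differentiable (by simp) _)]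
  rfl

theorem act_one (v : Pt × Pt) : act id v = v := by
  unfold act
  rw [fderiv_id]
  rfl

theorem phi_act {G : Met} {Γ : Subgroup (Equiv.Perm Pt)} (hΓ : IsClosedSurf G Γ)
    {φ : ℝ → Pt × Pt → Pt × Pt} (hφ : IsFlow (spray G) φ) (f : Equiv.Perm Pt) (hf : f ∈ Γ) (t : ℝ)
    (v : Pt × Pt) : φ t (act f v) = act f (φ t v) := by
  have h := flow_unique ((spray_smooth G).of_le (by exact_mod_cast le_top)) hφ
    (γ := fun t => act f (φ t v))
    (fun t => act_spray G (hΓ.smooth f hf) (hΓ.isom f hf) (hφ.2 v t)) t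
  rw [h, hφ.1]

private theorem ip_add_right' (G : Met) (x u w w' : Pt) :
    ip G x u (w + w') = ip G x u w + ip G x u w' := by
  rw [ip_symm, ip_add, ip_symm G x w, ip_symm G x w']

private theorem ip_smul_right' (G : Met) (x : Pt) (c : ℝ) (u w : Pt) :
    ip G x u (c • w) = c * ip G x u w := by
  rw [ip_symm, ip_smul, ip_symm]

private theorem ip_jj_self (G : Met) (x u : Pt) : ip G x (jj G x u) u = 0 := by
  unfold jj
  rw [sub_eq_add_neg, ← neg_smul, ip_add, ip_smul, ip_smul, ip_symm G x (fb G x),
    ip_symm G x (fa G x)]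
  ring

private theorem ip_jj_jj (G : Met) (x u : Pt) : ip G x (jj G x u) (jj G x u) = ip G x u u := by
  have h1 : ip G x (jj G x u) (fa G x) = -ip G x u (fb G x) := by
    unfold jj
    rw [sub_eq_add_neg, ← neg_smul, ip_add, ip_smul, ip_smul, ip_aa, ip_symm G x (fb G x), ip_ab]
    ring
  have h2 : ip G x (jj G x u) (fb G x) = ip G x u (fa G x) := by
    unfold jj
    rw [sub_eq_add_neg, ← neg_smul, ip_add, ip_smul, ip_smul, ip_bb, ip_ab]
    ring
  rw [ip_eq, h1, h2, ip_eq G x u u]
  ring

/-- the determinant of two vectors -/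
private def dd (u w : Pt) : ℝ := u 0 * w 1 - u 1 * w 0

private theorem dd_jj (G : Met) (x u : Pt) : dd u (jj G x u) = ip G x u u / √(dt G x) := by
  have h1 := ab_det G x
  have hu := ip_expand G x u
  have h2 : dd u (jj G x u) = (ip G x u (fa G x) ^ 2 + ip G x u (fb G x) ^ 2) *
      (fa G x 0 * fb G x 1 - fa G x 1 * fb G x 0) := by
    have e0 := congrFun hu 0
    have e1 := congrFun hu 1
    simp only [Pi.add_apply, Pi.smul_apply, smul_eq_mul] at e0 e1
    unfold dd jj
    simp only [Pi.sub_apply, Pi.smul_apply, smul_eq_mul]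
    generalize ip G x u (fa G x) = α at *
    generalize ip G x u (fb G x) = β at *
    rw [e0, e1]
    ring
  rw [h2, h1, ip_eq G x u u]
  ring

private theorem dd_map (L : Pt →L[ℝ] Pt) (u w : Pt) : dd (L u) (L w) = L.det * dd u w := by
  have hu : u = u 0 • Pi.single 0 1 + u 1 • Pi.single 1 1 := by
    funext i; fin_cases i <;> simp
  have hw : w = w 0 • Pi.single 0 1 + w 1 • Pi.single 1 1 := by
    funext i; fin_cases i <;> simp
  have hd : L.det = L (Pi.single 0 1) 0 * L (Pi.single 1 1) 1 -
      L (Pi.single 1 1) 0 * L (Pi.single 0 1) 1 := by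
    change LinearMap.det (L : Pt →ₗ[ℝ] Pt) = _
    rw [← LinearMap.det_toMatrix', Matrix.det_fin_two]
    simp [LinearMap.toMatrix'_apply]
  have e1 : L u = u 0 • L (Pi.single 0 1) + u 1 • L (Pi.single 1 1) := by
    conv_lhs => rw [hu]
    simp
  have e2 : L w = w 0 • L (Pi.single 0 1) + w 1 • L (Pi.single 1 1) := by
    conv_lhs => rw [hw]
    simp
  rw [hd, e1, e2]
  unfold dd
  simp only [Pi.add_apply, Pi.smul_apply, smul_eq_mul]
  ring

/-- the left turn is determined by its properties -/
private theorem jj_unique (G : Met) (x u w : Pt) (h1 : ip G x w u = 0)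
    (h2 : ip G x w w = ip G x u u) (h3 : 0 ≤ dd u w) : w = jj G x u := by
  by_cases hu : u = 0
  · subst hu
    have h4 : ip G x (0 : Pt) 0 = 0 := by simp [ip]
    rw [h4] at h2
    have hw : w = 0 := by
      by_contra hw
      exact (ip_pos G x w hw).ne' h2
    rw [hw]
    unfold jj
    have h5 : ∀ c, ip G x 0 c = 0 := fun c => by simp [ip]
    rw [h5, h5]
    simp
  · have hp := ip_pos G x u hu
    have hwe := ip_expand G x w
    have hue := ip_expand G x u
    rw [ip_eq] at h1
    rw [ip_eq G x w w, ip_eq G x u u] at h2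
    rw [ip_eq] at hp
    have hdet := ab_det G x
    have hdt : 0 < 1 / √(dt G x) := div_pos one_pos (Real.sqrt_pos.2 (dt_pos G x))
    have hdd : dd u w = (ip G x u (fa G x) * ip G x w (fb G x) -
        ip G x u (fb G x) * ip G x w (fa G x)) * (fa G x 0 * fb G x 1 - fa G x 1 * fb G x 0) := by
      have e0 := congrFun hue 0
      have e1 := congrFun hue 1
      have f0 := congrFun hwe 0
      have f1 := congrFun hwe 1
      simp only [Pi.add_apply, Pi.smul_apply, smul_eq_mul] at e0 e1 f0 f1
      unfold dd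
      generalize ip G x u (fa G x) = α at *
      generalize ip G x u (fb G x) = β at *
      generalize ip G x w (fa G x) = γ at *
      generalize ip G x w (fb G x) = δ at *
      rw [e0, e1, f0, f1]
      ring
    rw [hdd, hdet] at h3
    have h4 : 0 ≤ ip G x u (fa G x) * ip G x w (fb G x) -
        ip G x u (fb G x) * ip G x w (fa G x) := nonneg_of_mul_nonneg_left h3 hdt
    have key : ip G x w (fa G x) = -ip G x u (fb G x) ∧ ip G x w (fb G x) = ip G x u (fa G x) := by
      generalize ip G x u (fa G x) = α at *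
      generalize ip G x u (fb G x) = β at *
      generalize ip G x w (fa G x) = γ at *
      generalize ip G x w (fb G x) = δ at *
      have h5 : (α * δ - β * γ) ^ 2 = (α * α + β * β) ^ 2 := by
        have : (α * δ - β * γ) ^ 2 + (γ * α + δ * β) ^ 2 = (α * α + β * β) * (γ * γ + δ * δ) := by
          ring
        rw [h1, h2] at this
        linarith
      have h6 : α * δ - β * γ = α * α + β * β := by
        nlinarith [sq_nonneg (α * δ - β * γ + (α * α + β * β))]
      have h7 : (γ + β) ^ 2 + (δ - α) ^ 2 = 0 := by nlinarith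
      have h8 : γ + β = 0 := by nlinarith [sq_nonneg (γ + β), sq_nonneg (δ - α)]
      have h9 : δ - α = 0 := by nlinarith [sq_nonneg (γ + β), sq_nonneg (δ - α)]
      exact ⟨by linarith, by linarith⟩
    rw [hwe, key.1, key.2]
    unfold jj
    rw [neg_smul]
    abel

theorem rot_act {G : Met} {Γ : Subgroup (Equiv.Perm Pt)} (hΓ : IsClosedSurf G Γ)
    (f : Equiv.Perm Pt) (hf : f ∈ Γ) (α : ℝ) (v : Pt × Pt) :
    rot G α (act f v) = act f (rot G α v) := by
  have hi := hΓ.isom f hf
  have h1 : fderiv ℝ f v.1 (jj G v.1 v.2) = jj G (f v.1) (fderiv ℝ f v.1 v.2) := by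
    apply jj_unique
    · rw [hi, ip_jj_self]
    · rw [hi, hi, ip_jj_jj]
    · rw [dd_map, dd_jj]
      refine mul_nonneg (hΓ.orient f hf v.1).le (div_nonneg ?_ (Real.sqrt_nonneg _))
      by_cases hu : v.2 = 0
      · rw [hu]; simp [ip]
      · exact (ip_pos G v.1 _ hu).le
  unfold rot act
  simp only [map_add, map_smul]
  rw [h1]

end

end Pool.Agent.Work.MP_275abe_gt
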