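import Pool.Agent.Work.MP_275abe_gt.Base

/-!
Path lifting for a local diffeomorphism E of the plane, along a curve c, when the velocity of every lift is bounded by
len(s). Local lifts exist by the inverse function theorem (or by the ODE y' = DE(y)^(-1) c'(s), whose right side is C^1 in
y because E is C^2, and continuous in s). One way: on [-T, T] let R = 1 + T sup len and multiply the right side by a smooth
function of y which is 1 on the ball of radius R about y0 and has compact support; this field is bounded and Lipschitz in y, so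
Picard-Lindelof gives a solution on all of [-T, T]; as long as it stays in the ball E(y(s)) - c(s) has derivative 0 and |y'| <=
len, so |y(s) - y0| <= T sup len < R (first exit). Glue over T by uniqueness. The norm of R x R is the maximum norm.
-/

namespace Pool.Agent.Work.MP_275abe_gt

open MeasureTheory Set
open scoped ContDiff

noncomputable section

/-- First exit argument, forward in time. -/
lemma LiftC.exit_fwd {X : Type*} [NormedAddCommGroup X] [NormedSpace ℝ X] {α α' : ℝ → X} {b M R : ℝ}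
    (hM : 0 ≤ M) (hR : M * b < R) (hα : ∀ s ∈ Icc 0 b, HasDerivWithinAt α (α' s) (Icc 0 b) s)
    (hb : ∀ s ∈ Icc 0 b, (∀ u ∈ Icc 0 s, ‖α u - α 0‖ < R) → ‖α' s‖ ≤ M) :
    ∀ s ∈ Icc 0 b, ‖α s - α 0‖ ≤ M * s := by
  have hcont : ContinuousOn α (Icc 0 b) := fun s hs => (hα s hs).continuousWithinAt
  -- if the curve stays in the ball up to `x`, then the bound holds up to `x`
  have key : ∀ x ∈ Icc 0 b, (∀ u ∈ Ico 0 x, ‖α u - α 0‖ < R) →
      ∀ u ∈ Icc 0 x, ‖α u - α 0‖ ≤ M * u := by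
    intro x hx hu u hu'
    have h1 : ∀ y ∈ Icc 0 x, HasDerivWithinAt α (α' y) (Icc 0 x) y := fun y hy =>
      (hα y ⟨hy.1, hy.2.trans hx.2⟩).mono (Icc_subset_Icc le_rfl hx.2)
    have h2 : ∀ y ∈ Ico 0 x, ‖α' y‖ ≤ M := fun y hy =>
      hb y ⟨hy.1, hy.2.le.trans hx.2⟩ fun w hw => hu w ⟨hw.1, hw.2.trans_lt hy.2⟩
    have h3 := norm_image_sub_le_of_norm_deriv_le_segment' h1 h2 u hu'
    simpa using h3
  by_contra hcon
  push Not at hcon
  obtain ⟨s1, hs1, hs1'⟩ := hcon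
  set B : Set ℝ := {s | s ∈ Icc 0 b ∧ M * s < ‖α s - α 0‖} with hB
  have hBne : B.Nonempty := ⟨s1, hs1, hs1'⟩
  have hBb : BddBelow B := ⟨0, fun s hs => hs.1.1⟩
  set x := sInf B with hx
  have hx0 : 0 ≤ x := le_csInf hBne fun s hs => hs.1.1
  have hxs1 : x ≤ s1 := csInf_le hBb ⟨hs1, hs1'⟩
  have hxb : x ≤ b := hxs1.trans hs1.2
  have hlow : ∀ u ∈ Ico 0 x, ‖α u - α 0‖ ≤ M * u := by
    intro u hu
    by_contra hc
    push Not at hc
    exact absurd (csInf_le hBb ⟨⟨hu.1, hu.2.le.trans hxb⟩, hc⟩) (not_le.2 hu.2)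
  have hb0 : 0 ≤ b := hx0.trans hxb
  have hlt : ∀ u, u ≤ b → M * u < R := fun u hu => (mul_le_mul_of_nonneg_left hu hM).trans_lt hR
  have hle : ∀ u ∈ Icc 0 x, ‖α u - α 0‖ ≤ M * u :=
    key x ⟨hx0, hxb⟩ fun u hu => (hlow u hu).trans_lt (hlt u (hu.2.le.trans hxb))
  -- continuity at x
  have hxR : ‖α x - α 0‖ < R := (hle x ⟨hx0, le_rfl⟩).trans_lt (hlt x hxb)
  have hc2 : ContinuousWithinAt (fun u => ‖α u - α 0‖) (Icc 0 b) x :=
    ((hcont x ⟨hx0, hxb⟩).sub continuousWithinAt_const).norm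
  have hev : ∀ᶠ u in nhdsWithin x (Icc 0 b), ‖α u - α 0‖ < R := hc2.eventually (gt_mem_nhds hxR)
  rw [eventually_nhdsWithin_iff, Metric.eventually_nhds_iff] at hev
  obtain ⟨δ, hδ, hev⟩ := hev
  -- there is a point of `B` below `x + δ`
  obtain ⟨s2, hs2, hs2'⟩ := exists_lt_of_csInf_lt hBne (show sInf B < x + δ by linarith)
  have h4 := key s2 hs2.1 (fun u hu => by
    rcases lt_or_ge u x with h | h
    · exact (hlow u ⟨hu.1, h⟩).trans_lt (hlt u (h.le.trans hxb))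
    · apply hev _ ⟨hu.1, hu.2.le.trans hs2.1.2⟩
      rw [Real.dist_eq, abs_lt]
      constructor <;> linarith [hu.2]) s2 ⟨hs2.1.1, le_rfl⟩
  exact absurd h4 (not_le.2 hs2.2)

/-- First exit argument. -/
lemma LiftC.exit_both {X : Type*} [NormedAddCommGroup X] [NormedSpace ℝ X] {α α' : ℝ → X} {b M R : ℝ}
    (hM : 0 ≤ M) (hR : M * b < R)
    (hα : ∀ s ∈ Icc (-b) b, HasDerivWithinAt α (α' s) (Icc (-b) b) s)
    (hb : ∀ s ∈ Icc (-b) b, (∀ u ∈ uIcc 0 s, ‖α u - α 0‖ < R) → ‖α' s‖ ≤ M) :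
    ∀ s ∈ Icc (-b) b, ‖α s - α 0‖ ≤ M * |s| := by
  intro s hs
  have hb0 : 0 ≤ b := by linarith [hs.1, hs.2]
  rcases le_total 0 s with h | h
  · rw [abs_of_nonneg h]
    refine LiftC.exit_fwd (α' := α') hM hR (fun u hu => (hα u ⟨by linarith [hu.1], hu.2⟩).mono
      (Icc_subset_Icc (by linarith) le_rfl)) (fun u hu hu' => hb u ⟨by linarith [hu.1], hu.2⟩ ?_) s
      ⟨h, hs.2⟩
    rw [uIcc_of_le hu.1]; exact hu'
  · rw [abs_of_nonpos h]
    have h1 := LiftC.exit_fwd (α := fun u => α (-u)) (α' := fun u => -α' (-u)) (b := b) hM hR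
      (fun u hu => ?_) (fun u hu hu' => ?_) (-s) ⟨by linarith, by linarith [hs.1]⟩
    · simpa using h1
    · have h2 : HasDerivWithinAt α (α' (-u)) (Icc (-b) b) (-u) := hα (-u) ⟨by linarith [hu.2], by linarith [hu.1]⟩
      have h3 : HasDerivWithinAt (fun u : ℝ => -u) (-1) (Icc 0 b) u := (hasDerivWithinAt_id u _).neg
      have h4 := HasDerivWithinAt.scomp (t' := Icc (-b) b) (g₁ := α) (h := fun u : ℝ => -u) u h2 h3
        (fun w hw => ⟨by linarith [hw.2], by linarith [hw.1]⟩)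
      simpa [Function.comp_def] using h4
    · simp only [norm_neg]
      refine hb (-u) ⟨by linarith [hu.2], by linarith [hu.1]⟩ fun w hw => ?_
      rw [uIcc_of_ge (by linarith [hu.1])] at hw
      have := hu' (-w) ⟨by linarith [hw.2], by linarith [hw.1]⟩
      simpa using this

/-- The inverse derivative. -/
lemma LiftC.inv_facts {E : ℝ × ℝ → Pt} (hE : ContDiff ℝ ∞ E)
    (hinv : ∀ y, Function.Bijective (fderiv ℝ E y)) :
    ContDiff ℝ 1 (fun y => (fderiv ℝ E y).inverse) ∧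
      ∀ y z, fderiv ℝ E y ((fderiv ℝ E y).inverse z) = z := by
  have hI : ∀ y, (fderiv ℝ E y).IsInvertible := by
    intro y
    refine ⟨ContinuousLinearEquiv.ofBijective (fderiv ℝ E y) (LinearMap.ker_eq_bot.2 (hinv y).1)
      (LinearMap.range_eq_top.2 (hinv y).2), ?_⟩
    exact ContinuousLinearEquiv.coe_ofBijective _ _ _
  constructor
  · rw [contDiff_iff_contDiffAt]
    intro y
    have h1 : ContDiffAt ℝ 1 ContinuousLinearMap.inverse (fderiv ℝ E y) :=
      (hI y).contDiffAt_map_inverse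
    have h2 : ContDiff ℝ 1 (fderiv ℝ E) := hE.fderiv_right (by norm_cast)
    exact h1.comp y h2.contDiffAt
  · intro y z
    obtain ⟨e, he⟩ := hI y
    rw [← he, ContinuousLinearMap.inverse_equiv]
    simp

/-- The lift on a bounded interval. -/
lemma LiftC.lift_bdd {E : ℝ × ℝ → Pt} (hE : ContDiff ℝ ∞ E)
    (hinv : ∀ y, Function.Bijective (fderiv ℝ E y)) (c c' : ℝ → Pt)
    (hc : ∀ s, HasDerivAt c (c' s) s) (hc' : Continuous c') (len : ℝ → ℝ) (hlen : Continuous len)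
    (hb : ∀ s y z, E y = c s → fderiv ℝ E y z = c' s → ‖z‖ ≤ len s) (y₀ : ℝ × ℝ)
    (h0 : E y₀ = c 0) (T : ℝ) (hT : 0 < T) :
    ∃ α : ℝ → ℝ × ℝ, α 0 = y₀ ∧ ∀ s ∈ Icc (-T) T, E (α s) = c s ∧
      HasDerivWithinAt α ((fderiv ℝ E (α s)).inverse (c' s)) (Icc (-T) T) s := by
  obtain ⟨hA, hAE⟩ := LiftC.inv_facts hE hinv
  -- bounds
  obtain ⟨M0, hM0⟩ := isCompact_Icc.exists_bound_of_continuousOn (s := Icc (-T) T)
    hlen.continuousOn
  set M : ℝ := max M0 0 with hMdef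
  have hM : 0 ≤ M := le_max_right _ _
  have hlenM : ∀ s ∈ Icc (-T) T, len s ≤ M := fun s hs =>
    (le_abs_self _).trans ((hM0 s hs).trans (le_max_left _ _))
  obtain ⟨C0, hC0⟩ := isCompact_Icc.exists_bound_of_continuousOn (s := Icc (-T) T)
    hc'.continuousOn
  set C : ℝ := max C0 0 with hCdef
  have hC : 0 ≤ C := le_max_right _ _
  have hcC : ∀ s ∈ Icc (-T) T, ‖c' s‖ ≤ C := fun s hs => (hC0 s hs).trans (le_max_left _ _)
  set R : ℝ := M * T + 1 with hRdef
  have hRpos : 0 < R := by positivity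
  let χ : ContDiffBump y₀ := ⟨R, R + 1, hRpos, by linarith⟩
  set g : ℝ × ℝ → (Pt →L[ℝ] ℝ × ℝ) := fun y => χ y • (fderiv ℝ E y).inverse with hg
  have hgsm : ContDiff ℝ 1 g := by
    have h1 : ContDiff ℝ 1 χ := χ.contDiff
    exact h1.smul hA
  have hgcs : HasCompactSupport g := χ.hasCompactSupport.smul_right
  obtain ⟨K, hK⟩ := ContDiff.lipschitzWith_of_hasCompactSupport hgcs hgsm (by simp)
  obtain ⟨B0, hB0⟩ := hgcs.exists_bound_of_continuous hgsm.continuous
  set B : ℝ := max B0 0 with hBdef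
  have hB : 0 ≤ B := le_max_right _ _
  have hgB : ∀ y, ‖g y‖ ≤ B := fun y => (hB0 y).trans (le_max_left _ _)
  set f : ℝ → ℝ × ℝ → ℝ × ℝ := fun s y => g y (c' s) with hf
  have hmem0 : (0 : ℝ) ∈ Icc (-T) T := ⟨by linarith, hT.le⟩
  obtain ⟨Cn, hCn⟩ : ∃ Cn : NNReal, (Cn : ℝ) = C := ⟨C.toNNReal, Real.coe_toNNReal _ hC⟩
  obtain ⟨Bn, hBn⟩ : ∃ Bn : NNReal, (Bn : ℝ) = B := ⟨B.toNNReal, Real.coe_toNNReal _ hB⟩
  obtain ⟨Tn, hTn⟩ : ∃ Tn : NNReal, (Tn : ℝ) = T := ⟨T.toNNReal, Real.coe_toNNReal _ hT.le⟩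
  have hPL : IsPicardLindelof f (tmin := -T) (tmax := T) ⟨0, hmem0⟩ y₀
      (Bn * Cn * Tn) 0 (Bn * Cn) (K * Cn) := by
    constructor
    · intro s hs
      apply LipschitzOnWith.of_dist_le_mul
      intro y _ z _
      rw [dist_eq_norm, dist_eq_norm]
      have h1 : f s y - f s z = (g y - g z) (c' s) := by simp [hf]
      rw [h1]
      calc ‖(g y - g z) (c' s)‖ ≤ ‖g y - g z‖ * ‖c' s‖ := ContinuousLinearMap.le_opNorm _ _
        _ ≤ (K * ‖y - z‖) * C := by
            apply mul_le_mul _ (hcC s hs) (norm_nonneg _) (by positivity)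
            have := hK.dist_le_mul y z
            rwa [dist_eq_norm, dist_eq_norm] at this
        _ = ((K * Cn : NNReal) : ℝ) * ‖y - z‖ := by
            rw [NNReal.coe_mul, hCn]; ring
    · intro y _
      exact ((g y).continuous.comp hc').continuousOn
    · intro s hs y _
      calc ‖f s y‖ ≤ ‖g y‖ * ‖c' s‖ := ContinuousLinearMap.le_opNorm _ _
        _ ≤ B * C := mul_le_mul (hgB y) (hcC s hs) (norm_nonneg _) hB
        _ = ((Bn * Cn : NNReal) : ℝ) := by rw [NNReal.coe_mul, hBn, hCn]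
    · simp [hBn, hCn, hTn]
  obtain ⟨α, hα0, hα⟩ := hPL.exists_eq_forall_mem_Icc_hasDerivWithinAt (x := y₀) (by simp)
  simp only at hα0
  -- as long as the curve stays in the ball, it is a lift
  have hlift : ∀ s ∈ Icc (-T) T, (∀ u ∈ uIcc 0 s, ‖α u - α 0‖ < R) →
      E (α s) = c s ∧ f s (α s) = (fderiv ℝ E (α s)).inverse (c' s) := by
    intro s hs hu
    have hsub : uIcc 0 s ⊆ Icc (-T) T := by
      apply uIcc_subset_Icc hmem0 hs
    have hf' : ∀ u ∈ uIcc 0 s, f u (α u) = (fderiv ℝ E (α u)).inverse (c' u) := by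
      intro u hu'
      have : χ (α u) = 1 := χ.one_of_mem_closedBall (by
        rw [mem_closedBall_iff_norm]
        have h9 := (hu u hu').le
        rw [hα0] at h9
        exact h9)
      simp [hf, hg, this]
    refine ⟨?_, hf' s right_mem_uIcc⟩
    have hd : ∀ u ∈ uIcc 0 s, HasDerivWithinAt (fun u => E (α u) - c u) 0 (uIcc 0 s) u := by
      intro u hu'
      have h1 : HasDerivWithinAt α (f u (α u)) (uIcc 0 s) u := (hα u (hsub hu')).mono hsub
      have h2 : HasFDerivAt E (fderiv ℝ E (α u)) (α u) :=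
        ((hE.differentiable (by simp)) _).hasFDerivAt
      have h3 := (h2.comp_hasDerivWithinAt u h1).sub ((hc u).hasDerivWithinAt (s := uIcc 0 s))
      rw [hf' u hu', hAE, sub_self] at h3
      exact h3
    have hconst : ∀ u ∈ uIcc 0 s, E (α u) - c u = E (α 0) - c 0 := by
      intro u hu'
      have h5 := (convex_uIcc 0 s).norm_image_sub_le_of_norm_hasDerivWithin_le (C := 0) hd
        (fun x _ => by simp) left_mem_uIcc hu'
      rw [zero_mul] at h5
      exact sub_eq_zero.1 (norm_le_zero_iff.1 h5)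
    have h6 := hconst s right_mem_uIcc
    rw [hα0, h0, sub_self] at h6
    exact sub_eq_zero.1 h6
  have hexit := LiftC.exit_both (α := α) (α' := fun s => f s (α s)) (b := T) (M := M) (R := R) hM
    (by rw [hRdef]; linarith) hα (fun s hs hu => by
      obtain ⟨h1, h2⟩ := hlift s hs hu
      simp only [h2]
      exact (hb s (α s) _ h1 (hAE _ _)).trans (hlenM s hs))
  refine ⟨α, hα0, fun s hs => ?_⟩
  have hin : ∀ u ∈ uIcc 0 s, ‖α u - α 0‖ < R := by
    intro u hu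
    have hu' : u ∈ Icc (-T) T := uIcc_subset_Icc hmem0 hs hu
    refine (hexit u hu').trans_lt ?_
    have : M * |u| ≤ M * T := mul_le_mul_of_nonneg_left (abs_le.2 ⟨hu'.1, hu'.2⟩) hM
    rw [hRdef]; linarith
  obtain ⟨h1, h2⟩ := hlift s hs hin
  refine ⟨h1, ?_⟩
  rw [← h2]; exact hα s hs

theorem lift_curve {E : ℝ × ℝ → Pt} (hE : ContDiff ℝ ∞ E)
    (hinv : ∀ y, Function.Bijective (fderiv ℝ E y)) (c c' : ℝ → Pt)
    (hc : ∀ s, HasDerivAt c (c' s) s) (hc' : Continuous c') (len : ℝ → ℝ) (hlen : Continuous len)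
    (hb : ∀ s y z, E y = c s → fderiv ℝ E y z = c' s → ‖z‖ ≤ len s) (y₀ : ℝ × ℝ)
    (h0 : E y₀ = c 0) :
    ∃ y y' : ℝ → ℝ × ℝ, y 0 = y₀ ∧ Continuous y' ∧ (∀ s, HasDerivAt y (y' s) s) ∧
      ∀ s, E (y s) = c s ∧ fderiv ℝ E (y s) (y' s) = c' s := by
  obtain ⟨hA, hAE⟩ := LiftC.inv_facts hE hinv
  have hex := fun n : ℕ => LiftC.lift_bdd hE hinv c c' hc hc' len hlen hb y₀ h0 ((n : ℝ) + 1)
    (by positivity)
  choose α hα0 hα using hex
  have hinj : IsLocallyInjective E := by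
    intro y
    have h1 : HasStrictFDerivAt E (fderiv ℝ E y) y := hE.contDiffAt.hasStrictFDerivAt (by simp)
    have hI : (fderiv ℝ E y).IsInvertible :=
      ⟨ContinuousLinearEquiv.ofBijective (fderiv ℝ E y) (LinearMap.ker_eq_bot.2 (hinv y).1)
      (LinearMap.range_eq_top.2 (hinv y).2), ContinuousLinearEquiv.coe_ofBijective _ _ _⟩
    obtain ⟨e, he⟩ := hI
    rw [← he] at h1
    refine ⟨(h1.toOpenPartialHomeomorph E).source, (h1.toOpenPartialHomeomorph E).open_source,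
      h1.mem_toOpenPartialHomeomorph_source, ?_⟩
    have := (h1.toOpenPartialHomeomorph E).injOn
    simpa using this
  have hagree : ∀ m n : ℕ, m ≤ n → EqOn (α m) (α n) (Icc (-((m : ℝ) + 1)) ((m : ℝ) + 1)) := by
    intro m n hmn
    have hcast : (m : ℝ) ≤ n := by exact_mod_cast hmn
    have hsub : Icc (-((m : ℝ) + 1)) ((m : ℝ) + 1) ⊆ Icc (-((n : ℝ) + 1)) ((n : ℝ) + 1) :=
      Icc_subset_Icc (by linarith) (by linarith)
    refine (T2Space.isSeparatedMap E).eqOn_of_comp_eqOn hinj isPreconnected_Icc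
      (fun s hs => (hα m s hs).2.continuousWithinAt)
      (fun s hs => ((hα n s (hsub hs)).2.continuousWithinAt).mono hsub) (fun s hs => ?_) (a := 0)
      ⟨by have : (0 : ℝ) ≤ m := m.cast_nonneg
          linarith, by positivity⟩ ?_
    · simp only [Function.comp]
      rw [(hα m s hs).1, (hα n s (hsub hs)).1]
    · rw [hα0, hα0]
  -- the glued curve
  set y : ℝ → ℝ × ℝ := fun s => α ⌈|s|⌉₊ s with hy
  have hyn : ∀ n : ℕ, ∀ s ∈ Icc (-((n : ℝ) + 1)) ((n : ℝ) + 1), y s = α n s := by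
    intro n s hs
    have hs1 : |s| ≤ ⌈|s|⌉₊ := Nat.le_ceil _
    have hs2 : s ∈ Icc (-((⌈|s|⌉₊ : ℝ) + 1)) ((⌈|s|⌉₊ : ℝ) + 1) :=
      ⟨by linarith [neg_abs_le s], by linarith [le_abs_self s]⟩
    rcases le_total ⌈|s|⌉₊ n with h | h
    · exact hagree _ _ h hs2
    · exact (hagree _ _ h hs).symm
  have hyE : ∀ s, E (y s) = c s := by
    intro s
    have hs1 : |s| ≤ ⌈|s|⌉₊ := Nat.le_ceil _
    exact (hα ⌈|s|⌉₊ s ⟨by linarith [neg_abs_le s], by linarith [le_abs_self s]⟩).1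
  have hyd : ∀ s, HasDerivAt y ((fderiv ℝ E (y s)).inverse (c' s)) s := by
    intro s
    set n := ⌈|s|⌉₊ with hn
    have hs1 : |s| ≤ n := Nat.le_ceil _
    have hs2 : s ∈ Ioo (-((n : ℝ) + 1)) ((n : ℝ) + 1) :=
      ⟨by linarith [neg_abs_le s], by linarith [le_abs_self s]⟩
    have hnhds : Icc (-((n : ℝ) + 1)) ((n : ℝ) + 1) ∈ nhds s := Icc_mem_nhds hs2.1 hs2.2
    have h1 := (hα n s (Ioo_subset_Icc_self hs2)).2.hasDerivAt hnhds
    have h2 : y =ᶠ[nhds s] α n := Filter.eventually_of_mem hnhds fun u hu => hyn n u hu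
    rw [hyn n s (Ioo_subset_Icc_self hs2)]
    exact h1.congr_of_eventuallyEq h2
  refine ⟨y, fun s => (fderiv ℝ E (y s)).inverse (c' s), ?_, ?_, hyd, fun s => ⟨hyE s, hAE _ _⟩⟩
  · rw [hyn 0 0 (by constructor <;> norm_num), hα0]
  · have hyc : Continuous y := continuous_iff_continuousAt.2 fun s => (hyd s).continuousAt
    exact (hA.continuous.comp hyc).clm_apply hc'

end

end Pool.Agent.Work.MP_275abe_gt
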