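import Pool.Agent.Work.MP_275abe_gt.Base

/-!
Scalar Jacobi equation J'' = -k J, k <= 0, J(0) = 1, J'(0) = 0. ode_ge: J >= 1 everywhere (J >= 1 and J' >= 0 on [0, oo) by a
first exit argument; for h < 0 use J(-h)). ode_le: if -tau <= k on |h| < w and tau w^2 <= 1/4 then with M = sup of J on
[0, h]: J'(h) <= tau h M, J(h) <= 1 + tau h^2 M / 2, so M <= 1 / (1 - 1/8) <= 2.
-/

namespace Pool.Agent.Work.MP_275abe_gt

open MeasureTheory Set
open scoped ContDiff

noncomputable section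

/-- On `[0, h]` where `J ≥ 0`, `J' ≥ 0` and so `J ≥ 1`. -/
private theorem oa_step {k J J' : ℝ → ℝ} (hk : ∀ h, k h ≤ 0) (h0 : J 0 = 1) (h0' : J' 0 = 0)
    (hJ : ∀ h, HasDerivAt J (J' h) h) (hJ' : ∀ h, HasDerivAt J' (-k h * J h) h) {b : ℝ}
    (hb : 0 ≤ b) (hpos : ∀ h ∈ Icc 0 b, 0 ≤ J h) :
    (∀ h ∈ Icc 0 b, 0 ≤ J' h) ∧ ∀ h ∈ Icc 0 b, 1 ≤ J h := by
  have hc' : Continuous J' := continuous_iff_continuousAt.2 fun h => (hJ' h).continuousAt
  have hc : Continuous J := continuous_iff_continuousAt.2 fun h => (hJ h).continuousAt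
  have m1 : MonotoneOn J' (Icc 0 b) := by
    refine monotoneOn_of_hasDerivWithinAt_nonneg (convex_Icc 0 b) hc'.continuousOn
      (fun x _ => (hJ' x).hasDerivWithinAt) fun x hx => ?_
    rw [interior_Icc] at hx
    exact mul_nonneg (by linarith [hk x]) (hpos x (Ioo_subset_Icc_self hx))
  have p1 : ∀ h ∈ Icc 0 b, 0 ≤ J' h := fun h hh => by
    have := m1 (left_mem_Icc.2 hb) hh hh.1
    rwa [h0'] at this
  have m2 : MonotoneOn J (Icc 0 b) := by
    refine monotoneOn_of_hasDerivWithinAt_nonneg (convex_Icc 0 b) hc.continuousOn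
      (fun x _ => (hJ x).hasDerivWithinAt) fun x hx => ?_
    rw [interior_Icc] at hx
    exact p1 x (Ioo_subset_Icc_self hx)
  refine ⟨p1, fun h hh => ?_⟩
  have := m2 (left_mem_Icc.2 hb) hh hh.1
  rwa [h0] at this

private theorem oa_ge {k J J' : ℝ → ℝ} (hk : ∀ h, k h ≤ 0) (h0 : J 0 = 1) (h0' : J' 0 = 0)
    (hJ : ∀ h, HasDerivAt J (J' h) h) (hJ' : ∀ h, HasDerivAt J' (-k h * J h) h) {b : ℝ}
    (hb : 0 ≤ b) : (∀ h ∈ Icc 0 b, 0 ≤ J' h) ∧ ∀ h ∈ Icc 0 b, 1 ≤ J h := by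
  have hc : Continuous J := continuous_iff_continuousAt.2 fun h => (hJ h).continuousAt
  -- it is enough to show `J > 0` on `[0, b]`
  suffices hp : ∀ h ∈ Icc 0 b, 0 ≤ J h from oa_step hk h0 h0' hJ hJ' hb hp
  by_contra hcon
  push Not at hcon
  obtain ⟨c, hc0, hc1⟩ := hcon
  -- the set of points of `[0, c]` with `J ≤ 0`
  have hcl : IsCompact (Icc 0 c ∩ {h | J h ≤ 0}) :=
    isCompact_Icc.inter_right (isClosed_le hc continuous_const)
  have hne : (Icc 0 c ∩ {h | J h ≤ 0}).Nonempty := ⟨c, ⟨hc0.1, le_rfl⟩, hc1.le⟩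
  obtain ⟨m, hm, hmin⟩ := hcl.exists_isLeast hne
  have hm0 : 0 ≤ m := hm.1.1
  have hposm : ∀ h ∈ Icc 0 m, 0 ≤ J h := by
    intro h hh
    by_contra hlt
    push Not at hlt
    -- intermediate: `h` belongs to the set, so `m ≤ h`, so `h = m`
    have hmem : h ∈ Icc 0 c ∩ {h | J h ≤ 0} := ⟨⟨hh.1, hh.2.trans hm.1.2⟩, hlt.le⟩
    have h1 : m = h := le_antisymm (hmin hmem) hh.2
    -- then `J m < 0`, but `J > 0` to the left of `m`
    rcases eq_or_lt_of_le hm0 with h2 | h2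
    · rw [← h1, ← h2, h0] at hlt
      linarith
    · have hev : ∀ᶠ t in nhds m, J t < 0 := by
        rw [← h1] at hlt
        exact hc.continuousAt.eventually_lt continuousAt_const hlt
      have hev2 : ∀ᶠ t in nhdsWithin m (Iio m), J t < 0 ∧ t ∈ Ioo 0 m := by
        refine (hev.filter_mono nhdsWithin_le_nhds).and ?_
        exact Ioo_mem_nhdsLT h2
      obtain ⟨t, ht, htm⟩ := hev2.exists
      have : m ≤ t := hmin ⟨⟨htm.1.le, htm.2.le.trans hm.1.2⟩, ht.le⟩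
      linarith [htm.2]
  have h1 := (oa_step hk h0 h0' hJ hJ' hm0 hposm).2 m ⟨hm0, le_rfl⟩
  have h2 : J m ≤ 0 := hm.2
  linarith

private theorem oa_refl {k J J' : ℝ → ℝ}
    (hJ : ∀ h, HasDerivAt J (J' h) h) (hJ' : ∀ h, HasDerivAt J' (-k h * J h) h) :
    (∀ h, HasDerivAt (fun t => J (-t)) (-J' (-h)) h) ∧
      ∀ h, HasDerivAt (fun t => -J' (-t)) (-k (-h) * J (-h)) h := by
  constructor
  · intro h
    have := (hJ (-h)).scomp h (hasDerivAt_neg h)
    exact HasDerivAt.congr_deriv (f := fun t => J (-t)) this (by simp)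
  · intro h
    have := ((hJ' (-h)).scomp h (hasDerivAt_neg h)).neg
    exact HasDerivAt.congr_deriv (f := fun t => -J' (-t)) this (by simp)

theorem ode_ge {k J J' : ℝ → ℝ} (hk : ∀ h, k h ≤ 0) (h0 : J 0 = 1) (h0' : J' 0 = 0)
    (hJ : ∀ h, HasDerivAt J (J' h) h) (hJ' : ∀ h, HasDerivAt J' (-k h * J h) h) :
    ∀ h, 1 ≤ J h := by
  intro h
  rcases le_total 0 h with hh | hh
  · exact (oa_ge hk h0 h0' hJ hJ' hh).2 h ⟨hh, le_rfl⟩
  · obtain ⟨r1, r2⟩ := oa_refl hJ hJ'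
    have := (oa_ge (k := fun t => k (-t)) (J := fun t => J (-t)) (J' := fun t => -J' (-t))
      (fun h => hk _) (by simpa using h0) (by simpa using h0') r1 r2 (b := -h) (by linarith)).2
      (-h) ⟨by linarith, le_rfl⟩
    simpa using this

private theorem oa_le {k J J' : ℝ → ℝ} {τ w : ℝ} (hτ : 0 < τ) (hw : 0 < w) (hτw : τ * w ^ 2 ≤ 1 / 4)
    (hk : ∀ h, k h ≤ 0) (hk' : ∀ h, |h| < w → -τ ≤ k h) (h0 : J 0 = 1) (h0' : J' 0 = 0)
    (hJ : ∀ h, HasDerivAt J (J' h) h) (hJ' : ∀ h, HasDerivAt J' (-k h * J h) h) {b : ℝ}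
    (hb : 0 ≤ b) (hbw : b < w) : J b ≤ 1 + τ * b ^ 2 ∧ |J' b| ≤ 2 * τ * |b| := by
  have hc' : Continuous J' := continuous_iff_continuousAt.2 fun h => (hJ' h).continuousAt
  have hc : Continuous J := continuous_iff_continuousAt.2 fun h => (hJ h).continuousAt
  obtain ⟨p1, p2⟩ := oa_ge hk h0 h0' hJ hJ' hb
  have m2 : MonotoneOn J (Icc 0 b) := by
    refine monotoneOn_of_hasDerivWithinAt_nonneg (convex_Icc 0 b) hc.continuousOn
      (fun x _ => (hJ x).hasDerivWithinAt) fun x hx => ?_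
    rw [interior_Icc] at hx
    exact p1 x (Ioo_subset_Icc_self hx)
  have hM : ∀ h ∈ Icc 0 b, J h ≤ J b := fun h hh => m2 hh (right_mem_Icc.2 hb) hh.2
  have hM1 : 1 ≤ J b := p2 b (right_mem_Icc.2 hb)
  -- `J' h ≤ τ (J b) h`
  have q1 : ∀ h ∈ Icc 0 b, J' h ≤ τ * J b * h := by
    have m3 : AntitoneOn (fun h => J' h - τ * J b * h) (Icc 0 b) := by
      refine antitoneOn_of_hasDerivWithinAt_nonpos (f' := fun x => -k x * J x - τ * J b)
        (convex_Icc 0 b) (by fun_prop) (fun x _ => ?_) fun x hx => ?_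
      · have := (hJ' x).sub ((hasDerivAt_id x).const_mul (τ * J b))
        exact HasDerivWithinAt.congr_deriv (f := fun h => J' h - τ * J b * h)
          this.hasDerivWithinAt (by simp)
      · rw [interior_Icc] at hx
        have hx' := Ioo_subset_Icc_self hx
        have h1 : -k x ≤ τ := by
          have := hk' x (by rw [abs_of_nonneg hx'.1]; linarith [hx'.2])
          linarith
        have h2 : 1 ≤ J x := p2 x hx'
        have h3 := hM x hx'
        nlinarith [hk x]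
    intro h hh
    have := m3 (left_mem_Icc.2 hb) hh hh.1
    simp only [h0', mul_zero, sub_zero] at this
    linarith
  have q2 : J b ≤ 1 + τ * J b * b ^ 2 / 2 := by
    have m3 : AntitoneOn (fun h => J h - τ * J b * h ^ 2 / 2) (Icc 0 b) := by
      refine antitoneOn_of_hasDerivWithinAt_nonpos (f' := fun x => J' x - τ * J b * x)
        (convex_Icc 0 b) (by fun_prop) (fun x _ => ?_) fun x hx => ?_
      · have := (hJ x).sub (((hasDerivAt_pow 2 x).const_mul (τ * J b)).div_const 2)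
        refine this.hasDerivWithinAt.congr_deriv ?_
        simp
        ring
      · rw [interior_Icc] at hx
        linarith [q1 x (Ioo_subset_Icc_self hx)]
    have := m3 (left_mem_Icc.2 hb) (right_mem_Icc.2 hb) hb
    simp only [h0] at this
    linarith
  have hbw2 : τ * b ^ 2 ≤ 1 / 4 := by
    have : b ^ 2 ≤ w ^ 2 := by nlinarith
    nlinarith
  have hM2 : J b ≤ 2 := by nlinarith
  constructor
  · have : τ * J b * b ^ 2 / 2 ≤ τ * b ^ 2 := by
      have h1 : 0 ≤ τ * b ^ 2 := by positivity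
      nlinarith
    linarith
  · have h1 := q1 b (right_mem_Icc.2 hb)
    rw [abs_of_nonneg (p1 b (right_mem_Icc.2 hb)), abs_of_nonneg hb]
    have h2 : 0 ≤ τ * b := by positivity
    nlinarith

theorem ode_le {k J J' : ℝ → ℝ} {τ w : ℝ} (hτ : 0 < τ) (hw : 0 < w) (hτw : τ * w ^ 2 ≤ 1 / 4)
    (hk : ∀ h, k h ≤ 0) (hk' : ∀ h, |h| < w → -τ ≤ k h) (h0 : J 0 = 1) (h0' : J' 0 = 0)
    (hJ : ∀ h, HasDerivAt J (J' h) h) (hJ' : ∀ h, HasDerivAt J' (-k h * J h) h) :
    ∀ h, |h| < w → J h ≤ 1 + τ * h ^ 2 ∧ |J' h| ≤ 2 * τ * |h| := by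
  intro h hhw
  rcases le_total 0 h with hh | hh
  · exact oa_le hτ hw hτw hk hk' h0 h0' hJ hJ' hh (by rwa [abs_of_nonneg hh] at hhw)
  · obtain ⟨r1, r2⟩ := oa_refl hJ hJ'
    have := oa_le (k := fun t => k (-t)) (J := fun t => J (-t)) (J' := fun t => -J' (-t)) hτ hw hτw
      (fun h => hk _) (fun h hh => hk' _ (by rwa [abs_neg])) (by simpa using h0) (by simpa using h0')
      r1 r2 (b := -h) (by linarith) (by rwa [abs_of_nonpos hh] at hhw)
    simpa using this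

end

end Pool.Agent.Work.MP_275abe_gt
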