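import Pool.Agent.Work.MP_275abe_gt.Jac
import Pool.Agent.Work.MP_275abe_gt.LiftC
import Pool.Agent.Work.MP_275abe_gt.OdeA

/-!
Path lifting to Fermi coordinates: K <= 0 gives J >= 1 (ode_ge), so the derivative of y -> (fm psi v y).1, which is
(dt, dh) -> dt J dir(Theta - pi/2) + dh dir(Theta), is bijective, and the maximum norm of (dt, dh) is at most
sqrt(J^2 dt^2 + dh^2) = nm of its image. Apply lift_curve with len s = nm (c s) (c' s).
-/

namespace Pool.Agent.Work.MP_275abe_gt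

open MeasureTheory Set
open scoped ContDiff

noncomputable section

theorem lift_fm (F : Fr) {ψ : ℝ → Pt × ℝ → Pt × ℝ} (hψ : IsFlow F.X ψ) (hK : ∀ x, F.K x ≤ 0)
    (v : Pt × ℝ) (c c' : ℝ → Pt) (hc : ∀ s, HasDerivAt c (c' s) s) (hc' : Continuous c')
    (t₀ h₀ : ℝ) (h0 : (fm ψ v t₀ h₀).1 = c 0) :
    ∃ T H T' H' : ℝ → ℝ, T 0 = t₀ ∧ H 0 = h₀ ∧ (∀ s, HasDerivAt T (T' s) s) ∧
      (∀ s, HasDerivAt H (H' s) s) ∧
      ∀ s, (fm ψ v (T s) (H s)).1 = c s ∧ |T' s| ≤ F.nm (c s) (c' s) ∧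
        |H' s| ≤ F.nm (c s) (c' s) := by
  obtain ⟨J, J', hJ0, hJ'0, hJ, hJ', hD⟩ := jac F hψ v
  have hJ1 : ∀ t h, 1 ≤ J t h := fun t h =>
    ode_ge (k := fun h => F.K (fm ψ v t h).1) (fun h => hK _) (hJ0 t) (hJ'0 t) (hJ t) (hJ' t) h
  set E : ℝ × ℝ → Pt := fun y => (fm ψ v y.1 y.2).1 with hEdef
  have hE : ContDiff ℝ ∞ E := (fm_smooth F hψ v).fst
  have hfd : ∀ y z : ℝ × ℝ, fderiv ℝ E y z =
      (z.1 * J y.1 y.2) • F.dir (E y) ((fm ψ v y.1 y.2).2 - Real.pi / 2) +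
        z.2 • F.dir (E y) ((fm ψ v y.1 y.2).2) := by
    intro y z
    have h1 : HasFDerivAt E _ y := (hD y.1 y.2).fst
    rw [h1.fderiv]
    simp [hEdef, Fr.X, smul_smul]
  have hcomp : ∀ (x : Pt) (θ α β α' β' : ℝ), α • F.dir x (θ - Real.pi / 2) + β • F.dir x θ =
      α' • F.dir x (θ - Real.pi / 2) + β' • F.dir x θ → α = α' ∧ β = β' :=
    fun x θ α β α' β' h => F.comb_inj x θ α β α' β' h
  have hinv : ∀ y, Function.Bijective (fderiv ℝ E y) := by
    intro y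
    have hJp : J y.1 y.2 ≠ 0 := by have := hJ1 y.1 y.2; positivity
    constructor
    · intro z z' hzz
      rw [hfd, hfd] at hzz
      obtain ⟨h1, h2⟩ := hcomp _ _ _ _ _ _ hzz
      exact Prod.ext (mul_right_cancel₀ hJp h1) h2
    · intro u
      obtain ⟨α, β, hu⟩ := F.comb_surj (E y) ((fm ψ v y.1 y.2).2) u
      refine ⟨(α / J y.1 y.2, β), ?_⟩
      rw [hfd, hu]
      simp [div_mul_cancel₀ _ hJp]
  have hbound : ∀ y z : ℝ × ℝ, |z.1| ≤ F.nm (E y) (fderiv ℝ E y z) ∧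
      |z.2| ≤ F.nm (E y) (fderiv ℝ E y z) := by
    intro y z
    rw [hfd, F.nm_comb]
    have h1 := hJ1 y.1 y.2
    constructor
    · apply Real.le_sqrt_of_sq_le
      rw [sq_abs, mul_pow]
      have h2 : 1 ≤ J y.1 y.2 ^ 2 := by nlinarith
      nlinarith [mul_le_mul_of_nonneg_left h2 (sq_nonneg z.1), sq_nonneg z.2]
    · apply Real.le_sqrt_of_sq_le
      rw [sq_abs]
      nlinarith [sq_nonneg (z.1 * J y.1 y.2)]
  obtain ⟨y, y', hy0, hy'c, hyd, hy⟩ := lift_curve hE hinv c c' hc hc'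
    (fun s => F.nm (c s) (c' s))
    (F.nm_cont.comp ((continuous_iff_continuousAt.2 fun s => (hc s).continuousAt).prodMk hc'))
    (fun s y z h1 h2 => by
      have h3 := hbound y z
      rw [h1, h2] at h3
      rw [Prod.norm_def]
      exact max_le h3.1 h3.2) (t₀, h₀) h0
  refine ⟨fun s => (y s).1, fun s => (y s).2, fun s => (y' s).1, fun s => (y' s).2, ?_, ?_,
    fun s => (hyd s).fst, fun s => (hyd s).snd, fun s => ⟨(hy s).1, ?_⟩⟩
  · simp only [hy0]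
  · simp only [hy0]
  · have h3 := hbound (y s) (y' s)
    rw [(hy s).1, (hy s).2] at h3
    exact h3

end

end Pool.Agent.Work.MP_275abe_gt
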