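import Pool.Agent.Work.MP_275abe_gt.FeA
import Pool.Agent.Work.MP_275abe_gt.Equi
import Pool.Agent.Work.MP_275abe_gt.LiftF
import Pool.Agent.Work.MP_275abe_gt.CurvEq
import Pool.Agent.Work.MP_275abe_gt.Compl

/-!
A flat closed surface has a commutative group. If K = 0 then Fermi coordinates e(t, h) based at a unit vector map straight
lines to geodesics, and parallel frames to parallel frames; e is onto. For f in Γ the map f ∘ e is e after a rigid motion
y -> (a, b) + Rot(α) y. If Rot(α) ≠ 1 the motion has a fixed point, so f has one and f = 1. So every f is a translation in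
these coordinates.
-/

namespace Pool.Agent.Work.MP_275abe_gt

open MeasureTheory Set
open scoped ContDiff

noncomputable section

theorem tor_fd (F : Fr) {ψ : ℝ → Pt × ℝ → Pt × ℝ} (hψ : IsFlow F.X ψ) (hK : ∀ x, F.K x = 0)
    (v : Pt × ℝ) (t h : ℝ) : HasFDerivAt (fun y : ℝ × ℝ => fm ψ v y.1 y.2)
      ((ContinuousLinearMap.fst ℝ ℝ ℝ).smulRight
          (F.X ((fm ψ v t h).1, (fm ψ v t h).2 - Real.pi / 2)) +
        (ContinuousLinearMap.snd ℝ ℝ ℝ).smulRight (F.X (fm ψ v t h))) (t, h) := by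
  obtain ⟨J, J', hJ0, hJ0', hJ, hJ', hfm⟩ := jac F hψ v
  have h1 : ∀ t h, J' t h = 0 := by
    intro t h
    rw [← hJ0' t]
    refine is_const_of_deriv_eq_zero (f := J' t) (fun h => (hJ' t h).differentiableAt) ?_ h 0
    intro h
    rw [(hJ' t h).deriv, hK]
    simp
  have h2 : ∀ t h, J t h = 1 := by
    intro t h
    rw [← hJ0 t]
    refine is_const_of_deriv_eq_zero (f := J t) (fun h => (hJ t h).differentiableAt) ?_ h 0
    intro h
    rw [(hJ t h).deriv, h1]
  have h3 := hfm t h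
  rw [h1, h2, one_smul, one_mul, sub_zero] at h3
  exact h3

theorem tor_line (F : Fr) {ψ : ℝ → Pt × ℝ → Pt × ℝ} (hψ : IsFlow F.X ψ) (hK : ∀ x, F.K x = 0)
    (v : Pt × ℝ) (a b α s : ℝ) :
    ψ s ((fm ψ v a b).1, (fm ψ v a b).2 - Real.pi / 2 + α) =
      ((fm ψ v (a + s * Real.cos α) (b + s * Real.sin α)).1,
        (fm ψ v (a + s * Real.cos α) (b + s * Real.sin α)).2 - Real.pi / 2 + α) := by
  have hX1 : ContDiff ℝ 1 F.X := F.X_smooth.of_le (by exact WithTop.coe_le_coe.2 le_top)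
  have hz : ∀ s, HasDerivAt (fun s => ((fm ψ v (a + s * Real.cos α) (b + s * Real.sin α)).1,
        (fm ψ v (a + s * Real.cos α) (b + s * Real.sin α)).2 - Real.pi / 2 + α))
      (F.X ((fm ψ v (a + s * Real.cos α) (b + s * Real.sin α)).1,
        (fm ψ v (a + s * Real.cos α) (b + s * Real.sin α)).2 - Real.pi / 2 + α)) s := by
    intro s
    have h1 : HasDerivAt (fun s : ℝ => a + s * Real.cos α) (Real.cos α) s :=
      (((hasDerivAt_id s).mul_const (Real.cos α)).const_add a).congr_deriv (by simp)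
    have h2 : HasDerivAt (fun s : ℝ => b + s * Real.sin α) (Real.sin α) s :=
      (((hasDerivAt_id s).mul_const (Real.sin α)).const_add b).congr_deriv (by simp)
    have h3 := (tor_fd F hψ hK v (a + s * Real.cos α) (b + s * Real.sin α)).comp_hasDerivAt s
      (h1.prodMk h2)
    have h4 : HasDerivAt (fun s => ((fm ψ v (a + s * Real.cos α) (b + s * Real.sin α)).1)) _ s :=
      (ContinuousLinearMap.fst ℝ Pt ℝ).hasFDerivAt.comp_hasDerivAt s h3
    have h5 : HasDerivAt (fun s => ((fm ψ v (a + s * Real.cos α) (b + s * Real.sin α)).2)) _ s :=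
      (ContinuousLinearMap.snd ℝ Pt ℝ).hasFDerivAt.comp_hasDerivAt s h3
    refine (h4.prodMk ((h5.sub_const (Real.pi / 2)).add_const α)).congr_deriv ?_
    generalize fm ψ v (a + s * Real.cos α) (b + s * Real.sin α) = q
    have e1 : Real.cos (q.2 - Real.pi / 2) = Real.sin q.2 := Real.cos_sub_pi_div_two q.2
    have e2 : Real.sin (q.2 - Real.pi / 2) = -Real.cos q.2 := Real.sin_sub_pi_div_two q.2
    simp only [Fr.X, Fr.dir, Fr.lam, Real.cos_add, Real.sin_add, e1, e2,
      ContinuousLinearMap.add_apply, ContinuousLinearMap.smulRight_apply,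
      ContinuousLinearMap.coe_fst', ContinuousLinearMap.coe_snd', Prod.smul_mk, Prod.mk_add_mk]
    refine Prod.ext ?_ ?_
    · ext i
      simp only [Pi.add_apply, Pi.smul_apply, smul_eq_mul]
      ring
    · simp only [smul_eq_mul]
      ring
  have h := flow_unique hX1 hψ hz s
  simp only [zero_mul, add_zero] at h
  exact h.symm

theorem tor_fm (F : Fr) {ψ : ℝ → Pt × ℝ → Pt × ℝ} (hψ : IsFlow F.X ψ) (hK : ∀ x, F.K x = 0)
    (v : Pt × ℝ) (a b α t h : ℝ) :
    (fm ψ ((fm ψ v a b).1, (fm ψ v a b).2 - Real.pi / 2 + α) t h).1 =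
      (fm ψ v (a + (t * Real.cos α - h * Real.sin α))
        (b + (t * Real.sin α + h * Real.cos α))).1 := by
  have h1 : fm ψ ((fm ψ v a b).1, (fm ψ v a b).2 - Real.pi / 2 + α) t h =
      ψ h ((fm ψ v (a + t * Real.cos α) (b + t * Real.sin α)).1,
        (fm ψ v (a + t * Real.cos α) (b + t * Real.sin α)).2 - Real.pi / 2 +
          (α + Real.pi / 2)) := by
    show ψ h ((ψ t _).1, (ψ t _).2 + Real.pi / 2) = _
    rw [tor_line F hψ hK v a b α t]
    simp only
    congr 2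
    ring
  rw [h1, tor_line F hψ hK]
  simp only [Real.cos_add_pi_div_two, Real.sin_add_pi_div_two]
  have e1 : a + t * Real.cos α + h * -Real.sin α = a + (t * Real.cos α - h * Real.sin α) := by ring
  have e2 : b + t * Real.sin α + h * Real.cos α = b + (t * Real.sin α + h * Real.cos α) := by ring
  rw [e1, e2]

theorem tor_surj (F : Fr) {ψ : ℝ → Pt × ℝ → Pt × ℝ} (hψ : IsFlow F.X ψ) (hK : ∀ x, F.K x ≤ 0)
    (v : Pt × ℝ) (x : Pt) : ∃ a b, (fm ψ v a b).1 = x := by
  obtain ⟨T, H, T', H', -, -, -, -, h⟩ := lift_fm F hψ hK v (fun s => v.1 + s • (x - v.1))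
    (fun _ => x - v.1)
    (fun s => (((hasDerivAt_id s).smul_const (x - v.1)).const_add v.1).congr_deriv (by simp))
    continuous_const 0 0 (by simp [fm, hψ.1])
  refine ⟨T 1, H 1, ?_⟩
  rw [(h 1).1]
  simp

theorem tor_fe {G : Met} {Γ : Subgroup (Equiv.Perm Pt)} (hΓ : IsClosedSurf G Γ)
    {φ : ℝ → Pt × Pt → Pt × Pt} (hφ : IsFlow (spray G) φ) (f : Equiv.Perm Pt) (hf : f ∈ Γ)
    (v : Pt × Pt) (t h : ℝ) : fe G φ (act f v) t h = f (fe G φ v t h) := by
  unfold fe
  have h1 : ((act f v).1, (sp G (act f v))⁻¹ • (act f v).2) = act f (v.1, (sp G v)⁻¹ • v.2) := by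
    rw [sp_act G (hΓ.isom f hf)]
    simp [act]
  rw [h1, phi_act hΓ hφ f hf, rot_act hΓ f hf, phi_act hΓ hφ f hf]
  rfl

/-- In flat Fermi coordinates the elements of `Γ` are translations. -/
theorem tor_trans {G : Met} {Γ : Subgroup (Equiv.Perm Pt)} (hΓ : IsClosedSurf G Γ)
    {φ : ℝ → Pt × Pt → Pt × Pt} (hφ : IsFlow (spray G) φ) {ψ : ℝ → Pt × ℝ → Pt × ℝ}
    (hψ : IsFlow (frOf G).X ψ) (h0 : ∀ x, curv G x = 0) (f : Equiv.Perm Pt) (hf : f ∈ Γ) :
    ∃ a b : ℝ, ∀ t h, f (fm ψ (0, 0) t h).1 = (fm ψ (0, 0) (a + t) (b + h)).1 := by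
  have hK0 : ∀ x, (frOf G).K x = 0 := fun x => by rw [← curv_eq]; exact h0 x
  set v₀ : Pt × Pt := (0, unitVec G 0 0) with hv₀
  have hsp : sp G v₀ = 1 := by
    show √(ip G 0 (unitVec G 0 0) (unitVec G 0 0)) = 1
    rw [ip_dir, Real.sqrt_one]
  have hfe : ∀ t h, fe G φ v₀ t h = (fm ψ (0, 0) t h).1 := by
    intro t h
    have := fe_eq G hφ hψ 0 0 1 one_pos t h
    rwa [one_smul] at this
  obtain ⟨θ, hθ⟩ := exists_dir G (act f v₀)
  rw [sp_act G (hΓ.isom f hf), hsp, one_smul] at hθ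
  have hfe2 : ∀ t h, f (fm ψ (0, 0) t h).1 = (fm ψ (f 0, θ) t h).1 := by
    intro t h
    rw [← hfe, ← tor_fe hΓ hφ f hf]
    have h1 : act f v₀ = (f 0, (1 : ℝ) • unitVec G (f 0) θ) := by
      rw [one_smul]
      exact Prod.ext rfl hθ
    rw [h1]
    exact fe_eq G hφ hψ (f 0) θ 1 one_pos t h
  obtain ⟨a, b, hab⟩ := tor_surj (frOf G) hψ (fun x => (hK0 x).le) (0, 0) (f 0)
  set α : ℝ := θ - (fm ψ (0, 0) a b).2 + Real.pi / 2 with hα
  have hw : ((f 0, θ) : Pt × ℝ) = ((fm ψ (0, 0) a b).1,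
      (fm ψ (0, 0) a b).2 - Real.pi / 2 + α) := by
    refine Prod.ext hab.symm ?_
    simp only [hα]
    ring
  have key : ∀ t h, f (fm ψ (0, 0) t h).1 =
      (fm ψ (0, 0) (a + (t * Real.cos α - h * Real.sin α))
        (b + (t * Real.sin α + h * Real.cos α))).1 := by
    intro t h
    rw [hfe2, hw, tor_fm (frOf G) hψ hK0]
  by_cases hc : Real.cos α = 1
  · have hs : Real.sin α = 0 := by
      have := Real.sin_sq_add_cos_sq α
      rw [hc] at this
      nlinarith
    refine ⟨a, b, fun t h => ?_⟩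
    rw [key, hc, hs]
    simp
  · have hc1 : Real.cos α < 1 := lt_of_le_of_ne (Real.cos_le_one α) hc
    have hd : (0 : ℝ) < 2 - 2 * Real.cos α := by linarith
    set t := ((1 - Real.cos α) * a - Real.sin α * b) / (2 - 2 * Real.cos α) with ht
    set h := (Real.sin α * a + (1 - Real.cos α) * b) / (2 - 2 * Real.cos α) with hh
    have hsc := Real.sin_sq_add_cos_sq α
    have e1 : a + (t * Real.cos α - h * Real.sin α) = t := by
      rw [ht, hh]
      field_simp
      linear_combination (-a) * hsc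
    have e2 : b + (t * Real.sin α + h * Real.cos α) = h := by
      rw [ht, hh]
      field_simp
      linear_combination (-b) * hsc
    have hfix : f (fm ψ (0, 0) t h).1 = (fm ψ (0, 0) t h).1 := by
      rw [key, e1, e2]
    have hf1 : f = 1 := hΓ.free f hf _ hfix
    refine ⟨0, 0, fun t h => ?_⟩
    rw [hf1]
    simp

theorem tor_comm {G : Met} {Γ : Subgroup (Equiv.Perm Pt)} (hΓ : IsClosedSurf G Γ)
    (h0 : ∀ x, curv G x = 0) (f g : Equiv.Perm Pt) (hf : f ∈ Γ) (hg : g ∈ Γ) :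
    f * g = g * f := by
  obtain ⟨φ, hφ⟩ := exists_phi hΓ
  obtain ⟨ψ, hψ⟩ := exists_psi G hφ
  have hK0 : ∀ x, (frOf G).K x = 0 := fun x => by rw [← curv_eq]; exact h0 x
  obtain ⟨a, b, hab⟩ := tor_trans hΓ hφ hψ h0 f hf
  obtain ⟨c, d, hcd⟩ := tor_trans hΓ hφ hψ h0 g hg
  apply Equiv.ext
  intro x
  obtain ⟨t, h, rfl⟩ := tor_surj (frOf G) hψ (fun x => (hK0 x).le) (0, 0) x
  rw [Equiv.Perm.mul_apply, Equiv.Perm.mul_apply, hab, hcd, hab, hcd]
  have e1 : a + (c + t) = c + (a + t) := by ring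
  have e2 : b + (d + h) = d + (b + h) := by ring
  rw [e1, e2]

/-- A closed surface of curvature `≤ 0` whose group is not commutative has a point of negative
curvature. -/
theorem tor_neg {G : Met} {Γ : Subgroup (Equiv.Perm Pt)} (hΓ : IsClosedSurf G Γ)
    (hK : ∀ x, curv G x ≤ 0) (hna : ∃ f ∈ Γ, ∃ g ∈ Γ, f * g ≠ g * f) : ∃ x, curv G x < 0 := by
  by_contra hcon
  push Not at hcon
  obtain ⟨f, hf, g, hg, hfg⟩ := hna
  exact hfg (tor_comm hΓ (fun x => le_antisymm (hK x) (hcon x)) f g hf hg)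

end

end Pool.Agent.Work.MP_275abe_gt
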