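import Pool.Agent.Work.MP_275abe_gt.Base

/-!
Change of variables for (x, ξ) -> (f x, A_x ξ). For measurable s, by Tonelli: ∫∫ 1_s(f x, A_x ξ) ρ(x) dξ dx =
∫ ρ(x) / |det A_x| ∫ 1_s(f x, η) dη dx (linear change of variables in ξ, MeasureTheory.Measure.map_linearMap_addHaar_eq_smul_addHaar
or lintegral version) = ∫ ρ(f x) |det Df_x| (∫ 1_s(f x, η) dη) dx = ∫ ρ(y) ∫ 1_s(y, η) dη dy
(lintegral_image_eq_lintegral_abs_det_fderiv_mul; f is a bijection). Here det Df_x and det A_x are not 0 by the hypothesis.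
-/

namespace Pool.Agent.Work.MP_275abe_gt

open MeasureTheory Set
open scoped ContDiff

noncomputable section

/-- the fibre integral of a set. -/
private theorem fibp_inner (s : Set (Pt × Pt)) (hs : MeasurableSet s) (ρ : Pt → ℝ)
    (hρ : Continuous ρ) :
    ((volume : Measure (Pt × Pt)).withDensity fun v => ENNReal.ofReal (ρ v.1)) s =
      ∫⁻ x : Pt, ENNReal.ofReal (ρ x) * volume (Prod.mk x ⁻¹' s) := by
  have hm : Measurable (fun v : Pt × Pt => ENNReal.ofReal (ρ v.1)) :=
    (hρ.measurable.comp measurable_fst).ennreal_ofReal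
  rw [withDensity_apply _ hs, ← lintegral_indicator hs, Measure.volume_eq_prod,
    lintegral_prod _ (hm.indicator hs).aemeasurable]
  refine lintegral_congr fun x => ?_
  have h1 : (fun ξ : Pt => s.indicator (fun v : Pt × Pt => ENNReal.ofReal (ρ v.1)) (x, ξ)) =
      (Prod.mk x ⁻¹' s).indicator fun _ => ENNReal.ofReal (ρ x) := by
    funext ξ
    by_cases h : (x, ξ) ∈ s
    · rw [indicator_of_mem h, indicator_of_mem (show ξ ∈ Prod.mk x ⁻¹' s from h)]
    · rw [indicator_of_notMem h, indicator_of_notMem (show ξ ∉ Prod.mk x ⁻¹' s from h)]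
  rw [h1, lintegral_indicator_const (measurable_prodMk_left hs)]

theorem fib_pres {f : Pt → Pt} (hf : ContDiff ℝ 1 f) (hfb : Function.Bijective f)
    (A : Pt → Pt →L[ℝ] Pt) (hA : Continuous A) (ρ : Pt → ℝ) (hρ : Continuous ρ)
    (hρ0 : ∀ x, 0 < ρ x)
    (h : ∀ x, ρ (f x) * |(fderiv ℝ f x).det| * |(A x).det| = ρ x) :
    MeasurePreserving (fun v : Pt × Pt => (f v.1, A v.1 v.2))
      ((volume : Measure (Pt × Pt)).withDensity fun v => ENNReal.ofReal (ρ v.1))
      ((volume : Measure (Pt × Pt)).withDensity fun v => ENNReal.ofReal (ρ v.1)) := by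
  have hcont : Continuous (fun v : Pt × Pt => (f v.1, A v.1 v.2)) :=
    (hf.continuous.comp continuous_fst).prodMk
      ((hA.comp continuous_fst).clm_apply continuous_snd)
  have hmeas := hcont.measurable
  refine ⟨hmeas, ?_⟩
  ext s hs
  rw [Measure.map_apply hmeas hs, fibp_inner _ (hmeas hs) ρ hρ, fibp_inner _ hs ρ hρ]
  have hdet : ∀ x, (A x).det ≠ 0 := by
    intro x h0
    have h1 := h x
    rw [h0, abs_zero, mul_zero] at h1
    exact (hρ0 x).ne h1
  have h1 : ∀ x : Pt, ENNReal.ofReal (ρ x) *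
      volume (Prod.mk x ⁻¹' ((fun v : Pt × Pt => (f v.1, A v.1 v.2)) ⁻¹' s)) =
      ENNReal.ofReal |(fderiv ℝ f x).det| *
        (ENNReal.ofReal (ρ (f x)) * volume (Prod.mk (f x) ⁻¹' s)) := by
    intro x
    have e1 : Prod.mk x ⁻¹' ((fun v : Pt × Pt => (f v.1, A v.1 v.2)) ⁻¹' s) =
        (A x) ⁻¹' (Prod.mk (f x) ⁻¹' s) := rfl
    rw [e1, Measure.addHaar_preimage_continuousLinearMap volume
      (show LinearMap.det (A x : Pt →ₗ[ℝ] Pt) ≠ 0 from hdet x), ← mul_assoc, ← mul_assoc,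
      ← ENNReal.ofReal_mul (hρ0 x).le, ← ENNReal.ofReal_mul (abs_nonneg _)]
    congr 2
    change ρ x * |((A x).det)⁻¹| = _
    have h2 := h x
    have h3 : |(A x).det| ≠ 0 := abs_ne_zero.2 (hdet x)
    rw [abs_inv]
    field_simp
    linarith
  rw [lintegral_congr h1]
  have h2 := lintegral_image_eq_lintegral_abs_det_fderiv_mul (volume : Measure Pt)
    MeasurableSet.univ (f := f) (f' := fun x => fderiv ℝ f x)
    (fun x _ => ((hf.differentiable (by norm_num)) x).hasFDerivAt.hasFDerivWithinAt)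
    hfb.injective.injOn
    (fun y => ENNReal.ofReal (ρ y) * volume (Prod.mk y ⁻¹' s))
  rw [image_univ, hfb.surjective.range_eq, Measure.restrict_univ] at h2
  exact h2.symm

end

end Pool.Agent.Work.MP_275abe_gt
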