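import Pool.Agent.Work.MP_275abe_gt.Equi
import Pool.Agent.Work.MP_275abe_gt.FibP

/-!
act f preserves det g dx dξ: fib_pres with A = Df; dt (f x) (det Df_x)² = dt x because f is an isometry (Gram
determinants of the coordinate basis).
-/

namespace Pool.Agent.Work.MP_275abe_gt

open MeasureTheory Set
open scoped ContDiff

noncomputable section

private theorem actp_det (G : Met) {f : Pt → Pt}
    (hi : ∀ x u w, ip G (f x) (fderiv ℝ f x u) (fderiv ℝ f x w) = ip G x u w) (x : Pt) :
    dt G (f x) * (fderiv ℝ f x).det ^ 2 = dt G x := by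
  have hdet : (fderiv ℝ f x).det =
      fderiv ℝ f x (Pi.single 0 1) 0 * fderiv ℝ f x (Pi.single 1 1) 1 -
        fderiv ℝ f x (Pi.single 1 1) 0 * fderiv ℝ f x (Pi.single 0 1) 1 := by
    rw [ContinuousLinearMap.det, ← LinearMap.det_toMatrix', Matrix.det_fin_two]
    simp only [LinearMap.toMatrix'_apply, ContinuousLinearMap.coe_coe]
  have key : ∀ u w : Pt, G.g 0 0 (f x) * (fderiv ℝ f x u) 0 * (fderiv ℝ f x w) 0 +
      G.g 0 1 (f x) * (fderiv ℝ f x u) 0 * (fderiv ℝ f x w) 1 +
      (G.g 1 0 (f x) * (fderiv ℝ f x u) 1 * (fderiv ℝ f x w) 0 +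
      G.g 1 1 (f x) * (fderiv ℝ f x u) 1 * (fderiv ℝ f x w) 1) =
      G.g 0 0 x * u 0 * w 0 + G.g 0 1 x * u 0 * w 1 +
      (G.g 1 0 x * u 1 * w 0 + G.g 1 1 x * u 1 * w 1) := by
    intro u w
    have := hi x u w
    simpa only [ip, Fin.sum_univ_two] using this
  have k00 := key (Pi.single 0 1) (Pi.single 0 1)
  have k01 := key (Pi.single 0 1) (Pi.single 1 1)
  have k10 := key (Pi.single 1 1) (Pi.single 0 1)
  have k11 := key (Pi.single 1 1) (Pi.single 1 1)
  rw [hdet]
  generalize fderiv ℝ f x (Pi.single 0 1) = U at *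
  generalize fderiv ℝ f x (Pi.single 1 1) = W at *
  simp only [Pi.single_eq_same, ne_eq, one_ne_zero, zero_ne_one, not_false_eq_true,
    Pi.single_eq_of_ne, mul_one, mul_zero, add_zero, zero_add] at k00 k01 k10 k11
  unfold dt
  rw [← k00, ← k01, ← k10, ← k11]
  ring

theorem act_pres {G : Met} {Γ : Subgroup (Equiv.Perm Pt)} (hΓ : IsClosedSurf G Γ)
    (f : Equiv.Perm Pt) (hf : f ∈ Γ) : MeasurePreserving (act f) (mu G) (mu G) := by
  have hs := hΓ.smooth f hf
  have h := fib_pres (f := (f : Pt → Pt)) (hs.of_le (by norm_num)) f.bijective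
    (fun x => fderiv ℝ (f : Pt → Pt) x) (hs.continuous_fderiv (by norm_num)) (dt G)
    (dt_smooth G).continuous (dt_pos G) (by
      intro x
      rw [mul_assoc, abs_mul_abs_self, ← pow_two]
      exact actp_det G (hΓ.isom f hf) x)
  exact h

end

end Pool.Agent.Work.MP_275abe_gt
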