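import Pool.Agent.Work.MP_275abe_gt.Defs

/-!
Internal definitions: complete flows, framed planes, the geodesic spray, rotations, the action of the
group on tangent vectors.
-/

namespace Pool.Agent.Work.MP_275abe_gt

open MeasureTheory Set
open scoped ContDiff

noncomputable section

/-- `Φ` is the complete flow of the vector field `Z`. -/
def IsFlow {E : Type*} [NormedAddCommGroup E] [NormedSpace ℝ E] (Z : E → E) (Φ : ℝ → E → E) : Prop :=
  (∀ z, Φ 0 z = z) ∧ ∀ z t, HasDerivAt (fun s => Φ s z) (Z (Φ t z)) t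

/-- A plane with a smooth frame `a, b` (to be thought of as orthonormal), with bracket
`[a, b] = p a + q b`. -/
structure Fr where
  a : Pt → Pt
  b : Pt → Pt
  p : Pt → ℝ
  q : Pt → ℝ
  ha : ContDiff ℝ ∞ a
  hb : ContDiff ℝ ∞ b
  hp : ContDiff ℝ ∞ p
  hq : ContDiff ℝ ∞ q
  det : ∀ x, a x 0 * b x 1 - a x 1 * b x 0 ≠ 0
  br : ∀ x, fderiv ℝ b x (a x) - fderiv ℝ a x (b x) = p x • a x + q x • b x

namespace Fr
variable (F : Fr)

/-- The unit vector at `x` with angle `θ`. -/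
def dir (x : Pt) (θ : ℝ) : Pt := Real.cos θ • F.a x + Real.sin θ • F.b x

/-- Minus the connection form on the unit vector with angle `θ`. -/
def lam (x : Pt) (θ : ℝ) : ℝ := F.p x * Real.cos θ + F.q x * Real.sin θ

/-- The geodesic vector field on unit vectors `(x, θ)`. -/
def X (z : Pt × ℝ) : Pt × ℝ := (F.dir z.1 z.2, F.lam z.1 z.2)

/-- The Gaussian curvature. -/
def K (x : Pt) : ℝ := fderiv ℝ F.q x (F.a x) - fderiv ℝ F.p x (F.b x) - F.p x ^ 2 - F.q x ^ 2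

/-- The components of a vector in the frame. -/
def al (x u : Pt) : ℝ := (u 0 * F.b x 1 - u 1 * F.b x 0) / (F.a x 0 * F.b x 1 - F.a x 1 * F.b x 0)
def be (x u : Pt) : ℝ := (F.a x 0 * u 1 - F.a x 1 * u 0) / (F.a x 0 * F.b x 1 - F.a x 1 * F.b x 0)

/-- The length of a vector. -/
def nm (x u : Pt) : ℝ := √(F.al x u ^ 2 + F.be x u ^ 2)

end Fr

/-- Fermi coordinates (with the direction of the normal geodesic): flow along the geodesic for
time `t`, turn left, flow for time `h`. -/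
def fm (ψ : ℝ → Pt × ℝ → Pt × ℝ) (v : Pt × ℝ) (t h : ℝ) : Pt × ℝ :=
  ψ h ((ψ t v).1, (ψ t v).2 + Real.pi / 2)

/-- The Christoffel symbols as a bilinear form with values in vectors. -/
def cV (G : Met) (x u w : Pt) : Pt := fun k => ∑ i, ∑ j, chr G k i j x * u i * w j

/-- The geodesic spray. -/
def spray (G : Met) (v : Pt × Pt) : Pt × Pt := (v.2, -cV G v.1 v.2 v.2)

/-- The speed of a tangent vector. -/
def sp (G : Met) (v : Pt × Pt) : ℝ := √(ip G v.1 v.2 v.2)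

/-- The left turn. -/
def jj (G : Met) (x u : Pt) : Pt := ip G x u (fa G x) • fb G x - ip G x u (fb G x) • fa G x

/-- Rotation of tangent vectors. -/
def rot (G : Met) (α : ℝ) (v : Pt × Pt) : Pt × Pt :=
  (v.1, Real.cos α • v.2 + Real.sin α • jj G v.1 v.2)

/-- The action on tangent vectors. -/
def act (f : Pt → Pt) (v : Pt × Pt) : Pt × Pt := (f v.1, fderiv ℝ f v.1 v.2)

/-- Fermi coordinates along the geodesic of the tangent vector `v` (any speed). -/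
def fe (G : Met) (φ : ℝ → Pt × Pt → Pt × Pt) (v : Pt × Pt) (t h : ℝ) : Pt :=
  (φ h (rot G (Real.pi / 2) (φ t (v.1, (sp G v)⁻¹ • v.2)))).1

/-- The absolute value of the curvature in Fermi coordinates. -/
def kap (G : Met) (φ : ℝ → Pt × Pt → Pt × Pt) (v : Pt × Pt) (t h : ℝ) : ℝ :=
  |curv G (fe G φ v t h)|

/-- The measure `det g dx dξ` on tangent vectors. -/
def mu (G : Met) : Measure (Pt × Pt) :=
  (volume : Measure (Pt × Pt)).withDensity fun v => ENNReal.ofReal (dt G v.1)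

/-- Tangent vectors with speed in `[1, 2)`. -/
def shell (G : Met) : Set (Pt × Pt) := {v | 1 ≤ sp G v ∧ sp G v < 2}

/-- The derivative of a function on tangent vectors along the spray. -/
def lieZ (G : Met) (f : Pt × Pt → ℝ) (v : Pt × Pt) : ℝ := fderiv ℝ f v (spray G v)

/-- The iterated derivatives of the curvature along geodesics. -/
def kz (G : Met) (j : ℕ) : Pt × Pt → ℝ := (lieZ G)^[j] fun v => curv G v.1

/-- Points at which all derivatives of the curvature (along all geodesics) vanish. -/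
def flatPts (G : Met) : Set Pt := {x | ∀ j u, kz G j (x, u) = 0}

/-- Tangent vectors of geodesics of flat points. -/
def flatVec (G : Met) (φ : ℝ → Pt × Pt → Pt × Pt) : Set (Pt × Pt) :=
  {v | ∀ t, (φ t v).1 ∈ flatPts G}

/-- Tangent vectors of geodesics of curvature zero. -/
def zeroVec (G : Met) (φ : ℝ → Pt × Pt → Pt × Pt) : Set (Pt × Pt) :=
  {v | ∀ t, curv G (φ t v).1 = 0}

/-- The Borel sets of tangent vectors which are invariant under the group. -/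
@[instance_reducible] def invMS (Γ : Subgroup (Equiv.Perm Pt)) : MeasurableSpace (Pt × Pt) where
  MeasurableSet' s := MeasurableSet s ∧ ∀ f ∈ Γ, act f ⁻¹' s = s
  measurableSet_empty := ⟨MeasurableSet.empty, fun _ _ => rfl⟩
  measurableSet_compl s hs := ⟨hs.1.compl, fun f hf => by rw [preimage_compl, hs.2 f hf]⟩
  measurableSet_iUnion s hs := ⟨MeasurableSet.iUnion fun i => (hs i).1, fun f hf => by
    rw [preimage_iUnion]; exact iUnion_congr fun i => (hs i).2 f hf⟩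

theorem invMS_le (Γ : Subgroup (Equiv.Perm Pt)) : invMS Γ ≤ (inferInstance : MeasurableSpace (Pt × Pt)) :=
  fun _ hs => hs.1

/-- The measure on invariant sets: the measure of the part above `D` with speed in `[1, 2)`. -/
def qMu (G : Met) (Γ : Subgroup (Equiv.Perm Pt)) (D : Set Pt) : @Measure (Pt × Pt) (invMS Γ) :=
  ((mu G).restrict (shell G ∩ {v | v.1 ∈ D})).trim (invMS_le Γ)

/-- `D` is a bounded Borel fundamental domain. -/
def IsFD (Γ : Subgroup (Equiv.Perm Pt)) (D : Set Pt) : Prop :=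
  MeasurableSet D ∧ Bornology.IsBounded D ∧ ∀ x, ∃! f : Equiv.Perm Pt, f ∈ Γ ∧ f x ∈ D

/-- The hypotheses of the abstract argument (see `Core`). -/
structure CoreHyp {Y : Type*} [MeasurableSpace Y] (μ : Measure Y) (A : Set Y) (s : Y → ℝ)
    (κ : Y → ℝ → ℝ → ℝ) (φ : ℝ → Y → Y) (R : ℝ → Y → Y) : Prop where
  fin : IsFiniteMeasure μ
  Am : MeasurableSet A
  s1 : ∀ v ∈ A, 1 ≤ s v
  s2 : ∀ v ∈ A, s v < 2
  sm : ∀ c : ℝ, MeasurableSet {v | v ∈ A ∧ s v < c}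
  κ0 : ∀ v t h, 0 ≤ κ v t h
  κc : ∀ v ∈ A, Continuous fun y : ℝ × ℝ => κ v y.1 y.2
  κm : ∀ L r τ : ℝ, MeasurableSet {v | v ∈ A ∧ ∀ t h, |t| ≤ s v * L → |h| ≤ r → κ v t h < τ}
  φp : ∀ t, MeasurePreserving (φ t) μ μ
  φA : ∀ t, ∀ v ∈ A, φ t v ∈ A
  φs : ∀ t, ∀ v ∈ A, s (φ t v) = s v
  φκ : ∀ u, ∀ v ∈ A, ∀ t h, κ (φ u v) t h = κ v (t + s v * u) h
  Rp : ∀ b, MeasurePreserving (R b) μ μ
  Rs : ∀ b, ∀ v ∈ A, s (R b v) = s v
  RR : ∀ b v, R (-b) (R b v) = v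
  RA : Filter.Tendsto (fun b => μ (A ∩ R b ⁻¹' A)) (nhds 0) (nhds (μ A))
  TL : ∀ v ∈ A, ∀ σ b τ L w ε : ℝ, (σ = 1 ∨ σ = -1) → 0 < b → b ≤ 1 → 0 < τ → 1 ≤ L → 0 < w →
    ε = L * b ^ 2 + 3 * τ * (1 + w) ^ 2 * L ^ 2 → ε < 1 / 2 → b * L + ε < w →
    (∀ t h, |t| ≤ L + 1 → |h| < w → κ v t h < τ) → ∀ t₀ h₀, |t₀| ≤ L →
    ∃ t' h', κ (R (σ * b) v) t' h' = κ v t₀ h₀ ∧ |t' - t₀| ≤ |h₀ - σ * b * t₀| + 3 * ε ∧
      |h'| ≤ |h₀ - σ * b * t₀| + 3 * ε
  F1 : ∀ ε : ℝ, 0 < ε → ∃ n₀ : ℕ, ∀ n ≥ n₀, ∀ v ∈ A, ∀ t h : ℝ, |h| ≤ (2 : ℝ) ^ (-ε * n) →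
    κ v t h < (2 : ℝ) ^ (-(10 : ℝ) * n)
  F2 : ∃ κ₀ D : ℝ, 0 < κ₀ ∧ 1 ≤ D ∧ ∀ v ∈ A, ∃ t h, |t| ≤ D ∧ |h| ≤ D ∧ κ₀ ≤ κ v t h

end

end Pool.Agent.Work.MP_275abe_gt
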