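import Pool.Agent.Work.MP_275abe_gt.Equi

/-!
Invariant continuous functions of tangent vectors are bounded on vectors of bounded speed: the vectors with speed <= R over
the compact set C form a compact set.
-/

namespace Pool.Agent.Work.MP_275abe_gt

open MeasureTheory Set
open scoped ContDiff

noncomputable section

theorem bddm_diag_smooth : ContDiff ℝ ∞ (fun v : Pt × Pt => ((v.1, v.2, v.2) : Pt × Pt × Pt)) := by
  fun_prop

theorem bddm_ipq_cont (G : Met) : Continuous (fun v : Pt × Pt => ip G v.1 v.2 v.2) :=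
  (ContDiff.comp (g := fun y : Pt × Pt × Pt => ip G y.1 y.2.1 y.2.2)
    (f := fun v : Pt × Pt => ((v.1, v.2, v.2) : Pt × Pt × Pt)) (ip_smooth G) bddm_diag_smooth).continuous

theorem bddm_sp_cont (G : Met) : Continuous (sp G) := (bddm_ipq_cont G).sqrt

/-- On a compact set the metric is bounded below. -/
theorem bddm_ip_lower (G : Met) {C : Set Pt} (hC : IsCompact C) :
    ∃ c > 0, ∀ x ∈ C, ∀ u : Pt, c * ‖u‖ ^ 2 ≤ ip G x u u := by
  rcases C.eq_empty_or_nonempty with rfl | hne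
  · exact ⟨1, one_pos, by simp⟩
  have hS : IsCompact (C ×ˢ Metric.sphere (0 : Pt) 1) := hC.prod (isCompact_sphere _ _)
  have hSne : (C ×ˢ Metric.sphere (0 : Pt) 1).Nonempty :=
    hne.prod (NormedSpace.sphere_nonempty.2 zero_le_one)
  obtain ⟨v, hv, hmin⟩ := hS.exists_isMinOn hSne (bddm_ipq_cont G).continuousOn
  have hv2 : v.2 ≠ 0 := by
    intro h0
    have := hv.2
    rw [h0] at this
    simp at this
  refine ⟨ip G v.1 v.2 v.2, ip_pos G v.1 v.2 hv2, fun x hx u => ?_⟩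
  rcases eq_or_ne u 0 with rfl | hu
  · simp [ip]
  have hn : 0 < ‖u‖ := norm_pos_iff.2 hu
  have hmem : (x, ‖u‖⁻¹ • u) ∈ C ×ˢ Metric.sphere (0 : Pt) 1 := by
    refine ⟨hx, ?_⟩
    simp [norm_smul, hn.ne']
  have h1 : ip G v.1 v.2 v.2 ≤ ip G x (‖u‖⁻¹ • u) (‖u‖⁻¹ • u) := hmin hmem
  rw [ip_smul, ip_symm G x u (‖u‖⁻¹ • u), ip_smul] at h1
  have h2 : ip G x u u = ‖u‖ ^ 2 * (‖u‖⁻¹ * (‖u‖⁻¹ * ip G x u u)) := by
    field_simp
  rw [h2, mul_comm]
  exact mul_le_mul_of_nonneg_left h1 (by positivity)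

/-- The vectors of bounded speed over a compact set form a compact set. -/
theorem bddm_compact_sp (G : Met) {C : Set Pt} (hC : IsCompact C) (R : ℝ) :
    IsCompact {v : Pt × Pt | v.1 ∈ C ∧ sp G v ≤ R} := by
  obtain ⟨c, hc, hlow⟩ := bddm_ip_lower G hC
  refine (hC.prod (isCompact_closedBall (0 : Pt) (√(R ^ 2 / c)))).of_isClosed_subset ?_ ?_
  · exact (hC.isClosed.preimage continuous_fst).inter (isClosed_le (bddm_sp_cont G) continuous_const)
  · rintro ⟨x, u⟩ ⟨hx, hs⟩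
    refine ⟨hx, ?_⟩
    rw [mem_closedBall_zero_iff]
    refine Real.le_sqrt_of_sq_le ?_
    rw [le_div_iff₀ hc]
    have h1 := hlow x hx u
    have h0 : 0 ≤ sp G (x, u) := Real.sqrt_nonneg _
    have h2 : sp G (x, u) ^ 2 = ip G x u u := by
      unfold sp
      rw [Real.sq_sqrt]
      exact le_trans (by positivity) h1
    have h3 : sp G (x, u) ^ 2 ≤ R ^ 2 := pow_le_pow_left₀ h0 hs 2
    dsimp only at h1 ⊢
    nlinarith

theorem inv_bdd {G : Met} {Γ : Subgroup (Equiv.Perm Pt)} (hΓ : IsClosedSurf G Γ)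
    {F : Pt × Pt → ℝ} (hF : Continuous F) (hinv : ∀ f ∈ Γ, ∀ v, F (act f v) = F v) (R : ℝ) :
    ∃ C, ∀ v, sp G v ≤ R → |F v| ≤ C := by
  obtain ⟨C, hC, hcov⟩ := hΓ.cocompact
  obtain ⟨B, hB⟩ := (bddm_compact_sp G hC R).exists_bound_of_continuousOn hF.continuousOn
  refine ⟨B, fun v hv => ?_⟩
  obtain ⟨f, hf, hfC⟩ := hcov v.1
  have h := hB (act f v) ⟨hfC, by rw [sp_act G (hΓ.isom f hf)]; exact hv⟩
  rwa [hinv f hf, Real.norm_eq_abs] at h

end

end Pool.Agent.Work.MP_275abe_gt
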