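import Pool.Agent.Work.MP_275abe_gt.CDefs

/-!
Sequences. count_bad: the sum over kD <= k < N of log W(k) - log W(k+7) telescopes to at most 7 log(D/r), every term is
>= 0 and bad terms are >= -log(99/100) >= 1/100. kmax: the set is nonempty for m >= m0 (contains kD: c 2^kD <= 2^m0 r) and bounded
(2^k <= 2^m D), so it has a largest element: km_mem, km_lt. km_step: W is nonincreasing. km_count: for T finite the number of
m0 <= m < n with kmax m in T is at most |T| + stalls, stalls = number of m with kmax (m+1) = kmax m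
= (n - m0) - (kmax n - kmax m0); from c 2^(kmax m0) <= 2^m0 D and c 2^(kmax n + 1) > 2^n r: 2^stalls < 2 D / r, so
stalls < 1 + log2 (D/r) <= 1 + 2 log (D/r).
-/

namespace Pool.Agent.Work.MP_275abe_gt

open MeasureTheory Set
open scoped ContDiff

noncomputable section

structure Dec (W : ℕ → ℝ) (kD : ℕ) (r D : ℝ) : Prop where
  r0 : 0 < r
  anti : ∀ k ≥ kD, W (k + 1) ≤ W k
  low : ∀ k ≥ kD, r ≤ W k
  up : ∀ k ≥ kD, W k ≤ D

private theorem tele (f : ℕ → ℝ) (a N : ℕ) (h : a ≤ N) :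
    ∑ k ∈ Finset.Ico a N, (f k - f (k + 7)) = ∑ j ∈ Finset.range 7, (f (a + j) - f (N + j)) := by
  induction N, h using Nat.le_induction with
  | base => simp
  | succ N hN ih =>
    rw [Finset.sum_Ico_succ_top hN, ih]
    simp only [Finset.sum_range_succ, Finset.sum_range_zero]
    ring_nf

private theorem Dec.mono {W : ℕ → ℝ} {kD : ℕ} {r D : ℝ} (h : Dec W kD r D) {k k' : ℕ}
    (hk : kD ≤ k) (hkk : k ≤ k') : W k' ≤ W k := by
  induction k', hkk using Nat.le_induction with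
  | base => exact le_rfl
  | succ m hm ih => exact (h.anti m (hk.trans hm)).trans ih

private theorem Dec.log_nonneg {W : ℕ → ℝ} {kD : ℕ} {r D : ℝ} (h : Dec W kD r D) :
    0 ≤ Real.log (D / r) := by
  apply Real.log_nonneg
  rw [le_div_iff₀ h.r0, one_mul]
  exact (h.low kD le_rfl).trans (h.up kD le_rfl)

open Classical in
theorem count_bad {W : ℕ → ℝ} {kD : ℕ} {r D : ℝ} (h : Dec W kD r D) (N : ℕ) :
    (((Finset.Ico kD N).filter fun k => W (k + 7) < 99 / 100 * W k).card : ℝ) ≤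
      700 * Real.log (D / r) := by
  have hlog := h.log_nonneg
  have hr := h.r0
  have hD : 0 < D := lt_of_lt_of_le hr ((h.low kD le_rfl).trans (h.up kD le_rfl))
  rcases lt_or_ge N kD with hN | hN
  · rw [Finset.Ico_eq_empty (by omega)]
    simp only [Finset.filter_empty, Finset.card_empty, Nat.cast_zero]
    linarith
  have hpos : ∀ k, kD ≤ k → 0 < W k := fun k hk => lt_of_lt_of_le hr (h.low k hk)
  have h1 := tele (fun k => Real.log (W k)) kD N hN
  have h2 : ∑ j ∈ Finset.range 7, (Real.log (W (kD + j)) - Real.log (W (N + j)))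
      ≤ ∑ _j ∈ Finset.range 7, Real.log (D / r) := by
    refine Finset.sum_le_sum fun j _ => ?_
    rw [Real.log_div hD.ne' hr.ne']
    have a1 := Real.log_le_log (hpos (kD + j) (by omega)) (h.up (kD + j) (by omega))
    have a2 := Real.log_le_log hr (h.low (N + j) (by omega))
    linarith
  rw [Finset.sum_const, Finset.card_range, nsmul_eq_mul] at h2
  have h3 : (((Finset.Ico kD N).filter fun k => W (k + 7) < 99 / 100 * W k).card : ℝ) * (1 / 100)
      ≤ ∑ k ∈ Finset.Ico kD N, (Real.log (W k) - Real.log (W (k + 7))) := by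
    have h4 : ∑ k ∈ (Finset.Ico kD N).filter (fun k => W (k + 7) < 99 / 100 * W k), (1 / 100 : ℝ)
        ≤ ∑ k ∈ (Finset.Ico kD N).filter (fun k => W (k + 7) < 99 / 100 * W k),
          (Real.log (W k) - Real.log (W (k + 7))) := by
      refine Finset.sum_le_sum fun k hk => ?_
      rw [Finset.mem_filter, Finset.mem_Ico] at hk
      have p1 := hpos k hk.1.1
      have p2 := hpos (k + 7) (by omega)
      rw [← Real.log_div p1.ne' p2.ne']
      have h5 := Real.one_sub_inv_le_log_of_pos (div_pos p1 p2)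
      have h6 : (W k / W (k + 7))⁻¹ ≤ 99 / 100 := by
        rw [inv_div, div_le_iff₀ p1]
        exact hk.2.le
      linarith
    rw [Finset.sum_const, nsmul_eq_mul] at h4
    refine h4.trans (Finset.sum_le_sum_of_subset_of_nonneg (Finset.filter_subset _ _) ?_)
    intro k hk _
    rw [Finset.mem_Ico] at hk
    exact sub_nonneg.2 (Real.log_le_log (hpos (k + 7) (by omega)) (h.mono hk.1 (by omega)))
  push_cast at h2
  linarith

private theorem km_bdd {W : ℕ → ℝ} {kD : ℕ} {r D : ℝ} (h : Dec W kD r D) {c : ℝ} (hc : 1 ≤ c)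
    {m k : ℕ} (hk : kD ≤ k ∧ c * 2 ^ k ≤ 2 ^ m * W k) : (2 : ℝ) ^ k ≤ 2 ^ m * D := by
  have h1 : (0 : ℝ) < 2 ^ k := by positivity
  have h2 : (0 : ℝ) < 2 ^ m := by positivity
  have h3 := h.up k hk.1
  nlinarith [hk.2]

private theorem km_above {W : ℕ → ℝ} {kD : ℕ} {r D : ℝ} (h : Dec W kD r D) {c : ℝ} (hc : 1 ≤ c)
    (m : ℕ) : BddAbove {k : ℕ | kD ≤ k ∧ c * 2 ^ k ≤ 2 ^ m * W k} := by
  refine ⟨⌈(2 : ℝ) ^ m * D⌉₊, ?_⟩
  intro k hk
  have h1 := km_bdd h hc hk
  have h2 : (k : ℝ) ≤ 2 ^ k := by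
    exact_mod_cast (Nat.lt_two_pow_self (n := k)).le
  have h3 := Nat.le_ceil ((2 : ℝ) ^ m * D)
  exact_mod_cast (h2.trans h1).trans h3

theorem km_mem {W : ℕ → ℝ} {kD : ℕ} {r D : ℝ} (h : Dec W kD r D) {c : ℝ} (hc : 1 ≤ c) {m : ℕ}
    (hm : c * 2 ^ kD ≤ 2 ^ m * r) :
    kD ≤ kmax W c kD m ∧ c * 2 ^ kmax W c kD m ≤ 2 ^ m * W (kmax W c kD m) := by
  have hne : {k : ℕ | kD ≤ k ∧ c * 2 ^ k ≤ 2 ^ m * W k}.Nonempty :=
    ⟨kD, le_rfl, hm.trans (mul_le_mul_of_nonneg_left (h.low kD le_rfl) (by positivity))⟩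
  exact Nat.sSup_mem hne (km_above h hc m)

theorem km_lt {W : ℕ → ℝ} {kD : ℕ} {r D : ℝ} (h : Dec W kD r D) {c : ℝ} (hc : 1 ≤ c) {m : ℕ}
    (hm : c * 2 ^ kD ≤ 2 ^ m * r) (k : ℕ) (hk : kmax W c kD m < k) :
    2 ^ m * W k < c * 2 ^ k := by
  by_contra hcon
  have h1 := (km_mem h hc hm).1
  have h2 : k ∈ {k : ℕ | kD ≤ k ∧ c * 2 ^ k ≤ 2 ^ m * W k} := ⟨by omega, not_lt.1 hcon⟩
  have h3 : k ≤ kmax W c kD m := le_csSup (km_above h hc m) h2
  omega

theorem km_step {W : ℕ → ℝ} {kD : ℕ} {r D : ℝ} (h : Dec W kD r D) {c : ℝ} (hc : 1 ≤ c) {m : ℕ}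
    (hm : c * 2 ^ kD ≤ 2 ^ m * r) :
    kmax W c kD (m + 1) = kmax W c kD m ∨ kmax W c kD (m + 1) = kmax W c kD m + 1 := by
  have hm' : c * 2 ^ kD ≤ 2 ^ (m + 1) * r := by
    have : (2 : ℝ) ^ m * r ≤ 2 ^ (m + 1) * r :=
      mul_le_mul_of_nonneg_right (pow_le_pow_right₀ (by norm_num) (Nat.le_succ m)) h.r0.le
    linarith
  obtain ⟨a1, a2⟩ := km_mem h hc hm
  obtain ⟨b1, b2⟩ := km_mem h hc hm'
  have hle : kmax W c kD m ≤ kmax W c kD (m + 1) := by
    by_contra hcon
    have h3 := km_lt h hc hm' (kmax W c kD m) (not_le.1 hcon)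
    have h4 : (0 : ℝ) < 2 ^ m * W (kmax W c kD m) :=
      mul_pos (by positivity) (lt_of_lt_of_le h.r0 (h.low _ a1))
    rw [pow_succ] at h3
    nlinarith
  have hge : kmax W c kD (m + 1) ≤ kmax W c kD m + 1 := by
    by_contra hcon
    obtain ⟨j, hj⟩ : ∃ j, kmax W c kD (m + 1) = j + 1 := ⟨kmax W c kD (m + 1) - 1, by omega⟩
    have hjk : kmax W c kD m < j := by omega
    have h3 := km_lt h hc hm j hjk
    have h4 := h.anti j (by omega)
    rw [hj, pow_succ, pow_succ] at b2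
    have h5 : (2 : ℝ) ^ m * W (j + 1) ≤ 2 ^ m * W j := mul_le_mul_of_nonneg_left h4 (by positivity)
    nlinarith
  omega

theorem km_le {W : ℕ → ℝ} {kD : ℕ} {r D : ℝ} (h : Dec W kD r D) {c : ℝ} (hc : 1 ≤ c) {m : ℕ}
    (hm : c * 2 ^ kD ≤ 2 ^ m * r) : (2 : ℝ) ^ kmax W c kD m ≤ 2 ^ m * D :=
  km_bdd h hc (km_mem h hc hm)

theorem km_count {W : ℕ → ℝ} {kD : ℕ} {r D : ℝ} (h : Dec W kD r D) {c : ℝ} (hc : 1 ≤ c)
    {m₀ n : ℕ} (hm : c * 2 ^ kD ≤ 2 ^ m₀ * r) (hn : m₀ ≤ n) (T : Finset ℕ) :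
    (((Finset.Ico m₀ n).filter fun m => kmax W c kD m ∈ T).card : ℝ) ≤
      T.card + 1 + 2 * Real.log (D / r) := by
  classical
  have hm' : ∀ m, m₀ ≤ m → c * 2 ^ kD ≤ 2 ^ m * r := fun m hmm =>
    hm.trans (mul_le_mul_of_nonneg_right (pow_le_pow_right₀ (by norm_num) hmm) h.r0.le)
  -- stalls
  have hst : ∀ n, m₀ ≤ n →
      ((Finset.Ico m₀ n).filter fun m => kmax W c kD (m + 1) = kmax W c kD m).card
        + kmax W c kD n + m₀ = kmax W c kD m₀ + n := by
    intro n hn
    induction n, hn using Nat.le_induction with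
    | base => simp
    | succ n hn ih =>
      rw [← Finset.insert_Ico_right_eq_Ico_add_one hn, Finset.filter_insert]
      rcases km_step h hc (hm' n hn) with h1 | h1
      · rw [if_pos h1, Finset.card_insert_of_notMem (by simp), h1]
        omega
      · rw [if_neg (by omega), h1]
        omega
  have hle : ((Finset.Ico m₀ n).filter fun m => kmax W c kD m ∈ T).card ≤
      T.card + ((Finset.Ico m₀ n).filter fun m => kmax W c kD (m + 1) = kmax W c kD m).card := by
    have hsub : ((Finset.Ico m₀ n).filter fun m => kmax W c kD m ∈ T) ⊆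
        ((Finset.Ico m₀ n).filter fun m => kmax W c kD m ∈ T ∧
          kmax W c kD (m + 1) = kmax W c kD m + 1) ∪
        ((Finset.Ico m₀ n).filter fun m => kmax W c kD (m + 1) = kmax W c kD m) := by
      intro m hmem
      rw [Finset.mem_filter, Finset.mem_Ico] at hmem
      rw [Finset.mem_union, Finset.mem_filter, Finset.mem_filter, Finset.mem_Ico]
      rcases km_step h hc (hm' m hmem.1.1) with h1 | h1
      · exact Or.inr ⟨hmem.1, h1⟩
      · exact Or.inl ⟨hmem.1, hmem.2, h1⟩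
    refine (Finset.card_le_card hsub).trans ((Finset.card_union_le _ _).trans ?_)
    apply Nat.add_le_add_right
    apply Finset.card_le_card_of_injOn (fun m => kmax W c kD m)
    · intro m hmem
      rw [Finset.mem_coe, Finset.mem_filter] at hmem
      exact hmem.2.1
    · have hmono : ∀ a b, m₀ ≤ a → a ≤ b → kmax W c kD a ≤ kmax W c kD b := by
        intro a b ha hab
        induction b, hab using Nat.le_induction with
        | base => exact le_rfl
        | succ b hb ih =>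
          rcases km_step h hc (hm' b (ha.trans hb)) with h1 | h1 <;> omega
      intro a ha b hb hab
      rw [Finset.mem_coe, Finset.mem_filter, Finset.mem_Ico] at ha hb
      simp only at hab
      rcases lt_trichotomy a b with h1 | h1 | h1
      · have := hmono (a + 1) b (by omega) (by omega)
        omega
      · exact h1
      · have := hmono (b + 1) a (by omega) (by omega)
        omega
  obtain ⟨st, hst'⟩ : ∃ st, st = ((Finset.Ico m₀ n).filter
    fun m => kmax W c kD (m + 1) = kmax W c kD m).card := ⟨_, rfl⟩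
  have h1 := hst n hn
  rw [← hst'] at h1 hle
  -- the bound of the number of stalls
  have hlog := h.log_nonneg
  have hr := h.r0
  have hD : 0 < D := lt_of_lt_of_le hr ((h.low kD le_rfl).trans (h.up kD le_rfl))
  obtain ⟨a1, a2⟩ := km_mem h hc hm
  obtain ⟨b1, b2⟩ := km_mem h hc (hm' n hn)
  have h2 : c * 2 ^ kmax W c kD m₀ ≤ 2 ^ m₀ * D :=
    a2.trans (mul_le_mul_of_nonneg_left (h.up _ a1) (by positivity))
  have h3 : 2 ^ n * r < c * 2 ^ (kmax W c kD n + 1) := by
    have h4 := km_lt h hc (hm' n hn) (kmax W c kD n + 1) (Nat.lt_succ_self _)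
    have h5 : (2 : ℝ) ^ n * r ≤ 2 ^ n * W (kmax W c kD n + 1) :=
      mul_le_mul_of_nonneg_left (h.low _ (by omega)) (by positivity)
    linarith
  have h6 : (2 : ℝ) ^ st * r < 2 * D := by
    have c0 : (0 : ℝ) < c := by linarith
    have e1 : (2 : ℝ) ^ n * 2 ^ kmax W c kD m₀ = 2 ^ st * (2 ^ kmax W c kD n * 2 ^ m₀) := by
      rw [← pow_add, ← pow_add, ← pow_add]
      congr 1
      omega
    have p1 : (0 : ℝ) < 2 ^ kmax W c kD n * 2 ^ m₀ := by positivity
    have h7 : (2 ^ n * r) * (c * 2 ^ kmax W c kD m₀)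
        < (c * 2 ^ (kmax W c kD n + 1)) * (2 ^ m₀ * D) := by
      have q1 : (0 : ℝ) < c * 2 ^ kmax W c kD m₀ := by positivity
      have q2 : (0 : ℝ) < c * 2 ^ (kmax W c kD n + 1) := by positivity
      calc (2 ^ n * r) * (c * 2 ^ kmax W c kD m₀)
          < (c * 2 ^ (kmax W c kD n + 1)) * (c * 2 ^ kmax W c kD m₀) :=
            mul_lt_mul_of_pos_right h3 q1
        _ ≤ _ := mul_le_mul_of_nonneg_left h2 q2.le
    have e2 : (2 ^ n * r) * (c * 2 ^ kmax W c kD m₀)
        = (c * (2 ^ kmax W c kD n * 2 ^ m₀)) * (2 ^ st * r) := by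
      calc (2 ^ n * r) * (c * 2 ^ kmax W c kD m₀)
          = (2 ^ n * 2 ^ kmax W c kD m₀) * (r * c) := by ring
        _ = _ := by rw [e1]; ring
    have e3 : (c * 2 ^ (kmax W c kD n + 1)) * (2 ^ m₀ * D)
        = (c * (2 ^ kmax W c kD n * 2 ^ m₀)) * (2 * D) := by
      rw [pow_succ]
      ring
    rw [e2, e3] at h7
    exact lt_of_mul_lt_mul_left h7 (by positivity)
  have h8 : (st : ℝ) * Real.log 2 ≤ Real.log 2 + Real.log (D / r) := by
    have h9 : (2 : ℝ) ^ st ≤ 2 * (D / r) := by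
      rw [mul_div_assoc', le_div_iff₀ hr]
      exact h6.le
    have h10 := Real.log_le_log (by positivity) h9
    rw [Real.log_pow, Real.log_mul (by norm_num) (div_pos hD hr).ne'] at h10
    exact h10
  have hl2 : (1 : ℝ) / 2 < Real.log 2 := by linarith [Real.log_two_gt_d9]
  have h11 : (st : ℝ) ≤ 1 + 2 * Real.log (D / r) := by
    by_contra hcon
    have h12 := not_le.1 hcon
    nlinarith
  have h13 : (((Finset.Ico m₀ n).filter fun m => kmax W c kD m ∈ T).card : ℝ) ≤ T.card + st := by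
    exact_mod_cast hle
  linarith

end

end Pool.Agent.Work.MP_275abe_gt
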