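import Pool.Agent.Work.MP_275abe_gt.CWd
import Pool.Agent.Work.MP_275abe_gt.CSeq

/-!
badSet is measurable. For v in A the widths form a Dec sequence (from kD on; wd_low, wd_up, wd_anti); kv v = k is equivalent to
kD <= k, 100 s v 2^k <= 2^m wd v k and, for all k' > k, 2^m wd v k' < 100 s v 2^k' (km_mem, km_lt with c = 100 s v, m1, s v < 2).
v -> s v and v -> wd v k (k >= kD) are measurable on A (sm, wd_meas), so {v ∈ A | kv v = k} is measurable. Then badSet is the
countable union over k >= kD of {v ∈ A | kv v = k} ∩ (c_k ∪ c'_k), c_k = {v ∈ A | wd v (k+7) < 0.99 wd v k}, c'_k = A ∩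
φ (60 2^k)⁻¹ c_k (φA, φp measurable).
-/

namespace Pool.Agent.Work.MP_275abe_gt

open MeasureTheory Set
open scoped ContDiff

noncomputable section

section
variable {Y : Type*} [MeasurableSpace Y] {μ : Measure Y} {A : Set Y} {s : Y → ℝ}
  {κ : Y → ℝ → ℝ → ℝ} {φ : ℝ → Y → Y} {R : ℝ → Y → Y} {τ r D : ℝ} {kD m₀ n : ℕ}

theorem wd_dec (h : CoreHyp μ A s κ φ R) (sc : Sc A κ τ r D kD m₀ n) {v : Y} (hv : v ∈ A) :
    Dec (wd s κ τ v) kD r D :=
  ⟨sc.r0, fun _ hk => wd_anti h sc hv hk (Nat.le_succ _), fun _ hk => wd_low h sc hv hk,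
    fun _ hk => wd_up h sc hv hk⟩

private theorem measW (h : CoreHyp μ A s κ φ R) (sc : Sc A κ τ r D kD m₀ n) {k : ℕ} (hk : kD ≤ k) :
    Measurable (A.indicator fun v => wd s κ τ v k) := by
  refine measurable_of_Ioi fun x => ?_
  have h1 := wd_meas h sc hk x
  by_cases hx : x < 0
  · have e : (A.indicator fun v => wd s κ τ v k) ⁻¹' Ioi x = {v | v ∈ A ∧ x < wd s κ τ v k} ∪ Aᶜ := by
      ext v
      by_cases hv : v ∈ A <;> simp [hv, hx]
    rw [e]
    exact h1.union h.Am.compl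
  · have e : (A.indicator fun v => wd s κ τ v k) ⁻¹' Ioi x = {v | v ∈ A ∧ x < wd s κ τ v k} := by
      ext v
      by_cases hv : v ∈ A <;> simp [hv, hx]
    rw [e]
    exact h1

private theorem measS (h : CoreHyp μ A s κ φ R) : Measurable (A.indicator s) := by
  refine measurable_of_Iio fun x => ?_
  have h1 := h.sm x
  by_cases hx : 0 < x
  · have e : (A.indicator s) ⁻¹' Iio x = {v | v ∈ A ∧ s v < x} ∪ Aᶜ := by
      ext v
      by_cases hv : v ∈ A <;> simp [hv, hx]
    rw [e]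
    exact h1.union h.Am.compl
  · have e : (A.indicator s) ⁻¹' Iio x = {v | v ∈ A ∧ s v < x} := by
      ext v
      by_cases hv : v ∈ A <;> simp [hv, hx]
    rw [e]
    exact h1

/-- The sets of vectors which are bad at scale `k`. -/
theorem bad_meas (h : CoreHyp μ A s κ φ R) (sc : Sc A κ τ r D kD m₀ n) {k : ℕ} (hk : kD ≤ k) :
    MeasurableSet {v | v ∈ A ∧ Bad s κ τ k v} := by
  have e : {v | v ∈ A ∧ Bad s κ τ k v} = A ∩ {v | (A.indicator fun v => wd s κ τ v (k + 7)) v <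
      99 / 100 * (A.indicator fun v => wd s κ τ v k) v} := by
    ext v
    by_cases hv : v ∈ A <;> simp [hv, Bad]
  rw [e]
  exact h.Am.inter (measurableSet_lt (measW h sc (by omega)) ((measW h sc hk).const_mul _))

private theorem kv_iff (h : CoreHyp μ A s κ φ R) (sc : Sc A κ τ r D kD m₀ n) {m : ℕ} (hm : m₀ ≤ m)
    {v : Y} (hv : v ∈ A) (k : ℕ) : kv s κ τ kD m v = k ↔
      kD ≤ k ∧ 100 * s v * 2 ^ k ≤ 2 ^ m * wd s κ τ v k ∧
        ∀ k', k < k' → 2 ^ m * wd s κ τ v k' < 100 * s v * 2 ^ k' := by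
  have hd := wd_dec h sc hv
  have s1 := h.s1 v hv
  have s2 := h.s2 v hv
  have hc : (1 : ℝ) ≤ 100 * s v := by linarith
  have hmr : 100 * s v * 2 ^ kD ≤ 2 ^ m * r := by
    have h1 := sc.m1
    have h2 : (2 : ℝ) ^ m₀ * r ≤ 2 ^ m * r :=
      mul_le_mul_of_nonneg_right (pow_le_pow_right₀ (by norm_num) hm) sc.r0.le
    have h3 : (0 : ℝ) < 2 ^ kD := by positivity
    nlinarith
  constructor
  · rintro rfl
    exact ⟨(km_mem hd hc hmr).1, (km_mem hd hc hmr).2, fun k' hk' => km_lt hd hc hmr k' hk'⟩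
  · rintro ⟨h1, h2, h3⟩
    have h4 : k ≤ kmax (wd s κ τ v) (100 * s v) kD m := by
      by_contra hcon
      exact absurd (km_lt hd hc hmr k (not_le.1 hcon)) (not_lt.2 h2)
    rcases h4.eq_or_lt with h5 | h5
    · exact h5.symm
    · exact absurd (km_mem hd hc hmr).2 (not_le.2 (h3 _ h5))

theorem badSet_meas (h : CoreHyp μ A s κ φ R) (sc : Sc A κ τ r D kD m₀ n) {m : ℕ} (hm : m₀ ≤ m) :
    MeasurableSet (badSet A s κ φ τ kD m) := by
  have hE : ∀ k, kD ≤ k → MeasurableSet {v | v ∈ A ∧ kv s κ τ kD m v = k} := by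
    intro k hk
    have e : {v | v ∈ A ∧ kv s κ τ kD m v = k} =
        A ∩ ({v | 100 * (A.indicator s) v * 2 ^ k ≤
            2 ^ m * (A.indicator fun v => wd s κ τ v k) v} ∩
          ⋂ k' ∈ Ioi k, {v | 2 ^ m * (A.indicator fun v => wd s κ τ v k') v <
            100 * (A.indicator s) v * 2 ^ k'}) := by
      ext v
      by_cases hv : v ∈ A
      · simp only [mem_ofPred_eq, hv, true_and, mem_inter_iff, mem_iInter, mem_Ioi,
          indicator_of_mem]
        rw [kv_iff h sc hm hv k]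
        simp [hk]
      · simp [hv]
    rw [e]
    refine h.Am.inter ((measurableSet_le (((measS h).const_mul _).mul_const _)
      ((measW h sc hk).const_mul _)).inter ?_)
    refine MeasurableSet.biInter (to_countable _) fun k' hk' => ?_
    rw [mem_Ioi] at hk'
    exact measurableSet_lt ((measW h sc (by omega)).const_mul _)
      (((measS h).const_mul _).mul_const _)
  have e : badSet A s κ φ τ kD m = ⋃ k ∈ Ici kD, ({v | v ∈ A ∧ kv s κ τ kD m v = k} ∩
      ({v | v ∈ A ∧ Bad s κ τ k v} ∪ φ (60 * 2 ^ k) ⁻¹' {v | v ∈ A ∧ Bad s κ τ k v})) := by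
    ext v
    simp only [badSet, mem_ofPred_eq, mem_iUnion, mem_inter_iff, mem_union, mem_preimage, mem_Ici,
      exists_prop]
    constructor
    · rintro ⟨hv, hb⟩
      refine ⟨kv s κ τ kD m v, ((kv_iff h sc hm hv _).1 rfl).1, ⟨hv, rfl⟩, ?_⟩
      rcases hb with hb | hb
      · exact Or.inl ⟨hv, hb⟩
      · exact Or.inr ⟨h.φA _ v hv, hb⟩
    · rintro ⟨k, -, ⟨hv, rfl⟩, hb⟩
      refine ⟨hv, ?_⟩
      rcases hb with hb | hb
      · exact Or.inl hb.2
      · exact Or.inr hb.2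
  rw [e]
  refine MeasurableSet.biUnion (to_countable _) fun k hk => ?_
  rw [mem_Ici] at hk
  exact (hE k hk).inter ((bad_meas h sc hk).union ((h.φp _).measurable (bad_meas h sc hk)))
end

end

end Pool.Agent.Work.MP_275abe_gt
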