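import Pool.Agent.Work.MP_275abe_gt.Base

/-!
Definitions for the abstract argument.
-/

namespace Pool.Agent.Work.MP_275abe_gt

open MeasureTheory Set
open scoped ContDiff

noncomputable section

/-- The width: the least |h| of an obstacle in the window |t| <= s v 2^k. -/
def wd {Y : Type*} (s : Y → ℝ) (κ : Y → ℝ → ℝ → ℝ) (τ : ℝ) (v : Y) (k : ℕ) : ℝ :=
  sInf {r : ℝ | ∃ t h, |t| ≤ s v * 2 ^ k ∧ |h| = r ∧ τ ≤ κ v t h}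

/-- The scale at which the width is comparable with `c 2^(-m)` times the length. -/
def kmax (W : ℕ → ℝ) (c : ℝ) (kD m : ℕ) : ℕ := sSup {k : ℕ | kD ≤ k ∧ c * 2 ^ k ≤ 2 ^ m * W k}

/-- The data for one application. -/
structure Sc {Y : Type*} (A : Set Y) (κ : Y → ℝ → ℝ → ℝ) (τ r D : ℝ) (kD m₀ n : ℕ) : Prop where
  τ0 : 0 < τ
  r0 : 0 < r
  r1 : r ≤ 1
  D1 : 1 ≤ D
  kD4 : 4 * D ≤ 2 ^ kD
  low : ∀ v ∈ A, ∀ t h, |h| ≤ r → κ v t h < τ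
  obs : ∀ v ∈ A, ∃ t h, |t| ≤ D ∧ |h| ≤ D ∧ τ ≤ κ v t h
  m1 : 200 * 2 ^ kD ≤ 2 ^ m₀ * r
  m2 : 4000 * D ≤ 2 ^ m₀
  tau1 : 2 * 10 ^ 9 * τ * 4 ^ n * D ^ 4 ≤ r
  cnt : 10 * (1402 * Real.log (D / r) + 1) ≤ n - m₀

/-- The scale of the vector `v` for the angle `2^(-m)`. -/
def kv {Y : Type*} (s : Y → ℝ) (κ : Y → ℝ → ℝ → ℝ) (τ : ℝ) (kD m : ℕ) (v : Y) : ℕ :=
  kmax (wd s κ τ v) (100 * s v) kD m

/-- Width drop at scale `k`. -/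
def Bad {Y : Type*} (s : Y → ℝ) (κ : Y → ℝ → ℝ → ℝ) (τ : ℝ) (k : ℕ) (v : Y) : Prop :=
  wd s κ τ v (k + 7) < 99 / 100 * wd s κ τ v k

/-- The vectors which are bad for the angle `2^(-m)`. -/
def badSet {Y : Type*} (A : Set Y) (s : Y → ℝ) (κ : Y → ℝ → ℝ → ℝ) (φ : ℝ → Y → Y) (τ : ℝ)
    (kD m : ℕ) : Set Y :=
  {v | v ∈ A ∧ (Bad s κ τ (kv s κ τ kD m v) v ∨
    Bad s κ τ (kv s κ τ kD m v) (φ (60 * 2 ^ kv s κ τ kD m v) v))}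

end

end Pool.Agent.Work.MP_275abe_gt
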