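import Pool.Agent.Work.MP_275abe_gt.CScal

/-!
Step (II). b = (1/2)^m, k0 = kv v, L0 = s v 2^k0, w0 = wd v k0. φ (60 2^k0) v is not bad at scale k0: wd (φ ..) k0 <=
wd (φ ..) (k0+7) / 0.99 <= w0 / 0.99 (wd_shift': 2^k0 + 60 2^k0 <= 2^(k0+7)), so v has an obstacle (t0, h0) with |t0 - 60 L0| <= L0,
|h0| <= w0/0.99 (wd_att for φ .., φκ, φs), and |h0| >= wd v (k0+7) >= 0.99 w0. Let σ = sign h0, TL for v, σ, L = 61 L0, w = 0.99 w0
(free strip: wd_free at scale k0 + 7, 61 L0 + 1 <= 128 L0; errors: err_bound): |h0 - σ b t0| = |h0| - b t0, where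
59 b L0 <= b t0 <= 61 b L0 <= 0.61 w0 and b L0 > 0.99 w0 / 200: so |h0| - b t0 is between 0.38 w0 and 1.0102 w0 - 0.292 w0
<= 0.72 w0. So v1 = R (σ b) v has an obstacle with |h'| <= 0.73 w0, |t'| <= 61 L0 + 0.73 w0 <= s 2^(k0+6):
wd v1 (k0+6) <= 0.73 w0 (wd_le, Rs).
-/

namespace Pool.Agent.Work.MP_275abe_gt

open MeasureTheory Set
open scoped ContDiff

noncomputable section

section
variable {Y : Type*} [MeasurableSpace Y] {μ : Measure Y} {A : Set Y} {s : Y → ℝ}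
  {κ : Y → ℝ → ℝ → ℝ} {φ : ℝ → Y → Y} {R : ℝ → Y → Y} {τ r D : ℝ} {kD m₀ n : ℕ}

theorem drift (h : CoreHyp μ A s κ φ R) (sc : Sc A κ τ r D kD m₀ n) {m : ℕ} (hm : m₀ ≤ m)
    (hn : m < n) {v : Y} (hv : v ∈ A) (hvb : v ∉ badSet A s κ φ τ kD m)
    (hv1 : R (1 * (1 / 2) ^ m) v ∈ A) (hv2 : R (-1 * (1 / 2) ^ m) v ∈ A) :
    ∃ σ : ℝ, (σ = 1 ∨ σ = -1) ∧ wd s κ τ (R (σ * (1 / 2) ^ m) v) (kv s κ τ kD m v + 6) ≤
      73 / 100 * wd s κ τ v (kv s κ τ kD m v) := by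
  obtain ⟨b, hb⟩ : ∃ b : ℝ, b = (1 / 2) ^ m := ⟨_, rfl⟩
  have hb0 : 0 < b := by rw [hb]; positivity
  have hb1 : b ≤ 1 := by
    rw [hb]
    exact pow_le_one₀ (by norm_num) (by norm_num)
  obtain ⟨k0, hk0⟩ : ∃ k0, k0 = kv s κ τ kD m v := ⟨_, rfl⟩
  obtain ⟨a1, a2, a3, a4, a5, a6, a7⟩ := scale_facts h sc hm hv hvb hk0
  have hsv1 := h.s1 v hv
  have hD4 := sc.kD4
  have hD1 := sc.D1
  have hr := sc.r0
  obtain ⟨L0, hL0⟩ : ∃ L0, L0 = s v * 2 ^ k0 := ⟨_, rfl⟩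
  obtain ⟨w0, hw0⟩ : ∃ w0, w0 = wd s κ τ v k0 := ⟨_, rfl⟩
  have pk1 : (2 : ℝ) ^ kD ≤ 2 ^ k0 := pow_le_pow_right₀ (by norm_num) a1
  have hp2 : (0 : ℝ) < 2 ^ k0 := by positivity
  have hL0D : 4 * D ≤ L0 := by
    rw [hL0]
    nlinarith
  have h61 : 1 ≤ 61 * L0 := by linarith
  obtain ⟨ε, hε⟩ : ∃ ε : ℝ,
      ε = (61 * L0) * b ^ 2 + 3 * τ * (1 + 99 / 100 * w0) ^ 2 * (61 * L0) ^ 2 := ⟨_, rfl⟩
  obtain ⟨e0, e1, e2, e3⟩ := err_bound h sc hm hn hv hvb hk0 (L := 61 * L0)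
    (w := 99 / 100 * w0) (ε := ε) h61 (by rw [hL0]) (by rw [hw0]) (by rw [hε, hb])
  rw [← hw0] at e2
  rw [← hb] at e3
  rw [← hb, ← hL0, ← hw0] at a4
  rw [← hb, ← hL0] at a5
  rw [← hw0] at a2 a3 a6
  rw [← hk0, ← hw0]
  have hw0p : 0 < w0 := by linarith
  obtain ⟨u, hu⟩ : ∃ u : ℝ, u = 60 * 2 ^ k0 := ⟨_, rfl⟩
  have hu0 : |u| = 60 * 2 ^ k0 := by rw [hu, abs_of_pos (by positivity)]
  rw [← hu] at a7
  have hwin : (2 : ℝ) ^ k0 + |u| ≤ 2 ^ (k0 + 7) := by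
    rw [hu0, pow_add]
    norm_num
    linarith
  have s1 : wd s κ τ v (k0 + 7) ≤ wd s κ τ (φ u v) k0 := wd_shift h sc hv a1 u hwin
  have s2 : wd s κ τ (φ u v) (k0 + 7) ≤ w0 := by
    rw [hw0]
    exact wd_shift' h sc hv a1 u hwin
  obtain ⟨t, h0, ht, hh0, hκ0⟩ := wd_att h sc (h.φA u v hv) a1
  rw [h.φs u v hv, ← hL0] at ht
  rw [h.φκ u v hv] at hκ0
  obtain ⟨t0, ht0⟩ : ∃ t0, t0 = t + s v * u := ⟨_, rfl⟩
  rw [← ht0] at hκ0
  have hsu : s v * u = 60 * L0 := by rw [hu, hL0]; ring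
  rw [hsu] at ht0
  obtain ⟨ta, tb⟩ := abs_le.1 ht
  have hta : 59 * L0 ≤ t0 := by linarith
  have htb : t0 ≤ 61 * L0 := by linarith
  have hta' : |t0| ≤ 61 * L0 := by
    rw [abs_of_nonneg (by linarith)]
    exact htb
  have hba : 59 * (b * L0) ≤ b * t0 := by
    have := mul_le_mul_of_nonneg_left hta hb0.le
    linarith
  have hbb : b * t0 ≤ 61 * (b * L0) := by
    have := mul_le_mul_of_nonneg_left htb hb0.le
    linarith
  have hanti : wd s κ τ v (k0 + 7) ≤ wd s κ τ v (k0 + 1) := wd_anti h sc hv (by omega) (by omega)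
  have hlo : 99 / 100 * w0 ≤ |h0| := by linarith
  have hup : 99 / 100 * |h0| ≤ w0 := by linarith
  have hfree : ∀ t h', |t| ≤ 61 * L0 + 1 → |h'| < 99 / 100 * w0 → κ v t h' < τ := by
    intro t h' ht hh
    refine wd_free h sc hv (k0 + 7) t h' (ht.trans ?_) (lt_of_lt_of_le hh a6)
    rw [pow_add, ← mul_assoc, ← hL0]
    norm_num
    linarith only [hL0D, hD1]
  -- the end of the proof for a given sign
  have main : ∀ σ : ℝ, (σ = 1 ∨ σ = -1) → |h0 - σ * b * t0| ≤ |h0| - b * t0 →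
      R (σ * (1 / 2) ^ m) v ∈ A →
      wd s κ τ (R (σ * (1 / 2) ^ m) v) (k0 + 6) ≤ 73 / 100 * w0 := by
    intro σ hσ hdist hA
    obtain ⟨t', h', q1, q2, q3⟩ := h.TL v hv σ b τ (61 * L0) (99 / 100 * w0) ε hσ hb0 hb1 sc.τ0 h61
      (by linarith only [hw0p]) hε e1 e3 hfree t0 h0 hta'
    rw [hb] at q1
    have hd : |h0 - σ * b * t0| ≤ 72 / 100 * w0 := by
      linarith only [hdist, hba, a5, a6, hanti, hup, hw0p]
    have hh' : |h'| ≤ 73 / 100 * w0 := by linarith only [q3, hd, e2, hw0p]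
    have ht' : |t'| ≤ 61 * L0 + 73 / 100 * w0 := by
      have h1 : |t'| ≤ |t' - t0| + |t0| := by
        have := abs_add_le (t' - t0) t0
        simpa using this
      linarith only [h1, q2, hd, e2, hw0p, hta']
    refine (wd_le h sc hA (k0 + 6) t' h' ?_ (by rw [q1]; exact hκ0)).trans hh'
    rw [h.Rs _ v hv, pow_add, ← mul_assoc, ← hL0]
    norm_num
    linarith only [ht', a3, hL0D, hD1]
  have hb61 : b * t0 ≤ 61 / 100 * w0 := by linarith only [hbb, a4]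
  rcases le_or_gt 0 h0 with hpos | hneg
  · refine ⟨1, Or.inl rfl, main 1 (Or.inl rfl) ?_ hv1⟩
    have h1 : |h0| = h0 := abs_of_nonneg hpos
    rw [h1] at hlo ⊢
    rw [one_mul, abs_of_nonneg (by linarith only [hb61, hlo, hw0p])]
  · refine ⟨-1, Or.inr rfl, main (-1) (Or.inr rfl) ?_ hv2⟩
    have h1 : |h0| = -h0 := abs_of_neg hneg
    rw [h1] at hlo ⊢
    rw [abs_of_nonpos (by linarith only [hb61, hlo, hw0p])]
    linarith only []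
end

end

end Pool.Agent.Work.MP_275abe_gt
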