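import Pool.Agent.Work.MP_275abe_gt.CNb
import Pool.Agent.Work.MP_275abe_gt.CDr

/-!
The geometric contradiction (complete).
-/

namespace Pool.Agent.Work.MP_275abe_gt

open MeasureTheory Set
open scoped ContDiff

noncomputable section

section
variable {Y : Type*} [MeasurableSpace Y] {μ : Measure Y} {A : Set Y} {s : Y → ℝ}
  {κ : Y → ℝ → ℝ → ℝ} {φ : ℝ → Y → Y} {R : ℝ → Y → Y} {τ r D : ℝ} {kD m₀ n : ℕ}

theorem triple_false (h : CoreHyp μ A s κ φ R) (sc : Sc A κ τ r D kD m₀ n) {m : ℕ} (hm : m₀ ≤ m)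
    (hn : m < n) {v : Y} (hv : v ∈ A) (hvb : v ∉ badSet A s κ φ τ kD m)
    (hv1 : R (1 * (1 / 2) ^ m) v ∈ A) (hb1 : R (1 * (1 / 2) ^ m) v ∉ badSet A s κ φ τ kD m)
    (hv2 : R (-1 * (1 / 2) ^ m) v ∈ A) (hb2 : R (-1 * (1 / 2) ^ m) v ∉ badSet A s κ φ τ kD m) :
    False := by
  have h3 := (scale_facts h sc hm hv hvb rfl).2.1
  obtain ⟨σ, hσ, h2⟩ := drift h sc hm hn hv hvb hv1 hv2
  have h1 : 96 / 100 * wd s κ τ v (kv s κ τ kD m v) ≤
      wd s κ τ (R (σ * (1 / 2) ^ m) v) (kv s κ τ kD m v + 6) := by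
    rcases hσ with rfl | rfl
    · exact neighbour h sc hm hn hv hvb (Or.inl rfl) hv1 hb1
    · exact neighbour h sc hm hn hv hvb (Or.inr rfl) hv2 hb2
  have h4 := sc.r0
  linarith
end

end

end Pool.Agent.Work.MP_275abe_gt
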