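import Pool.Agent.Work.MP_275abe_gt.CDefs

/-!
Choice of the data: F2 gives κ₀, D; kD with 4 D <= 2^kD; F1 with ε = 10^(-6); r = 2^(-ε n), τ = 2^(-10 n), m₀ = n / 2 (floor). For
large n: τ <= κ₀; m1: 200 2^kD <= 2^(n/2 - 1) 2^(-ε n) 2..; m2; tau1: 2 10^9 D^4 2^(-8 n) <= 2^(-ε n); cnt: log (D/r) = log D +
ε n log 2 and 14020 ε log 2 < 1/100, so 10 (1402 log (D/r) + 1) <= n / 100 + const <= n / 2 <= n - m₀.
-/

namespace Pool.Agent.Work.MP_275abe_gt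

open MeasureTheory Set
open scoped ContDiff

noncomputable section

section
variable {Y : Type*} [MeasurableSpace Y] {μ : Measure Y} {A : Set Y} {s : Y → ℝ}
  {κ : Y → ℝ → ℝ → ℝ} {φ : ℝ → Y → Y} {R : ℝ → Y → Y}

theorem exists_sc (h : CoreHyp μ A s κ φ R) : ∃ D : ℝ, ∃ kD n₁ : ℕ, ∀ n ≥ n₁,
    Sc A κ ((2 : ℝ) ^ (-(10 : ℝ) * n)) ((2 : ℝ) ^ (-(1 / 10 ^ 6 : ℝ) * n)) D kD (n / 2) n := by
  obtain ⟨κ₀, D, hκ, hD1, hobs⟩ := h.F2
  obtain ⟨n₀, hn₀⟩ := h.F1 (1 / 10 ^ 6) (by norm_num)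
  obtain ⟨kD, hkD⟩ := pow_unbounded_of_one_lt (4 * D) (one_lt_two : (1 : ℝ) < 2)
  have hD : 0 < D := by linarith
  obtain ⟨n₁, hn₁⟩ := exists_nat_ge (10 ^ 6 * (1 + |Real.log (200 * 2 ^ kD)| +
    |Real.log (4000 * D)| + |Real.log (2 * 10 ^ 9 * D ^ 4)| + |Real.log κ₀| + |Real.log D|))
  have l1 := Real.log_two_gt_d9
  have l2 := Real.log_two_lt_d9
  refine ⟨D, kD, max n₀ n₁, fun n hn => ?_⟩
  have hnn₀ : n₀ ≤ n := (le_max_left _ _).trans hn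
  have hnn₁ : (n₁ : ℝ) ≤ n := by exact_mod_cast (le_max_right _ _).trans hn
  have hbig := hn₁.trans hnn₁
  have a1 := abs_nonneg (Real.log (200 * 2 ^ kD))
  have a2 := abs_nonneg (Real.log (4000 * D))
  have a3 := abs_nonneg (Real.log (2 * 10 ^ 9 * D ^ 4))
  have a4 := abs_nonneg (Real.log κ₀)
  have a5 := abs_nonneg (Real.log D)
  have b1 := le_abs_self (Real.log (200 * 2 ^ kD))
  have b2 := le_abs_self (Real.log (4000 * D))
  have b3 := le_abs_self (Real.log (2 * 10 ^ 9 * D ^ 4))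
  have b4 := neg_abs_le (Real.log κ₀)
  have b5 := le_abs_self (Real.log D)
  have hn0 : (0 : ℝ) ≤ n := Nat.cast_nonneg n
  have hh1 : ((n / 2 : ℕ) : ℝ) ≤ n / 2 := Nat.cast_div_le
  have hh2 : ((n : ℝ) - 1) / 2 ≤ ((n / 2 : ℕ) : ℝ) := by
    have : n ≤ 2 * (n / 2) + 1 := by omega
    have h' : (n : ℝ) ≤ 2 * ((n / 2 : ℕ) : ℝ) + 1 := by exact_mod_cast this
    linarith
  have hnl1 : (n : ℝ) * 0.69 ≤ n * Real.log 2 :=
    mul_le_mul_of_nonneg_left (by linarith) hn0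
  have hnl2 : (n : ℝ) * Real.log 2 ≤ n * 0.7 :=
    mul_le_mul_of_nonneg_left (by linarith) hn0
  have hml : ((n : ℝ) - 1) / 2 * Real.log 2 ≤ ((n / 2 : ℕ) : ℝ) * Real.log 2 :=
    mul_le_mul_of_nonneg_right hh2 (by linarith)
  have hlr : Real.log ((2 : ℝ) ^ (-(1 / 10 ^ 6 : ℝ) * n)) = -(1 / 10 ^ 6 : ℝ) * n * Real.log 2 :=
    Real.log_rpow two_pos _
  have hlτ : Real.log ((2 : ℝ) ^ (-(10 : ℝ) * n)) = -(10 : ℝ) * n * Real.log 2 :=
    Real.log_rpow two_pos _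
  have hl4 : Real.log ((4 : ℝ) ^ n) = 2 * (n * Real.log 2) := by
    rw [Real.log_pow, show (4 : ℝ) = 2 ^ 2 by norm_num, Real.log_pow]
    push_cast
    ring
  have hr0 : (0 : ℝ) < (2 : ℝ) ^ (-(1 / 10 ^ 6 : ℝ) * n) := by positivity
  have hτ0 : (0 : ℝ) < (2 : ℝ) ^ (-(10 : ℝ) * n) := by positivity
  have hτκ : (2 : ℝ) ^ (-(10 : ℝ) * n) ≤ κ₀ := by
    rw [← Real.log_le_log_iff hτ0 hκ, hlτ]
    linarith
  refine ⟨hτ0, hr0, ?_, hD1, hkD.le, ?_, ?_, ?_, ?_, ?_, ?_⟩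
  · apply Real.rpow_le_one_of_one_le_of_nonpos one_le_two
    have : (0 : ℝ) ≤ 1 / 10 ^ 6 * n := by positivity
    linarith
  · exact hn₀ n hnn₀
  · intro v hv
    obtain ⟨t, x, h1, h2, h3⟩ := hobs v hv
    exact ⟨t, x, h1, h2, hτκ.trans h3⟩
  · rw [← Real.log_le_log_iff (by positivity) (by positivity),
      Real.log_mul (pow_ne_zero _ two_ne_zero) hr0.ne', hlr, Real.log_pow]
    linarith
  · rw [← Real.log_le_log_iff (by positivity) (by positivity), Real.log_pow]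
    linarith
  · rw [← Real.log_le_log_iff (by positivity) (by positivity), hlr,
      show (2 : ℝ) * 10 ^ 9 * 2 ^ (-(10 : ℝ) * n) * 4 ^ n * D ^ 4 =
        2 * 10 ^ 9 * D ^ 4 * (2 ^ (-(10 : ℝ) * n) * 4 ^ n) by ring,
      Real.log_mul (x := 2 * 10 ^ 9 * D ^ 4) (by positivity) (by positivity),
      Real.log_mul (x := 2 ^ (-(10 : ℝ) * n)) (by positivity) (by positivity), hlτ, hl4]
    have q1 : Real.log (2 * 10 ^ 9 * D ^ 4) ≤ n / 10 ^ 6 := by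
      refine b3.trans ?_
      rw [le_div_iff₀ (by positivity)]
      linarith
    have q2 : (n : ℝ) / 10 ^ 6 ≤ 7 * (n * Real.log 2) := by linarith
    have q3 : Real.log (2 * 10 ^ 9 * D ^ 4) ≤ 7 * (n * Real.log 2) := q1.trans q2
    have q4 : -(10 : ℝ) * n * Real.log 2 + 2 * (n * Real.log 2) = - 8 * (n * Real.log 2) := by ring
    have q5 : -(1 / 10 ^ 6 : ℝ) * n * Real.log 2 = -(1 / 10 ^ 6) * (n * Real.log 2) := by ring
    rw [q4, q5]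
    linarith
  · rw [Real.log_div hD.ne' hr0.ne', hlr]
    linarith
end

end

end Pool.Agent.Work.MP_275abe_gt
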