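import Pool.Agent.Work.MP_275abe_gt.CSel
import Pool.Agent.Work.MP_275abe_gt.CGeo
import Pool.Agent.Work.MP_275abe_gt.CSc

/-!
The end of the abstract argument. Suppose μ A ≠ 0 (μ A is finite). By RA (at b and -b) for large n and all m >= n / 2,
b = (1/2)^m: μ (A ∩ R b⁻¹ A) >= (9/10) μ A and the same for -b. With exists_sc and m of select: the five sets badSet,
{v ∈ A | R (±b) v ∉ A}, (R (±b))⁻¹ badSet have measure at most μ A / 10 each (Rp), so some v in A is in none of them: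
triple_false.
-/

namespace Pool.Agent.Work.MP_275abe_gt

open MeasureTheory Set
open scoped ContDiff

noncomputable section

section
variable {Y : Type*} [MeasurableSpace Y] {μ : Measure Y} {A : Set Y} {s : Y → ℝ}
  {κ : Y → ℝ → ℝ → ℝ} {φ : ℝ → Y → Y} {R : ℝ → Y → Y}

theorem core (h : CoreHyp μ A s κ φ R) : μ A = 0 := by
  have := h.fin
  by_contra hA0
  have hA : 0 < μ.real A := ENNReal.toReal_pos hA0 (measure_ne_top μ A)
  obtain ⟨D, kD, n₁, hsc⟩ := exists_sc h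
  have hlim : Filter.Tendsto (fun b => μ.real (A ∩ R b ⁻¹' A)) (nhds 0) (nhds (μ.real A)) :=
    (ENNReal.tendsto_toReal (measure_ne_top μ A)).comp h.RA
  have hlt : ∀ᶠ b in nhds (0 : ℝ), 9 / 10 * μ.real A < μ.real (A ∩ R b ⁻¹' A) :=
    (tendsto_order.1 hlim).1 _ (by linarith)
  have t0 : Filter.Tendsto (fun m : ℕ => ((1 : ℝ) / 2) ^ m) Filter.atTop (nhds 0) :=
    tendsto_pow_atTop_nhds_zero_of_lt_one (by norm_num) (by norm_num)
  have t1 : Filter.Tendsto (fun m : ℕ => (1 : ℝ) * (1 / 2) ^ m) Filter.atTop (nhds 0) := by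
    simpa using t0.const_mul 1
  have t2 : Filter.Tendsto (fun m : ℕ => (-1 : ℝ) * (1 / 2) ^ m) Filter.atTop (nhds 0) := by
    simpa using t0.const_mul (-1)
  obtain ⟨M, hM⟩ := Filter.eventually_atTop.1 ((t1.eventually hlt).and (t2.eventually hlt))
  have sc := hsc (n₁ + 2 * M) (Nat.le_add_right _ _)
  obtain ⟨m, hm, hmn, hbad⟩ := select h sc
  obtain ⟨g1, g2⟩ := hM m (by omega)
  set B : Set Y := badSet A s κ φ ((2 : ℝ) ^ (-(10 : ℝ) * (n₁ + 2 * M : ℕ))) kD m with hB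
  have hBm : MeasurableSet B := badSet_meas h sc hm
  have hb0 : μ.real B ≤ μ.real A / 10 := by
    have h1 := ENNReal.toReal_mono (measure_ne_top μ A) hbad
    rw [ENNReal.toReal_mul, show (10 : ENNReal).toReal = 10 by simp] at h1
    have h2 : 10 * μ.real B ≤ μ.real A := h1
    linarith
  have hpre : ∀ b, μ.real (R b ⁻¹' B) ≤ μ.real A / 10 := by
    intro b
    have h1 : μ.real (R b ⁻¹' B) = μ.real B := by
      unfold Measure.real
      rw [(h.Rp b).measure_preimage hBm.nullMeasurableSet]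
    rw [h1]
    exact hb0
  have hdiff : ∀ b, 9 / 10 * μ.real A < μ.real (A ∩ R b ⁻¹' A) →
      μ.real (A \ R b ⁻¹' A) ≤ μ.real A / 10 := by
    intro b hb
    have h1 := measureReal_inter_add_sdiff (μ := μ) (s := A) ((h.Rp b).measurable h.Am)
    linarith
  obtain ⟨v, hv, hnot⟩ : ∃ v ∈ A, v ∉ B ∪ (A \ R (1 * (1 / 2) ^ m) ⁻¹' A) ∪
      (A \ R (-1 * (1 / 2) ^ m) ⁻¹' A) ∪ (R (1 * (1 / 2) ^ m) ⁻¹' B) ∪
      (R (-1 * (1 / 2) ^ m) ⁻¹' B) := by
    by_contra hcon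
    push Not at hcon
    have h1 : μ.real A ≤ μ.real (B ∪ (A \ R (1 * (1 / 2) ^ m) ⁻¹' A) ∪
      (A \ R (-1 * (1 / 2) ^ m) ⁻¹' A) ∪ (R (1 * (1 / 2) ^ m) ⁻¹' B) ∪
      (R (-1 * (1 / 2) ^ m) ⁻¹' B)) := measureReal_mono hcon
    have h2 := measureReal_union_le (μ := μ) (B ∪ (A \ R (1 * (1 / 2) ^ m) ⁻¹' A) ∪
      (A \ R (-1 * (1 / 2) ^ m) ⁻¹' A) ∪ (R (1 * (1 / 2) ^ m) ⁻¹' B))
      (R (-1 * (1 / 2) ^ m) ⁻¹' B)
    have h3 := measureReal_union_le (μ := μ) (B ∪ (A \ R (1 * (1 / 2) ^ m) ⁻¹' A) ∪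
      (A \ R (-1 * (1 / 2) ^ m) ⁻¹' A)) (R (1 * (1 / 2) ^ m) ⁻¹' B)
    have h4 := measureReal_union_le (μ := μ) (B ∪ (A \ R (1 * (1 / 2) ^ m) ⁻¹' A))
      (A \ R (-1 * (1 / 2) ^ m) ⁻¹' A)
    have h5 := measureReal_union_le (μ := μ) B (A \ R (1 * (1 / 2) ^ m) ⁻¹' A)
    have e1 := hpre (1 * (1 / 2) ^ m)
    have e2 := hpre (-1 * (1 / 2) ^ m)
    have e3 := hdiff _ g1
    have e4 := hdiff _ g2
    linarith
  simp only [mem_union, mem_sdiff, mem_preimage, not_or, not_and, not_not] at hnot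
  obtain ⟨⟨⟨⟨f1, f2⟩, f3⟩, f4⟩, f5⟩ := hnot
  exact triple_false h sc hm hmn hv f1 (f2 hv) f4 (f3 hv) f5
end

end

end Pool.Agent.Work.MP_275abe_gt
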