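import Pool.Agent.Work.MP_275abe_gt.CScal

/-!
Step (I). b = (1/2)^m, v0 = v, v1 = R (σ b) v, both in A and not in badSet. For i = 0, 1: k_i = kv v_i, L_i = s 2^(k_i), w_i = wd v_i k_i
(scale_facts for both). v = R (-σ b) v1 (RR). v1 has an obstacle (t0, h0), |t0| <= L1, |h0| = w1 (wd_att). TL for v1, -σ, L = L1,
w = 0.99 w1 (free strip: wd_free at scale k1 + 7, L1 + 1 <= s 2^(k1+7); errors: err_bound): an obstacle of v with
|h'| <= w1 + b L1 + 3 ε <= 1.0115 w1, |t'| <= L1 + 1.0115 w1 <= 2 L1 (w1 <= D, 4 D <= 2^kD). So wd v (k1 + 1) <= 1.0115 w1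
(wd_le). If k1 + 1 <= k0: w0 <= 1.0115 w1 and 100 b L0 <= w0 <= 1.0115 w1 < 1.0115/0.99 · 200 b L1 < 400 b L1, so k1 >= k0 - 1.
If k1 = k0: 0.99 w0 <= wd v (k0+1) <= 1.0115 w1. If k1 >= k0 + 1: w1 >= 100 b L1 >= 200 b L0 > wd v (k0+1) >= 0.99 w0. In all
cases w1 >= 0.97 w0 and k1 >= k0 - 1, so wd v1 (k0 + 6) >= wd v1 (k1 + 7) >= 0.99 w1 >= 0.96 w0 (wd_anti). s v1 = s v (Rs).
-/

namespace Pool.Agent.Work.MP_275abe_gt

open MeasureTheory Set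
open scoped ContDiff

noncomputable section

section
variable {Y : Type*} [MeasurableSpace Y] {μ : Measure Y} {A : Set Y} {s : Y → ℝ}
  {κ : Y → ℝ → ℝ → ℝ} {φ : ℝ → Y → Y} {R : ℝ → Y → Y} {τ r D : ℝ} {kD m₀ n : ℕ}

theorem neighbour (h : CoreHyp μ A s κ φ R) (sc : Sc A κ τ r D kD m₀ n) {m : ℕ} (hm : m₀ ≤ m)
    (hn : m < n) {v : Y} (hv : v ∈ A) (hvb : v ∉ badSet A s κ φ τ kD m) {σ : ℝ}
    (hσ : σ = 1 ∨ σ = -1) (hv' : R (σ * (1 / 2) ^ m) v ∈ A)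
    (hvb' : R (σ * (1 / 2) ^ m) v ∉ badSet A s κ φ τ kD m) :
    96 / 100 * wd s κ τ v (kv s κ τ kD m v) ≤
      wd s κ τ (R (σ * (1 / 2) ^ m) v) (kv s κ τ kD m v + 6) := by
  obtain ⟨b, hb⟩ : ∃ b : ℝ, b = (1 / 2) ^ m := ⟨_, rfl⟩
  have hb0 : 0 < b := by rw [hb]; positivity
  have hb1 : b ≤ 1 := by
    rw [hb]
    exact pow_le_one₀ (by norm_num) (by norm_num)
  obtain ⟨v1, hv1⟩ : ∃ v1, v1 = R (σ * (1 / 2) ^ m) v := ⟨_, rfl⟩
  obtain ⟨k0, hk0⟩ : ∃ k0, k0 = kv s κ τ kD m v := ⟨_, rfl⟩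
  obtain ⟨k1, hk1⟩ : ∃ k1, k1 = kv s κ τ kD m v1 := ⟨_, rfl⟩
  rw [← hv1] at hv' hvb' ⊢
  rw [← hk0]
  have f0 := scale_facts h sc hm hv hvb hk0
  have f1 := scale_facts h sc hm hv' hvb' hk1
  obtain ⟨a1, a2, a3, a4, a5, a6, -⟩ := f0
  obtain ⟨c1, c2, c3, c4, c5, c6, -⟩ := f1
  have hs1 : s v1 = s v := by rw [hv1]; exact h.Rs _ v hv
  have hsv1 := h.s1 v hv
  have hD4 := sc.kD4
  have hD1 := sc.D1
  have hr := sc.r0
  rw [hs1] at c4 c5
  rw [← hb] at a4 a5 c4 c5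
  obtain ⟨L0, hL0⟩ : ∃ L0, L0 = s v * 2 ^ k0 := ⟨_, rfl⟩
  obtain ⟨L1, hL1⟩ : ∃ L1, L1 = s v * 2 ^ k1 := ⟨_, rfl⟩
  obtain ⟨w0, hw0⟩ : ∃ w0, w0 = wd s κ τ v k0 := ⟨_, rfl⟩
  obtain ⟨w1, hw1⟩ : ∃ w1, w1 = wd s κ τ v1 k1 := ⟨_, rfl⟩
  rw [← hL0, ← hw0] at a4
  rw [← hL0] at a5
  rw [← hw0] at a2 a3 a6
  rw [← hL1, ← hw1] at c4
  rw [← hL1] at c5
  rw [← hw1] at c2 c3 c6
  rw [← hw0]
  have pk1 : (2 : ℝ) ^ kD ≤ 2 ^ k1 := pow_le_pow_right₀ (by norm_num) c1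
  have hL1D : 4 * D ≤ L1 := by
    rw [hL1]
    have : (0 : ℝ) < 2 ^ k1 := by positivity
    nlinarith
  have hL1' : 1 ≤ L1 := by linarith
  obtain ⟨ε, hε⟩ : ∃ ε : ℝ, ε = L1 * b ^ 2 + 3 * τ * (1 + 99 / 100 * w1) ^ 2 * L1 ^ 2 := ⟨_, rfl⟩
  have hεb := err_bound h sc hm hn hv' hvb' hk1 (L := L1) (w := 99 / 100 * w1) (ε := ε) hL1'
    (by rw [hs1, ← hL1]; linarith) (by rw [hw1]) (by rw [hε, hb])
  obtain ⟨e0, e1, e2, e3⟩ := hεb
  rw [← hw1] at e2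
  rw [← hb] at e3
  have hw1p : 0 < w1 := by linarith
  obtain ⟨t0, h0, ht0, hh0, hκ0⟩ := wd_att h sc hv' c1
  rw [hs1, ← hL1] at ht0
  rw [← hw1] at hh0
  have hfree : ∀ t h', |t| ≤ L1 + 1 → |h'| < 99 / 100 * w1 → κ v1 t h' < τ := by
    intro t h' ht hh
    refine wd_free h sc hv' (k1 + 7) t h' (ht.trans ?_) (lt_of_lt_of_le hh c6)
    rw [hs1, pow_add, ← mul_assoc, ← hL1]
    norm_num
    linarith
  have hσ' : -σ = 1 ∨ -σ = -1 := by
    rcases hσ with rfl | rfl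
    · right; rfl
    · left; norm_num
  obtain ⟨t', h', q1, q2, q3⟩ := h.TL v1 hv' (-σ) b τ L1 (99 / 100 * w1) ε hσ' hb0 hb1 sc.τ0 hL1'
    (by linarith) hε e1 e3 hfree t0 h0 ht0
  have hRR : R (-σ * b) v1 = v := by
    have h1 := h.RR (σ * (1 / 2) ^ m) v
    rw [← hv1, ← hb] at h1
    rwa [neg_mul]
  rw [hRR] at q1
  have hσb : |σ * b| = b := by
    rcases hσ with rfl | rfl
    · rw [one_mul, abs_of_pos hb0]
    · rw [neg_one_mul, abs_neg, abs_of_pos hb0]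
  have hsh : |h0 - -σ * b * t0| ≤ w1 + b * L1 := by
    have h1 : |h0 - -σ * b * t0| ≤ |h0| + |-σ * b * t0| := abs_sub _ _
    have h2 : |-σ * b * t0| = b * |t0| := by
      rw [abs_mul, neg_mul, abs_neg, hσb]
    rw [h2, hh0] at h1
    have h3 := mul_le_mul_of_nonneg_left ht0 hb0.le
    linarith
  have hh' : |h'| ≤ 1011 / 1000 * w1 := by linarith
  have ht' : |t'| ≤ L1 + 1011 / 1000 * w1 := by
    have h1 : |t'| ≤ |t' - t0| + |t0| := by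
      have := abs_add_le (t' - t0) t0
      simpa using this
    linarith
  have hwv : wd s κ τ v (k1 + 1) ≤ 1011 / 1000 * w1 := by
    refine (wd_le h sc hv (k1 + 1) t' h' ?_ (by rw [q1]; exact hκ0)).trans hh'
    rw [pow_succ, ← mul_assoc, ← hL1]
    linarith
  -- comparison of the scales
  have key : 97 / 100 * w0 ≤ w1 ∧ k0 ≤ k1 + 1 := by
    rcases lt_trichotomy k0 (k1 + 1) with hlt | heq | hgt
    · rcases Nat.lt_or_ge k1 (k0 + 1) with h1 | h1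
      · have h2 : k1 = k0 := by omega
        refine ⟨?_, by omega⟩
        have h3 : wd s κ τ v (k0 + 7) ≤ wd s κ τ v (k1 + 1) :=
          wd_anti h sc hv (by omega) (by omega)
        linarith only [h3, a6, hwv, hw1p]
      · refine ⟨?_, by omega⟩
        have h2 : 2 * L0 ≤ L1 := by
          rw [hL0, hL1]
          have h3 : (2 : ℝ) ^ (k0 + 1) ≤ 2 ^ k1 := pow_le_pow_right₀ (by norm_num) h1
          rw [pow_succ] at h3
          have h9 := mul_le_mul_of_nonneg_left h3 (by linarith only [hsv1] : (0 : ℝ) ≤ s v)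
          linarith only [h9]
        have h4 : wd s κ τ v (k0 + 7) ≤ wd s κ τ v (k0 + 1) :=
          wd_anti h sc hv (by omega) (by omega)
        have h5 : b * (2 * L0) ≤ b * L1 := mul_le_mul_of_nonneg_left h2 hb0.le
        have h6 : 0 < w0 := by linarith only [hr, a2]
        linarith only [h4, h5, h6, a5, a6, c4]
    · refine ⟨?_, by omega⟩
      have h1 : w0 = wd s κ τ v (k1 + 1) := by rw [hw0, heq]
      rw [← h1] at hwv
      linarith only [hwv, hr, a2]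
    · exfalso
      have h1 : w0 ≤ wd s κ τ v (k1 + 1) := by
        rw [hw0]
        exact wd_anti h sc hv (by omega) (by omega)
      have h2 : wd s κ τ v1 (k1 + 7) ≤ wd s κ τ v1 (k1 + 1) :=
        wd_anti h sc hv' (by omega) (by omega)
      have h3 : 4 * L1 ≤ L0 := by
        rw [hL0, hL1]
        have h3 : (2 : ℝ) ^ (k1 + 2) ≤ 2 ^ k0 := pow_le_pow_right₀ (by norm_num) (by omega)
        rw [pow_add] at h3
        have h9 := mul_le_mul_of_nonneg_left h3 (by linarith only [hsv1] : (0 : ℝ) ≤ s v)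
        linarith only [h9]
      have h4 : b * (4 * L1) ≤ b * L0 := mul_le_mul_of_nonneg_left h3 hb0.le
      have h5 : 0 < b * L1 := mul_pos hb0 (by linarith only [hL1'])
      linarith only [h1, h2, h4, h5, a4, hwv, c5, c6]
  obtain ⟨g1, g2⟩ := key
  have hfin : wd s κ τ v1 (k1 + 7) ≤ wd s κ τ v1 (k0 + 6) :=
    wd_anti h sc hv' (by omega) (by omega)
  linarith only [hfin, g1, c6, hr, a2]
end

end

end Pool.Agent.Work.MP_275abe_gt
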