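import Pool.Agent.Work.MP_275abe_gt.CWd
import Pool.Agent.Work.MP_275abe_gt.CSeq

/-!
Facts at the chosen scale. b = (1/2)^m = 2^(-m), k = kv v, L = s v 2^k, w = wd v k. scale_facts: Dec sequence (wd_low, wd_up,
wd_anti), km_mem, km_lt (with c = 100 s v, 100 <= c < 200, and m1), definition of badSet. err_bound: for 1 <= L' <= 61 L: b L' <=
0.61 w, L' <= 0.61 D 2^n; L' b² <= 0.61 w b <= 0.61 w / (4000 D) (m2), 3 τ (1+w)² L'² <= 3 τ (2D)² (0.61 D 2^n)² <= r / 10^7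
(tau1), r <= w, r <= 1.
-/

namespace Pool.Agent.Work.MP_275abe_gt

open MeasureTheory Set
open scoped ContDiff

noncomputable section

section
variable {Y : Type*} [MeasurableSpace Y] {μ : Measure Y} {A : Set Y} {s : Y → ℝ}
  {κ : Y → ℝ → ℝ → ℝ} {φ : ℝ → Y → Y} {R : ℝ → Y → Y} {τ r D : ℝ} {kD m₀ n : ℕ}

theorem scale_facts (h : CoreHyp μ A s κ φ R) (sc : Sc A κ τ r D kD m₀ n) {m : ℕ} (hm : m₀ ≤ m)
    {v : Y} (hv : v ∈ A) (hvb : v ∉ badSet A s κ φ τ kD m) {k : ℕ} (hk : k = kv s κ τ kD m v) :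
    kD ≤ k ∧ r ≤ wd s κ τ v k ∧ wd s κ τ v k ≤ D ∧
      100 * ((1 / 2) ^ m * (s v * 2 ^ k)) ≤ wd s κ τ v k ∧
      wd s κ τ v (k + 1) < 200 * ((1 / 2) ^ m * (s v * 2 ^ k)) ∧
      99 / 100 * wd s κ τ v k ≤ wd s κ τ v (k + 7) ∧
      99 / 100 * wd s κ τ (φ (60 * 2 ^ k) v) k ≤ wd s κ τ (φ (60 * 2 ^ k) v) (k + 7) := by
  have hd : Dec (wd s κ τ v) kD r D :=
    ⟨sc.r0, fun _ hk => wd_anti h sc hv hk (Nat.le_succ _), fun _ hk => wd_low h sc hv hk,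
      fun _ hk => wd_up h sc hv hk⟩
  have s1 := h.s1 v hv
  have s2 := h.s2 v hv
  have hc : (1 : ℝ) ≤ 100 * s v := by linarith
  have hmr : 100 * s v * 2 ^ kD ≤ 2 ^ m * r := by
    have h1 := sc.m1
    have h2 : (2 : ℝ) ^ m₀ * r ≤ 2 ^ m * r :=
      mul_le_mul_of_nonneg_right (pow_le_pow_right₀ (by norm_num) hm) sc.r0.le
    have h3 : (0 : ℝ) < 2 ^ kD := by positivity
    nlinarith
  obtain ⟨a1, a2⟩ := km_mem hd hc hmr
  have a3 := km_lt hd hc hmr (k + 1) (by rw [hk]; exact Nat.lt_succ_self _)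
  have hkk : kmax (wd s κ τ v) (100 * s v) kD m = k := hk.symm
  rw [hkk] at a1 a2
  have hpm : ((1 : ℝ) / 2) ^ m * 2 ^ m = 1 := by
    rw [← mul_pow]
    norm_num
  have hp : (0 : ℝ) < (1 / 2) ^ m := by positivity
  have hb : ¬ (Bad s κ τ k v ∨ Bad s κ τ k (φ (60 * 2 ^ k) v)) := by
    intro hb
    apply hvb
    refine ⟨hv, ?_⟩
    rw [← hk]
    exact hb
  rw [not_or] at hb
  refine ⟨a1, hd.low k a1, hd.up k a1, ?_, ?_, not_lt.1 hb.1, not_lt.1 hb.2⟩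
  · have h1 := mul_le_mul_of_nonneg_left a2 hp.le
    have e : (1 / 2 : ℝ) ^ m * (2 ^ m * wd s κ τ v k) = wd s κ τ v k := by
      rw [← mul_assoc, hpm, one_mul]
    rw [e] at h1
    calc 100 * ((1 / 2) ^ m * (s v * 2 ^ k)) = (1 / 2) ^ m * (100 * s v * 2 ^ k) := by ring
      _ ≤ _ := h1
  · have h1 := mul_lt_mul_of_pos_left a3 hp
    have e : (1 / 2 : ℝ) ^ m * (2 ^ m * wd s κ τ v (k + 1)) = wd s κ τ v (k + 1) := by
      rw [← mul_assoc, hpm, one_mul]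
    rw [e] at h1
    calc wd s κ τ v (k + 1) < (1 / 2) ^ m * (100 * s v * 2 ^ (k + 1)) := h1
      _ = _ := by rw [pow_succ]; ring

theorem err_bound (h : CoreHyp μ A s κ φ R) (sc : Sc A κ τ r D kD m₀ n) {m : ℕ} (hm : m₀ ≤ m)
    (hn : m < n) {v : Y} (hv : v ∈ A) (hvb : v ∉ badSet A s κ φ τ kD m) {k : ℕ}
    (hk : k = kv s κ τ kD m v) {L w ε : ℝ} (hL : 1 ≤ L) (hL' : L ≤ 61 * (s v * 2 ^ k))
    (hw : w = 99 / 100 * wd s κ τ v k)
    (hε : ε = L * ((1 / 2) ^ m) ^ 2 + 3 * τ * (1 + w) ^ 2 * L ^ 2) :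
    0 ≤ ε ∧ ε < 1 / 2 ∧ 3 * ε ≤ wd s κ τ v k / 1000 ∧ (1 / 2) ^ m * L + ε < w := by
  obtain ⟨-, f1, f2, f3, -, -, -⟩ := scale_facts h sc hm hv hvb hk
  generalize wd s κ τ v k = W at *
  have hp : (0 : ℝ) < (1 / 2) ^ m := by positivity
  have hpm : ((1 : ℝ) / 2) ^ m * 2 ^ m = 1 := by
    rw [← mul_pow]
    norm_num
  have hτ := sc.τ0
  have hr := sc.r0
  have hr1 := sc.r1
  have hD1 := sc.D1
  have hm2 : 4000 * D ≤ 2 ^ m := sc.m2.trans (pow_le_pow_right₀ (by norm_num) hm)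
  have htau := sc.tau1
  have h2mn : (2 : ℝ) ^ m ≤ 2 ^ n := pow_le_pow_right₀ (by norm_num) hn.le
  have h4 : (4 : ℝ) ^ n = 2 ^ n * 2 ^ n := by
    rw [← mul_pow]
    norm_num
  rw [h4] at htau
  generalize ((1 : ℝ) / 2) ^ m = b at *
  generalize (2 : ℝ) ^ m = P at *
  generalize (2 : ℝ) ^ n = Q at *
  generalize s v * 2 ^ k = L₀ at *
  have hW : 0 < W := lt_of_lt_of_le hr f1
  -- `b L ≤ 0.61 W`
  have g1 : b * L ≤ 61 / 100 * W := by
    have : b * L ≤ b * (61 * L₀) := mul_le_mul_of_nonneg_left hL' hp.le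
    nlinarith
  -- `b D ≤ 1 / 4000`
  have g2 : b * D ≤ 1 / 4000 := by
    have : b * (4000 * D) ≤ b * P := mul_le_mul_of_nonneg_left hm2 hp.le
    rw [hpm] at this
    linarith
  have g2' : b ≤ 1 / 4000 := by nlinarith
  have hbL : 0 ≤ b * L := by positivity
  -- `L b² ≤ 0.61 W / 4000` and `≤ 1 / 4000`
  have g3 : L * b ^ 2 ≤ 61 / 100 * W / 4000 := by
    have e : L * b ^ 2 = (b * L) * b := by ring
    rw [e]
    calc (b * L) * b ≤ (61 / 100 * W) * (1 / 4000) :=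
          mul_le_mul g1 g2' hp.le (by positivity)
      _ = _ := by ring
  have g3' : L * b ^ 2 ≤ 1 / 4000 := by
    have e : L * b ^ 2 = (b * L) * b := by ring
    rw [e]
    calc (b * L) * b ≤ (1 * D) * b := by
          apply mul_le_mul_of_nonneg_right _ hp.le
          nlinarith
      _ = b * D := by ring
      _ ≤ _ := g2
  -- `L ≤ D Q`
  have hPpos : 0 < P := by nlinarith
  have g4 : L ≤ 61 / 100 * (D * Q) := by
    have e : L = P * (b * L) := by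
      calc L = (b * P) * L := by rw [hpm, one_mul]
        _ = _ := by ring
    rw [e]
    calc P * (b * L) ≤ P * (61 / 100 * W) := mul_le_mul_of_nonneg_left g1 hPpos.le
      _ ≤ Q * (61 / 100 * D) := mul_le_mul h2mn (by linarith) (by positivity) (by linarith)
      _ = _ := by ring
  have hw0 : 0 ≤ w := by rw [hw]; positivity
  have g5 : (1 + w) ^ 2 ≤ 4 * D ^ 2 := by
    have : 1 + w ≤ 2 * D := by rw [hw]; linarith
    nlinarith
  have g6 : L ^ 2 ≤ (61 / 100 * (D * Q)) ^ 2 := by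
    have : 0 ≤ L := by linarith
    exact pow_le_pow_left₀ this g4 2
  have g7 : 3 * τ * (1 + w) ^ 2 * L ^ 2 ≤ 3 * τ * (4 * D ^ 2) * (61 / 100 * (D * Q)) ^ 2 := by
    apply mul_le_mul _ g6 (by positivity) (by positivity)
    exact mul_le_mul_of_nonneg_left g5 (by positivity)
  have g8 : 3 * τ * (4 * D ^ 2) * (61 / 100 * (D * Q)) ^ 2 ≤ 5 * (τ * (Q * Q) * D ^ 4) := by
    have e : 3 * τ * (4 * D ^ 2) * (61 / 100 * (D * Q)) ^ 2
        = (12 * (61 / 100) ^ 2) * (τ * (Q * Q) * D ^ 4) := by ring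
    rw [e]
    apply mul_le_mul_of_nonneg_right (by norm_num)
    have : 0 ≤ Q * Q := mul_self_nonneg Q
    positivity
  have g9 : 5 * (τ * (Q * Q) * D ^ 4) ≤ r / 10 ^ 8 := by
    have : 2 * 10 ^ 9 * (τ * (Q * Q) * D ^ 4) ≤ r := by
      calc 2 * 10 ^ 9 * (τ * (Q * Q) * D ^ 4) = 2 * 10 ^ 9 * τ * (Q * Q) * D ^ 4 := by ring
        _ ≤ r := htau
    linarith
  have g10 : 3 * τ * (1 + w) ^ 2 * L ^ 2 ≤ r / 10 ^ 8 := (g7.trans g8).trans g9
  refine ⟨?_, ?_, ?_, ?_⟩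
  · rw [hε]; positivity
  · rw [hε]; linarith
  · rw [hε]; linarith
  · rw [hε, hw] at *; linarith
end

end

end Pool.Agent.Work.MP_275abe_gt
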