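import Pool.Agent.Work.MP_275abe_gt.CBad

/-!
Selection of a scale. Put c_k = {v ∈ A | Bad k v} and c'_k = {v ∈ A | φ (60 2^k) v ∈ c_k}, so μ c'_k <= μ c_k (φp, φA).
Sum over m0 <= m < n of μ (badSet m) = ∫_A #{m | kv m v ∈ T_v}, T_v = {k | kD <= k < N, v ∈ c_k or v ∈ c'_k}, with N a bound for all
kv m v + 1, m < n (km_le: 2^kv <= 2^n D); at most ∫_A (#T_v + 1 + 2 log (D/r)) <= (700 + 700 + 2) log (D/r) μ A + μ A
(km_count, count_bad, and Σ_k μ c'_k <= Σ_k μ c_k = ∫_A #{k | v ∈ c_k} <= 700 log (D/r) μ A). As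
n - m0 >= 10 (1402 log (D/r) + 1), some m has 10 μ (badSet m) <= μ A.
-/

namespace Pool.Agent.Work.MP_275abe_gt

open MeasureTheory Set
open scoped ContDiff

noncomputable section

section
variable {Y : Type*} [MeasurableSpace Y] {μ : Measure Y} {A : Set Y} {s : Y → ℝ}
  {κ : Y → ℝ → ℝ → ℝ} {φ : ℝ → Y → Y} {R : ℝ → Y → Y} {τ r D : ℝ} {kD m₀ n : ℕ}

omit [MeasurableSpace Y] in
private theorem sum_ind {ι : Type*} (F : Finset ι) (c : ι → Set Y) (v : Y) [DecidablePred fun i => v ∈ c i] :
    ∑ i ∈ F, (c i).indicator (fun _ => (1 : ENNReal)) v =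
      ENNReal.ofReal ((F.filter fun i => v ∈ c i).card : ℝ) := by
  rw [ENNReal.ofReal_natCast, Finset.card_filter, Nat.cast_sum]
  refine Finset.sum_congr rfl fun i _ => ?_
  by_cases hv : v ∈ c i <;> simp [hv]

private theorem sum_meas {ι : Type*} (F : Finset ι) (c : ι → Set Y) (hc : ∀ i ∈ F, MeasurableSet (c i)) :
    ∑ i ∈ F, μ (c i) = ∫⁻ v, ∑ i ∈ F, (c i).indicator (fun _ => (1 : ENNReal)) v ∂μ := by
  rw [lintegral_finsetSum' F fun i hi => (measurable_const.indicator (hc i hi)).aemeasurable]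
  refine Finset.sum_congr rfl fun i hi => ?_
  rw [lintegral_indicator (hc i hi), setLIntegral_const, one_mul]

theorem select (h : CoreHyp μ A s κ φ R) (sc : Sc A κ τ r D kD m₀ n) :
    ∃ m, m₀ ≤ m ∧ m < n ∧ 10 * μ (badSet A s κ φ τ kD m) ≤ μ A := by
  classical
  have := h.fin
  have hr := sc.r0
  have hD : 0 < D := lt_of_lt_of_le one_pos sc.D1
  have hlog : 0 ≤ Real.log (D / r) := by
    apply Real.log_nonneg
    rw [le_div_iff₀ hr, one_mul]
    exact sc.r1.trans sc.D1
  have hcnt := sc.cnt
  have hmn : m₀ < n := by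
    by_contra hcon
    have h1 : (n : ℝ) ≤ m₀ := by exact_mod_cast not_lt.1 hcon
    linarith
  set Λ : ℝ := Real.log (D / r) with hΛ
  obtain ⟨N, hN⟩ : ∃ N : ℕ, ∀ m, m₀ ≤ m → m < n → ∀ v ∈ A,
      kmax (wd s κ τ v) (100 * s v) kD m < N ∧ kD ≤ kmax (wd s κ τ v) (100 * s v) kD m := by
    refine ⟨⌈(2 : ℝ) ^ n * D⌉₊ + 1, fun m hm hmn' v hv => ?_⟩
    have hd := wd_dec h sc hv
    have s1 := h.s1 v hv
    have s2 := h.s2 v hv
    have hc : (1 : ℝ) ≤ 100 * s v := by linarith
    have hmr : 100 * s v * 2 ^ kD ≤ 2 ^ m * r := by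
      have h1 := sc.m1
      have h2 : (2 : ℝ) ^ m₀ * r ≤ 2 ^ m * r :=
        mul_le_mul_of_nonneg_right (pow_le_pow_right₀ (by norm_num) hm) sc.r0.le
      have h3 : (0 : ℝ) < 2 ^ kD := by positivity
      nlinarith
    refine ⟨?_, (km_mem hd hc hmr).1⟩
    have h1 := km_le hd hc hmr
    have h2 : (kmax (wd s κ τ v) (100 * s v) kD m : ℝ) ≤
        2 ^ kmax (wd s κ τ v) (100 * s v) kD m := by
      exact_mod_cast (Nat.lt_two_pow_self (n := kmax (wd s κ τ v) (100 * s v) kD m)).le
    have h3 : (2 : ℝ) ^ m * D ≤ 2 ^ n * D :=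
      mul_le_mul_of_nonneg_right (pow_le_pow_right₀ (by norm_num) hmn'.le) hD.le
    have h4 := Nat.le_ceil ((2 : ℝ) ^ n * D)
    have h5 : kmax (wd s κ τ v) (100 * s v) kD m ≤ ⌈(2 : ℝ) ^ n * D⌉₊ := by
      exact_mod_cast ((h2.trans h1).trans h3).trans h4
    omega
  -- the two families of sets
  let c : ℕ → Set Y := fun k => {v | v ∈ A ∧ Bad s κ τ k v}
  let c' : ℕ → Set Y := fun k => A ∩ φ (60 * 2 ^ k) ⁻¹' c k
  have hcm : ∀ k ∈ Finset.Ico kD N, MeasurableSet (c k) := fun k hk =>
    bad_meas h sc (Finset.mem_Ico.1 hk).1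
  have hcm' : ∀ k ∈ Finset.Ico kD N, MeasurableSet (c' k) := fun k hk =>
    h.Am.inter ((h.φp _).measurable (hcm k hk))
  have hbm : ∀ m ∈ Finset.Ico m₀ n, MeasurableSet (badSet A s κ φ τ kD m) := fun m hm =>
    badSet_meas h sc (Finset.mem_Ico.1 hm).1
  -- the sum over the first family
  have hc1 : ∑ k ∈ Finset.Ico kD N, μ (c k) ≤ ENNReal.ofReal (700 * Λ) * μ A := by
    rw [sum_meas _ c hcm]
    calc ∫⁻ v, ∑ i ∈ Finset.Ico kD N, (c i).indicator (fun _ => (1 : ENNReal)) v ∂μ
        ≤ ∫⁻ v, A.indicator (fun _ => ENNReal.ofReal (700 * Λ)) v ∂μ := by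
          refine lintegral_mono fun v => ?_
          by_cases hv : v ∈ A
          · rw [sum_ind, indicator_of_mem hv]
            apply ENNReal.ofReal_le_ofReal
            refine le_trans ?_ (count_bad (wd_dec h sc hv) N)
            have : ((Finset.Ico kD N).filter fun i => v ∈ c i).card ≤
                ((Finset.Ico kD N).filter fun k =>
                  wd s κ τ v (k + 7) < 99 / 100 * wd s κ τ v k).card := by
              apply Finset.card_le_card
              intro k hk
              rw [Finset.mem_filter] at hk ⊢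
              exact ⟨hk.1, hk.2.2⟩
            exact_mod_cast this
          · rw [indicator_of_notMem hv]
            refine le_of_eq (Finset.sum_eq_zero fun k _ => ?_)
            exact indicator_of_notMem (fun hk => hv hk.1) _
      _ = ENNReal.ofReal (700 * Λ) * μ A := by
          rw [lintegral_indicator h.Am, setLIntegral_const]
  have hc2 : ∑ k ∈ Finset.Ico kD N, μ (c' k) ≤ ENNReal.ofReal (700 * Λ) * μ A := by
    refine le_trans (Finset.sum_le_sum fun k hk => ?_) hc1
    refine (measure_mono inter_subset_right).trans_eq ?_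
    exact (h.φp (60 * 2 ^ k)).measure_preimage (hcm k hk).nullMeasurableSet
  -- the sum over the scales
  have hmain : ∑ m ∈ Finset.Ico m₀ n, μ (badSet A s κ φ τ kD m) ≤
      ∑ k ∈ Finset.Ico kD N, μ (c k) + ∑ k ∈ Finset.Ico kD N, μ (c' k) +
        ENNReal.ofReal (1 + 2 * Λ) * μ A := by
    rw [sum_meas _ _ hbm, sum_meas _ c hcm, sum_meas _ c' hcm', ← setLIntegral_const,
      ← lintegral_indicator h.Am, ← lintegral_add_left, ← lintegral_add_left]
    · refine lintegral_mono fun v => ?_
      by_cases hv : v ∈ A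
      · have hd := wd_dec h sc hv
        have s1 := h.s1 v hv
        have s2 := h.s2 v hv
        have hc : (1 : ℝ) ≤ 100 * s v := by linarith
        have hmr : 100 * s v * 2 ^ kD ≤ 2 ^ m₀ * r := by
          have h1 := sc.m1
          have h3 : (0 : ℝ) < 2 ^ kD := by positivity
          nlinarith
        simp only [sum_ind, indicator_of_mem hv]
        rw [← ENNReal.ofReal_add (by positivity) (by positivity),
          ← ENNReal.ofReal_add (by positivity) (by positivity)]
        apply ENNReal.ofReal_le_ofReal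
        set T : Finset ℕ := (Finset.Ico kD N).filter fun k => v ∈ c k ∨ v ∈ c' k with hT
        have k1 := km_count hd hc hmr hmn.le T
        have k2 : ((Finset.Ico m₀ n).filter fun m => v ∈ badSet A s κ φ τ kD m).card ≤
            ((Finset.Ico m₀ n).filter fun m =>
              kmax (wd s κ τ v) (100 * s v) kD m ∈ T).card := by
          apply Finset.card_le_card
          intro m hm
          rw [Finset.mem_filter] at hm ⊢
          refine ⟨hm.1, ?_⟩
          obtain ⟨hm1, hm2⟩ := hm
          rw [Finset.mem_Ico] at hm1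
          obtain ⟨g1, g2⟩ := hN m hm1.1 hm1.2 v hv
          rw [hT, Finset.mem_filter, Finset.mem_Ico]
          refine ⟨⟨g2, g1⟩, ?_⟩
          rcases hm2.2 with hb | hb
          · exact Or.inl ⟨hv, hb⟩
          · exact Or.inr ⟨hv, h.φA _ v hv, hb⟩
        have k3 : T.card ≤ ((Finset.Ico kD N).filter fun k => v ∈ c k).card +
            ((Finset.Ico kD N).filter fun k => v ∈ c' k).card := by
          rw [hT, Finset.filter_or]
          exact Finset.card_union_le _ _
        have k2' : (((Finset.Ico m₀ n).filter fun m => v ∈ badSet A s κ φ τ kD m).card : ℝ) ≤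
            ((Finset.Ico m₀ n).filter fun m =>
              kmax (wd s κ τ v) (100 * s v) kD m ∈ T).card := by exact_mod_cast k2
        have k3' : (T.card : ℝ) ≤ ((Finset.Ico kD N).filter fun k => v ∈ c k).card +
            ((Finset.Ico kD N).filter fun k => v ∈ c' k).card := by exact_mod_cast k3
        linarith
      · refine le_trans (le_of_eq (Finset.sum_eq_zero fun m _ => ?_)) (zero_le)
        exact indicator_of_notMem (fun hk => hv hk.1) _
    · exact (Finset.measurable_fun_sum _ fun k hk => measurable_const.indicator (hcm k hk)).add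
        (Finset.measurable_fun_sum _ fun k hk => measurable_const.indicator (hcm' k hk))
    · exact Finset.measurable_fun_sum _ fun k hk => measurable_const.indicator (hcm k hk)
  have htot : ∑ m ∈ Finset.Ico m₀ n, μ (badSet A s κ φ τ kD m) ≤
      ENNReal.ofReal (1402 * Λ + 1) * μ A := by
    refine hmain.trans ?_
    have e : ENNReal.ofReal (1402 * Λ + 1) * μ A = ENNReal.ofReal (700 * Λ) * μ A +
        ENNReal.ofReal (700 * Λ) * μ A + ENNReal.ofReal (1 + 2 * Λ) * μ A := by
      rw [← add_mul, ← add_mul, ← ENNReal.ofReal_add (by positivity) (by positivity),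
        ← ENNReal.ofReal_add (by positivity) (by positivity)]
      congr 2
      ring
    rw [e]
    gcongr
  -- contradiction
  by_contra hcon
  push Not at hcon
  have hreal : ∑ m ∈ Finset.Ico m₀ n, μ.real (badSet A s κ φ τ kD m) ≤
      (1402 * Λ + 1) * μ.real A := by
    have h1 := ENNReal.toReal_mono (ENNReal.mul_ne_top ENNReal.ofReal_ne_top (measure_ne_top μ A))
      htot
    rw [ENNReal.toReal_sum (fun m _ => measure_ne_top μ _), ENNReal.toReal_mul,
      ENNReal.toReal_ofReal (by positivity)] at h1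
    exact h1
  have hlt : ∑ _m ∈ Finset.Ico m₀ n, μ.real A <
      ∑ m ∈ Finset.Ico m₀ n, 10 * μ.real (badSet A s κ φ τ kD m) := by
    refine Finset.sum_lt_sum_of_nonempty (Finset.nonempty_Ico.2 hmn) fun m hm => ?_
    rw [Finset.mem_Ico] at hm
    have h1 := hcon m hm.1 hm.2
    have h2 := (ENNReal.toReal_lt_toReal (measure_ne_top μ A)
      (ENNReal.mul_ne_top (by norm_num) (measure_ne_top μ _))).2 h1
    rw [ENNReal.toReal_mul] at h2
    rw [show (10 : ENNReal).toReal = 10 by simp] at h2
    exact h2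
  rw [← Finset.mul_sum, Finset.sum_const, Nat.card_Ico, nsmul_eq_mul, Nat.cast_sub hmn.le] at hlt
  have hA : 0 ≤ μ.real A := measureReal_nonneg
  nlinarith
end

end

end Pool.Agent.Work.MP_275abe_gt
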