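import Pool.Agent.Work.MP_275abe_gt.CDefs

/-!
The width function. The set of obstacles {(t, h) | |t| <= s v 2^k, τ <= κ v t h} is closed (κc) and for k >= kD it meets the
compact square of size D (obs, D <= 2^kD <= s v 2^k), so the infimum is attained. wd_shift: if 2^k + |u| <= 2^k' then the window
of φ u v at scale k lies in that of v at scale k' (φκ, φs, s v >= 0). wd_meas: {v ∈ A | ρ < wd v k} =
{v ∈ A | no obstacle with |t| <= s v 2^k, |h| <= ρ}, κm.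
-/

namespace Pool.Agent.Work.MP_275abe_gt

open MeasureTheory Set
open scoped ContDiff

noncomputable section

section
variable {Y : Type*} [MeasurableSpace Y] {μ : Measure Y} {A : Set Y} {s : Y → ℝ}
  {κ : Y → ℝ → ℝ → ℝ} {φ : ℝ → Y → Y} {R : ℝ → Y → Y} {τ r D : ℝ} {kD m₀ n : ℕ}

theorem wd_le (h : CoreHyp μ A s κ φ R) (sc : Sc A κ τ r D kD m₀ n) {v : Y} (hv : v ∈ A)
    (k : ℕ) (t h' : ℝ) (ht : |t| ≤ s v * 2 ^ k) (hh : τ ≤ κ v t h') : wd s κ τ v k ≤ |h'| := by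
  refine csInf_le ⟨0, ?_⟩ ⟨t, h', ht, rfl, hh⟩
  rintro x ⟨t, h'', -, rfl, -⟩
  exact abs_nonneg _

theorem wd_free (h : CoreHyp μ A s κ φ R) (sc : Sc A κ τ r D kD m₀ n) {v : Y} (hv : v ∈ A)
    (k : ℕ) (t h' : ℝ) (ht : |t| ≤ s v * 2 ^ k) (hh : |h'| < wd s κ τ v k) : κ v t h' < τ := by
  by_contra hcon
  exact absurd (wd_le h sc hv k t h' ht (not_lt.1 hcon)) (not_le.2 hh)

private theorem obs_in (h : CoreHyp μ A s κ φ R) (sc : Sc A κ τ r D kD m₀ n) {v : Y} (hv : v ∈ A)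
    {k : ℕ} (hk : kD ≤ k) : ∃ t h', |t| ≤ s v * 2 ^ k ∧ |h'| ≤ D ∧ τ ≤ κ v t h' := by
  obtain ⟨t, h', ht, hh, hκ⟩ := sc.obs v hv
  refine ⟨t, h', ht.trans ?_, hh, hκ⟩
  have h1 := sc.kD4
  have h2 := sc.D1
  have h3 : (2 : ℝ) ^ kD ≤ 2 ^ k := pow_le_pow_right₀ (by norm_num) hk
  have h4 := h.s1 v hv
  have h5 : (0 : ℝ) < 2 ^ k := by positivity
  nlinarith

theorem wd_att (h : CoreHyp μ A s κ φ R) (sc : Sc A κ τ r D kD m₀ n) {v : Y} (hv : v ∈ A) {k : ℕ}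
    (hk : kD ≤ k) : ∃ t h, |t| ≤ s v * 2 ^ k ∧ |h| = wd s κ τ v k ∧ τ ≤ κ v t h := by
  obtain ⟨t₁, h₁, ht₁, hh₁, hκ₁⟩ := obs_in h sc hv hk
  let C : Set (ℝ × ℝ) := {y | |y.1| ≤ s v * 2 ^ k ∧ |y.2| ≤ D ∧ τ ≤ κ v y.1 y.2}
  have hCc : IsClosed C := by
    refine (isClosed_le (continuous_abs.comp continuous_fst) continuous_const).inter
      ((isClosed_le (continuous_abs.comp continuous_snd) continuous_const).inter
        (isClosed_le continuous_const (h.κc v hv)))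
  have hCk : IsCompact C := by
    refine (isCompact_Icc (a := ((-(s v * 2 ^ k), -D) : ℝ × ℝ))
      (b := (s v * 2 ^ k, D))).of_isClosed_subset hCc ?_
    rintro ⟨a, b⟩ ⟨h1, h2, -⟩
    exact ⟨⟨(abs_le.1 h1).1, (abs_le.1 h2).1⟩, ⟨(abs_le.1 h1).2, (abs_le.1 h2).2⟩⟩
  have hCne : C.Nonempty := ⟨(t₁, h₁), ht₁, hh₁, hκ₁⟩
  obtain ⟨⟨t₀, h₀⟩, ⟨ht₀, hh₀, hκ₀⟩, hmin⟩ := hCk.exists_isMinOn hCne
    (f := fun y : ℝ × ℝ => |y.2|) (continuous_abs.comp continuous_snd).continuousOn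
  refine ⟨t₀, h₀, ht₀, ?_, hκ₀⟩
  refine le_antisymm ?_ (wd_le h sc hv k t₀ h₀ ht₀ hκ₀)
  refine le_csInf ⟨|h₁|, t₁, h₁, ht₁, rfl, hκ₁⟩ ?_
  rintro x ⟨t, h', ht, rfl, hκ⟩
  by_cases hD : |h'| ≤ D
  · exact hmin (show (t, h') ∈ C from ⟨ht, hD, hκ⟩)
  · exact hh₀.trans (not_le.1 hD).le

theorem wd_low (h : CoreHyp μ A s κ φ R) (sc : Sc A κ τ r D kD m₀ n) {v : Y} (hv : v ∈ A) {k : ℕ}
    (hk : kD ≤ k) : r ≤ wd s κ τ v k := by
  obtain ⟨t, h', -, hh, hκ⟩ := wd_att h sc hv hk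
  rw [← hh]
  by_contra hcon
  exact absurd (sc.low v hv t h' (not_le.1 hcon).le) (not_lt.2 hκ)

theorem wd_up (h : CoreHyp μ A s κ φ R) (sc : Sc A κ τ r D kD m₀ n) {v : Y} (hv : v ∈ A) {k : ℕ}
    (hk : kD ≤ k) : wd s κ τ v k ≤ D := by
  obtain ⟨t, h', ht, hh, hκ⟩ := obs_in h sc hv hk
  exact (wd_le h sc hv k t h' ht hκ).trans hh

theorem wd_anti (h : CoreHyp μ A s κ φ R) (sc : Sc A κ τ r D kD m₀ n) {v : Y} (hv : v ∈ A)
    {k k' : ℕ} (hk : kD ≤ k) (hkk : k ≤ k') : wd s κ τ v k' ≤ wd s κ τ v k := by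
  obtain ⟨t, h', ht, hh, hκ⟩ := wd_att h sc hv hk
  rw [← hh]
  refine wd_le h sc hv k' t h' (ht.trans ?_) hκ
  have h4 := h.s1 v hv
  exact mul_le_mul_of_nonneg_left (pow_le_pow_right₀ (by norm_num) hkk) (by linarith)

private theorem shift_bd {S a b t u : ℝ} (hS : 0 ≤ S) (ht : |t| ≤ S * a) (hu : a + |u| ≤ b) :
    |t + S * u| ≤ S * b := by
  have h1 : |t + S * u| ≤ |t| + |S * u| := abs_add_le _ _
  rw [abs_mul, abs_of_nonneg hS] at h1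
  have h2 : S * (a + |u|) ≤ S * b := mul_le_mul_of_nonneg_left hu hS
  linarith

theorem wd_shift (h : CoreHyp μ A s κ φ R) (sc : Sc A κ τ r D kD m₀ n) {v : Y} (hv : v ∈ A)
    {k k' : ℕ} (hk : kD ≤ k) (u : ℝ) (hu : (2 : ℝ) ^ k + |u| ≤ 2 ^ k') :
    wd s κ τ v k' ≤ wd s κ τ (φ u v) k := by
  obtain ⟨t, h', ht, hh, hκ⟩ := wd_att h sc (h.φA u v hv) hk
  rw [← hh]
  rw [h.φs u v hv] at ht
  rw [h.φκ u v hv] at hκ
  exact wd_le h sc hv k' _ h' (shift_bd (by linarith [h.s1 v hv]) ht hu) hκ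

/-- The same with the roles exchanged. -/
theorem wd_shift' (h : CoreHyp μ A s κ φ R) (sc : Sc A κ τ r D kD m₀ n) {v : Y} (hv : v ∈ A)
    {k k' : ℕ} (hk : kD ≤ k) (u : ℝ) (hu : (2 : ℝ) ^ k + |u| ≤ 2 ^ k') :
    wd s κ τ (φ u v) k' ≤ wd s κ τ v k := by
  obtain ⟨t, h', ht, hh, hκ⟩ := wd_att h sc hv hk
  rw [← hh]
  refine wd_le h sc (h.φA u v hv) k' (t + s v * (-u)) h' ?_ ?_
  · rw [h.φs u v hv]
    exact shift_bd (by linarith [h.s1 v hv]) ht (by rwa [abs_neg])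
  · rw [h.φκ u v hv]
    have e : t + s v * (-u) + s v * u = t := by ring
    rwa [e]

theorem wd_meas (h : CoreHyp μ A s κ φ R) (sc : Sc A κ τ r D kD m₀ n) {k : ℕ} (hk : kD ≤ k)
    (ρ : ℝ) : MeasurableSet {v | v ∈ A ∧ ρ < wd s κ τ v k} := by
  have h1 := h.κm (2 ^ k) ρ τ
  have e : {v | v ∈ A ∧ ρ < wd s κ τ v k} =
      {v | v ∈ A ∧ ∀ t h, |t| ≤ s v * 2 ^ k → |h| ≤ ρ → κ v t h < τ} := by
    ext v
    constructor
    · rintro ⟨hv, hρ⟩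
      exact ⟨hv, fun t h' ht hh => wd_free h sc hv k t h' ht (lt_of_le_of_lt hh hρ)⟩
    · rintro ⟨hv, hall⟩
      refine ⟨hv, ?_⟩
      obtain ⟨t, h', ht, hh, hκ⟩ := wd_att h sc hv hk
      by_contra hcon
      exact absurd (hall t h' ht (by rw [hh]; exact not_lt.1 hcon)) (not_lt.2 hκ)
  rw [e]
  exact h1
end

end

end Pool.Agent.Work.MP_275abe_gt
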