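import Mathlib

/-!
Closed surfaces as quotients of the plane: a smooth Riemannian metric on the plane, its Christoffel
symbols, Gaussian curvature and geodesics, the groups of deck transformations, and the Liouville
measure on unit tangent vectors.
-/

namespace Pool.Agent.Work.MP_275abe_gt

open MeasureTheory Set
open scoped ContDiff

noncomputable section

/-- The plane; also the tangent space at each of its points. -/
abbrev Pt := Fin 2 → ℝ

/-- The derivative in the direction of the `i`-th coordinate. -/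
def pd (i : Fin 2) (f : Pt → ℝ) (x : Pt) : ℝ := fderiv ℝ f x (Pi.single i 1)

/-- A smooth Riemannian metric on the plane. -/
structure Met where
  g : Fin 2 → Fin 2 → Pt → ℝ
  smooth : ∀ i j, ContDiff ℝ ∞ (g i j)
  symm : ∀ i j x, g i j x = g j i x
  pos : ∀ x (u : Pt), u ≠ 0 → 0 < ∑ i, ∑ j, g i j x * u i * u j

/-- The inner product of two tangent vectors at `x`. -/
def ip (G : Met) (x u w : Pt) : ℝ := ∑ i, ∑ j, G.g i j x * u i * w j

/-- The determinant of the metric. -/
def dt (G : Met) (x : Pt) : ℝ := G.g 0 0 x * G.g 1 1 x - G.g 0 1 x * G.g 1 0 x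

/-- The inverse matrix of the metric. -/
def gi (G : Met) (x : Pt) : Matrix (Fin 2) (Fin 2) ℝ := (Matrix.of fun i j => G.g i j x)⁻¹

/-- The Christoffel symbols (of the second kind). -/
def chr (G : Met) (k i j : Fin 2) (x : Pt) : ℝ :=
  (1 / 2) * ∑ l, gi G x k l * (pd i (G.g j l) x + pd j (G.g i l) x - pd l (G.g i j) x)

/-- The components of `R(∂₀, ∂₁) ∂₁`. -/
def rie (G : Met) (l : Fin 2) (x : Pt) : ℝ :=
  pd 0 (chr G l 1 1) x - pd 1 (chr G l 0 1) x +
    ∑ m, (chr G l 0 m x * chr G m 1 1 x - chr G l 1 m x * chr G m 0 1 x)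

/-- The Gaussian curvature `⟨R(∂₀, ∂₁) ∂₁, ∂₀⟩ / det g`. -/
def curv (G : Met) (x : Pt) : ℝ := (∑ l, G.g 0 l x * rie G l x) / dt G x

/-- Geodesics, defined for all times. -/
def IsGeod (G : Met) (γ : ℝ → Pt) : Prop :=
  ContDiff ℝ ∞ γ ∧ ∀ t k,
    deriv (deriv γ) t k + ∑ i, ∑ j, chr G k i j (γ t) * deriv γ t i * deriv γ t j = 0

/-- `Γ` acts on the plane freely and properly discontinuously, with compact quotient, by smooth
orientation preserving isometries: the quotient is a closed orientable surface. -/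
structure IsClosedSurf (G : Met) (Γ : Subgroup (Equiv.Perm Pt)) : Prop where
  smooth : ∀ f ∈ Γ, ContDiff ℝ ∞ (f : Pt → Pt)
  isom : ∀ f ∈ Γ, ∀ x u w, ip G (f x) (fderiv ℝ f x u) (fderiv ℝ f x w) = ip G x u w
  orient : ∀ f ∈ Γ, ∀ x, 0 < (fderiv ℝ f x).det
  free : ∀ f ∈ Γ, ∀ x, f x = x → f = 1
  proper : ∀ C : Set Pt, IsCompact C → {f : Equiv.Perm Pt | f ∈ Γ ∧ (f '' C ∩ C).Nonempty}.Finite
  cocompact : ∃ C : Set Pt, IsCompact C ∧ ∀ x, ∃ f ∈ Γ, f x ∈ C

/-- An orthonormal basis of the tangent space at `x`. -/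
def fa (G : Met) (x : Pt) : Pt := ![1 / √(G.g 0 0 x), 0]
def fb (G : Met) (x : Pt) : Pt :=
  ![-G.g 0 1 x / √(G.g 0 0 x * dt G x), G.g 0 0 x / √(G.g 0 0 x * dt G x)]

/-- The unit vector at `x` which makes the angle `θ` with the first basis vector. -/
def unitVec (G : Met) (x : Pt) (θ : ℝ) : Pt := Real.cos θ • fa G x + Real.sin θ • fb G x

/-- The Liouville measure on the unit tangent vectors: the Riemannian area times the arc length on
the unit circles. -/
def liouville (G : Met) : Measure (Pt × Pt) :=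
  (((volume : Measure Pt).withDensity fun x => ENNReal.ofReal √(dt G x)).prod
    ((volume : Measure ℝ).restrict (Ioc 0 (2 * Real.pi)))).map fun z => (z.1, unitVec G z.1 z.2)

end

end Pool.Agent.Work.MP_275abe_gt
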