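import Pool.Agent.Work.MP_275abe_gt.OC1

/-!
The flow of a smooth complete vector field is smooth in (t, z). Induction on n: for every smooth Z (on every finite
dimensional space) (t, z) -> Phi t z is C^n. Step: the derivative of (t, z) -> Phi t z is
(tau, w) -> tau Z(Phi t z) + Y(t, z) w, and (t, (z, W)) -> (Phi t z, Y(t, z) o W) is the flow of the smooth vector field
(z, W) -> (Z z, DZ(z) o W) on E x (E ->L E), hence C^n by induction; put W = id. (The induction is over all E : Type.)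
-/

namespace Pool.Agent.Work.MP_275abe_gt

open MeasureTheory Set
open scoped ContDiff

noncomputable section

private theorem osm_nat (n : ℕ) : ∀ (E : Type) [NormedAddCommGroup E] [NormedSpace ℝ E]
    [FiniteDimensional ℝ E] (Z : E → E), ContDiff ℝ ∞ Z → ∀ Φ : ℝ → E → E, IsFlow Z Φ →
    ContDiff ℝ n fun y : ℝ × E => Φ y.1 y.2 := by
  induction n with
  | zero =>
    intro E _ _ _ Z hZ Φ hΦ
    rw [Nat.cast_zero, contDiff_zero]
    exact flow_cont (hZ.of_le (by exact_mod_cast le_top)) hΦ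
  | succ n ih =>
    intro E _ _ _ Z hZ Φ hΦ
    obtain ⟨Y, hYc, hYd, hY0, hYt⟩ := flow_c1
      (hZ.of_le ENat.LEInfty.out) hΦ
    have hΦn := ih E Z hZ Φ hΦ
    -- the extended system
    have hDZ : ContDiff ℝ ∞ (fderiv ℝ Z) := (contDiff_infty_iff_fderiv.1 hZ).2
    have hZ' : ContDiff ℝ ∞ (fun y : E × (E →L[ℝ] E) => (Z y.1, (fderiv ℝ Z y.1).comp y.2)) :=
      (hZ.comp contDiff_fst).prodMk ((hDZ.comp contDiff_fst).clm_comp contDiff_snd)
    have hΦ' : IsFlow (fun y : E × (E →L[ℝ] E) => (Z y.1, (fderiv ℝ Z y.1).comp y.2))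
        (fun t y => (Φ t y.1, (Y t y.1).comp y.2)) := by
      refine ⟨fun z => ?_, fun z t => ?_⟩
      · show (Φ 0 z.1, (Y 0 z.1).comp z.2) = z
        rw [hΦ.1, hY0, ContinuousLinearMap.id_comp]
      · show HasDerivAt (fun s => (Φ s z.1, (Y s z.1).comp z.2))
          (Z (Φ t z.1), (fderiv ℝ Z (Φ t z.1)).comp ((Y t z.1).comp z.2)) t
        refine (hΦ.2 z.1 t).prodMk ?_
        have h1 := (hYt z.1 t).clm_comp (hasDerivAt_const t z.2)
        rw [ContinuousLinearMap.comp_zero, add_zero] at h1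
        exact h1
    have h2 := ih (E × (E →L[ℝ] E)) _ hZ' _ hΦ'
    have hYn : ContDiff ℝ n fun y : ℝ × E => Y y.1 y.2 := by
      have h3 : ContDiff ℝ n fun y : ℝ × E =>
          ((y.1, (y.2, ContinuousLinearMap.id ℝ E)) : ℝ × (E × (E →L[ℝ] E))) :=
        contDiff_fst.prodMk (contDiff_snd.prodMk contDiff_const)
      have h4 := contDiff_snd.comp (h2.comp h3)
      exact h4
    rw [Nat.cast_succ, contDiff_succ_iff_hasFDerivAt]
    refine ⟨fun y => (ContinuousLinearMap.toSpanSingleton ℝ (Z (Φ y.1 y.2))).coprod (Y y.1 y.2),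
      ?_, fun y => ?_⟩
    · have h5 : ContDiff ℝ n fun y : ℝ × E => Z (Φ y.1 y.2) :=
        (hZ.of_le (by exact_mod_cast le_top)).comp hΦn
      have e : (fun y : ℝ × E => (ContinuousLinearMap.toSpanSingleton ℝ (Z (Φ y.1 y.2))).coprod
          (Y y.1 y.2)) = fun y => (ContinuousLinearMap.fst ℝ ℝ E).smulRight (Z (Φ y.1 y.2)) +
            (Y y.1 y.2).comp (ContinuousLinearMap.snd ℝ ℝ E) := by
        funext y
        ext w
        · simp
        · simp
      rw [e]
      exact (contDiff_const.smulRight h5).add (hYn.clm_comp contDiff_const)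
    · have h6 : Continuous fun y : ℝ × E => Z (Φ y.1 y.2) :=
        hZ.continuous.comp (flow_cont (hZ.of_le (by exact_mod_cast le_top)) hΦ)
      have h7 : Continuous fun y : ℝ × E => ContinuousLinearMap.toSpanSingleton ℝ (Z (Φ y.1 y.2)) :=
        (ContinuousLinearMap.toSpanSingletonCLE (𝕜 := ℝ) (E := E)).continuous.comp h6
      exact (hasStrictFDerivAt_uncurry_coprod (𝕜 := ℝ) (f := Φ)
        (f₁ := fun t z => ContinuousLinearMap.toSpanSingleton ℝ (Z (Φ t z))) (f₂ := Y)
        (u := y) (Filter.Eventually.of_forall fun v => (hΦ.2 v.2 v.1).hasFDerivAt)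
        (Filter.Eventually.of_forall fun v => hYd v.1 v.2) h7.continuousAt
        hYc.continuousAt).hasFDerivAt

theorem flow_smooth {E : Type} [NormedAddCommGroup E] [NormedSpace ℝ E] [FiniteDimensional ℝ E]
    {Z : E → E} (hZ : ContDiff ℝ ∞ Z) {Φ : ℝ → E → E} (hΦ : IsFlow Z Φ) :
    ContDiff ℝ ∞ fun y : ℝ × E => Φ y.1 y.2 :=
  contDiff_infty.2 fun n => osm_nat n E Z hZ Φ hΦ

end

end Pool.Agent.Work.MP_275abe_gt
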