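import Pool.Agent.Work.MP_275abe_gt.MetB
import Pool.Agent.Work.MP_275abe_gt.OSmooth

/-!
phi_scale: both sides are integral curves of the spray in t (integral_unique; cV is bilinear). phi_geod: flow_smooth and the
definition of the spray.
-/

namespace Pool.Agent.Work.MP_275abe_gt

open MeasureTheory Set
open scoped ContDiff

noncomputable section

private theorem geosc_unique {Z : Pt × Pt → Pt × Pt} (hZ : ContDiff ℝ ∞ Z)
    {γ δ : ℝ → Pt × Pt} (hγ : ∀ t, HasDerivAt γ (Z (γ t)) t)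
    (hδ : ∀ t, HasDerivAt δ (Z (δ t)) t) (h : γ 0 = δ 0) : γ = δ :=
  integral_unique (hZ.of_le (by exact_mod_cast (le_top : (1 : ℕ∞) ≤ ⊤))) hγ hδ h

private theorem geosc_fst {z : ℝ → Pt × Pt} {z' : Pt × Pt} {t : ℝ} (h : HasDerivAt z z' t) :
    HasDerivAt (fun s => (z s).1) z'.1 t :=
  (hasFDerivAt_fst (𝕜 := ℝ) (p := z t)).comp_hasDerivAt t h

private theorem geosc_snd {z : ℝ → Pt × Pt} {z' : Pt × Pt} {t : ℝ} (h : HasDerivAt z z' t) :
    HasDerivAt (fun s => (z s).2) z'.2 t :=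
  (hasFDerivAt_snd (𝕜 := ℝ) (p := z t)).comp_hasDerivAt t h

/-- Scaling of the velocity. -/
theorem phi_scale (G : Met) {φ : ℝ → Pt × Pt → Pt × Pt} (hφ : IsFlow (spray G) φ) (c t : ℝ)
    (v : Pt × Pt) : φ t (v.1, c • v.2) = ((φ (c * t) v).1, c • (φ (c * t) v).2) := by
  have h1 : ∀ t, HasDerivAt (fun s => φ s (v.1, c • v.2)) (spray G (φ t (v.1, c • v.2))) t :=
    fun t => hφ.2 _ t
  have h2 : ∀ t, HasDerivAt (fun s => ((φ (c * s) v).1, c • (φ (c * s) v).2))
      (spray G ((φ (c * t) v).1, c • (φ (c * t) v).2)) t := by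
    intro t
    have h3 : HasDerivAt (fun s => φ (c * s) v) (c • spray G (φ (c * t) v)) t := by
      have h4 : HasDerivAt (fun s : ℝ => c * s) (c * 1) t := (hasDerivAt_id t).const_mul c
      rw [mul_one] at h4
      exact HasDerivAt.scomp t (hφ.2 v (c * t)) h4
    have h5 : HasDerivAt (fun s => (φ (c * s) v).1) (c • (φ (c * t) v).2) t :=
      geosc_fst h3
    have h6 : HasDerivAt (fun s => (φ (c * s) v).2)
        (c • -cV G (φ (c * t) v).1 (φ (c * t) v).2 (φ (c * t) v).2) t :=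
      geosc_snd h3
    have h7 := h5.prodMk (h6.const_smul c)
    refine h7.congr_deriv ?_
    rw [spray]
    refine Prod.ext rfl ?_
    change c • (c • -cV G (φ (c * t) v).1 (φ (c * t) v).2 (φ (c * t) v).2) =
      -cV G (φ (c * t) v).1 (c • (φ (c * t) v).2) (c • (φ (c * t) v).2)
    rw [cV_smul, cV_symm G _ (φ (c * t) v).2 (c • (φ (c * t) v).2), cV_smul, smul_neg, smul_neg]
  have h3 := geosc_unique (spray_smooth G) h1 h2 (by
    simp only [mul_zero]
    rw [hφ.1, hφ.1])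
  exact congrFun h3 t

/-- The projected flow lines are geodesics. -/
theorem phi_geod (G : Met) {φ : ℝ → Pt × Pt → Pt × Pt} (hφ : IsFlow (spray G) φ) (v : Pt × Pt) :
    IsGeod G (fun t => (φ t v).1) ∧ (φ 0 v).1 = v.1 ∧ deriv (fun t => (φ t v).1) 0 = v.2 := by
  have h1 : ∀ t, HasDerivAt (fun s => (φ s v).1) (φ t v).2 t := fun t =>
    geosc_fst (hφ.2 v t)
  have h2 : ∀ t, HasDerivAt (fun s => (φ s v).2) (-cV G (φ t v).1 (φ t v).2 (φ t v).2) t := fun t =>
    geosc_snd (hφ.2 v t)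
  have h3 : deriv (fun s => (φ s v).1) = fun t => (φ t v).2 := funext fun t => (h1 t).deriv
  refine ⟨⟨?_, fun t k => ?_⟩, by rw [hφ.1], ?_⟩
  · exact contDiff_fst.comp ((flow_smooth (spray_smooth G) hφ).comp
      (contDiff_id.prodMk contDiff_const))
  · rw [h3, (h2 t).deriv]
    change -(cV G (φ t v).1 (φ t v).2 (φ t v).2 k) + _ = 0
    rw [cV, neg_add_cancel]
  · rw [h3]
    change (φ 0 v).2 = v.2
    rw [hφ.1]

end

end Pool.Agent.Work.MP_275abe_gt
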