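import Pool.Agent.Work.MP_275abe_gt.GeoRel
import Pool.Agent.Work.MP_275abe_gt.GeoSc
import Pool.Agent.Work.MP_275abe_gt.RotA

/-!
Fermi coordinates of tangent vectors. fe_eq: phi_psi twice and rot_dir. kap_cont: φ is continuous (flow_cont). kap_flow:
phi_scale, flow_add, and sp is constant.
-/

namespace Pool.Agent.Work.MP_275abe_gt

open MeasureTheory Set
open scoped ContDiff

noncomputable section

private theorem sp_unit (G : Met) (x : Pt) (θ : ℝ) : sp G (x, unitVec G x θ) = 1 := by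
  unfold sp
  rw [ip_dir, Real.sqrt_one]

theorem fe_eq (G : Met) {φ : ℝ → Pt × Pt → Pt × Pt} (hφ : IsFlow (spray G) φ)
    {ψ : ℝ → Pt × ℝ → Pt × ℝ} (hψ : IsFlow (frOf G).X ψ) (x : Pt) (θ r : ℝ) (hr : 0 < r) (t h : ℝ) :
    fe G φ (x, r • unitVec G x θ) t h = (fm ψ (x, θ) t h).1 := by
  unfold fe
  simp only
  rw [sp_smul, sp_unit, mul_one, abs_of_pos hr, smul_smul, inv_mul_cancel₀ hr.ne', one_smul,
    phi_psi G hφ hψ]
  have h1 := rot_dir G (Real.pi / 2) (ψ t (x, θ)).1 1 (ψ t (x, θ)).2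
  rw [one_smul, one_smul] at h1
  rw [h1, phi_psi G hφ hψ]
  rfl

theorem kap_cont (G : Met) {φ : ℝ → Pt × Pt → Pt × Pt} (hφ : IsFlow (spray G) φ) :
    ContinuousOn (fun y : (Pt × Pt) × (ℝ × ℝ) => kap G φ y.1 y.2.1 y.2.2)
      ({v | v.2 ≠ 0} ×ˢ univ) := by
  have hc : Continuous fun y : ℝ × (Pt × Pt) => φ y.1 y.2 :=
    flow_cont ((spray_smooth G).of_le (by exact_mod_cast le_top)) hφ
  have h1 : ContinuousOn (fun y : (Pt × Pt) × (ℝ × ℝ) => (sp G y.1)⁻¹) ({v | v.2 ≠ 0} ×ˢ univ) := by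
    refine ((sp_cont G).comp continuous_fst).continuousOn.inv₀ fun y hy => ?_
    exact (sp_pos G y.1 hy.1).ne'
  have h2 : ContinuousOn (fun y : (Pt × Pt) × (ℝ × ℝ) => (y.2.1, (y.1.1, (sp G y.1)⁻¹ • y.1.2)))
      ({v | v.2 ≠ 0} ×ˢ univ) := by
    refine (continuous_fst.comp continuous_snd).continuousOn.prodMk ?_
    exact (continuous_fst.comp continuous_fst).continuousOn.prodMk
      (h1.smul (continuous_snd.comp continuous_fst).continuousOn)
  have h3 : ContinuousOn (fun y : (Pt × Pt) × (ℝ × ℝ) => φ y.2.1 (y.1.1, (sp G y.1)⁻¹ • y.1.2))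
      ({v | v.2 ≠ 0} ×ˢ univ) := hc.comp_continuousOn h2
  have h4 : ContinuousOn (fun y : (Pt × Pt) × (ℝ × ℝ) =>
      rot G (Real.pi / 2) (φ y.2.1 (y.1.1, (sp G y.1)⁻¹ • y.1.2))) ({v | v.2 ≠ 0} ×ˢ univ) :=
    (rot_cont G).comp_continuousOn (continuousOn_const.prodMk h3)
  have h5 : ContinuousOn (fun y : (Pt × Pt) × (ℝ × ℝ) => φ y.2.2
      (rot G (Real.pi / 2) (φ y.2.1 (y.1.1, (sp G y.1)⁻¹ • y.1.2)))) ({v | v.2 ≠ 0} ×ˢ univ) :=
    hc.comp_continuousOn ((continuous_snd.comp continuous_snd).continuousOn.prodMk h4)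
  exact ((curv_smooth G).continuous.comp_continuousOn (continuous_fst.comp_continuousOn h5)).abs

theorem kap_flow (G : Met) {φ : ℝ → Pt × Pt → Pt × Pt} (hφ : IsFlow (spray G) φ) (u : ℝ)
    (v : Pt × Pt) (hv : v.2 ≠ 0) (t h : ℝ) :
    kap G φ (φ u v) t h = kap G φ v (t + sp G v * u) h := by
  have hs := (sp_pos G v hv).ne'
  have h1 := phi_scale G hφ (sp G v)⁻¹ (sp G v * u) v
  rw [inv_mul_cancel_left₀ hs] at h1
  unfold kap fe
  rw [sp_flow G hφ, ← h1, ← flow_add ((spray_smooth G).of_le (by exact_mod_cast le_top)) hφ]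

end

end Pool.Agent.Work.MP_275abe_gt
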