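import Pool.Agent.Work.MP_275abe_gt.Near

/-!
Transfer of a point from the Fermi coordinates of v to those of v' = (v.1, v.2 + sigma b). near_line at s = t0 gives
(t*, h*) with (fm psi v t* h*).1 = (psi t0 v').1 = (fm psi v' t0 0).1. Lift to the Fermi coordinates of v' first the
horizontal curve s -> (fm psi v (t* + s) h*).1, from t* to t0 (speed J <= 1 + tau w^2 <= 2 for |t| <= L + 1, |h*| < w, so
length <= 2 eps), then the vertical curve s -> (fm psi v t0 (h* + s)).1 (speed 1, length |h0 - h*|).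
-/

namespace Pool.Agent.Work.MP_275abe_gt

open MeasureTheory Set
open scoped ContDiff

noncomputable section

private theorem lip_aux {T T' : ℝ → ℝ} (hT : ∀ s, HasDerivAt T (T' s) s) {s C : ℝ}
    (hC : ∀ x ∈ uIcc 0 s, |T' x| ≤ C) : |T s - T 0| ≤ C * |s| := by
  have h := (convex_uIcc (0 : ℝ) s).norm_image_sub_le_of_norm_hasDerivWithin_le
    (f := T) (f' := T') (C := C) (fun x _ => (hT x).hasDerivWithinAt)
    (fun x hx => by rw [Real.norm_eq_abs]; exact hC x hx) left_mem_uIcc right_mem_uIcc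
  rwa [Real.norm_eq_abs, Real.norm_eq_abs, sub_zero] at h

/-- Lifting of a curve whose speed is known. -/
private theorem lift_len (F : Fr) {ψ : ℝ → Pt × ℝ → Pt × ℝ} (hψ : IsFlow F.X ψ)
    (hK : ∀ x, F.K x ≤ 0) (v : Pt × ℝ) (c : ℝ → Pt) (hc : ContDiff ℝ ∞ c)
    (t₀ h₀ s C : ℝ) (h0 : (fm ψ v t₀ h₀).1 = c 0)
    (hC : ∀ x ∈ uIcc 0 s, F.nm (c x) (deriv c x) ≤ C) :
    ∃ t h, (fm ψ v t h).1 = c s ∧ |t - t₀| ≤ C * |s| ∧ |h - h₀| ≤ C * |s| := by
  obtain ⟨T, H, T', H', hT0, hH0, hT, hH, hall⟩ := lift_fm F hψ hK v c (deriv c)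
    (fun x => (hc.differentiable (by simp) x).hasDerivAt) (hc.continuous_deriv (by simp)) t₀ h₀ h0
  refine ⟨T s, H s, (hall s).1, ?_, ?_⟩
  · have := lip_aux hT (s := s) (C := C) fun x hx => (hall x).2.1.trans (hC x hx)
    rwa [hT0] at this
  · have := lip_aux hH (s := s) (C := C) fun x hx => (hall x).2.2.trans (hC x hx)
    rwa [hH0] at this

theorem transfer (F : Fr) {ψ : ℝ → Pt × ℝ → Pt × ℝ} (hψ : IsFlow F.X ψ) (hK : ∀ x, F.K x ≤ 0)
    (v : Pt × ℝ) (σ b τ L w ε : ℝ) (hσ : σ = 1 ∨ σ = -1) (hb : 0 < b) (hb1 : b ≤ 1) (hτ : 0 < τ)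
    (hL : 1 ≤ L) (hw : 0 < w) (hε : ε = L * b ^ 2 + 3 * τ * (1 + w) ^ 2 * L ^ 2) (hε1 : ε < 1 / 2)
    (hbw : b * L + ε < w)
    (hflat : ∀ t h, |t| ≤ L + 1 → |h| < w → |F.K (fm ψ v t h).1| < τ) (t₀ h₀ : ℝ)
    (ht : |t₀| ≤ L) :
    ∃ t' h', (fm ψ (v.1, v.2 + σ * b) t' h').1 = (fm ψ v t₀ h₀).1 ∧
      |t' - t₀| ≤ |h₀ - σ * b * t₀| + 3 * ε ∧ |h'| ≤ |h₀ - σ * b * t₀| + 3 * ε := by
  obtain ⟨ts, hs, hn, hn1, hn2⟩ := near_line F hψ hK v σ b τ L w ε hσ hb hb1 hτ hL hw hε hε1 hbw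
    hflat t₀ ht
  obtain ⟨J, J', hJ0, hJ0', hJ, hJ', hJf⟩ := jac F hψ v
  have hsm := fm_smooth F hψ v
  have hε0 : 0 ≤ ε := (abs_nonneg _).trans hn1
  have hσ1 : |σ| = 1 := by rcases hσ with rfl | rfl <;> simp
  have hhs : |hs| < w := by
    have h1 : |σ * b * t₀| ≤ b * L := by
      rw [abs_mul, abs_mul, hσ1, abs_of_pos hb, one_mul]
      exact mul_le_mul_of_nonneg_left ht hb.le
    have h2 : |hs| ≤ |hs - σ * b * t₀| + |σ * b * t₀| := by
      have := abs_add_le (hs - σ * b * t₀) (σ * b * t₀)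
      rwa [sub_add_cancel] at this
    linarith
  have hτw : τ * w ^ 2 ≤ 1 / 4 := by
    have h1 : 0 ≤ L * b ^ 2 := by positivity
    have h2 : τ * w ^ 2 ≤ τ * (1 + w) ^ 2 * L ^ 2 := by
      have h3 : w ^ 2 ≤ (1 + w) ^ 2 := by nlinarith
      have h4 : 1 ≤ L ^ 2 := by nlinarith
      have h5 : 0 ≤ τ * (1 + w) ^ 2 := by positivity
      nlinarith
    nlinarith
  -- the speed of the horizontal curve
  have hJle : ∀ t, |t| ≤ L + 1 → |J t hs| ≤ 2 := by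
    intro t htt
    have h1 := ode_ge (k := fun h => F.K (fm ψ v t h).1) (fun h => hK _) (hJ0 t) (hJ0' t) (hJ t) (hJ' t)
      hs
    have h2 := (ode_le (k := fun h => F.K (fm ψ v t h).1) hτ hw hτw (fun h => hK _)
      (fun h hh => (abs_lt.1 (hflat t h htt hh)).1.le) (hJ0 t) (hJ0' t) (hJ t) (hJ' t) hs hhs).1
    rw [abs_of_pos (by linarith)]
    have h3 : hs ^ 2 ≤ w ^ 2 := by
      rw [← sq_abs]
      exact pow_le_pow_left₀ (abs_nonneg _) hhs.le 2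
    nlinarith
  -- first curve
  let c₁ : ℝ → Pt := fun s => (fm ψ v (ts + s) hs).1
  have hc₁ : ContDiff ℝ ∞ c₁ :=
    contDiff_fst.comp (hsm.comp ((contDiff_const.add contDiff_id).prodMk contDiff_const))
  have hd₁ : ∀ s, deriv c₁ s = J (ts + s) hs •
      F.dir (fm ψ v (ts + s) hs).1 ((fm ψ v (ts + s) hs).2 - Real.pi / 2) := by
    intro s
    have h1 : HasDerivAt (fun s : ℝ => (ts + s, hs)) ((1 : ℝ), (0 : ℝ)) s :=
      ((hasDerivAt_id s).const_add ts).prodMk (hasDerivAt_const s hs)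
    have h2 := (hJf (ts + s) hs).comp_hasDerivAt s h1
    have h3 := (hasFDerivAt_fst (𝕜 := ℝ) (E := Pt) (F := ℝ)).comp_hasDerivAt s h2
    have h4 := h3.deriv
    refine Eq.trans ?_ (h4.trans ?_)
    · rfl
    · simp
  have hv1 : (fm ψ (v.1, v.2 + σ * b) t₀ 0).1 = c₁ 0 := by
    change (ψ 0 _).1 = (fm ψ v (ts + 0) hs).1
    rw [hψ.1, add_zero, hn]
  obtain ⟨t1, h1, e1, a1, b1⟩ := lift_len F hψ hK (v.1, v.2 + σ * b) c₁ hc₁ t₀ 0 (t₀ - ts) 2 hv1
    (by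
      intro x hx
      change F.nm (fm ψ v (ts + x) hs).1 _ ≤ 2
      have hx' : |ts + x| ≤ L + 1 := by
        have h5 : |x| ≤ |t₀ - ts| := by
          have := abs_sub_left_of_mem_uIcc hx
          rwa [sub_zero, sub_zero] at this
        have h6 : |ts| ≤ |ts - t₀| + |t₀| := by
          have := abs_add_le (ts - t₀) t₀
          rwa [sub_add_cancel] at this
        have h7 := abs_add_le ts x
        rw [abs_sub_comm] at h5
        linarith
      rw [hd₁]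
      have h8 := F.nm_comb (fm ψ v (ts + x) hs).1 (fm ψ v (ts + x) hs).2 (J (ts + x) hs) 0
      rw [zero_smul, add_zero] at h8
      rw [h8]
      have h9 : J (ts + x) hs ^ 2 + 0 ^ 2 = J (ts + x) hs ^ 2 := by ring
      rw [h9, Real.sqrt_sq_eq_abs]
      exact hJle _ hx')
  -- second curve
  let c₂ : ℝ → Pt := fun s => (fm ψ v t₀ (hs + s)).1
  have hc₂ : ContDiff ℝ ∞ c₂ :=
    contDiff_fst.comp (hsm.comp (contDiff_const.prodMk (contDiff_const.add contDiff_id)))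
  have hd₂ : ∀ s, deriv c₂ s = F.dir (fm ψ v t₀ (hs + s)).1 (fm ψ v t₀ (hs + s)).2 := by
    intro s
    have h1 : HasDerivAt (fun s : ℝ => (t₀, hs + s)) ((0 : ℝ), (1 : ℝ)) s :=
      (hasDerivAt_const s t₀).prodMk ((hasDerivAt_id s).const_add hs)
    have h2 := (hJf t₀ (hs + s)).comp_hasDerivAt s h1
    have h3 := (hasFDerivAt_fst (𝕜 := ℝ) (E := Pt) (F := ℝ)).comp_hasDerivAt s h2
    have h4 := h3.deriv
    refine Eq.trans ?_ (h4.trans ?_)
    · rfl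
    · simp [Fr.X]
  have hv2 : (fm ψ (v.1, v.2 + σ * b) t1 h1).1 = c₂ 0 := by
    change _ = (fm ψ v t₀ (hs + 0)).1
    rw [e1, add_zero]
    change (fm ψ v (ts + (t₀ - ts)) hs).1 = _
    rw [add_sub_cancel]
  obtain ⟨t2, h2, e2, a2, b2⟩ := lift_len F hψ hK (v.1, v.2 + σ * b) c₂ hc₂ t1 h1 (h₀ - hs) 1 hv2
    (by
      intro x _
      change F.nm (fm ψ v t₀ (hs + x)).1 _ ≤ 1
      rw [hd₂]
      have h8 := F.nm_comb (fm ψ v t₀ (hs + x)).1 (fm ψ v t₀ (hs + x)).2 0 1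
      rw [zero_smul, zero_add, one_smul] at h8
      rw [h8]
      norm_num)
  have hd1 : |t₀ - ts| ≤ ε := by rw [abs_sub_comm]; exact hn1
  have hd2 : |h₀ - hs| ≤ |h₀ - σ * b * t₀| + ε := by
    have h3 := abs_add_le (h₀ - σ * b * t₀) (σ * b * t₀ - hs)
    rw [sub_add_sub_cancel] at h3
    have h4 : |σ * b * t₀ - hs| ≤ ε := by rw [abs_sub_comm]; exact hn2
    linarith
  refine ⟨t2, h2, ?_, ?_, ?_⟩
  · rw [e2]
    change (fm ψ v t₀ (hs + (h₀ - hs))).1 = _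
    rw [add_sub_cancel]
  · have h3 := abs_add_le (t2 - t1) (t1 - t₀)
    rw [sub_add_sub_cancel] at h3
    linarith
  · have h3 := abs_add_le (h2 - h1) h1
    rw [sub_add_cancel] at h3
    rw [sub_zero] at b1
    linarith

end

end Pool.Agent.Work.MP_275abe_gt
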