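import Pool.Agent.Work.MP_275abe_gt.FeA
import Pool.Agent.Work.MP_275abe_gt.CurvEq
import Pool.Agent.Work.MP_275abe_gt.Trans

/-!
transfer for the angle θ of v (exists_dir, sp_pos), fe_eq, rot_dir and curv_eq.
-/

namespace Pool.Agent.Work.MP_275abe_gt

open MeasureTheory Set
open scoped ContDiff

noncomputable section

theorem kap_TL (G : Met) {φ : ℝ → Pt × Pt → Pt × Pt} (hφ : IsFlow (spray G) φ)
    (hK : ∀ x, curv G x ≤ 0) (v : Pt × Pt) (hv : v.2 ≠ 0) (σ b τ L w ε : ℝ)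
    (hσ : σ = 1 ∨ σ = -1) (hb : 0 < b) (hb1 : b ≤ 1) (hτ : 0 < τ) (hL : 1 ≤ L) (hw : 0 < w)
    (hε : ε = L * b ^ 2 + 3 * τ * (1 + w) ^ 2 * L ^ 2) (hε1 : ε < 1 / 2) (hbw : b * L + ε < w)
    (hflat : ∀ t h, |t| ≤ L + 1 → |h| < w → kap G φ v t h < τ) (t₀ h₀ : ℝ) (ht : |t₀| ≤ L) :
    ∃ t' h', kap G φ (rot G (σ * b) v) t' h' = kap G φ v t₀ h₀ ∧
      |t' - t₀| ≤ |h₀ - σ * b * t₀| + 3 * ε ∧ |h'| ≤ |h₀ - σ * b * t₀| + 3 * ε := by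
  obtain ⟨ψ, hψ⟩ := exists_psi G hφ
  obtain ⟨θ, hθ⟩ := exists_dir G v
  have hs := sp_pos G v hv
  have hv' : v = (v.1, sp G v • unitVec G v.1 θ) := Prod.ext rfl hθ
  have hkap : ∀ t h, kap G φ v t h = |(frOf G).K (fm ψ (v.1, θ) t h).1| := by
    intro t h
    unfold kap
    rw [curv_eq, hv', fe_eq G hφ hψ _ _ _ hs]
  have hkap' : ∀ t h, kap G φ (rot G (σ * b) v) t h =
      |(frOf G).K (fm ψ (v.1, θ + σ * b) t h).1| := by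
    intro t h
    unfold kap
    rw [curv_eq, hv', rot_dir, fe_eq G hφ hψ _ _ _ hs]
  obtain ⟨t', h', h1, h2, h3⟩ := transfer (frOf G) hψ (fun x => by rw [← curv_eq]; exact hK x)
    (v.1, θ) σ b τ L w ε hσ hb hb1 hτ hL hw hε hε1 hbw
    (fun t h ht hh => by rw [← hkap]; exact hflat t h ht hh) t₀ h₀ ht
  refine ⟨t', h', ?_, h2, h3⟩
  rw [hkap, hkap', ← h1]

end

end Pool.Agent.Work.MP_275abe_gt
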