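import Pool.Agent.Work.MP_275abe_gt.NullZ

/-!
Almost every point of curvature zero is a flat point. Let B = {v | curv v.1 = 0 and kz j v ≠ 0 for some j}; for v in B take the
first such j: v is in a null set of null_kz, so mu B = 0, i.e. volume B = 0 (dt > 0). If curv x = 0 and x is not flat then
kz j (x, u) ≠ 0 for some j, u, hence on an open set of u (continuity), so the section B_x has positive measure; by Tonelli the
set of such x is null.
-/

namespace Pool.Agent.Work.MP_275abe_gt

open MeasureTheory Set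
open scoped ContDiff

noncomputable section

theorem vol_ll_mu (G : Met) : (volume : Measure (Pt × Pt)) ≪ mu G := by
  unfold mu
  refine withDensity_absolutelyContinuous' ?_ ?_
  · exact (ENNReal.measurable_ofReal.comp
      ((dt_smooth G).continuous.comp continuous_fst).measurable).aemeasurable
  · refine Filter.Eventually.of_forall fun v => ?_
    have := dt_pos G v.1
    simpa using this

theorem flat_null (G : Met) {φ : ℝ → Pt × Pt → Pt × Pt} (hφ : IsFlow (spray G) φ) :
    (volume : Measure Pt) {x | curv G x = 0 ∧ x ∉ flatPts G} = 0 := by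
  set B : Set (Pt × Pt) := {v | curv G v.1 = 0 ∧ ∃ j, kz G j v ≠ 0} with hB
  have hsub : B ⊆ ⋃ i : ℕ, {v | kz G i v = 0 ∧ kz G (i + 1) v ≠ 0} := by
    rintro v ⟨h0, hj⟩
    classical
    have hf := Nat.find_spec hj
    rcases h : Nat.find hj with _ | i
    · rw [h, kz_zero] at hf
      exact absurd h0 hf
    · rw [mem_iUnion]
      refine ⟨i, ?_, ?_⟩
      · by_contra hne
        have := Nat.find_min' hj (m := i) hne
        omega
      · rw [h] at hf
        exact hf
  have hmu : mu G B = 0 :=
    measure_mono_null hsub (measure_iUnion_null fun i => null_kz G hφ i)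
  have hvol : (volume : Measure (Pt × Pt)) B = 0 := vol_ll_mu G hmu
  have hae : ∀ᵐ v ∂((volume : Measure Pt).prod (volume : Measure Pt)), v ∉ B := by
    rw [← Measure.volume_eq_prod]
    exact measure_eq_zero_iff_ae_notMem.1 hvol
  have h2 := Measure.ae_ae_of_ae_prod hae
  rw [measure_eq_zero_iff_ae_notMem]
  filter_upwards [h2] with x hx hx2
  obtain ⟨hc, hnf⟩ := hx2
  have : ∃ j u, kz G j (x, u) ≠ 0 := by
    by_contra hcon
    push Not at hcon
    exact hnf hcon
  obtain ⟨j, u, hju⟩ := this
  have hopen : IsOpen {u : Pt | kz G j (x, u) ≠ 0} := by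
    have hcont : Continuous fun u : Pt => kz G j (x, u) :=
      (kz_smooth G j).continuous.comp (by fun_prop)
    exact isOpen_ne_fun hcont continuous_const
  have hpos : 0 < (volume : Measure Pt) {u : Pt | kz G j (x, u) ≠ 0} :=
    hopen.measure_pos _ ⟨u, hju⟩
  have hz : (volume : Measure Pt) {u : Pt | kz G j (x, u) ≠ 0} = 0 := by
    refine measure_mono_null (fun u hu => ?_) (measure_eq_zero_iff_ae_notMem.2 hx :
      (volume : Measure Pt) {u | (x, u) ∈ B} = 0)
    exact ⟨hc, j, hu⟩
  exact hpos.ne' hz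

theorem flat_closed (G : Met) : IsClosed (flatPts G) := by
  have : flatPts G = ⋂ (j : ℕ) (u : Pt), {x | kz G j (x, u) = 0} := by
    ext x
    simp [flatPts]
  rw [this]
  refine isClosed_iInter fun j => isClosed_iInter fun u => ?_
  have hcont : Continuous fun x : Pt => kz G j (x, u) :=
    (kz_smooth G j).continuous.comp (by fun_prop)
  exact isClosed_eq hcont continuous_const

theorem flat_act_of {G : Met} {Γ : Subgroup (Equiv.Perm Pt)} (hΓ : IsClosedSurf G Γ)
    {φ : ℝ → Pt × Pt → Pt × Pt} (hφ : IsFlow (spray G) φ) (f : Equiv.Perm Pt) (hf : f ∈ Γ)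
    (x : Pt) (h : f x ∈ flatPts G) : x ∈ flatPts G := by
  intro j u
  rw [← kz_act hΓ hφ f hf j (x, u)]
  exact h j _

theorem flat_act {G : Met} {Γ : Subgroup (Equiv.Perm Pt)} (hΓ : IsClosedSurf G Γ)
    {φ : ℝ → Pt × Pt → Pt × Pt} (hφ : IsFlow (spray G) φ) (f : Equiv.Perm Pt) (hf : f ∈ Γ)
    (x : Pt) : f x ∈ flatPts G ↔ x ∈ flatPts G := by
  refine ⟨flat_act_of hΓ hφ f hf x, fun h => ?_⟩
  refine flat_act_of hΓ hφ f⁻¹ (Γ.inv_mem hf) (f x) ?_
  simpa using h

end

end Pool.Agent.Work.MP_275abe_gt
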