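import Pool.Agent.Work.MP_275abe_gt.FlatP

/-!
Almost every vector of a zero curvature geodesic is in flatVec: for rational t the set {v | (φ t v).1 ∈ E}, E the null set of
flat_null, is null (mu_pres, and E x Pt is null); if v is in zeroVec and in none of these sets then (φ t v).1 is flat for all
rational t, hence for all t (flat_closed). flatVec is closed and invariant under the flow (flow_add) and under act.
-/

namespace Pool.Agent.Work.MP_275abe_gt

open MeasureTheory Set
open scoped ContDiff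

noncomputable section

theorem zero_diff_flat (G : Met) {φ : ℝ → Pt × Pt → Pt × Pt} (hφ : IsFlow (spray G) φ) :
    mu G (zeroVec G φ \ flatVec G φ) = 0 := by
  have hE := flat_null G hφ
  set E : Set Pt := {x | curv G x = 0 ∧ x ∉ flatPts G} with hEdef
  have hprod : mu G (E ×ˢ (univ : Set Pt)) = 0 := by
    have h1 : (volume : Measure (Pt × Pt)) (E ×ˢ (univ : Set Pt)) = 0 := by
      rw [Measure.volume_eq_prod, Measure.prod_prod, hE, zero_mul]
    exact (withDensity_absolutelyContinuous _ _) h1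
  have hpre : ∀ t : ℝ, mu G (φ t ⁻¹' (E ×ˢ (univ : Set Pt))) = 0 := fun t =>
    (mu_pres G hφ t).quasiMeasurePreserving.preimage_null hprod
  refine measure_mono_null ?_ (measure_iUnion_null fun q : ℚ => hpre (q : ℝ))
  rintro v ⟨hz, hnf⟩
  have hex : ∃ t, (φ t v).1 ∉ flatPts G := by
    by_contra hcon
    push Not at hcon
    exact hnf hcon
  obtain ⟨t, ht⟩ := hex
  have hcont : Continuous fun s : ℝ => (φ s v).1 :=
    continuous_fst.comp (continuous_iff_continuousAt.2 fun s => (hφ.2 v s).continuousAt)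
  have hopen : IsOpen {s : ℝ | (φ s v).1 ∉ flatPts G} :=
    ((flat_closed G).isOpen_compl).preimage hcont
  obtain ⟨q, hq⟩ := Rat.denseRange_cast.exists_mem_open hopen ⟨t, ht⟩
  exact mem_iUnion.2 ⟨q, ⟨hz q, hq⟩, mem_univ _⟩

theorem flatVec_closed (G : Met) {φ : ℝ → Pt × Pt → Pt × Pt} (hφ : IsFlow (spray G) φ) :
    IsClosed (flatVec G φ) := by
  have hc := flow_cont ((spray_smooth G).of_le (by norm_num)) hφ
  have : flatVec G φ = ⋂ t : ℝ, (fun v => (φ t v).1) ⁻¹' flatPts G := by
    ext v
    simp [flatVec]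
  rw [this]
  refine isClosed_iInter fun t => (flat_closed G).preimage ?_
  exact continuous_fst.comp (hc.comp (by fun_prop : Continuous fun v : Pt × Pt => (t, v)))

theorem flatVec_flow (G : Met) {φ : ℝ → Pt × Pt → Pt × Pt} (hφ : IsFlow (spray G) φ) (t : ℝ)
    (v : Pt × Pt) (hv : v ∈ flatVec G φ) : φ t v ∈ flatVec G φ := by
  intro s
  rw [← flow_add ((spray_smooth G).of_le (by norm_num)) hφ]
  exact hv _

theorem flatVec_act {G : Met} {Γ : Subgroup (Equiv.Perm Pt)} (hΓ : IsClosedSurf G Γ)
    {φ : ℝ → Pt × Pt → Pt × Pt} (hφ : IsFlow (spray G) φ) (f : Equiv.Perm Pt) (hf : f ∈ Γ) :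
    act f ⁻¹' flatVec G φ = flatVec G φ := by
  ext v
  rw [mem_preimage]
  have h : ∀ t, (φ t (act f v)).1 ∈ flatPts G ↔ (φ t v).1 ∈ flatPts G := by
    intro t
    rw [phi_act hΓ hφ f hf t v]
    exact flat_act hΓ hφ f hf _
  exact forall_congr' h

end

end Pool.Agent.Work.MP_275abe_gt
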