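import Pool.Agent.Work.MP_275abe_gt.Base

/-!
Algebra of a framed plane. al, be are the components: u = al a + be b. X is smooth. dir x theta has components cos, sin.
-/

namespace Pool.Agent.Work.MP_275abe_gt

open MeasureTheory Set
open scoped ContDiff

noncomputable section

namespace Fr
variable (F : Fr)

private theorem frA_dir_smooth : ContDiff ℝ ∞ fun z : Pt × ℝ => F.dir z.1 z.2 := by
  unfold dir
  exact ((Real.contDiff_cos.comp contDiff_snd).smul (F.ha.comp contDiff_fst)).add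
    ((Real.contDiff_sin.comp contDiff_snd).smul (F.hb.comp contDiff_fst))

private theorem frA_lam_smooth : ContDiff ℝ ∞ fun z : Pt × ℝ => F.lam z.1 z.2 := by
  unfold lam
  exact ((F.hp.comp contDiff_fst).mul (Real.contDiff_cos.comp contDiff_snd)).add
    ((F.hq.comp contDiff_fst).mul (Real.contDiff_sin.comp contDiff_snd))

theorem X_smooth : ContDiff ℝ ∞ F.X := F.frA_dir_smooth.prodMk F.frA_lam_smooth

theorem K_smooth : ContDiff ℝ ∞ F.K := by
  unfold K
  have h1 : ContDiff ℝ ∞ fun x => fderiv ℝ F.q x (F.a x) :=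
    (F.hq.fderiv_right (m := ∞) (by simp)).clm_apply F.ha
  have h2 : ContDiff ℝ ∞ fun x => fderiv ℝ F.p x (F.b x) :=
    (F.hp.fderiv_right (m := ∞) (by simp)).clm_apply F.hb
  exact ((h1.sub h2).sub (F.hp.pow 2)).sub (F.hq.pow 2)

theorem expand (x u : Pt) : u = F.al x u • F.a x + F.be x u • F.b x := by
  have hd := F.det x
  funext i
  fin_cases i
  · simp only [al, be, Pi.add_apply, Pi.smul_apply, smul_eq_mul, Fin.zero_eta, Fin.isValue]
    rw [div_mul_eq_mul_div, div_mul_eq_mul_div, ← add_div, eq_div_iff hd]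
    ring
  · simp only [al, be, Pi.add_apply, Pi.smul_apply, smul_eq_mul, Fin.mk_one, Fin.isValue]
    rw [div_mul_eq_mul_div, div_mul_eq_mul_div, ← add_div, eq_div_iff hd]
    ring

theorem al_comb (x : Pt) (α β : ℝ) : F.al x (α • F.a x + β • F.b x) = α := by
  have hd := F.det x
  simp only [al, Pi.add_apply, Pi.smul_apply, smul_eq_mul]
  rw [div_eq_iff hd]
  ring

theorem be_comb (x : Pt) (α β : ℝ) : F.be x (α • F.a x + β • F.b x) = β := by
  have hd := F.det x
  simp only [be, Pi.add_apply, Pi.smul_apply, smul_eq_mul]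
  rw [div_eq_iff hd]
  ring

private theorem frA_comb (x : Pt) (θ α β : ℝ) :
    α • F.dir x (θ - Real.pi / 2) + β • F.dir x θ =
      (α * Real.sin θ + β * Real.cos θ) • F.a x + (-α * Real.cos θ + β * Real.sin θ) • F.b x := by
  unfold dir
  rw [Real.cos_sub_pi_div_two, Real.sin_sub_pi_div_two]
  funext i
  simp only [Pi.add_apply, Pi.smul_apply, smul_eq_mul]
  ring

/-- The length of a combination of the orthonormal vectors `dir (θ - π / 2)`, `dir θ`. -/
theorem nm_comb (x : Pt) (θ α β : ℝ) :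
    F.nm x (α • F.dir x (θ - Real.pi / 2) + β • F.dir x θ) = √(α ^ 2 + β ^ 2) := by
  rw [frA_comb, nm, al_comb, be_comb]
  congr 1
  have := Real.sin_sq_add_cos_sq θ
  linear_combination (α ^ 2 + β ^ 2) * this

theorem comb_inj (x : Pt) (θ α β α' β' : ℝ)
    (h : α • F.dir x (θ - Real.pi / 2) + β • F.dir x θ =
      α' • F.dir x (θ - Real.pi / 2) + β' • F.dir x θ) : α = α' ∧ β = β' := by
  rw [frA_comb, frA_comb] at h
  have h1 := congrArg (F.al x) h
  have h2 := congrArg (F.be x) h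
  rw [al_comb, al_comb] at h1
  rw [be_comb, be_comb] at h2
  have h3 := Real.sin_sq_add_cos_sq θ
  constructor
  · linear_combination Real.sin θ * h1 - Real.cos θ * h2 - (α - α') * h3
  · linear_combination Real.cos θ * h1 + Real.sin θ * h2 - (β - β') * h3

theorem comb_surj (x : Pt) (θ : ℝ) (u : Pt) :
    ∃ α β : ℝ, u = α • F.dir x (θ - Real.pi / 2) + β • F.dir x θ := by
  refine ⟨F.al x u * Real.sin θ - F.be x u * Real.cos θ,
    F.al x u * Real.cos θ + F.be x u * Real.sin θ, ?_⟩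
  rw [frA_comb]
  have h3 := Real.sin_sq_add_cos_sq θ
  have e1 : (F.al x u * Real.sin θ - F.be x u * Real.cos θ) * Real.sin θ +
      (F.al x u * Real.cos θ + F.be x u * Real.sin θ) * Real.cos θ = F.al x u := by
    linear_combination F.al x u * h3
  have e2 : -(F.al x u * Real.sin θ - F.be x u * Real.cos θ) * Real.cos θ +
      (F.al x u * Real.cos θ + F.be x u * Real.sin θ) * Real.sin θ = F.be x u := by
    linear_combination F.be x u * h3
  rw [e1, e2]
  exact F.expand x u

theorem nm_cont : Continuous fun y : Pt × Pt => F.nm y.1 y.2 := by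
  have ha : Continuous F.a := F.ha.continuous
  have hb : Continuous F.b := F.hb.continuous
  have ha0 : Continuous fun y : Pt × Pt => F.a y.1 0 := (continuous_apply 0).comp (ha.comp continuous_fst)
  have ha1 : Continuous fun y : Pt × Pt => F.a y.1 1 := (continuous_apply 1).comp (ha.comp continuous_fst)
  have hb0 : Continuous fun y : Pt × Pt => F.b y.1 0 := (continuous_apply 0).comp (hb.comp continuous_fst)
  have hb1 : Continuous fun y : Pt × Pt => F.b y.1 1 := (continuous_apply 1).comp (hb.comp continuous_fst)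
  have hu0 : Continuous fun y : Pt × Pt => y.2 0 := (continuous_apply 0).comp continuous_snd
  have hu1 : Continuous fun y : Pt × Pt => y.2 1 := (continuous_apply 1).comp continuous_snd
  have hd : Continuous fun y : Pt × Pt => F.a y.1 0 * F.b y.1 1 - F.a y.1 1 * F.b y.1 0 :=
    (ha0.mul hb1).sub (ha1.mul hb0)
  have hal : Continuous fun y : Pt × Pt => F.al y.1 y.2 := by
    unfold al
    exact ((hu0.mul hb1).sub (hu1.mul hb0)).div hd fun y => F.det y.1
  have hbe : Continuous fun y : Pt × Pt => F.be y.1 y.2 := by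
    unfold be
    exact ((ha0.mul hu1).sub (ha1.mul hu0)).div hd fun y => F.det y.1
  unfold nm
  exact Real.continuous_sqrt.comp ((hal.pow 2).add (hbe.pow 2))

theorem dir_smooth : ContDiff ℝ ∞ fun z : Pt × ℝ => F.dir z.1 z.2 := F.frA_dir_smooth

theorem lam_smooth : ContDiff ℝ ∞ fun z : Pt × ℝ => F.lam z.1 z.2 := F.frA_lam_smooth

/-- The derivative of `dir` in `x` and in `θ`. -/
theorem fderiv_dir (z w : Pt × ℝ) : fderiv ℝ (fun z : Pt × ℝ => F.dir z.1 z.2) z w =
    (Real.cos z.2 • fderiv ℝ F.a z.1 w.1 + Real.sin z.2 • fderiv ℝ F.b z.1 w.1) +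
      w.2 • F.dir z.1 (z.2 + Real.pi / 2) := by
  have ha : HasFDerivAt (fun z : Pt × ℝ => F.a z.1)
      ((fderiv ℝ F.a z.1).comp (ContinuousLinearMap.fst ℝ Pt ℝ)) z :=
    ((F.ha.differentiable (by simp)) z.1).hasFDerivAt.comp z hasFDerivAt_fst
  have hb : HasFDerivAt (fun z : Pt × ℝ => F.b z.1)
      ((fderiv ℝ F.b z.1).comp (ContinuousLinearMap.fst ℝ Pt ℝ)) z :=
    ((F.hb.differentiable (by simp)) z.1).hasFDerivAt.comp z hasFDerivAt_fst
  have hc : HasFDerivAt (fun z : Pt × ℝ => Real.cos z.2)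
      (-Real.sin z.2 • ContinuousLinearMap.snd ℝ Pt ℝ) z :=
    (Real.hasDerivAt_cos z.2).comp_hasFDerivAt z hasFDerivAt_snd
  have hs : HasFDerivAt (fun z : Pt × ℝ => Real.sin z.2)
      (Real.cos z.2 • ContinuousLinearMap.snd ℝ Pt ℝ) z :=
    (Real.hasDerivAt_sin z.2).comp_hasFDerivAt z hasFDerivAt_snd
  have h := ((hc.smul ha).add (hs.smul hb)).fderiv
  have h' : fderiv ℝ (fun z : Pt × ℝ => F.dir z.1 z.2) z = _ := h
  rw [h']
  unfold dir
  rw [Real.cos_add_pi_div_two, Real.sin_add_pi_div_two]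
  funext i
  simp
  ring

/-- The derivative of `lam` in `x` and in `θ`. -/
theorem fderiv_lam (z w : Pt × ℝ) : fderiv ℝ (fun z : Pt × ℝ => F.lam z.1 z.2) z w =
    (fderiv ℝ F.p z.1 w.1 * Real.cos z.2 + fderiv ℝ F.q z.1 w.1 * Real.sin z.2) +
      w.2 * F.lam z.1 (z.2 + Real.pi / 2) := by
  have ha : HasFDerivAt (fun z : Pt × ℝ => F.p z.1)
      ((fderiv ℝ F.p z.1).comp (ContinuousLinearMap.fst ℝ Pt ℝ)) z :=
    ((F.hp.differentiable (by simp)) z.1).hasFDerivAt.comp z hasFDerivAt_fst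
  have hb : HasFDerivAt (fun z : Pt × ℝ => F.q z.1)
      ((fderiv ℝ F.q z.1).comp (ContinuousLinearMap.fst ℝ Pt ℝ)) z :=
    ((F.hq.differentiable (by simp)) z.1).hasFDerivAt.comp z hasFDerivAt_fst
  have hc : HasFDerivAt (fun z : Pt × ℝ => Real.cos z.2)
      (-Real.sin z.2 • ContinuousLinearMap.snd ℝ Pt ℝ) z :=
    (Real.hasDerivAt_cos z.2).comp_hasFDerivAt z hasFDerivAt_snd
  have hs : HasFDerivAt (fun z : Pt × ℝ => Real.sin z.2)
      (Real.cos z.2 • ContinuousLinearMap.snd ℝ Pt ℝ) z :=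
    (Real.hasDerivAt_sin z.2).comp_hasFDerivAt z hasFDerivAt_snd
  have h := ((ha.mul hc).add (hb.mul hs)).fderiv
  have h' : fderiv ℝ (fun z : Pt × ℝ => F.lam z.1 z.2) z = _ := h
  rw [h']
  unfold lam
  rw [Real.cos_add_pi_div_two, Real.sin_add_pi_div_two]
  simp
  ring

end Fr

end

end Pool.Agent.Work.MP_275abe_gt
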