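import Pool.Agent.Work.MP_275abe_gt.MetC
import Pool.Agent.Work.MP_275abe_gt.FrA

/-!
The framed plane of a metric (definition, complete) and the comparison of notions.
-/

namespace Pool.Agent.Work.MP_275abe_gt

open MeasureTheory Set
open scoped ContDiff

noncomputable section

/-- The bracket of the frame fields. -/
def brk (G : Met) (x : Pt) : Pt :=
  fderiv ℝ (fb G) x (fa G x) - fderiv ℝ (fa G) x (fb G x)

theorem brk_smooth (G : Met) (w : Pt → Pt) (hw : ContDiff ℝ ∞ w) :
    ContDiff ℝ ∞ fun x => ip G x (brk G x) (w x) := by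
  have h1 : ContDiff ℝ ∞ fun x => fderiv ℝ (fb G) x (fa G x) :=
    ((fb_smooth G).fderiv_right (by simp)).clm_apply (fa_smooth G)
  have h2 : ContDiff ℝ ∞ fun x => fderiv ℝ (fa G) x (fb G x) :=
    ((fa_smooth G).fderiv_right (by simp)).clm_apply (fb_smooth G)
  have h3 : ContDiff ℝ ∞ (brk G) := h1.sub h2
  exact (ip_smooth G).comp (contDiff_id.prodMk (h3.prodMk hw))

/-- The framed plane of a metric. -/
def frOf (G : Met) : Fr where
  a := fa G
  b := fb G
  p := fun x => ip G x (brk G x) (fa G x)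
  q := fun x => ip G x (brk G x) (fb G x)
  ha := fa_smooth G
  hb := fb_smooth G
  hp := brk_smooth G _ (fa_smooth G)
  hq := brk_smooth G _ (fb_smooth G)
  det := fun x => by
    rw [ab_det]
    exact (div_pos one_pos (Real.sqrt_pos.2 (dt_pos G x))).ne'
  br := fun x => ip_expand G x (brk G x)

theorem al_frOf (G : Met) (x u : Pt) : (frOf G).al x u = ip G x u (fa G x) := by
  conv_lhs => rw [ip_expand G x u]
  exact (frOf G).al_comb x _ _

theorem be_frOf (G : Met) (x u : Pt) : (frOf G).be x u = ip G x u (fb G x) := by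
  conv_lhs => rw [ip_expand G x u]
  exact (frOf G).be_comb x _ _

theorem nm_frOf (G : Met) (x u : Pt) : (frOf G).nm x u = √(ip G x u u) := by
  unfold Fr.nm
  rw [al_frOf, be_frOf, ip_eq G x u u]
  congr 1
  ring

theorem dir_frOf (G : Met) (x : Pt) (θ : ℝ) : (frOf G).dir x θ = unitVec G x θ := rfl

theorem ip_dir (G : Met) (x : Pt) (θ : ℝ) : ip G x (unitVec G x θ) (unitVec G x θ) = 1 := by
  have h1 : ip G x (unitVec G x θ) (fa G x) = Real.cos θ := by
    rw [unitVec, ip_add, ip_smul, ip_smul, ip_aa, ip_symm G x (fb G x), ip_ab]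
    ring
  have h2 : ip G x (unitVec G x θ) (fb G x) = Real.sin θ := by
    rw [unitVec, ip_add, ip_smul, ip_smul, ip_bb, ip_ab]
    ring
  rw [ip_eq, h1, h2]
  have := Real.sin_sq_add_cos_sq θ
  linarith

/-- Every vector of positive length has an angle. -/
theorem exists_dir (G : Met) (v : Pt × Pt) : ∃ θ, v.2 = sp G v • unitVec G v.1 θ := by
  have hsp : sp G v = ‖(⟨ip G v.1 v.2 (fa G v.1), ip G v.1 v.2 (fb G v.1)⟩ : ℂ)‖ := by
    rw [sp, ip_eq, Complex.norm_def, Complex.normSq_mk]
  refine ⟨Complex.arg ⟨ip G v.1 v.2 (fa G v.1), ip G v.1 v.2 (fb G v.1)⟩, ?_⟩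
  rw [hsp, unitVec, smul_add, smul_smul, smul_smul, Complex.norm_mul_cos_arg,
    Complex.norm_mul_sin_arg]
  exact ip_expand G v.1 v.2

end

end Pool.Agent.Work.MP_275abe_gt
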