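import Pool.Agent.Work.MP_275abe_gt.Base

/-!
Γ is countable (the plane is a countable union of compact sets; proper) and has a bounded Borel fundamental domain: every x
has an open bounded neighbourhood U with f U ∩ U = ∅ for f ≠ 1 in Γ (proper and free, T2); finitely many, U_1..U_n, cover the
compact set C of cocompact; D = ⋃_i (U_i \ ⋃_{j < i} Γ U_j).
-/

namespace Pool.Agent.Work.MP_275abe_gt

open MeasureTheory Set
open scoped ContDiff

noncomputable section

theorem countable_group {G : Met} {Γ : Subgroup (Equiv.Perm Pt)} (hΓ : IsClosedSurf G Γ) :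
    Countable Γ := by
  have h1 : (Γ : Set (Equiv.Perm Pt)) ⊆ ⋃ n : ℕ, {f : Equiv.Perm Pt | f ∈ Γ ∧
      (f '' (Metric.closedBall (0 : Pt) n) ∩ Metric.closedBall (0 : Pt) n).Nonempty} := by
    intro f hf
    obtain ⟨n, hn⟩ := exists_nat_ge (dist (f 0) 0)
    refine mem_iUnion.2 ⟨n, hf, f 0, ⟨0, ?_, rfl⟩, ?_⟩
    · rw [Metric.mem_closedBall, dist_self]
      exact Nat.cast_nonneg n
    · rw [Metric.mem_closedBall]
      exact hn
  have h2 : (Γ : Set (Equiv.Perm Pt)).Countable :=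
    (countable_iUnion fun n : ℕ => (hΓ.proper _ (isCompact_closedBall (0 : Pt) n)).countable).mono h1
  exact h2.to_subtype

private theorem fund_inv (g : Equiv.Perm Pt) (x : Pt) : g⁻¹ (g x) = x :=
  Equiv.symm_apply_apply g x

/-- small balls are disjoint from their translates. -/
private theorem fund_ball {G : Met} {Γ : Subgroup (Equiv.Perm Pt)} (hΓ : IsClosedSurf G Γ)
    (x : Pt) : ∃ ε : ℝ, 0 < ε ∧ ∀ f ∈ Γ, ∀ y ∈ Metric.ball x ε, f y ∈ Metric.ball x ε → f = 1 := by
  classical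
  have hfin := hΓ.proper _ (isCompact_closedBall x 1)
  have key : ∀ S : Finset (Equiv.Perm Pt), (∀ f ∈ S, f ∈ Γ) → ∃ ε : ℝ, 0 < ε ∧
      ∀ f ∈ S, ∀ y ∈ Metric.ball x ε, f y ∈ Metric.ball x ε → f = 1 := by
    intro S
    induction S using Finset.induction_on with
    | empty => exact fun _ => ⟨1, one_pos, fun f hf => absurd hf (Finset.notMem_empty f)⟩
    | insert g S hg ih =>
      intro hS
      obtain ⟨ε, hε, h⟩ := ih fun f hf => hS f (Finset.mem_insert_of_mem hf)
      by_cases hg1 : g = 1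
      · refine ⟨ε, hε, fun f hf y hy hfy => ?_⟩
        rcases Finset.mem_insert.1 hf with rfl | hf
        · exact hg1
        · exact h f hf y hy hfy
      have hgΓ := hS g (Finset.mem_insert_self _ _)
      have hgx : g x ≠ x := fun h => hg1 (hΓ.free g hgΓ x h)
      have hδ : 0 < dist (g x) x := dist_pos.2 hgx
      have hcont : Continuous (g : Pt → Pt) := (hΓ.smooth g hgΓ).continuous
      obtain ⟨ρ, hρ, hball⟩ := Metric.continuousAt_iff.1 hcont.continuousAt
        (dist (g x) x / 2) (half_pos hδ)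
      refine ⟨min ε (min ρ (dist (g x) x / 2)), lt_min hε (lt_min hρ (half_pos hδ)), ?_⟩
      intro f hf y hy hfy
      rw [Metric.mem_ball, lt_min_iff, lt_min_iff] at hy hfy
      rcases Finset.mem_insert.1 hf with rfl | hf
      · exfalso
        have h1 := hball hy.2.1
        have h2 := hfy.2.2
        have h3 := dist_triangle (f x) (f y) x
        rw [dist_comm (f x) (f y)] at h3
        linarith
      · exact h f hf y hy.1 hfy.1
  obtain ⟨ε, hε, h⟩ := key hfin.toFinset fun f hf => (hfin.mem_toFinset.1 hf).1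
  refine ⟨min ε 1, lt_min hε one_pos, fun f hf y hy hfy => ?_⟩
  rw [Metric.mem_ball, lt_min_iff] at hy hfy
  refine h f (hfin.mem_toFinset.2 ⟨hf, f y, ⟨y, ?_, rfl⟩, ?_⟩) y hy.1 hfy.1
  · exact Metric.mem_closedBall.2 hy.2.le
  · exact Metric.mem_closedBall.2 hfy.2.le

theorem exists_fd {G : Met} {Γ : Subgroup (Equiv.Perm Pt)} (hΓ : IsClosedSurf G Γ) :
    ∃ D, IsFD Γ D := by
  classical
  have hcount := countable_group hΓ
  choose ε hε hball using fund_ball hΓ
  obtain ⟨C, hC, hCc⟩ := hΓ.cocompact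
  have key : ∀ t : Finset Pt, ∃ D : Set Pt, MeasurableSet D ∧ Bornology.IsBounded D ∧
      (∀ x : Pt, ∀ f ∈ Γ, ∀ g ∈ Γ, f x ∈ D → g x ∈ D → f = g) ∧
      ∀ x ∈ t, ∀ y ∈ Metric.ball x (ε x), ∃ f ∈ Γ, f y ∈ D := by
    intro t
    induction t using Finset.induction_on with
    | empty => exact ⟨∅, MeasurableSet.empty, Bornology.isBounded_empty,
        fun x f _ g _ h => absurd h (notMem_empty _), fun x hx => absurd hx (Finset.notMem_empty x)⟩
    | insert x₀ t _ ih =>
      obtain ⟨D, hDm, hDb, hDu, hDc⟩ := ih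
      let N : Set Pt := ⋃ f : Γ, (f.1 : Pt → Pt) ⁻¹' D
      have hNm : MeasurableSet N := MeasurableSet.iUnion fun f =>
        (hΓ.smooth f.1 f.2).continuous.measurable hDm
      have hmemN : ∀ y, y ∈ N ↔ ∃ f ∈ Γ, f y ∈ D := by
        intro y
        constructor
        · intro hy
          obtain ⟨f, hf⟩ := mem_iUnion.1 hy
          exact ⟨f.1, f.2, hf⟩
        · rintro ⟨f, hf, hy⟩
          exact mem_iUnion.2 ⟨⟨f, hf⟩, hy⟩
      refine ⟨D ∪ (Metric.ball x₀ (ε x₀) \ N), hDm.union (measurableSet_ball.diff hNm),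
        hDb.union (Metric.isBounded_ball.subset sdiff_subset), ?_, ?_⟩
      · intro x f hf g hg hfx hgx
        have hshift : ∀ f ∈ Γ, ∀ g ∈ Γ, f x ∈ D → g x ∉ Metric.ball x₀ (ε x₀) \ N := by
          intro f hf g hg h1 h2
          refine h2.2 ((hmemN _).2 ⟨f * g⁻¹, Γ.mul_mem hf (Γ.inv_mem hg), ?_⟩)
          rw [Equiv.Perm.mul_apply, fund_inv]
          exact h1
        rcases hfx with h1 | h1 <;> rcases hgx with h2 | h2
        · exact hDu x f hf g hg h1 h2
        · exact absurd h2 (hshift f hf g hg h1)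
        · exact absurd h1 (hshift g hg f hf h2)
        · have h3 := hball x₀ (g * f⁻¹) (Γ.mul_mem hg (Γ.inv_mem hf)) (f x) h1.1 (by
            rw [Equiv.Perm.mul_apply, fund_inv]
            exact h2.1)
          exact (mul_inv_eq_one.1 h3).symm
      · intro x hx y hy
        by_cases hyN : y ∈ N
        · obtain ⟨f, hf, h⟩ := (hmemN y).1 hyN
          exact ⟨f, hf, Or.inl h⟩
        · rcases Finset.mem_insert.1 hx with rfl | hx
          · exact ⟨1, Γ.one_mem, Or.inr ⟨hy, hyN⟩⟩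
          · obtain ⟨f, hf, h⟩ := hDc x hx y hy
            exact ⟨f, hf, Or.inl h⟩
  obtain ⟨t, -, ht⟩ := hC.elim_nhds_subcover (fun x => Metric.ball x (ε x))
    fun x _ => Metric.ball_mem_nhds x (hε x)
  obtain ⟨D, hDm, hDb, hDu, hDc⟩ := key t
  refine ⟨D, hDm, hDb, fun x => ?_⟩
  obtain ⟨f, hf, hfx⟩ := hCc x
  obtain ⟨y, hy, hyb⟩ := mem_iUnion₂.1 (ht hfx)
  obtain ⟨g, hg, hgD⟩ := hDc y hy (f x) hyb
  refine ⟨g * f, ⟨Γ.mul_mem hg hf, hgD⟩, fun k hk => ?_⟩
  exact hDu x k hk.1 (g * f) (Γ.mul_mem hg hf) hk.2 hgD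

end

end Pool.Agent.Work.MP_275abe_gt
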