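import Pool.Agent.Work.MP_275abe_gt.Base

/-!
Uniqueness of integral curves of a C^1 vector field (local Lipschitz + connectedness of the line, Mathlib
ODE_solution_unique_of_eventually, or isMIntegralCurve_eq_of_contMDiff), and the group law of the flow.
-/

namespace Pool.Agent.Work.MP_275abe_gt

open MeasureTheory Set
open scoped ContDiff

noncomputable section

/-- Uniqueness on an interval. -/
theorem integral_unique_on {E : Type*} [NormedAddCommGroup E] [NormedSpace ℝ E] {Z : E → E}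
    (hZ : ContDiff ℝ 1 Z) {γ δ : ℝ → E} {a b : ℝ} (ha : a < 0) (hb : 0 < b)
    (hγ : ∀ t ∈ Ioo a b, HasDerivAt γ (Z (γ t)) t)
    (hδ : ∀ t ∈ Ioo a b, HasDerivAt δ (Z (δ t)) t) (h : γ 0 = δ 0) : ∀ t ∈ Ioo a b, γ t = δ t := by
  have hloc : ∀ t ∈ Ioo a b, γ t = δ t → γ =ᶠ[nhds t] δ := by
    intro t ht he
    obtain ⟨K, s, hs, hL⟩ := (hZ.contDiffAt (x := γ t)).exists_lipschitzOnWith
    have hI : Ioo a b ∈ nhds t := Ioo_mem_nhds ht.1 ht.2
    refine ODE_solution_unique_of_eventually (v := fun _ => Z) (s := fun _ => s) (K := K)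
      (Filter.Eventually.of_forall fun _ => hL) ?_ ?_ he
    · filter_upwards [hI, (hγ t ht).continuousAt hs] with u hu hu'
      exact ⟨hγ u hu, hu'⟩
    · filter_upwards [hI, (hδ t ht).continuousAt (he ▸ hs)] with u hu hu'
      exact ⟨hδ u hu, hu'⟩
  have key : Ioo a b ⊆ {t | γ =ᶠ[nhds t] δ} := by
    refine isPreconnected_Ioo.subset_of_closure_inter_subset ?_ ?_ ?_
    · rw [isOpen_iff_mem_nhds]
      intro t ht
      exact eventually_eventually_nhds.2 ht
    · exact ⟨0, ⟨ha, hb⟩, hloc 0 ⟨ha, hb⟩ h⟩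
    · rintro t ⟨ht, ht'⟩
      apply hloc t ht'
      by_contra hne
      have h1 : ∀ᶠ u in nhds t, γ u ≠ δ u :=
        ((hγ t ht').continuousAt.prodMk (hδ t ht').continuousAt).eventually
          ((isOpen_compl_iff.2 isClosed_diagonal).mem_nhds hne)
      obtain ⟨u, hu, hu'⟩ := (mem_closure_iff_frequently.1 ht |>.and_eventually h1).exists
      exact hu' hu.self_of_nhds
  exact fun t ht => (key ht).self_of_nhds

theorem integral_unique {E : Type*} [NormedAddCommGroup E] [NormedSpace ℝ E] {Z : E → E}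
    (hZ : ContDiff ℝ 1 Z) {γ δ : ℝ → E} (hγ : ∀ t, HasDerivAt γ (Z (γ t)) t)
    (hδ : ∀ t, HasDerivAt δ (Z (δ t)) t) (h : γ 0 = δ 0) : γ = δ := by
  funext t
  have h0 := abs_nonneg t
  exact integral_unique_on hZ (a := -(|t| + 1)) (b := |t| + 1) (by linarith) (by linarith)
    (fun u _ => hγ u) (fun u _ => hδ u) h t
    ⟨by linarith [neg_abs_le t], by linarith [le_abs_self t]⟩

theorem flow_unique {E : Type*} [NormedAddCommGroup E] [NormedSpace ℝ E] {Z : E → E}
    (hZ : ContDiff ℝ 1 Z) {Φ : ℝ → E → E} (hΦ : IsFlow Z Φ) {γ : ℝ → E}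
    (hγ : ∀ t, HasDerivAt γ (Z (γ t)) t) (t : ℝ) : γ t = Φ t (γ 0) := by
  have h := integral_unique hZ hγ (hΦ.2 (γ 0)) (hΦ.1 (γ 0)).symm
  exact congrFun h t

theorem flow_add {E : Type*} [NormedAddCommGroup E] [NormedSpace ℝ E] {Z : E → E}
    (hZ : ContDiff ℝ 1 Z) {Φ : ℝ → E → E} (hΦ : IsFlow Z Φ) (s t : ℝ) (z : E) :
    Φ (s + t) z = Φ s (Φ t z) := by
  have h := flow_unique hZ hΦ (γ := fun u => Φ (u + t) z)
    (fun u => by simpa using (hΦ.2 z (u + t)).comp_add_const u t) s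
  simpa using h

theorem flow_neg {E : Type*} [NormedAddCommGroup E] [NormedSpace ℝ E] {Z : E → E}
    (hZ : ContDiff ℝ 1 Z) {Φ : ℝ → E → E} (hΦ : IsFlow Z Φ) (t : ℝ) (z : E) :
    Φ (-t) (Φ t z) = z := by
  rw [← flow_add hZ hΦ, neg_add_cancel, hΦ.1]

end

end Pool.Agent.Work.MP_275abe_gt
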