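import Pool.Agent.Work.MP_275abe_gt.Levi
import Pool.Agent.Work.MP_275abe_gt.OUniq

/-!
Geodesics through the frame. geo_rel: if z = (x, θ) is an integral curve of X then x' = dir x θ and (dir x θ)' =
D(dir · θ)(x') + θ' dir x (θ + π/2) = -Γ(x', x') - lam dir(θ + π/2) + lam dir(θ + π/2). exists_psi: for (x₀, θ₀) let
(x, ξ)(t) = φ t (x₀, unitVec x₀ θ₀) (unit speed, sp_flow) and θ(t) = θ₀ + ∫₀ᵗ (p ip(ξ, a) + q ip(ξ, b)); then both
(ip(ξ, a), ip(ξ, b)) and (cos θ, sin θ) satisfy c' = -λ s, s' = λ c with λ = θ' (nabla_a, nabla_b, hasDerivAt_ip) and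
agree at 0, so ξ = unitVec x θ and (x, θ) is an integral curve of X. phi_psi: uniqueness (integral_unique) for the
spray.
-/

namespace Pool.Agent.Work.MP_275abe_gt

open MeasureTheory Set
open scoped ContDiff

noncomputable section

private theorem georel_fst {E F : Type*} [NormedAddCommGroup E] [NormedSpace ℝ E]
    [NormedAddCommGroup F] [NormedSpace ℝ F] {z : ℝ → E × F} {z' : E × F} {t : ℝ}
    (h : HasDerivAt z z' t) : HasDerivAt (fun s => (z s).1) z'.1 t :=
  (hasFDerivAt_fst (𝕜 := ℝ) (p := z t)).comp_hasDerivAt t h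

private theorem georel_snd {E F : Type*} [NormedAddCommGroup E] [NormedSpace ℝ E]
    [NormedAddCommGroup F] [NormedSpace ℝ F] {z : ℝ → E × F} {z' : E × F} {t : ℝ}
    (h : HasDerivAt z z' t) : HasDerivAt (fun s => (z s).2) z'.2 t :=
  (hasFDerivAt_snd (𝕜 := ℝ) (p := z t)).comp_hasDerivAt t h

private theorem georel_comp0 {E F : Type*} [NormedAddCommGroup E] [NormedSpace ℝ E]
    [NormedAddCommGroup F] [NormedSpace ℝ F] {f : E → F} {L : E →L[ℝ] F} {x : ℝ → E} {x' : E}
    {t : ℝ} (hf : HasFDerivAt f L (x t)) (hx : HasDerivAt x x' t) :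
    HasDerivAt (fun s => f (x s)) (L x') t := hf.comp_hasDerivAt t hx

theorem geo_rel (G : Met) {z : ℝ → Pt × ℝ} {t : ℝ}
    (hz : HasDerivAt z ((frOf G).X (z t)) t) :
    HasDerivAt (fun s => ((z s).1, unitVec G (z s).1 (z s).2))
      (spray G ((z t).1, unitVec G (z t).1 (z t).2)) t := by
  have h1 : HasDerivAt (fun s => (z s).1) (unitVec G (z t).1 (z t).2) t := georel_fst hz
  have h2 : HasDerivAt (fun s => (z s).2) ((frOf G).lam (z t).1 (z t).2) t := georel_snd hz
  have hda : HasFDerivAt (fa G) (fderiv ℝ (fa G) (z t).1) (z t).1 :=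
    ((fa_smooth G).differentiable (by simp) _).hasFDerivAt
  have hdb : HasFDerivAt (fb G) (fderiv ℝ (fb G) (z t).1) (z t).1 :=
    ((fb_smooth G).differentiable (by simp) _).hasFDerivAt
  have ha : HasDerivAt (fun s => fa G (z s).1)
      (fderiv ℝ (fa G) (z t).1 (unitVec G (z t).1 (z t).2)) t := georel_comp0 hda h1
  have hb : HasDerivAt (fun s => fb G (z s).1)
      (fderiv ℝ (fb G) (z t).1 (unitVec G (z t).1 (z t).2)) t := georel_comp0 hdb h1
  have h3 : HasDerivAt (fun s => unitVec G (z s).1 (z s).2)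
      ((Real.cos (z t).2 • fderiv ℝ (fa G) (z t).1 (unitVec G (z t).1 (z t).2) +
        (-Real.sin (z t).2 * (frOf G).lam (z t).1 (z t).2) • fa G (z t).1) +
      (Real.sin (z t).2 • fderiv ℝ (fb G) (z t).1 (unitVec G (z t).1 (z t).2) +
        (Real.cos (z t).2 * (frOf G).lam (z t).1 (z t).2) • fb G (z t).1)) t := by
    unfold unitVec
    exact (h2.cos.smul ha).add (h2.sin.smul hb)
  have h4 : fderiv ℝ (fun y => unitVec G y (z t).2) (z t).1 (unitVec G (z t).1 (z t).2) =
      Real.cos (z t).2 • fderiv ℝ (fa G) (z t).1 (unitVec G (z t).1 (z t).2) +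
      Real.sin (z t).2 • fderiv ℝ (fb G) (z t).1 (unitVec G (z t).1 (z t).2) := by
    have h5 : HasFDerivAt (fun y => unitVec G y (z t).2)
        (Real.cos (z t).2 • fderiv ℝ (fa G) (z t).1 +
          Real.sin (z t).2 • fderiv ℝ (fb G) (z t).1) (z t).1 :=
      (hda.const_smul (Real.cos (z t).2)).add (hdb.const_smul (Real.sin (z t).2))
    rw [h5.fderiv]
    rfl
  have h5 := nabla_dir G (z t).1 (z t).2
  rw [h4] at h5
  have h6 : unitVec G (z t).1 ((z t).2 + Real.pi / 2) =
      (-Real.sin (z t).2) • fa G (z t).1 + Real.cos (z t).2 • fb G (z t).1 := by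
    unfold unitVec
    rw [Real.cos_add_pi_div_two, Real.sin_add_pi_div_two]
  rw [h6] at h5
  refine (h1.prodMk h3).congr_deriv ?_
  unfold spray
  refine Prod.ext rfl ?_
  simp only
  have h7 := eq_sub_of_add_eq h5
  funext k
  have h8 := congrFun h7 k
  simp only [Pi.add_apply, Pi.sub_apply, Pi.smul_apply, Pi.neg_apply, smul_eq_mul] at h8 ⊢
  linear_combination h8

private theorem georel_lin (G : Met) (x u w : Pt) (c : ℝ) : ip G x (c • u) w = c * ip G x u w :=
  ip_smul G x c u w

private theorem georel_lin' (G : Met) (x u w : Pt) (c : ℝ) : ip G x u (c • w) = c * ip G x u w := by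
  rw [ip_symm, ip_smul, ip_symm]

private theorem georel_zero (G : Met) (x w : Pt) : ip G x 0 w = 0 := by
  simp [ip]

/-- The derivatives of the components of the velocity of a solution of the spray. -/
private theorem georel_comp (G : Met) {z : ℝ → Pt × Pt} {t : ℝ}
    (hz : HasDerivAt z (spray G (z t)) t) :
    HasDerivAt (fun s => ip G (z s).1 (z s).2 (fa G (z s).1))
      (-((frOf G).p (z t).1 * ip G (z t).1 (z t).2 (fa G (z t).1) +
        (frOf G).q (z t).1 * ip G (z t).1 (z t).2 (fb G (z t).1)) *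
        ip G (z t).1 (z t).2 (fb G (z t).1)) t ∧
    HasDerivAt (fun s => ip G (z s).1 (z s).2 (fb G (z s).1))
      (((frOf G).p (z t).1 * ip G (z t).1 (z t).2 (fa G (z t).1) +
        (frOf G).q (z t).1 * ip G (z t).1 (z t).2 (fb G (z t).1)) *
        ip G (z t).1 (z t).2 (fa G (z t).1)) t := by
  have h1 : HasDerivAt (fun s => (z s).1) (z t).2 t := georel_fst hz
  have h2 : HasDerivAt (fun s => (z s).2) (-cV G (z t).1 (z t).2 (z t).2) t := georel_snd hz
  have hda : HasFDerivAt (fa G) (fderiv ℝ (fa G) (z t).1) (z t).1 :=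
    ((fa_smooth G).differentiable (by simp) _).hasFDerivAt
  have hdb : HasFDerivAt (fb G) (fderiv ℝ (fb G) (z t).1) (z t).1 :=
    ((fb_smooth G).differentiable (by simp) _).hasFDerivAt
  have ha : HasDerivAt (fun s => fa G (z s).1)
      (fderiv ℝ (fa G) (z t).1 (z t).2) t := georel_comp0 hda h1
  have hb : HasDerivAt (fun s => fb G (z s).1)
      (fderiv ℝ (fb G) (z t).1 (z t).2) t := georel_comp0 hdb h1
  constructor
  · refine (hasDerivAt_ip G h1 h2 ha).congr_deriv ?_
    rw [neg_add_cancel, georel_zero, zero_add, nabla_a, georel_lin']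
  · refine (hasDerivAt_ip G h1 h2 hb).congr_deriv ?_
    rw [neg_add_cancel, georel_zero, zero_add, nabla_b, georel_lin']

private theorem georel_unit (G : Met) (x : Pt) (θ : ℝ) :
    ip G x (unitVec G x θ) (fa G x) = Real.cos θ ∧
      ip G x (unitVec G x θ) (fb G x) = Real.sin θ := by
  unfold unitVec
  constructor
  · rw [ip_add, ip_smul, ip_smul, ip_aa, ip_symm G x (fb G x), ip_ab]
    ring
  · rw [ip_add, ip_smul, ip_smul, ip_ab, ip_bb]
    ring

theorem exists_psi (G : Met) {φ : ℝ → Pt × Pt → Pt × Pt} (hφ : IsFlow (spray G) φ) :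
    ∃ ψ : ℝ → Pt × ℝ → Pt × ℝ, IsFlow (frOf G).X ψ := by
  have main : ∀ z₀ : Pt × ℝ, ∃ z : ℝ → Pt × ℝ, z 0 = z₀ ∧
      ∀ t, HasDerivAt z ((frOf G).X (z t)) t := by
    intro z₀
    set v : Pt × Pt := (z₀.1, unitVec G z₀.1 z₀.2) with hv
    let A : ℝ → ℝ := fun s => ip G (φ s v).1 (φ s v).2 (fa G (φ s v).1)
    let B : ℝ → ℝ := fun s => ip G (φ s v).1 (φ s v).2 (fb G (φ s v).1)
    let l : ℝ → ℝ := fun s => (frOf G).p (φ s v).1 * A s + (frOf G).q (φ s v).1 * B s
    have hA : ∀ t, HasDerivAt A (-l t * B t) t := fun t => (georel_comp G (hφ.2 v t)).1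
    have hB : ∀ t, HasDerivAt B (l t * A t) t := fun t => (georel_comp G (hφ.2 v t)).2
    have hAc : Continuous A := continuous_iff_continuousAt.2 fun t => (hA t).continuousAt
    have hBc : Continuous B := continuous_iff_continuousAt.2 fun t => (hB t).continuousAt
    have hφc : Continuous fun s => φ s v :=
      continuous_iff_continuousAt.2 fun t => (hφ.2 v t).continuousAt
    have hlc : Continuous l := by
      exact (((frOf G).hp.continuous.comp (continuous_fst.comp hφc)).mul hAc).add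
        (((frOf G).hq.continuous.comp (continuous_fst.comp hφc)).mul hBc)
    let θ : ℝ → ℝ := fun t => z₀.2 + ∫ s in (0 : ℝ)..t, l s
    have hθ : ∀ t, HasDerivAt θ (l t) t := by
      intro t
      exact (intervalIntegral.integral_hasDerivAt_right (hlc.intervalIntegrable 0 t)
        (hlc.stronglyMeasurableAtFilter _ _) hlc.continuousAt).const_add z₀.2
    have hθ0 : θ 0 = z₀.2 := by simp [θ]
    have hA0 : A 0 = Real.cos z₀.2 := by
      change ip G (φ 0 v).1 (φ 0 v).2 (fa G (φ 0 v).1) = _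
      rw [hφ.1]
      exact (georel_unit G z₀.1 z₀.2).1
    have hB0 : B 0 = Real.sin z₀.2 := by
      change ip G (φ 0 v).1 (φ 0 v).2 (fb G (φ 0 v).1) = _
      rw [hφ.1]
      exact (georel_unit G z₀.1 z₀.2).2
    have hD : ∀ t, A t * Real.cos (θ t) + B t * Real.sin (θ t) = 1 := by
      intro t
      have h1 : ∀ s, HasDerivAt (fun s => A s * Real.cos (θ s) + B s * Real.sin (θ s)) 0 s := by
        intro s
        refine (((hA s).mul (hθ s).cos).add ((hB s).mul (hθ s).sin)).congr_deriv ?_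
        ring
      have h2 := is_const_of_deriv_eq_zero (fun s => (h1 s).differentiableAt)
        (fun s => (h1 s).deriv) t 0
      have h3 : A t * Real.cos (θ t) + B t * Real.sin (θ t) =
        A 0 * Real.cos (θ 0) + B 0 * Real.sin (θ 0) := h2
      rw [h3, hθ0, hA0, hB0]
      have := Real.sin_sq_add_cos_sq z₀.2
      linear_combination this
    have hE : ∀ t, A t * Real.sin (θ t) - B t * Real.cos (θ t) = 0 := by
      intro t
      have h1 : ∀ s, HasDerivAt (fun s => A s * Real.sin (θ s) - B s * Real.cos (θ s)) 0 s := by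
        intro s
        refine (((hA s).mul (hθ s).sin).sub ((hB s).mul (hθ s).cos)).congr_deriv ?_
        ring
      have h2 := is_const_of_deriv_eq_zero (fun s => (h1 s).differentiableAt)
        (fun s => (h1 s).deriv) t 0
      have h3 : A t * Real.sin (θ t) - B t * Real.cos (θ t) =
        A 0 * Real.sin (θ 0) - B 0 * Real.cos (θ 0) := h2
      rw [h3, hθ0, hA0, hB0]
      ring
    have hAθ : ∀ t, A t = Real.cos (θ t) := by
      intro t
      have h1 := hD t
      have h2 := hE t
      have h3 := Real.sin_sq_add_cos_sq (θ t)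
      linear_combination Real.cos (θ t) * h1 + Real.sin (θ t) * h2 - A t * h3
    have hBθ : ∀ t, B t = Real.sin (θ t) := by
      intro t
      have h1 := hD t
      have h2 := hE t
      have h3 := Real.sin_sq_add_cos_sq (θ t)
      linear_combination Real.sin (θ t) * h1 - Real.cos (θ t) * h2 - B t * h3
    refine ⟨fun t => ((φ t v).1, θ t), ?_, fun t => ?_⟩
    · simp only
      rw [hφ.1, hθ0]
    · have h1 : HasDerivAt (fun s => (φ s v).1) (φ t v).2 t := georel_fst (hφ.2 v t)
      refine (h1.prodMk (hθ t)).congr_deriv ?_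
      unfold Fr.X Fr.dir Fr.lam
      refine Prod.ext ?_ ?_
      · simp only
        have h2 := ip_expand G (φ t v).1 (φ t v).2
        change (φ t v).2 = A t • fa G (φ t v).1 + B t • fb G (φ t v).1 at h2
        rw [h2, hAθ, hBθ]
        rfl
      · simp only
        change (frOf G).p (φ t v).1 * A t + (frOf G).q (φ t v).1 * B t = _
        rw [hAθ, hBθ]
  choose z hz0 hz using main
  exact ⟨fun t z₀ => z z₀ t, hz0, fun z₀ t => hz z₀ t⟩

theorem phi_psi (G : Met) {φ : ℝ → Pt × Pt → Pt × Pt} (hφ : IsFlow (spray G) φ)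
    {ψ : ℝ → Pt × ℝ → Pt × ℝ} (hψ : IsFlow (frOf G).X ψ) (x : Pt) (θ t : ℝ) :
    φ t (x, unitVec G x θ) = ((ψ t (x, θ)).1, unitVec G (ψ t (x, θ)).1 (ψ t (x, θ)).2) := by
  have h1 := flow_unique ((spray_smooth G).of_le (by exact_mod_cast (le_top : (1 : ℕ∞) ≤ ⊤))) hφ
    (γ := fun t => ((ψ t (x, θ)).1, unitVec G (ψ t (x, θ)).1 (ψ t (x, θ)).2))
    (fun t => geo_rel G (z := fun s => ψ s (x, θ)) (hψ.2 (x, θ) t)) t
  rw [hψ.1] at h1
  exact h1.symm

end

end Pool.Agent.Work.MP_275abe_gt
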