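import Pool.Agent.Work.MP_275abe_gt.JacV
import Pool.Agent.Work.MP_275abe_gt.OSmooth

/-!
Fermi coordinates. y = (t, h) -> fm psi v t h = psi h (turn (psi t v)) is smooth (OSmooth) and its derivative in h is X. Its
derivative in t, as a function of h, solves w' = DX w (flow_c1: w(h) = Y(h, u(t)) u'(t), u(t) = turn (psi t v), u'(t) =
(dir x theta, lam x theta) with (x, theta) = psi t v). Apply jacobi: alpha is constant; at h = 0: with Theta = theta + pi/2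
the vector dir x theta is -dir x (Theta + pi/2), so alpha = 0, beta(0) = -1, c(0) = lam(theta) + lam(Theta + pi/2) = 0
(lam(theta + pi) = -lam(theta)). J = -beta, J' = -c, and dir (Theta + pi/2) = -dir (Theta - pi/2).
-/

namespace Pool.Agent.Work.MP_275abe_gt

open MeasureTheory Set
open scoped ContDiff

noncomputable section

private theorem jc_dir_sub (F : Fr) (x : Pt) (θ : ℝ) :
    F.dir x (θ - Real.pi / 2) = -F.dir x (θ + Real.pi / 2) := by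
  unfold Fr.dir
  rw [Real.cos_sub_pi_div_two, Real.sin_sub_pi_div_two, Real.cos_add_pi_div_two,
    Real.sin_add_pi_div_two]
  funext i
  simp only [Pi.add_apply, Pi.neg_apply, Pi.smul_apply, smul_eq_mul]
  ring

private theorem jc_lam_sub (F : Fr) (x : Pt) (θ : ℝ) :
    F.lam x (θ - Real.pi / 2) = -F.lam x (θ + Real.pi / 2) := by
  unfold Fr.lam
  rw [Real.cos_sub_pi_div_two, Real.sin_sub_pi_div_two, Real.cos_add_pi_div_two,
    Real.sin_add_pi_div_two]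
  ring

private theorem jc_smooth (F : Fr) {ψ : ℝ → Pt × ℝ → Pt × ℝ} (hψ : IsFlow F.X ψ) (v : Pt × ℝ) :
    ContDiff ℝ ∞ fun y : ℝ × ℝ => fm ψ v y.1 y.2 := by
  have h := flow_smooth F.X_smooth hψ
  have h1 : ContDiff ℝ ∞ fun y : ℝ × ℝ => ψ y.1 v := h.comp (contDiff_fst.prodMk contDiff_const)
  exact h.comp (contDiff_snd.prodMk
    ((contDiff_fst.comp h1).prodMk ((contDiff_snd.comp h1).add contDiff_const)))

private theorem jc_one (F : Fr) {ψ : ℝ → Pt × ℝ → Pt × ℝ} (hψ : IsFlow F.X ψ) (v : Pt × ℝ) (t : ℝ) :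
    ∃ J J' : ℝ → ℝ, J 0 = 1 ∧ J' 0 = 0 ∧ (∀ h, HasDerivAt J (J' h) h) ∧
      (∀ h, HasDerivAt J' (-F.K (fm ψ v t h).1 * J h) h) ∧
      ∀ h, HasDerivAt (fun s => fm ψ v s h)
        (J h • F.dir (fm ψ v t h).1 ((fm ψ v t h).2 - Real.pi / 2),
          J h * F.lam (fm ψ v t h).1 ((fm ψ v t h).2 - Real.pi / 2) - J' h) t := by
  obtain ⟨Y, hYc, hYd, hY0, hYt⟩ := flow_c1
    (F.X_smooth.of_le ENat.LEInfty.out) hψ
  have hP : HasDerivAt (fun s => ((ψ s v).1, (ψ s v).2 + Real.pi / 2)) (F.X (ψ t v)) t := by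
    have h1 := (hψ.2 v t).fst.prodMk ((hψ.2 v t).snd.add_const (Real.pi / 2))
    exact h1
  have hw : ∀ h, HasDerivAt (fun h => Y h ((ψ t v).1, (ψ t v).2 + Real.pi / 2) (F.X (ψ t v)))
      (fderiv ℝ F.X (ψ h ((ψ t v).1, (ψ t v).2 + Real.pi / 2))
        (Y h ((ψ t v).1, (ψ t v).2 + Real.pi / 2) (F.X (ψ t v)))) h := by
    intro h
    have h1 := (hYt ((ψ t v).1, (ψ t v).2 + Real.pi / 2) h).clm_apply (hasDerivAt_const h (F.X (ψ t v)))
    simpa using h1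
  obtain ⟨α, β, c, hβ, hc, he⟩ := jacobi F (hψ.2 ((ψ t v).1, (ψ t v).2 + Real.pi / 2)) hw
  have h0 := he 0
  rw [hY0, hψ.1] at h0
  simp only [ContinuousLinearMap.id_apply, Fr.X, Prod.mk.injEq] at h0
  obtain ⟨h01, h02⟩ := h0
  have h03 : (0 : ℝ) • F.dir (ψ t v).1 ((ψ t v).2 + Real.pi / 2 + Real.pi / 2 - Real.pi / 2) +
      (-1 : ℝ) • F.dir (ψ t v).1 ((ψ t v).2 + Real.pi / 2 + Real.pi / 2) =
      α • F.dir (ψ t v).1 ((ψ t v).2 + Real.pi / 2 + Real.pi / 2 - Real.pi / 2) +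
      β 0 • F.dir (ψ t v).1 ((ψ t v).2 + Real.pi / 2 + Real.pi / 2) := by
    rw [add_sub_cancel_right ((ψ t v).2 + Real.pi / 2), ← h01]
    have := jc_dir_sub F (ψ t v).1 ((ψ t v).2 + Real.pi / 2)
    rw [add_sub_cancel_right] at this
    rw [this]
    simp
  obtain ⟨ha, hb⟩ := F.comb_inj _ _ _ _ _ _ h03
  have hc0 : c 0 = 0 := by
    have := jc_lam_sub F (ψ t v).1 ((ψ t v).2 + Real.pi / 2)
    rw [add_sub_cancel_right] at this
    rw [this, ← ha, ← hb] at h02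
    linarith
  refine ⟨fun h => -β h, fun h => -c h, ?_, ?_, fun h => (hβ h).neg, fun h => ?_, fun h => ?_⟩
  · show -β 0 = 1
    rw [← hb]; norm_num
  · show -c 0 = 0
    rw [hc0]; norm_num
  · have h1 := (hc h).neg
    refine h1.congr_deriv ?_
    show -(-F.K _ * β h) = -F.K _ * -β h
    rw [fm]
    ring
  · have h1 := (hYd h ((ψ t v).1, (ψ t v).2 + Real.pi / 2)).comp_hasDerivAt t hP
    refine h1.congr_deriv ?_
    rw [he h, ← ha, jc_dir_sub, jc_lam_sub]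
    refine Prod.ext ?_ ?_
    · simp only [fm]
      simp
    · simp only [fm]
      ring

theorem jac (F : Fr) {ψ : ℝ → Pt × ℝ → Pt × ℝ} (hψ : IsFlow F.X ψ) (v : Pt × ℝ) :
    ∃ J J' : ℝ → ℝ → ℝ, (∀ t, J t 0 = 1) ∧ (∀ t, J' t 0 = 0) ∧
      (∀ t h, HasDerivAt (J t) (J' t h) h) ∧
      (∀ t h, HasDerivAt (J' t) (-F.K (fm ψ v t h).1 * J t h) h) ∧
      ∀ t h, HasFDerivAt (fun y : ℝ × ℝ => fm ψ v y.1 y.2)
        ((ContinuousLinearMap.fst ℝ ℝ ℝ).smulRight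
            (J t h • F.dir (fm ψ v t h).1 ((fm ψ v t h).2 - Real.pi / 2),
              J t h * F.lam (fm ψ v t h).1 ((fm ψ v t h).2 - Real.pi / 2) - J' t h) +
          (ContinuousLinearMap.snd ℝ ℝ ℝ).smulRight (F.X (fm ψ v t h))) (t, h) := by
  choose J J' h1 h2 h3 h4 h5 using jc_one F hψ v
  refine ⟨J, J', h1, h2, h3, h4, fun t h => ?_⟩
  have hd := ((jc_smooth F hψ v).differentiable (by simp) (t, h)).hasFDerivAt
  refine hd.congr_fderiv ?_
  have e1 : HasDerivAt (fun s : ℝ => ((s, h) : ℝ × ℝ)) (1, 0) t :=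
    (hasDerivAt_id t).prodMk (hasDerivAt_const t h)
  have e2 : HasDerivAt (fun s : ℝ => ((t, s) : ℝ × ℝ)) (0, 1) h :=
    (hasDerivAt_const h t).prodMk (hasDerivAt_id h)
  have c1 : HasDerivAt (fun s : ℝ => fm ψ v s h)
      (fderiv ℝ (fun y : ℝ × ℝ => fm ψ v y.1 y.2) (t, h) (1, 0)) t :=
    HasFDerivAt.comp_hasDerivAt (l := fun y : ℝ × ℝ => fm ψ v y.1 y.2)
      (f := fun s : ℝ => ((s, h) : ℝ × ℝ)) t hd e1
  have c2 : HasDerivAt (fun s : ℝ => fm ψ v t s)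
      (fderiv ℝ (fun y : ℝ × ℝ => fm ψ v y.1 y.2) (t, h) (0, 1)) h :=
    HasFDerivAt.comp_hasDerivAt (l := fun y : ℝ × ℝ => fm ψ v y.1 y.2)
      (f := fun s : ℝ => ((t, s) : ℝ × ℝ)) h hd e2
  have d1 := c1.unique (h5 t h)
  have d2 := c2.unique (hψ.2 ((ψ t v).1, (ψ t v).2 + Real.pi / 2) h)
  refine ContinuousLinearMap.ext fun y => ?_
  have hy : y = y.1 • ((1, 0) : ℝ × ℝ) + y.2 • ((0, 1) : ℝ × ℝ) := by
    refine Prod.ext ?_ ?_ <;> simp
  conv_lhs => rw [hy, map_add, map_smul, map_smul, d1, d2]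
  rfl

theorem fm_smooth (F : Fr) {ψ : ℝ → Pt × ℝ → Pt × ℝ} (hψ : IsFlow F.X ψ) (v : Pt × ℝ) :
    ContDiff ℝ ∞ fun y : ℝ × ℝ => fm ψ v y.1 y.2 := jc_smooth F hψ v

/-- Shift of the base point along the geodesic. -/
theorem fm_shift (F : Fr) {ψ : ℝ → Pt × ℝ → Pt × ℝ} (hψ : IsFlow F.X ψ) (v : Pt × ℝ) (u t h : ℝ) :
    fm ψ (ψ u v) t h = fm ψ v (t + u) h := by
  unfold fm
  rw [flow_add (F.X_smooth.of_le (by exact_mod_cast le_top)) hψ]

end

end Pool.Agent.Work.MP_275abe_gt
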