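import Pool.Agent.Work.MP_275abe_gt.Equi
import Pool.Agent.Work.MP_275abe_gt.Jac
import Pool.Agent.Work.MP_275abe_gt.CurvEq
import Pool.Agent.Work.MP_275abe_gt.FeA

/-!
Invariance of the curvature. For a unit vector v = (x, unitVec x θ): the point E_v(t, h) = fe G φ v t h satisfies
E_{act f v} = f ∘ E_v (phi_act, rot_act), so |∂_t E| (norm of the metric) is the same for v and act f v. By jac (fe_eq)
|∂_t E|= |J(t, h)|, J(0, 0) = 1, so J is determined near h = 0 and K(x) = -∂²J/∂h²(0, 0) is the same at x and f x.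
-/

namespace Pool.Agent.Work.MP_275abe_gt

open MeasureTheory Set
open scoped ContDiff

noncomputable section

/-- Fermi coordinates are equivariant. -/
theorem invk_fe {G : Met} {Γ : Subgroup (Equiv.Perm Pt)} (hΓ : IsClosedSurf G Γ)
    {φ : ℝ → Pt × Pt → Pt × Pt} (hφ : IsFlow (spray G) φ) (f : Equiv.Perm Pt) (hf : f ∈ Γ)
    (v : Pt × Pt) (t h : ℝ) : fe G φ (act f v) t h = f (fe G φ v t h) := by
  have e1 : (((act f v).1, (sp G (act f v))⁻¹ • (act f v).2) : Pt × Pt) =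
      act f (v.1, (sp G v)⁻¹ • v.2) := by
    rw [sp_act G (hΓ.isom f hf)]
    simp only [act, map_smul]
  unfold fe
  rw [e1, phi_act hΓ hφ f hf, rot_act hΓ f hf, phi_act hΓ hφ f hf]
  rfl

/-- The derivative of a Fermi coordinate line. -/
private theorem invk_line (G : Met) {ψ : ℝ → Pt × ℝ → Pt × ℝ} {v : Pt × ℝ}
    {J J' : ℝ → ℝ → ℝ} (e : ∀ t h, HasFDerivAt (fun y : ℝ × ℝ => fm ψ v y.1 y.2)
        ((ContinuousLinearMap.fst ℝ ℝ ℝ).smulRight
            (J t h • (frOf G).dir (fm ψ v t h).1 ((fm ψ v t h).2 - Real.pi / 2),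
              J t h * (frOf G).lam (fm ψ v t h).1 ((fm ψ v t h).2 - Real.pi / 2) - J' t h) +
          (ContinuousLinearMap.snd ℝ ℝ ℝ).smulRight ((frOf G).X (fm ψ v t h))) (t, h)) (t h : ℝ) :
    HasDerivAt (fun s => (fm ψ v s h).1)
      (J t h • unitVec G (fm ψ v t h).1 ((fm ψ v t h).2 - Real.pi / 2)) t := by
  have h1 : HasDerivAt (fun s : ℝ => ((s, h) : ℝ × ℝ)) (1, 0) t :=
    (hasDerivAt_id t).prodMk (hasDerivAt_const t h)
  have h2 := (e t h).comp_hasDerivAt t h1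
  have h3 := (ContinuousLinearMap.fst ℝ Pt ℝ).hasFDerivAt.comp_hasDerivAt t h2
  refine h3.congr_deriv ?_
  simp [dir_frOf]

theorem curv_act {G : Met} {Γ : Subgroup (Equiv.Perm Pt)} (hΓ : IsClosedSurf G Γ)
    {φ : ℝ → Pt × Pt → Pt × Pt} (hφ : IsFlow (spray G) φ) (f : Equiv.Perm Pt) (hf : f ∈ Γ)
    (x : Pt) : curv G (f x) = curv G x := by
  obtain ⟨ψ, hψ⟩ := exists_psi G hφ
  obtain ⟨θ', hθ'⟩ := exists_dir G (act f (x, unitVec G x 0))
  have hsp : sp G (x, unitVec G x 0) = 1 := by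
    unfold sp
    rw [ip_dir, Real.sqrt_one]
  rw [sp_act G (hΓ.isom f hf), hsp] at hθ'
  have hv : act f (x, unitVec G x 0) = (f x, (1 : ℝ) • unitVec G (f x) θ') :=
    Prod.ext rfl hθ'
  have hE : ∀ t h, (fm ψ (f x, θ') t h).1 = f ((fm ψ (x, 0) t h).1) := by
    intro t h
    rw [← fe_eq G hφ hψ (f x) θ' 1 one_pos, ← fe_eq G hφ hψ x 0 1 one_pos, ← hv, one_smul,
      invk_fe hΓ hφ f hf]
  obtain ⟨J1, J1', a1, b1, c1, d1, e1⟩ := jac (frOf G) hψ (x, 0)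
  obtain ⟨J2, J2', a2, b2, c2, d2, e2⟩ := jac (frOf G) hψ (f x, θ')
  have hsq : ∀ h, J2 0 h ^ 2 = J1 0 h ^ 2 := by
    intro h
    have l1 := invk_line G e1 0 h
    have l2 := invk_line G e2 0 h
    have hfd : DifferentiableAt ℝ (f : Pt → Pt) (fm ψ (x, 0) 0 h).1 :=
      ((hΓ.smooth f hf).differentiable (by simp)) _
    have l3 := hfd.hasFDerivAt.comp_hasDerivAt (0 : ℝ) l1
    have l4 : (fun s => (fm ψ (f x, θ') s h).1) = (f : Pt → Pt) ∘ fun s => (fm ψ (x, 0) s h).1 :=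
      funext fun s => hE s h
    rw [l4] at l2
    have l5 := l2.unique l3
    have l6 : ip G (fm ψ (f x, θ') 0 h).1
        (J2 0 h • unitVec G (fm ψ (f x, θ') 0 h).1 ((fm ψ (f x, θ') 0 h).2 - Real.pi / 2))
        (J2 0 h • unitVec G (fm ψ (f x, θ') 0 h).1 ((fm ψ (f x, θ') 0 h).2 - Real.pi / 2)) =
        ip G (f (fm ψ (x, 0) 0 h).1)
        (fderiv ℝ f (fm ψ (x, 0) 0 h).1
          (J1 0 h • unitVec G (fm ψ (x, 0) 0 h).1 ((fm ψ (x, 0) 0 h).2 - Real.pi / 2)))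
        (fderiv ℝ f (fm ψ (x, 0) 0 h).1
          (J1 0 h • unitVec G (fm ψ (x, 0) 0 h).1 ((fm ψ (x, 0) 0 h).2 - Real.pi / 2))) := by
      rw [l5, hE]
    rw [hΓ.isom f hf, ip_smul, ip_symm, ip_smul, ip_dir, ip_smul, ip_symm, ip_smul, ip_dir] at l6
    rw [sq, sq]
    linarith
  have hpr : ∀ h, J2 0 h * J2' 0 h = J1 0 h * J1' 0 h := by
    intro h
    have l1 := (c1 0 h).pow 2
    have l2 := (c2 0 h).pow 2
    have l3 : (fun h => J2 0 h ^ 2) = fun h => J1 0 h ^ 2 := funext hsq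
    have l4 : HasDerivAt (fun h => J2 0 h ^ 2) _ h := l2
    rw [l3] at l4
    have l5 := l4.unique l1
    simp only [Nat.cast_ofNat, Nat.add_one_sub_one, pow_one] at l5
    linarith
  have h2 := (c2 0 0).mul (d2 0 0)
  have h1 := (c1 0 0).mul (d1 0 0)
  have l3 : (J2 0 * J2' 0) = J1 0 * J1' 0 := funext hpr
  rw [l3] at h2
  have l5 := h2.unique h1
  rw [a1, a2, b1, b2] at l5
  have x1 : (fm ψ (x, 0) 0 0).1 = x := by simp [fm, hψ.1]
  have x2 : (fm ψ (f x, θ') 0 0).1 = f x := by simp [fm, hψ.1]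
  rw [x1, x2] at l5
  rw [curv_eq, curv_eq]
  linarith

theorem kap_act {G : Met} {Γ : Subgroup (Equiv.Perm Pt)} (hΓ : IsClosedSurf G Γ)
    {φ : ℝ → Pt × Pt → Pt × Pt} (hφ : IsFlow (spray G) φ) (f : Equiv.Perm Pt) (hf : f ∈ Γ)
    (v : Pt × Pt) (t h : ℝ) : kap G φ (act f v) t h = kap G φ v t h := by
  unfold kap
  rw [invk_fe hΓ hφ f hf, curv_act hΓ hφ f hf]

end

end Pool.Agent.Work.MP_275abe_gt
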