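import Pool.Agent.Work.MP_275abe_gt.FrA

/-!
The Jacobi equation for a solution of the linearised geodesic flow. Let z(h) = (x, theta) be an integral curve of X and
w(h) = (u, s) a solution of w' = DX(z) w. Write e = dir x theta, n = dir x (theta + pi/2), u = alpha e + beta n, and
c = s - lam(u), lam(u) := alpha lam(x, theta) + beta lam(x, theta + pi/2). Then alpha' = 0, beta' = c, c' = -K beta.
Proof: (1) d/dh of alpha e + beta n, with x' = e, theta' = lam(e): alpha' e + beta' n + alpha (De.e + lam(e) n) +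
beta (Dn.e - lam(e) e), where De.e is the derivative in x of dir with theta fixed; it equals De.u + s n =
alpha De.e + beta De.n + s n. By the bracket relation Dn.e - De.n = [e, n] = p a + q b = lam(e) e + lam(n) n (theta fixed,
bilinearity, cos^2 + sin^2 = 1). Compare: alpha' = 0, beta' = s - alpha lam(e) - beta lam(n) = c. (2) s' = Dlam[u](e) +
lam(n) s, where Dlam[u](e) = (Dp.u) cos + (Dq.u) sin; derivative of lam(u) along the curve = alpha Dlam[e](e) +
alpha lam(n) lam(e) + beta' lam(n) + beta Dlam[e](n) - beta lam(e)^2. The difference is beta (Dlam[n](e) - Dlam[e](n) +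
lam(n)^2 + lam(e)^2) = -K beta, because Dlam[e](n) - Dlam[n](e) = Dq.a - Dp.b and lam(e)^2 + lam(n)^2 = p^2 + q^2.
-/

namespace Pool.Agent.Work.MP_275abe_gt

open MeasureTheory Set
open scoped ContDiff

noncomputable section

private theorem jv_al_diff (F : Fr) {x u : ℝ → Pt} {h : ℝ} (hx : DifferentiableAt ℝ x h)
    (hu : DifferentiableAt ℝ u h) : DifferentiableAt ℝ (fun t => F.al (x t) (u t)) h := by
  have ha : DifferentiableAt ℝ (fun t => F.a (x t)) h :=
    ((F.ha.differentiable (by simp)) (x h)).comp h hx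
  have hb : DifferentiableAt ℝ (fun t => F.b (x t)) h :=
    ((F.hb.differentiable (by simp)) (x h)).comp h hx
  have a0 := (differentiableAt_pi.mp ha) 0
  have a1 := (differentiableAt_pi.mp ha) 1
  have b0 := (differentiableAt_pi.mp hb) 0
  have b1 := (differentiableAt_pi.mp hb) 1
  have u0 := (differentiableAt_pi.mp hu) 0
  have u1 := (differentiableAt_pi.mp hu) 1
  unfold Fr.al
  exact ((u0.mul b1).sub (u1.mul b0)).div ((a0.mul b1).sub (a1.mul b0)) (F.det _)

private theorem jv_be_diff (F : Fr) {x u : ℝ → Pt} {h : ℝ} (hx : DifferentiableAt ℝ x h)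
    (hu : DifferentiableAt ℝ u h) : DifferentiableAt ℝ (fun t => F.be (x t) (u t)) h := by
  have ha : DifferentiableAt ℝ (fun t => F.a (x t)) h :=
    ((F.ha.differentiable (by simp)) (x h)).comp h hx
  have hb : DifferentiableAt ℝ (fun t => F.b (x t)) h :=
    ((F.hb.differentiable (by simp)) (x h)).comp h hx
  have a0 := (differentiableAt_pi.mp ha) 0
  have a1 := (differentiableAt_pi.mp ha) 1
  have b0 := (differentiableAt_pi.mp hb) 0
  have b1 := (differentiableAt_pi.mp hb) 1
  have u0 := (differentiableAt_pi.mp hu) 0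
  have u1 := (differentiableAt_pi.mp hu) 1
  unfold Fr.be
  exact ((a0.mul u1).sub (a1.mul u0)).div ((a0.mul b1).sub (a1.mul b0)) (F.det _)

private theorem jv_turn (F : Fr) (z : Pt × ℝ) (c : ℝ) :
    HasFDerivAt (fun z : Pt × ℝ => F.dir z.1 (z.2 + c))
      (fderiv ℝ (fun z : Pt × ℝ => F.dir z.1 z.2) (z.1, z.2 + c)) z ∧
    HasFDerivAt (fun z : Pt × ℝ => F.lam z.1 (z.2 + c))
      (fderiv ℝ (fun z : Pt × ℝ => F.lam z.1 z.2) (z.1, z.2 + c)) z := by
  have hs : HasFDerivAt (fun z : Pt × ℝ => (z.1, z.2 + c))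
      (ContinuousLinearMap.id ℝ (Pt × ℝ)) z := by
    have := (hasFDerivAt_fst (𝕜 := ℝ) (p := z)).prodMk ((hasFDerivAt_snd (𝕜 := ℝ) (p := z)).add_const c)
    exact this
  constructor
  · have := ((F.dir_smooth.differentiable (by simp)) (z.1, z.2 + c)).hasFDerivAt.comp z hs
    exact this
  · have := ((F.lam_smooth.differentiable (by simp)) (z.1, z.2 + c)).hasFDerivAt.comp z hs
    exact this

private theorem jv_X (F : Fr) (z w : Pt × ℝ) : fderiv ℝ F.X z w =
    (fderiv ℝ (fun z : Pt × ℝ => F.dir z.1 z.2) z w, fderiv ℝ (fun z : Pt × ℝ => F.lam z.1 z.2) z w) := by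
  have h1 := ((F.dir_smooth.differentiable (by simp)) z).hasFDerivAt
  have h2 := ((F.lam_smooth.differentiable (by simp)) z).hasFDerivAt
  have h3 : fderiv ℝ F.X z = _ := (h1.prodMk h2).fderiv
  rw [h3]
  rfl

private theorem jv_expand (F : Fr) (x u : Pt) (θ : ℝ) :
    u = (F.al x u * Real.cos θ + F.be x u * Real.sin θ) • F.dir x θ +
      (-F.al x u * Real.sin θ + F.be x u * Real.cos θ) • F.dir x (θ + Real.pi / 2) := by
  have h := F.expand x u
  have h3 := Real.sin_sq_add_cos_sq θ
  unfold Fr.dir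
  rw [Real.cos_add_pi_div_two, Real.sin_add_pi_div_two]
  funext i
  have hi := congrFun h i
  simp only [Pi.add_apply, Pi.smul_apply, smul_eq_mul] at hi ⊢
  linear_combination hi - (F.al x u * F.a x i + F.be x u * F.b x i) * h3

theorem jacobi (F : Fr) {z w : ℝ → Pt × ℝ} (hz : ∀ h, HasDerivAt z (F.X (z h)) h)
    (hw : ∀ h, HasDerivAt w (fderiv ℝ F.X (z h) (w h)) h) :
    ∃ (α : ℝ) (β c : ℝ → ℝ), (∀ h, HasDerivAt β (c h) h) ∧
      (∀ h, HasDerivAt c (-F.K (z h).1 * β h) h) ∧
      ∀ h, w h = (α • F.dir (z h).1 (z h).2 + β h • F.dir (z h).1 ((z h).2 + Real.pi / 2),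
        c h + α * F.lam (z h).1 (z h).2 + β h * F.lam (z h).1 ((z h).2 + Real.pi / 2)) := by
  have hx : ∀ h, HasDerivAt (fun h => (z h).1) (F.dir (z h).1 (z h).2) h := fun h => (hz h).fst
  have hθ : ∀ h, HasDerivAt (fun h => (z h).2) (F.lam (z h).1 (z h).2) h := fun h => (hz h).snd
  have hu : ∀ h, HasDerivAt (fun h => (w h).1)
      (fderiv ℝ (fun z : Pt × ℝ => F.dir z.1 z.2) (z h) (w h)) h := fun h => by
    have := (hw h).fst
    rwa [jv_X] at this
  have hs : ∀ h, HasDerivAt (fun h => (w h).2)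
      (fderiv ℝ (fun z : Pt × ℝ => F.lam z.1 z.2) (z h) (w h)) h := fun h => by
    have := (hw h).snd
    rwa [jv_X] at this
  obtain ⟨α, hα⟩ : ∃ α : ℝ → ℝ, α = fun h => F.al (z h).1 (w h).1 * Real.cos (z h).2 +
    F.be (z h).1 (w h).1 * Real.sin (z h).2 := ⟨_, rfl⟩
  obtain ⟨β, hβ⟩ : ∃ β : ℝ → ℝ, β = fun h => -F.al (z h).1 (w h).1 * Real.sin (z h).2 +
    F.be (z h).1 (w h).1 * Real.cos (z h).2 := ⟨_, rfl⟩
  have hαd : ∀ h, HasDerivAt α (deriv α h) h := fun h => by
    apply DifferentiableAt.hasDerivAt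
    rw [hα]
    exact ((jv_al_diff F (hx h).differentiableAt (hu h).differentiableAt).mul
      ((Real.differentiable_cos _).comp h (hθ h).differentiableAt)).add
      ((jv_be_diff F (hx h).differentiableAt (hu h).differentiableAt).mul
      ((Real.differentiable_sin _).comp h (hθ h).differentiableAt))
  have hβd : ∀ h, HasDerivAt β (deriv β h) h := fun h => by
    apply DifferentiableAt.hasDerivAt
    rw [hβ]
    exact ((jv_al_diff F (hx h).differentiableAt (hu h).differentiableAt).neg.mul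
      ((Real.differentiable_sin _).comp h (hθ h).differentiableAt)).add
      ((jv_be_diff F (hx h).differentiableAt (hu h).differentiableAt).mul
      ((Real.differentiable_cos _).comp h (hθ h).differentiableAt))
  have hexp : ∀ h, (w h).1 = α h • F.dir (z h).1 (z h).2 + β h • F.dir (z h).1 ((z h).2 + Real.pi / 2) := by
    intro h
    rw [hα, hβ]
    exact jv_expand F _ _ _
  -- derivatives of the frame along the curve
  have he : ∀ h, HasDerivAt (fun h => F.dir (z h).1 (z h).2)
      (fderiv ℝ (fun z : Pt × ℝ => F.dir z.1 z.2) (z h) (F.X (z h))) h := fun h =>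
    ((F.dir_smooth.differentiable (by simp)) (z h)).hasFDerivAt.comp_hasDerivAt h (hz h)
  have hn : ∀ h, HasDerivAt (fun h => F.dir (z h).1 ((z h).2 + Real.pi / 2))
      (fderiv ℝ (fun z : Pt × ℝ => F.dir z.1 z.2) ((z h).1, (z h).2 + Real.pi / 2) (F.X (z h))) h := fun h =>
    (jv_turn F (z h) (Real.pi / 2)).1.comp_hasDerivAt h (hz h)
  have hl : ∀ h, HasDerivAt (fun h => F.lam (z h).1 (z h).2)
      (fderiv ℝ (fun z : Pt × ℝ => F.lam z.1 z.2) (z h) (F.X (z h))) h := fun h =>
    ((F.lam_smooth.differentiable (by simp)) (z h)).hasFDerivAt.comp_hasDerivAt h (hz h)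
  have hm : ∀ h, HasDerivAt (fun h => F.lam (z h).1 ((z h).2 + Real.pi / 2))
      (fderiv ℝ (fun z : Pt × ℝ => F.lam z.1 z.2) ((z h).1, (z h).2 + Real.pi / 2) (F.X (z h))) h := fun h =>
    (jv_turn F (z h) (Real.pi / 2)).2.comp_hasDerivAt h (hz h)
  -- first identity
  have key1 : ∀ h, deriv α h = 0 ∧ deriv β h =
      (w h).2 - α h * F.lam (z h).1 (z h).2 - β h * F.lam (z h).1 ((z h).2 + Real.pi / 2) := by
    intro h
    have h1 : HasDerivAt (fun h => (w h).1)
        ((α h • fderiv ℝ (fun z : Pt × ℝ => F.dir z.1 z.2) (z h) (F.X (z h)) +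
          deriv α h • F.dir (z h).1 (z h).2) +
        (β h • fderiv ℝ (fun z : Pt × ℝ => F.dir z.1 z.2) ((z h).1, (z h).2 + Real.pi / 2) (F.X (z h)) +
          deriv β h • F.dir (z h).1 ((z h).2 + Real.pi / 2))) h := by
      have := ((hαd h).smul (he h)).add ((hβd h).smul (hn h))
      refine this.congr_of_eventuallyEq (Filter.Eventually.of_forall fun t => ?_)
      exact hexp t
    have h2 := h1.unique (hu h)
    rw [Fr.fderiv_dir, Fr.fderiv_dir, Fr.fderiv_dir, hexp h] at h2
    simp only [Fr.X] at h2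
    have hcomb : (0 : ℝ) • F.dir (z h).1 ((z h).2 + Real.pi / 2 - Real.pi / 2) +
        ((w h).2 - α h * F.lam (z h).1 (z h).2 - β h * F.lam (z h).1 ((z h).2 + Real.pi / 2)) •
          F.dir (z h).1 ((z h).2 + Real.pi / 2) =
        deriv α h • F.dir (z h).1 ((z h).2 + Real.pi / 2 - Real.pi / 2) +
          deriv β h • F.dir (z h).1 ((z h).2 + Real.pi / 2) := by
      have hbr := F.br (z h).1
      rw [add_sub_cancel_right]
      unfold Fr.lam
      unfold Fr.dir Fr.lam at h2
      unfold Fr.dir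
      simp only [map_add, map_smul] at h2 hbr ⊢
      rw [Real.cos_add_pi_div_two (((z h).2 + Real.pi / 2)), Real.sin_add_pi_div_two (((z h).2 + Real.pi / 2))] at h2
      rw [Real.cos_add_pi_div_two, Real.sin_add_pi_div_two] at h2 ⊢
      funext i
      have hi := congrFun h2 i
      have hbi := congrFun hbr i
      simp only [Pi.add_apply, Pi.sub_apply, Pi.smul_apply, smul_eq_mul] at hi hbi ⊢
      linear_combination (-1 : ℝ) * hi + β h * (Real.cos (z h).2 ^ 2 + Real.sin (z h).2 ^ 2) * hbi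
    have := F.comb_inj _ _ _ _ _ _ hcomb
    exact ⟨this.1.symm, this.2.symm⟩
  have hαc : ∀ h, α h = α 0 := fun h => is_const_of_deriv_eq_zero
    (fun h => (hαd h).differentiableAt) (fun h => (key1 h).1) h 0
  refine ⟨α 0, β, fun h => (w h).2 - α 0 * F.lam (z h).1 (z h).2 -
    β h * F.lam (z h).1 ((z h).2 + Real.pi / 2), fun h => ?_, fun h => ?_, fun h => ?_⟩
  · have h1 := hβd h
    rw [(key1 h).2, hαc h] at h1
    exact h1
  · have h1 := ((hs h).sub ((hl h).const_mul (α 0))).sub ((hβd h).mul (hm h))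
    refine h1.congr_deriv ?_
    rw [(key1 h).2, hαc h, Fr.fderiv_lam, Fr.fderiv_lam, Fr.fderiv_lam, hexp h, hαc h]
    simp only [Fr.X, Fr.K]
    unfold Fr.lam
    unfold Fr.dir
    simp only [map_add, map_smul]
    rw [Real.cos_add_pi_div_two (((z h).2 + Real.pi / 2)), Real.sin_add_pi_div_two (((z h).2 + Real.pi / 2))]
    rw [Real.cos_add_pi_div_two, Real.sin_add_pi_div_two]
    simp only [smul_eq_mul]
    have h3 := Real.sin_sq_add_cos_sq (z h).2
    linear_combination β h * (fderiv ℝ F.p (z h).1 (F.b (z h).1) - fderiv ℝ F.q (z h).1 (F.a (z h).1) +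
      F.p (z h).1 ^ 2 + F.q (z h).1 ^ 2) * h3
  · refine Prod.ext ?_ ?_
    · rw [← hαc h]
      exact hexp h
    · simp only
      ring

end

end Pool.Agent.Work.MP_275abe_gt
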