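import Pool.Agent.Work.MP_275abe_gt.FlatV
import Pool.Agent.Work.MP_275abe_gt.FeA
import Pool.Agent.Work.MP_275abe_gt.InvK

/-!
Measurability: the set is {v ∈ A | for all (t, h) in the compact rectangle |t| <= sp v L, |h| <= r, kap v t h < τ}. Its
complement in A: there are (a, h) in the compact set [-1, 1] x [-r, r] with kap v (a sp v L) h >= τ; this is relatively closed in
{v | v.2 ≠ 0} (kap_cont, sp_cont, projection along a compact set), hence Borel. It is invariant (kap_act, sp_act, flatVec_act).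
The cases L < 0, r < 0 are trivial (no condition). flat_meas: flatVec_closed, shell.
-/

namespace Pool.Agent.Work.MP_275abe_gt

open MeasureTheory Set
open scoped ContDiff

noncomputable section

private theorem kapm_inv {G : Met} {Γ : Subgroup (Equiv.Perm Pt)} (hΓ : IsClosedSurf G Γ)
    {φ : ℝ → Pt × Pt → Pt × Pt} (hφ : IsFlow (spray G) φ) (f : Equiv.Perm Pt) (hf : f ∈ Γ)
    (v : Pt × Pt) : act f v ∈ flatVec G φ ∩ shell G ↔ v ∈ flatVec G φ ∩ shell G := by
  have h1 : act f v ∈ flatVec G φ ↔ v ∈ flatVec G φ := by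
    have h := flatVec_act hΓ hφ f hf
    exact Set.ext_iff.1 h v
  rw [mem_inter_iff, mem_inter_iff, h1]
  refine and_congr_right fun _ => ?_
  rw [shell, mem_ofPred_eq, mem_ofPred_eq, sp_act G (hΓ.isom f hf)]

private theorem kapm_borel {G : Met} {φ : ℝ → Pt × Pt → Pt × Pt} (hφ : IsFlow (spray G) φ) :
    MeasurableSet (flatVec G φ ∩ shell G) := by
  refine (flatVec_closed G hφ).measurableSet.inter ?_
  have h1 : shell G = sp G ⁻¹' Ico 1 2 := rfl
  rw [h1]
  exact (sp_cont G).measurable measurableSet_Ico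

private theorem kapm_of {Γ : Subgroup (Equiv.Perm Pt)} {s : Set (Pt × Pt)}
    (h1 : MeasurableSet s) (h2 : ∀ f ∈ Γ, ∀ v, act f v ∈ s ↔ v ∈ s) :
    MeasurableSet[invMS Γ] s :=
  ⟨h1, fun f hf => Set.ext fun v => h2 f hf v⟩

theorem flat_meas {G : Met} {Γ : Subgroup (Equiv.Perm Pt)} (hΓ : IsClosedSurf G Γ)
    {φ : ℝ → Pt × Pt → Pt × Pt} (hφ : IsFlow (spray G) φ) :
    MeasurableSet[invMS Γ] (flatVec G φ ∩ shell G) :=
  kapm_of (kapm_borel hφ) (kapm_inv hΓ hφ)

theorem sp_meas {G : Met} {Γ : Subgroup (Equiv.Perm Pt)} (hΓ : IsClosedSurf G Γ)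
    {φ : ℝ → Pt × Pt → Pt × Pt} (hφ : IsFlow (spray G) φ) (c : ℝ) :
    MeasurableSet[invMS Γ] {v | v ∈ flatVec G φ ∩ shell G ∧ sp G v < c} := by
  refine kapm_of ?_ fun f hf v => ?_
  · exact (kapm_borel hφ).inter ((sp_cont G).measurable measurableSet_Iio)
  · rw [mem_ofPred_eq, mem_ofPred_eq, kapm_inv hΓ hφ f hf, sp_act G (hΓ.isom f hf)]

private theorem kapm_open {G : Met} {φ : ℝ → Pt × Pt → Pt × Pt} (hφ : IsFlow (spray G) φ)
    (L r τ : ℝ) : IsOpen {v : Pt × Pt | v.2 ≠ 0 ∧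
      ∀ y ∈ Icc (-1 : ℝ) 1 ×ˢ Icc (-r) r, kap G φ v (y.1 * (sp G v * L)) y.2 < τ} := by
  have hU : IsOpen {v : Pt × Pt | v.2 ≠ 0} := isOpen_ne_fun continuous_snd continuous_const
  have hcomp : IsCompact (Icc (-1 : ℝ) 1 ×ˢ Icc (-r) r) := isCompact_Icc.prod isCompact_Icc
  have hcont : ContinuousOn (fun z : (Pt × Pt) × (ℝ × ℝ) =>
      kap G φ z.1 (z.2.1 * (sp G z.1 * L)) z.2.2) ({v : Pt × Pt | v.2 ≠ 0} ×ˢ univ) := by
    have h1 := kap_cont G hφ
    have h2 : Continuous (fun z : (Pt × Pt) × (ℝ × ℝ) =>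
        ((z.1, (z.2.1 * (sp G z.1 * L), z.2.2)) : (Pt × Pt) × (ℝ × ℝ))) := by
      have := sp_cont G
      fun_prop
    have h3 : MapsTo (fun z : (Pt × Pt) × (ℝ × ℝ) =>
        ((z.1, (z.2.1 * (sp G z.1 * L), z.2.2)) : (Pt × Pt) × (ℝ × ℝ)))
        ({v : Pt × Pt | v.2 ≠ 0} ×ˢ univ) ({v | v.2 ≠ 0} ×ˢ univ) := by
      intro z hz
      rw [mem_prod] at hz ⊢
      exact ⟨hz.1, mem_univ _⟩
    have h4 := h1.comp h2.continuousOn h3
    simp only [Function.comp_def] at h4
    exact h4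
  rw [isOpen_iff_mem_nhds]
  rintro v ⟨hv, hy⟩
  have h3 : ∀ᶠ w in nhds v, ∀ y ∈ Icc (-1 : ℝ) 1 ×ˢ Icc (-r) r,
      kap G φ w (y.1 * (sp G w * L)) y.2 < τ := by
    refine hcomp.eventually_forall_of_forall_eventually fun y hyK => ?_
    have h4 : ContinuousAt (fun z : (Pt × Pt) × (ℝ × ℝ) =>
      kap G φ z.1 (z.2.1 * (sp G z.1 * L)) z.2.2) (v, y) :=
      hcont.continuousAt ((hU.prod isOpen_univ).mem_nhds ⟨hv, mem_univ _⟩)
    exact h4.eventually_lt continuousAt_const (hy y hyK)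
  exact Filter.inter_mem (hU.mem_nhds hv) h3

theorem kap_meas {G : Met} {Γ : Subgroup (Equiv.Perm Pt)} (hΓ : IsClosedSurf G Γ)
    {φ : ℝ → Pt × Pt → Pt × Pt} (hφ : IsFlow (spray G) φ) (L r τ : ℝ) :
    MeasurableSet[invMS Γ] {v | v ∈ flatVec G φ ∩ shell G ∧
      ∀ t h, |t| ≤ sp G v * L → |h| ≤ r → kap G φ v t h < τ} := by
  refine kapm_of ?_ fun f hf v => ?_
  · rcases lt_or_ge L 0 with hL | hL
    · have h1 : {v | v ∈ flatVec G φ ∩ shell G ∧
          ∀ t h, |t| ≤ sp G v * L → |h| ≤ r → kap G φ v t h < τ} = flatVec G φ ∩ shell G := by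
        ext v
        refine ⟨fun h => h.1, fun h => ⟨h, fun t k ht _ => ?_⟩⟩
        exfalso
        have h2 : 1 ≤ sp G v := h.2.1
        have h3 := abs_nonneg t
        nlinarith
      rw [h1]
      exact kapm_borel hφ
    · have h1 : {v | v ∈ flatVec G φ ∩ shell G ∧
          ∀ t h, |t| ≤ sp G v * L → |h| ≤ r → kap G φ v t h < τ} = (flatVec G φ ∩ shell G) ∩
          {v : Pt × Pt | v.2 ≠ 0 ∧
            ∀ y ∈ Icc (-1 : ℝ) 1 ×ˢ Icc (-r) r, kap G φ v (y.1 * (sp G v * L)) y.2 < τ} := by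
        ext v
        constructor
        · rintro ⟨hA, hall⟩
          have h2 : 1 ≤ sp G v := hA.2.1
          refine ⟨hA, fun h0 => ?_, fun y hy => hall _ _ ?_ (abs_le.2 hy.2)⟩
          · have h3 : sp G v = 0 := by
              rw [sp, h0]
              simp [ip]
            rw [h3] at h2
            linarith
          · have h3 : |y.1| ≤ 1 := abs_le.2 hy.1
            have h4 : 0 ≤ sp G v * L := by positivity
            rw [abs_mul, abs_of_nonneg h4]
            exact mul_le_of_le_one_left h4 h3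
        · rintro ⟨hA, -, hall⟩
          refine ⟨hA, fun t k ht hk => ?_⟩
          have h2 : 1 ≤ sp G v := hA.2.1
          have h4 : 0 ≤ sp G v * L := by positivity
          rcases h4.eq_or_lt with h5 | h5
          · have h6 : t = 0 := by
              rw [← h5] at ht
              exact abs_eq_zero.1 (le_antisymm ht (abs_nonneg t))
            have h7 := hall (0, k) ⟨⟨by norm_num, by norm_num⟩, abs_le.1 hk⟩
            simp only [zero_mul] at h7
            rw [h6]
            exact h7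
          · have h7 := hall (t / (sp G v * L), k) ⟨abs_le.1 (by
              rw [abs_div, abs_of_pos h5]
              exact (div_le_one h5).2 ht), abs_le.1 hk⟩
            simp only at h7
            rwa [div_mul_cancel₀ _ h5.ne'] at h7
      rw [h1]
      exact (kapm_borel hφ).inter (kapm_open hφ L r τ).measurableSet
  · rw [mem_ofPred_eq, mem_ofPred_eq, kapm_inv hΓ hφ f hf, sp_act G (hΓ.isom f hf)]
    simp only [kap_act hΓ hφ f hf]

end

end Pool.Agent.Work.MP_275abe_gt
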