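import Pool.Agent.Work.MP_275abe_gt.InvK
import Pool.Agent.Work.MP_275abe_gt.BddM

/-!
The iterated derivatives of the curvature along geodesics: kz (j+1) = derivative of kz j along the spray; smooth;
kz j (act f v) = kz j v because both are the j-th derivative at 0 of t -> curv (φ t v).1 (curv_act, phi_act).
-/

namespace Pool.Agent.Work.MP_275abe_gt

open MeasureTheory Set
open scoped ContDiff

noncomputable section

theorem kz_succ (G : Met) (j : ℕ) (v : Pt × Pt) :
    kz G (j + 1) v = fderiv ℝ (kz G j) v (spray G v) := by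
  unfold kz
  rw [Function.iterate_succ_apply']
  rfl

theorem kz_smooth (G : Met) (j : ℕ) : ContDiff ℝ ∞ (kz G j) := by
  induction j with
  | zero => exact (curv_smooth G).comp contDiff_fst
  | succ j ih =>
    have h : kz G (j + 1) = fun v => fderiv ℝ (kz G j) v (spray G v) := by
      funext v
      exact kz_succ G j v
    rw [h]
    exact (ih.fderiv_right (m := ∞) (by norm_num)).clm_apply (spray_smooth G)

theorem kz_zero (G : Met) (v : Pt × Pt) : kz G 0 v = curv G v.1 := rfl

theorem kz_flow (G : Met) {φ : ℝ → Pt × Pt → Pt × Pt} (hφ : IsFlow (spray G) φ) (j : ℕ)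
    (v : Pt × Pt) (t : ℝ) : HasDerivAt (fun s => kz G j (φ s v)) (kz G (j + 1) (φ t v)) t := by
  have h1 : HasFDerivAt (kz G j) (fderiv ℝ (kz G j) (φ t v)) (φ t v) :=
    ((kz_smooth G j).differentiable (by norm_num) _).hasFDerivAt
  have h2 := h1.comp_hasDerivAt t (hφ.2 v t)
  rw [kz_succ]
  exact h2

theorem kz_act {G : Met} {Γ : Subgroup (Equiv.Perm Pt)} (hΓ : IsClosedSurf G Γ)
    {φ : ℝ → Pt × Pt → Pt × Pt} (hφ : IsFlow (spray G) φ) (f : Equiv.Perm Pt) (hf : f ∈ Γ)
    (j : ℕ) (v : Pt × Pt) : kz G j (act f v) = kz G j v := by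
  induction j generalizing v with
  | zero =>
    rw [kz_zero, kz_zero]
    exact curv_act hΓ hφ f hf v.1
  | succ j ih =>
    have h1 := kz_flow G hφ j (act f v) 0
    have h2 := kz_flow G hφ j v 0
    rw [hφ.1] at h1 h2
    have h3 : (fun s => kz G j (φ s (act f v))) = fun s => kz G j (φ s v) := by
      funext s
      rw [phi_act hΓ hφ f hf s v, ih]
    rw [h3] at h1
    exact h1.unique h2

end

end Pool.Agent.Work.MP_275abe_gt
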