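import Pool.Agent.Work.MP_275abe_gt.MetA

/-!
The Christoffel connection is metric. From the definition, Σ_m Γ^m_{li} g_mj = (1/2)(∂_l g_ij + ∂_i g_lj - ∂_j g_li)
(mul_gi), and the sum of the two such terms is ∂_l g_ij. energy: along a solution (γ, γ') of the spray the derivative of
ip(γ', γ') is 2 ip(γ'' + Γ(γ', γ'), γ') = 0. dt_deriv: the derivative of the determinant is 2 dt Σ_k Γ^k_{ki} u_i.
-/

namespace Pool.Agent.Work.MP_275abe_gt

open MeasureTheory Set
open scoped ContDiff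

noncomputable section

private theorem metb_symm (G : Met) (i j : Fin 2) : G.g i j = G.g j i := by
  funext x
  exact G.symm i j x

private theorem metb_low (G : Met) (l i j : Fin 2) (x : Pt) :
    ∑ m, chr G m l i x * G.g m j x =
      (1 / 2) * (pd l (G.g i j) x + pd i (G.g l j) x - pd j (G.g l i) x) := by
  have h0 := mul_gi G x j 0
  have h1 := mul_gi G x j 1
  simp only [chr, Fin.sum_univ_two] at *
  rw [metb_symm G 0 j, metb_symm G 1 j]
  fin_cases j
  · simp only [Fin.zero_eta, Fin.isValue, if_true, zero_ne_one, if_false] at *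
    linear_combination (1 / 2 * (pd l (G.g i 0) x + pd i (G.g l 0) x - pd 0 (G.g l i) x)) * h0 +
      (1 / 2 * (pd l (G.g i 1) x + pd i (G.g l 1) x - pd 1 (G.g l i) x)) * h1
  · simp only [Fin.mk_one, Fin.isValue, if_true, one_ne_zero, if_false] at *
    linear_combination (1 / 2 * (pd l (G.g i 0) x + pd i (G.g l 0) x - pd 0 (G.g l i) x)) * h0 +
      (1 / 2 * (pd l (G.g i 1) x + pd i (G.g l 1) x - pd 1 (G.g l i) x)) * h1

theorem compat (G : Met) (l i j : Fin 2) (x : Pt) :
    pd l (G.g i j) x = ∑ m, (chr G m l i x * G.g m j x + chr G m l j x * G.g i m x) := by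
  have h1 := metb_low G l i j x
  have h2 := metb_low G l j i x
  rw [Finset.sum_add_distrib]
  have h3 : ∑ m, chr G m l j x * G.g i m x = ∑ m, chr G m l j x * G.g m i x := by
    refine Finset.sum_congr rfl fun m _ => ?_
    rw [metb_symm G i m]
  rw [h3, h1, h2, metb_symm G j i]
  ring

theorem fderiv_ip (G : Met) (x z u w : Pt) :
    fderiv ℝ (fun y => ip G y u w) x z = ip G x (cV G x z u) w + ip G x u (cV G x z w) := by
  have hd : ∀ i j, HasFDerivAt (G.g i j) (fderiv ℝ (G.g i j) x) x := fun i j =>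
    ((G.smooth i j).differentiable (by simp) x).hasFDerivAt
  have h1 : HasFDerivAt (fun y => ip G y u w)
      (∑ i, ∑ j, (w j) • ((u i) • fderiv ℝ (G.g i j) x)) x := by
    unfold ip
    refine HasFDerivAt.fun_sum fun i _ => HasFDerivAt.fun_sum fun j _ => ?_
    exact ((hd i j).mul_const (u i)).mul_const (w j)
  rw [h1.fderiv]
  simp only [Fin.sum_univ_two, ContinuousLinearMap.add_apply, ContinuousLinearMap.smul_apply,
    smul_eq_mul, fderiv_eq_pd, ip, cV, compat]
  ring

/-- The derivative of the inner product of two vector fields along a curve. -/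
theorem hasDerivAt_ip (G : Met) {γ U W : ℝ → Pt} {γ' U' W' : Pt} {t : ℝ}
    (hγ : HasDerivAt γ γ' t) (hU : HasDerivAt U U' t) (hW : HasDerivAt W W' t) :
    HasDerivAt (fun s => ip G (γ s) (U s) (W s))
      (ip G (γ t) (U' + cV G (γ t) γ' (U t)) (W t) +
        ip G (γ t) (U t) (W' + cV G (γ t) γ' (W t))) t := by
  have hd : ∀ i j, HasFDerivAt (G.g i j) (fderiv ℝ (G.g i j) (γ t)) (γ t) := fun i j =>
    ((G.smooth i j).differentiable (by simp) (γ t)).hasFDerivAt
  have hUi : ∀ i, HasDerivAt (fun s => U s i) (U' i) t := fun i => (hasDerivAt_pi.1 hU) i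
  have hWi : ∀ i, HasDerivAt (fun s => W s i) (W' i) t := fun i => (hasDerivAt_pi.1 hW) i
  have h1 : HasDerivAt (fun s => ip G (γ s) (U s) (W s))
      (∑ i, ∑ j, ((fderiv ℝ (G.g i j) (γ t) γ' * U t i + G.g i j (γ t) * U' i) * W t j +
        G.g i j (γ t) * U t i * W' j)) t := by
    unfold ip
    refine HasDerivAt.fun_sum fun i _ => HasDerivAt.fun_sum fun j _ => ?_
    exact (((hd i j).comp_hasDerivAt t hγ).mul (hUi i)).mul (hWi j)
  refine h1.congr_deriv ?_
  simp only [Fin.sum_univ_two, fderiv_eq_pd, ip, cV, compat, Pi.add_apply]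
  ring

theorem energy_deriv (G : Met) {z : ℝ → Pt × Pt} {t : ℝ} (hz : HasDerivAt z (spray G (z t)) t) :
    HasDerivAt (fun s => ip G (z s).1 (z s).2 (z s).2) 0 t := by
  have h1 : HasDerivAt (fun s => (z s).1) (z t).2 t :=
    (hasFDerivAt_fst (𝕜 := ℝ) (p := z t)).comp_hasDerivAt t hz
  have h2 : HasDerivAt (fun s => (z s).2) (-cV G (z t).1 (z t).2 (z t).2) t :=
    (hasFDerivAt_snd (𝕜 := ℝ) (p := z t)).comp_hasDerivAt t hz
  refine (hasDerivAt_ip G h1 h2 h2).congr_deriv ?_
  rw [neg_add_cancel]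
  simp [ip]

theorem sp_flow (G : Met) {φ : ℝ → Pt × Pt → Pt × Pt} (hφ : IsFlow (spray G) φ) (t : ℝ)
    (v : Pt × Pt) : sp G (φ t v) = sp G v := by
  have h1 : ∀ s, HasDerivAt (fun s => ip G (φ s v).1 (φ s v).2 (φ s v).2) 0 s := fun s =>
    energy_deriv G (hφ.2 v s)
  have h2 := is_const_of_deriv_eq_zero (fun s => (h1 s).differentiableAt)
    (fun s => (h1 s).deriv) t 0
  have h3 : ip G (φ t v).1 (φ t v).2 (φ t v).2 = ip G (φ 0 v).1 (φ 0 v).2 (φ 0 v).2 := h2
  unfold sp
  rw [h3, hφ.1 v]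

theorem dt_deriv (G : Met) (x u : Pt) :
    fderiv ℝ (dt G) x u = 2 * dt G x * ∑ k, ∑ i, chr G k k i x * u i := by
  have hd : ∀ i j, HasFDerivAt (G.g i j) (fderiv ℝ (G.g i j) x) x := fun i j =>
    ((G.smooth i j).differentiable (by simp) x).hasFDerivAt
  have h1 : HasFDerivAt (dt G)
      ((G.g 0 0 x • fderiv ℝ (G.g 1 1) x + G.g 1 1 x • fderiv ℝ (G.g 0 0) x) -
        (G.g 0 1 x • fderiv ℝ (G.g 1 0) x + G.g 1 0 x • fderiv ℝ (G.g 0 1) x)) x := by
    have h2 := ((hd 0 0).mul (hd 1 1)).sub ((hd 0 1).mul (hd 1 0))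
    exact h2
  rw [h1.fderiv]
  simp only [Fin.sum_univ_two, ContinuousLinearMap.add_apply, ContinuousLinearMap.sub_apply,
    ContinuousLinearMap.smul_apply, smul_eq_mul, fderiv_eq_pd, compat, dt]
  rw [metb_symm G 1 0, chr_symm G 0 1 0, chr_symm G 1 1 0]
  ring

end

end Pool.Agent.Work.MP_275abe_gt
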