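import Pool.Agent.Work.MP_275abe_gt.FrOf
import Pool.Agent.Work.MP_275abe_gt.MetB

/-!
The Levi-Civita connection in the frame. With ∇_u w = Dw(u) + Γ(u, w) for vector fields w: metric (fderiv_ip) and torsion
free (cV_symm). From ip(a,a) = 1: ip(∇_u a, a) = 0; from ip(a,b) = 0: ip(∇_u a, b) = -ip(a, ∇_u b); so ∇_u a = ω(u) b,
∇_u b = -ω(u) a. Torsion: ∇_a b - ∇_b a = [a, b] = p a + q b gives ω(a) = -p, ω(b) = -q, and ω is linear in u. nabla_dir
follows with u = dir x θ.
-/

namespace Pool.Agent.Work.MP_275abe_gt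

open MeasureTheory Set
open scoped ContDiff

noncomputable section

private theorem lv_cV_add' (G : Met) (x u w w' : Pt) :
    cV G x u (w + w') = cV G x u w + cV G x u w' := by
  rw [cV_symm, cV_add, cV_symm G x w, cV_symm G x w']

private theorem lv_cV_smul' (G : Met) (x : Pt) (c : ℝ) (u w : Pt) :
    cV G x u (c • w) = c • cV G x u w := by
  rw [cV_symm, cV_smul, cV_symm G x w]

private theorem lv_ip_add' (G : Met) (x u w w' : Pt) :
    ip G x u (w + w') = ip G x u w + ip G x u w' := by
  rw [ip_symm, ip_add, ip_symm G x w, ip_symm G x w']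

private theorem lv_ip_smul' (G : Met) (x : Pt) (c : ℝ) (u w : Pt) :
    ip G x u (c • w) = c * ip G x u w := by
  rw [ip_symm, ip_smul, ip_symm G x w]

/-- The derivative of the inner product of two vector fields. -/
private theorem lv_field (G : Met) {U W : Pt → Pt} (hU : ContDiff ℝ ∞ U) (hW : ContDiff ℝ ∞ W)
    (x u : Pt) : HasDerivAt (fun s : ℝ => ip G (x + s • u) (U (x + s • u)) (W (x + s • u)))
      (ip G x (fderiv ℝ U x u + cV G x u (U x)) (W x) +
        ip G x (U x) (fderiv ℝ W x u + cV G x u (W x))) 0 := by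
  have hγ : HasDerivAt (fun s : ℝ => x + s • u) u 0 := by
    have h1 := ((hasDerivAt_id (0 : ℝ)).smul_const u).const_add x
    simpa using h1
  have h2 : HasDerivAt (fun s : ℝ => U (x + s • u)) (fderiv ℝ U x u) 0 := by
    have h3 : HasFDerivAt U (fderiv ℝ U x) (x + (0 : ℝ) • u) := by
      rw [zero_smul, add_zero]
      exact (hU.differentiable (by simp) x).hasFDerivAt
    exact HasFDerivAt.comp_hasDerivAt (l := U) (f := fun s : ℝ => x + s • u) 0 h3 hγ
  have h4 : HasDerivAt (fun s : ℝ => W (x + s • u)) (fderiv ℝ W x u) 0 := by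
    have h3 : HasFDerivAt W (fderiv ℝ W x) (x + (0 : ℝ) • u) := by
      rw [zero_smul, add_zero]
      exact (hW.differentiable (by simp) x).hasFDerivAt
    exact HasFDerivAt.comp_hasDerivAt (l := W) (f := fun s : ℝ => x + s • u) 0 h3 hγ
  have h5 := hasDerivAt_ip G hγ h2 h4
  simpa using h5

private theorem lv_const (G : Met) {U W : Pt → Pt} (hU : ContDiff ℝ ∞ U) (hW : ContDiff ℝ ∞ W)
    (c : ℝ) (hc : ∀ x, ip G x (U x) (W x) = c) (x u : Pt) :
    ip G x (fderiv ℝ U x u + cV G x u (U x)) (W x) +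
        ip G x (U x) (fderiv ℝ W x u + cV G x u (W x)) = 0 := by
  have h1 := lv_field G hU hW x u
  have h2 : (fun s : ℝ => ip G (x + s • u) (U (x + s • u)) (W (x + s • u))) = fun _ => c := by
    funext s
    exact hc _
  rw [h2] at h1
  exact h1.unique (hasDerivAt_const 0 c)

/-- The connection form. -/
private def lvom (G : Met) (x u : Pt) : ℝ := ip G x (fderiv ℝ (fa G) x u + cV G x u (fa G x)) (fb G x)

private theorem lv_na (G : Met) (x u : Pt) :
    fderiv ℝ (fa G) x u + cV G x u (fa G x) = lvom G x u • fb G x := by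
  have h1 := lv_const G (fa_smooth G) (fa_smooth G) 1 (ip_aa G) x u
  have h2 := ip_expand G x (fderiv ℝ (fa G) x u + cV G x u (fa G x))
  rw [ip_symm G x (fa G x)] at h1
  have h3 : ip G x (fderiv ℝ (fa G) x u + cV G x u (fa G x)) (fa G x) = 0 := by linarith
  rw [h3, zero_smul, zero_add] at h2
  exact h2

private theorem lv_nb (G : Met) (x u : Pt) :
    fderiv ℝ (fb G) x u + cV G x u (fb G x) = -lvom G x u • fa G x := by
  have h1 := lv_const G (fb_smooth G) (fb_smooth G) 1 (ip_bb G) x u
  have h0 := lv_const G (fa_smooth G) (fb_smooth G) 0 (ip_ab G) x u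
  have h2 := ip_expand G x (fderiv ℝ (fb G) x u + cV G x u (fb G x))
  rw [ip_symm G x (fb G x)] at h1
  rw [ip_symm G x (fa G x)] at h0
  have h3 : ip G x (fderiv ℝ (fb G) x u + cV G x u (fb G x)) (fb G x) = 0 := by linarith
  have h4 : ip G x (fderiv ℝ (fb G) x u + cV G x u (fb G x)) (fa G x) = -lvom G x u := by
    unfold lvom
    linarith
  rw [h3, h4, zero_smul, add_zero] at h2
  exact h2

private theorem lvom_add (G : Met) (x u u' : Pt) : lvom G x (u + u') = lvom G x u + lvom G x u' := by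
  unfold lvom
  rw [map_add, cV_add, ← ip_add]
  congr 1
  abel

private theorem lvom_smul (G : Met) (x : Pt) (c : ℝ) (u : Pt) : lvom G x (c • u) = c * lvom G x u := by
  unfold lvom
  rw [map_smul, cV_smul, ← ip_smul, smul_add]

private theorem lvom_ab (G : Met) (x : Pt) :
    lvom G x (fa G x) = -(frOf G).p x ∧ lvom G x (fb G x) = -(frOf G).q x := by
  have h1 := lv_nb G x (fa G x)
  have h2 := lv_na G x (fb G x)
  have h3 : brk G x = -lvom G x (fa G x) • fa G x - lvom G x (fb G x) • fb G x := by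
    rw [← h1, ← h2, brk, cV_symm G x (fa G x) (fb G x)]
    abel
  constructor
  · show _ = -ip G x (brk G x) (fa G x)
    rw [h3, sub_eq_add_neg, ← neg_smul, ip_add, ip_smul, ip_smul, ip_aa, ip_symm G x (fb G x), ip_ab]
    ring
  · show _ = -ip G x (brk G x) (fb G x)
    rw [h3, sub_eq_add_neg, ← neg_smul, ip_add, ip_smul, ip_smul, ip_bb, ip_ab]
    ring

private theorem lvom_eq (G : Met) (x u : Pt) : lvom G x u =
    -((frOf G).p x * ip G x u (fa G x) + (frOf G).q x * ip G x u (fb G x)) := by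
  have h : lvom G x u = lvom G x (ip G x u (fa G x) • fa G x + ip G x u (fb G x) • fb G x) := by
    rw [← ip_expand G x u]
  rw [h, lvom_add, lvom_smul, lvom_smul, (lvom_ab G x).1, (lvom_ab G x).2]
  ring

theorem nabla_a (G : Met) (x u : Pt) : fderiv ℝ (fa G) x u + cV G x u (fa G x) =
    -((frOf G).p x * ip G x u (fa G x) + (frOf G).q x * ip G x u (fb G x)) • fb G x := by
  rw [lv_na, lvom_eq]

theorem nabla_b (G : Met) (x u : Pt) : fderiv ℝ (fb G) x u + cV G x u (fb G x) =
    ((frOf G).p x * ip G x u (fa G x) + (frOf G).q x * ip G x u (fb G x)) • fa G x := by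
  rw [lv_nb, lvom_eq, neg_neg]

theorem nabla_dir (G : Met) (x : Pt) (θ : ℝ) :
    fderiv ℝ (fun y => unitVec G y θ) x (unitVec G x θ) +
      cV G x (unitVec G x θ) (unitVec G x θ) =
      -(frOf G).lam x θ • unitVec G x (θ + Real.pi / 2) := by
  have ha := (fa_smooth G).differentiable (by simp) x
  have hb := (fb_smooth G).differentiable (by simp) x
  have hd : fderiv ℝ (fun y => unitVec G y θ) x (unitVec G x θ) =
      Real.cos θ • fderiv ℝ (fa G) x (unitVec G x θ) +
        Real.sin θ • fderiv ℝ (fb G) x (unitVec G x θ) := by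
    have h1 : HasFDerivAt (fun y => unitVec G y θ)
        (Real.cos θ • fderiv ℝ (fa G) x + Real.sin θ • fderiv ℝ (fb G) x) x :=
      (ha.hasFDerivAt.const_smul (Real.cos θ)).add (hb.hasFDerivAt.const_smul (Real.sin θ))
    rw [h1.fderiv]
    rfl
  have hc : cV G x (unitVec G x θ) (unitVec G x θ) =
      Real.cos θ • cV G x (unitVec G x θ) (fa G x) + Real.sin θ • cV G x (unitVec G x θ) (fb G x) := by
    have h1 : cV G x (unitVec G x θ) (unitVec G x θ) =
      cV G x (unitVec G x θ) (Real.cos θ • fa G x + Real.sin θ • fb G x) := rfl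
    rw [h1, lv_cV_add', lv_cV_smul', lv_cV_smul']
  have h1 : ip G x (unitVec G x θ) (fa G x) = Real.cos θ := by
    rw [unitVec, ip_add, ip_smul, ip_smul, ip_aa, ip_symm G x (fb G x), ip_ab]
    ring
  have h2 : ip G x (unitVec G x θ) (fb G x) = Real.sin θ := by
    rw [unitVec, ip_add, ip_smul, ip_smul, ip_bb, ip_ab]
    ring
  have na := nabla_a G x (unitVec G x θ)
  have nb := nabla_b G x (unitVec G x θ)
  rw [h1, h2] at na nb
  have e : Real.cos θ • fderiv ℝ (fa G) x (unitVec G x θ) +
        Real.sin θ • fderiv ℝ (fb G) x (unitVec G x θ) +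
      (Real.cos θ • cV G x (unitVec G x θ) (fa G x) + Real.sin θ • cV G x (unitVec G x θ) (fb G x)) =
      Real.cos θ • (fderiv ℝ (fa G) x (unitVec G x θ) + cV G x (unitVec G x θ) (fa G x)) +
      Real.sin θ • (fderiv ℝ (fb G) x (unitVec G x θ) + cV G x (unitVec G x θ) (fb G x)) := by
    rw [smul_add, smul_add]
    abel
  rw [hd, hc, e, na, nb]
  unfold Fr.lam unitVec
  rw [Real.cos_add_pi_div_two, Real.sin_add_pi_div_two]
  funext i
  simp only [Pi.add_apply, Pi.smul_apply, smul_eq_mul]
  ring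

end

end Pool.Agent.Work.MP_275abe_gt
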