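import Pool.Agent.Work.MP_275abe_gt.FlatV
import Pool.Agent.Work.MP_275abe_gt.RotA

/-!
From tangent vectors to the Liouville measure. mu (zeroVec ∩ shell) = 0 (union of zero_diff_flat and hypothesis), i.e.
volume of it is 0; so for almost every x the set of u with (x, u) ∈ zeroVec ∩ shell is null; zeroVec is invariant under
u -> c u, c ≠ 0 (phi_scale), so in polar coordinates u = r unitVec x θ (linear change of variables to the basis a, b and
polarCoord; 1 <= r < 2) almost every θ has (x, unitVec x θ) ∉ zeroVec. liouville is the image of the measure √dt dx dθ.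
-/

namespace Pool.Agent.Work.MP_275abe_gt

open MeasureTheory Set
open scoped ContDiff

noncomputable section

private theorem polar_scale (G : Met) {φ : ℝ → Pt × Pt → Pt × Pt} (hφ : IsFlow (spray G) φ)
    (x u : Pt) (c : ℝ) (hc : c ≠ 0) : (x, c • u) ∈ zeroVec G φ ↔ (x, u) ∈ zeroVec G φ := by
  have key : ∀ t, φ t (x, c • u) = ((φ (c * t) (x, u)).1, c • (φ (c * t) (x, u)).2) := fun t =>
    phi_scale G hφ c t (x, u)
  constructor
  · intro h t
    have h1 := h (c⁻¹ * t)
    rw [key, mul_inv_cancel_left₀ hc] at h1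
    exact h1
  · intro h t
    rw [key]
    exact h _

private theorem polar_closed (G : Met) {φ : ℝ → Pt × Pt → Pt × Pt} (hφ : IsFlow (spray G) φ) :
    IsClosed (zeroVec G φ) := by
  have hc := flow_cont ((spray_smooth G).of_le (by norm_num)) hφ
  have : zeroVec G φ = ⋂ t : ℝ, {v | curv G (φ t v).1 = 0} := by
    ext v
    simp [zeroVec]
  rw [this]
  refine isClosed_iInter fun t => isClosed_eq ?_ continuous_const
  exact (curv_smooth G).continuous.comp
    (continuous_fst.comp (hc.comp (by fun_prop : Continuous fun v : Pt × Pt => (t, v))))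

private theorem polar_shell (G : Met) : MeasurableSet (shell G) :=
  (isClosed_le continuous_const (sp_cont G)).measurableSet.inter
    (isOpen_lt (sp_cont G) continuous_const).measurableSet

private theorem polar_unit_cont (G : Met) :
    Continuous fun z : Pt × ℝ => (z.1, unitVec G z.1 z.2) := by
  have ha := (fa_smooth G).continuous
  have hb := (fb_smooth G).continuous
  unfold unitVec
  exact continuous_fst.prodMk
    (((Real.continuous_cos.comp continuous_snd).smul (ha.comp continuous_fst)).add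
      ((Real.continuous_sin.comp continuous_snd).smul (hb.comp continuous_fst)))

/-- the linear map `u ↦ u 0 • a + u 1 • b`. -/
private def polar_M (a b : Pt) : Pt →ₗ[ℝ] Pt :=
  Matrix.toLin' !![a 0, b 0; a 1, b 1]

private theorem polar_M_apply (a b u : Pt) : polar_M a b u = u 0 • a + u 1 • b := by
  ext i
  fin_cases i
  · simp only [polar_M, Matrix.toLin'_apply, Matrix.mulVec, dotProduct, Fin.sum_univ_two]
    simp
    ring
  · simp only [polar_M, Matrix.toLin'_apply, Matrix.mulVec, dotProduct, Fin.sum_univ_two]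
    simp
    ring

private theorem polar_M_det (a b : Pt) : LinearMap.det (polar_M a b) = a 0 * b 1 - a 1 * b 0 := by
  rw [polar_M, LinearMap.det_toLin', Matrix.det_fin_two_of]
  ring

/-- The null set of tangent vectors in polar coordinates. -/
private theorem polar_null (a b : Pt) (hab : a 0 * b 1 - a 1 * b 0 ≠ 0) (S : Set Pt)
    (hS : MeasurableSet S) (h0 : (volume : Measure Pt) S = 0) (Z : Set ℝ) (hZ : MeasurableSet Z)
    (hZS : ∀ θ ∈ Z, ∀ r : ℝ, 1 ≤ r → r < 2 →
      r • (Real.cos θ • a + Real.sin θ • b) ∈ S) :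
    (volume : Measure ℝ) (Z ∩ Ioo (-Real.pi) Real.pi) = 0 := by
  have h1 : (volume : Measure Pt) (polar_M a b ⁻¹' S) = 0 := by
    rw [Measure.addHaar_preimage_linearMap volume (by rw [polar_M_det]; exact hab), h0, mul_zero]
  have hMm : Measurable (polar_M a b) := (LinearMap.continuous_of_finiteDimensional _).measurable
  set A : Set (ℝ × ℝ) := MeasurableEquiv.finTwoArrow.symm ⁻¹' (polar_M a b ⁻¹' S) with hA
  have hAm : MeasurableSet A := (hMm hS).preimage MeasurableEquiv.finTwoArrow.symm.measurable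
  have h2 : (volume : Measure (ℝ × ℝ)) A = 0 := by
    rw [hA, ((volume_preserving_finTwoArrow ℝ).symm _).measure_preimage_equiv]
    exact h1
  have hAe : ∀ p : ℝ × ℝ, p ∈ A ↔ p.1 • a + p.2 • b ∈ S := by
    intro p
    have : polar_M a b (MeasurableEquiv.finTwoArrow.symm p) = p.1 • a + p.2 • b := by
      rw [polar_M_apply]
      rfl
    rw [hA, mem_preimage, mem_preimage, this]
  have h3 := lintegral_comp_polarCoord_symm (A.indicator fun _ => (1 : ENNReal))
  rw [lintegral_indicator_const hAm, h2, mul_zero] at h3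
  set P : Set (ℝ × ℝ) := Ico (1 : ℝ) 2 ×ˢ (Z ∩ Ioo (-Real.pi) Real.pi) with hP
  have hPm : MeasurableSet P := measurableSet_Ico.prod (hZ.inter measurableSet_Ioo)
  have hPt : P ⊆ polarCoord.target := by
    rintro ⟨r, θ⟩ ⟨hr, hθ⟩
    exact ⟨lt_of_lt_of_le one_pos hr.1, hθ.2⟩
  have h4 : (volume : Measure (ℝ × ℝ)) P = 0 := by
    refine le_antisymm ?_ bot_le
    rw [← h3, ← setLIntegral_one]
    refine le_trans (setLIntegral_mono' hPm fun p hp => ?_) (lintegral_mono_set hPt)
    obtain ⟨r, θ⟩ := p
    obtain ⟨⟨hr1, hr2⟩, hθ, -⟩ := hp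
    have hmem : polarCoord.symm (r, θ) ∈ A := by
      rw [hAe]
      have := hZS θ hθ r hr1 hr2
      rw [smul_add, smul_smul, smul_smul] at this
      exact this
    rw [indicator_of_mem hmem, smul_eq_mul, mul_one]
    exact ENNReal.one_le_ofReal.2 hr1
  rw [hP, Measure.volume_eq_prod, Measure.prod_prod] at h4
  rcases mul_eq_zero.1 h4 with h5 | h5
  · rw [Real.volume_Ico] at h5
    norm_num at h5
  · exact h5

theorem liouville_null (G : Met) {φ : ℝ → Pt × Pt → Pt × Pt} (hφ : IsFlow (spray G) φ)
    (h0 : mu G (zeroVec G φ ∩ shell G) = 0) : ∀ᵐ v ∂(liouville G), v ∉ zeroVec G φ := by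
  have hZ := (polar_closed G hφ).measurableSet
  have hZS : MeasurableSet (zeroVec G φ ∩ shell G) := hZ.inter (polar_shell G)
  have h1 : (volume : Measure (Pt × Pt)) (zeroVec G φ ∩ shell G) = 0 := vol_ll_mu G h0
  rw [Measure.volume_eq_prod, Measure.measure_prod_null hZS] at h1
  have hm := (polar_unit_cont G).measurable
  unfold liouville
  rw [ae_map_iff hm.aemeasurable hZ.compl, ae_iff]
  have hB : MeasurableSet {z : Pt × ℝ | (z.1, unitVec G z.1 z.2) ∈ zeroVec G φ} := hm hZ
  have hset : {z : Pt × ℝ | ¬ (z.1, unitVec G z.1 z.2) ∉ zeroVec G φ} =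
      {z : Pt × ℝ | (z.1, unitVec G z.1 z.2) ∈ zeroVec G φ} := by
    ext z
    simp
  rw [hset, Measure.measure_prod_null hB]
  refine (withDensity_absolutelyContinuous _ _).ae_le ?_
  filter_upwards [h1] with x hx
  set Z : Set ℝ := {θ | (x, unitVec G x θ) ∈ zeroVec G φ} with hZd
  have hZm : MeasurableSet Z :=
    hB.preimage (measurable_const.prodMk measurable_id : Measurable fun θ : ℝ => (x, θ))
  have hab : fa G x 0 * fb G x 1 - fa G x 1 * fb G x 0 ≠ 0 := by
    rw [ab_det]
    exact one_div_ne_zero (Real.sqrt_pos.2 (dt_pos G x)).ne'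
  have hN := polar_null (fa G x) (fb G x) hab _
    (hZS.preimage (measurable_const.prodMk measurable_id : Measurable fun u : Pt => (x, u))) hx Z
    hZm (by
      intro θ hθ r hr1 hr2
      change (x, r • unitVec G x θ) ∈ zeroVec G φ ∩ shell G
      refine ⟨(polar_scale G hφ x _ r (by linarith)).2 hθ, ?_⟩
      have hsp : sp G (x, r • unitVec G x θ) = r := by
        rw [sp_smul, abs_of_nonneg (by linarith)]
        simp only [sp]
        rw [ip_dir, Real.sqrt_one, mul_one]
      change 1 ≤ sp G (x, r • unitVec G x θ) ∧ sp G (x, r • unitVec G x θ) < 2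
      rw [hsp]
      exact ⟨hr1, hr2⟩)
  change (volume.restrict (Ioc 0 (2 * Real.pi))) Z = 0
  rw [Measure.restrict_apply hZm]
  have hper : ∀ θ, θ ∈ Z → θ - 2 * Real.pi ∈ Z := by
    intro θ hθ
    have : unitVec G x (θ - 2 * Real.pi) = unitVec G x θ := by
      simp only [unitVec, Real.cos_sub_two_pi, Real.sin_sub_two_pi]
    rw [hZd, mem_ofPred_eq, this]
    exact hθ
  have hsub : Z ∩ Ioc 0 (2 * Real.pi) ⊆ (Z ∩ Ioo (-Real.pi) Real.pi) ∪
      (fun θ => θ - 2 * Real.pi) ⁻¹' (Z ∩ Ioo (-Real.pi) Real.pi) ∪ {Real.pi} := by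
    rintro θ ⟨hθ, h1, h2⟩
    have hpi := Real.pi_pos
    rcases lt_trichotomy θ Real.pi with h | h | h
    · exact Or.inl (Or.inl ⟨hθ, by linarith, h⟩)
    · exact Or.inr h
    · exact Or.inl (Or.inr ⟨hper θ hθ, by linarith, by linarith⟩)
  refine measure_mono_null hsub (measure_union_null (measure_union_null hN ?_) (by simp))
  have : (volume : Measure ℝ) ((fun θ => θ - 2 * Real.pi) ⁻¹' (Z ∩ Ioo (-Real.pi) Real.pi)) =
      volume (Z ∩ Ioo (-Real.pi) Real.pi) := by
    have := measure_preimage_add_right (volume : Measure ℝ) (-(2 * Real.pi))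
      (Z ∩ Ioo (-Real.pi) Real.pi)
    simpa [sub_eq_add_neg] using this
  rw [this, hN]

end

end Pool.Agent.Work.MP_275abe_gt
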