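import Pool.Agent.Work.MP_275abe_gt.MainHyp
import Pool.Agent.Work.MP_275abe_gt.Polar
import Pool.Agent.Work.MP_275abe_gt.Compl

/-!
Assembly (complete).
-/

namespace Pool.Agent.Work.MP_275abe_gt

open MeasureTheory Set
open scoped ContDiff

noncomputable section

theorem main {G : Met} {Γ : Subgroup (Equiv.Perm Pt)} (hΓ : IsClosedSurf G Γ)
    (hK : ∀ x, curv G x ≤ 0) (hneg : ∃ x, curv G x < 0) :
    ∀ᵐ v ∂(liouville G), ∃ γ : ℝ → Pt, IsGeod G γ ∧ γ 0 = v.1 ∧ deriv γ 0 = v.2 ∧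
      ∃ t, curv G (γ t) < 0 := by
  obtain ⟨φ, hφ⟩ := exists_phi hΓ
  have h1 := flatVec_null hΓ hφ hK hneg
  have h2 := zero_diff_flat G hφ
  have h3 : mu G (zeroVec G φ ∩ shell G) = 0 := by
    refine measure_mono_null ?_ (measure_union_null h1 h2)
    rintro v ⟨hv, hs⟩
    by_cases hf : v ∈ flatVec G φ
    · exact Or.inl ⟨hf, hs⟩
    · exact Or.inr ⟨hv, hf⟩
  filter_upwards [liouville_null G hφ h3] with v hv
  obtain ⟨g1, g2, g3⟩ := phi_geod G hφ v
  refine ⟨fun t => (φ t v).1, g1, g2, g3, ?_⟩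
  by_contra hcon
  push Not at hcon
  exact hv fun t => le_antisymm (hK _) (hcon t)

end

end Pool.Agent.Work.MP_275abe_gt
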