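import Pool.Agent.Work.MP_275abe_gt.Base

/-!
The derivative of the determinant at the identity is the trace. Write Y s = id + s A + o(s); in a basis the determinant is a
polynomial in the entries (Matrix.det_one_add_smul; or expand: every permutation other than the identity moves two indices,
so contributes o(s)); continuity argument: Y s = id + s A_s with A_s -> A for s ≠ 0.
-/

namespace Pool.Agent.Work.MP_275abe_gt

open MeasureTheory Set
open scoped ContDiff

noncomputable section

private theorem odet_diff (n : ℕ) :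
    Differentiable ℝ (fun M : Fin n → Fin n → ℝ => Matrix.det (Matrix.of M)) := by
  simp only [Matrix.det_apply', Matrix.of_apply]
  fun_prop

private theorem odet_poly {n : ℕ} (A : Matrix (Fin n) (Fin n) ℝ) :
    HasDerivAt (fun s : ℝ => Matrix.det (1 + s • A)) (Matrix.trace A) 0 := by
  obtain ⟨q, hq⟩ : ∃ q : Polynomial ℝ, ∀ s : ℝ, Matrix.det (1 + s • A) =
      1 + Matrix.trace A * s + q.eval s * s ^ 2 := ⟨_, fun s => Matrix.det_one_add_smul s A⟩
  simp only [hq]
  have h1 : HasDerivAt (fun s : ℝ => 1 + Matrix.trace A * s) (Matrix.trace A) 0 := by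
    simpa using ((hasDerivAt_id (0 : ℝ)).const_mul (Matrix.trace A)).const_add 1
  have h2 : HasDerivAt (fun s : ℝ => q.eval s * s ^ 2) 0 0 := by
    have h3 : HasDerivAt (fun s : ℝ => q.eval s * s ^ 2)
        (q.derivative.eval 0 * id (0 : ℝ) ^ 2 + q.eval 0 * ((2 : ℕ) * id (0 : ℝ) ^ (2 - 1) * 1)) 0 :=
      (q.hasDerivAt (0 : ℝ)).mul ((hasDerivAt_id (0 : ℝ)).pow 2)
    refine h3.congr_deriv ?_
    simp
  refine HasDerivAt.congr_deriv (f := fun s : ℝ => 1 + Matrix.trace A * s + q.eval s * s ^ 2)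
    (h1.add h2) ?_
  rw [add_zero]

theorem det_deriv {E : Type*} [NormedAddCommGroup E] [NormedSpace ℝ E] [FiniteDimensional ℝ E]
    {Y : ℝ → E →L[ℝ] E} {A : E →L[ℝ] E} (h0 : Y 0 = ContinuousLinearMap.id ℝ E)
    (h : HasDerivAt Y A 0) :
    HasDerivAt (fun s => (Y s).det) (LinearMap.trace ℝ E A.toLinearMap) 0 := by
  classical
  set n := Module.finrank ℝ E with hn
  let b := Module.finBasis ℝ E
  let T : (E →L[ℝ] E) →ₗ[ℝ] (Fin n → Fin n → ℝ) :=
    { toFun := fun B i j => b.repr (B (b j)) i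
      map_add' := fun B C => by
        funext i j
        simp
      map_smul' := fun c B => by
        funext i j
        simp }
  have hT : ∀ B : E →L[ℝ] E, Matrix.of (T B) = LinearMap.toMatrix b b B.toLinearMap := by
    intro B
    ext i j
    rw [LinearMap.toMatrix_apply]
    rfl
  have hTd : HasDerivAt (fun s => T (Y s)) (T A) 0 :=
    (LinearMap.toContinuousLinearMap T).hasFDerivAt.comp_hasDerivAt 0 h
  have hT0 : T (Y 0) = fun i j => (1 : Matrix (Fin n) (Fin n) ℝ) i j := by
    have h1 := hT (Y 0)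
    rw [h0] at h1 ⊢
    have h2 : LinearMap.toMatrix b b (ContinuousLinearMap.id ℝ E).toLinearMap = 1 :=
      LinearMap.toMatrix_one b
    rw [h2] at h1
    funext i j
    exact congrFun (congrFun h1 i) j
  set g : (Fin n → Fin n → ℝ) → ℝ := fun M => Matrix.det (Matrix.of M) with hg
  have hgd : HasFDerivAt g (fderiv ℝ g (T (Y 0))) (T (Y 0)) := (odet_diff n _).hasFDerivAt
  have h1 : HasDerivAt (fun s => g (T (Y s))) (fderiv ℝ g (T (Y 0)) (T A)) 0 :=
    hgd.comp_hasDerivAt 0 hTd
  have h2 : HasDerivAt (fun s : ℝ => T (Y 0) + s • T A) (T A) 0 := by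
    simpa using ((hasDerivAt_id (0 : ℝ)).smul_const (T A)).const_add (T (Y 0))
  have h3 : HasDerivAt (fun s : ℝ => g (T (Y 0) + s • T A)) (fderiv ℝ g (T (Y 0)) (T A)) 0 := by
    have hgd' : HasFDerivAt g (fderiv ℝ g (T (Y 0))) (T (Y 0) + (0 : ℝ) • T A) := by
      rw [zero_smul, add_zero]
      exact hgd
    exact hgd'.comp_hasDerivAt 0 h2
  have h4 : (fun s : ℝ => g (T (Y 0) + s • T A)) =
      fun s : ℝ => Matrix.det (1 + s • Matrix.of (T A)) := by
    funext s
    rw [hg]
    congr 1
    ext i j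
    rw [hT0]
    rfl
  rw [h4] at h3
  have h5 := h3.unique (odet_poly (Matrix.of (T A)))
  have h6 : (fun s => (Y s).det) = fun s => g (T (Y s)) := by
    funext s
    change LinearMap.det (Y s).toLinearMap = Matrix.det (Matrix.of (T (Y s)))
    rw [hT, LinearMap.det_toMatrix]
  rw [h6, LinearMap.trace_eq_matrix_trace ℝ b, ← hT, ← h5]
  exact h1

end

end Pool.Agent.Work.MP_275abe_gt
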