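import Pool.Agent.Work.MP_275abe_gt.OC1
import Pool.Agent.Work.MP_275abe_gt.ODet

/-!
Liouville's theorem. D(t, z) = det Y(t, z). By flow_add (and the chain rule), Y(s + t, z) = Y(s, Phi t z) Y(t, z), so by
det_deriv the derivative of D in t is trace(DZ(Phi t z)) D. Hence rho(Phi t z) D(t, z) has derivative 0 and equals rho(z); in
particular D > 0. Phi t is a bijection (inverse Phi (-t)), so the change of variables formula
(lintegral_image_eq_lintegral_abs_det_fderiv_mul) gives the claim.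
-/

namespace Pool.Agent.Work.MP_275abe_gt

open MeasureTheory Set
open scoped ContDiff

noncomputable section

private theorem opres_det_comp {E : Type*} [NormedAddCommGroup E] [NormedSpace ℝ E]
    (A B : E →L[ℝ] E) : (A.comp B).det = A.det * B.det := by
  change LinearMap.det (A.toLinearMap ∘ₗ B.toLinearMap) = LinearMap.det A.toLinearMap *
    LinearMap.det B.toLinearMap
  exact LinearMap.det_comp _ _

private theorem opres_det {E : Type*} [NormedAddCommGroup E] [NormedSpace ℝ E]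
    [FiniteDimensional ℝ E] {Z : E → E} (hZ : ContDiff ℝ 1 Z) {Φ : ℝ → E → E} (hΦ : IsFlow Z Φ)
    {Y : ℝ → E → (E →L[ℝ] E)} (hY : ∀ t z, HasFDerivAt (Φ t) (Y t z) z)
    (hY0 : ∀ z, Y 0 z = ContinuousLinearMap.id ℝ E)
    (hYd : ∀ z t, HasDerivAt (fun s => Y s z) ((fderiv ℝ Z (Φ t z)).comp (Y t z)) t)
    (z : E) (t : ℝ) :
    HasDerivAt (fun s => (Y s z).det)
      (LinearMap.trace ℝ E (fderiv ℝ Z (Φ t z)).toLinearMap * (Y t z).det) t := by
  have hcomp : ∀ s, Y (s + t) z = (Y s (Φ t z)).comp (Y t z) := by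
    intro s
    have h1 : HasFDerivAt (fun w => Φ s (Φ t w)) ((Y s (Φ t z)).comp (Y t z)) z :=
      (hY s (Φ t z)).comp z (hY t z)
    have h2 : (fun w => Φ s (Φ t w)) = Φ (s + t) := by
      funext w
      exact (flow_add hZ hΦ s t w).symm
    rw [h2] at h1
    exact (hY (s + t) z).unique h1
  have hdet : ∀ s, (Y s z).det = (Y (s - t) (Φ t z)).det * (Y t z).det := by
    intro s
    have h1 := hcomp (s - t)
    rw [sub_add_cancel] at h1
    rw [h1, opres_det_comp]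
  have h3 : HasDerivAt (fun s => (Y s (Φ t z)).det)
      (LinearMap.trace ℝ E (fderiv ℝ Z (Φ t z)).toLinearMap) 0 := by
    have h4 := hYd (Φ t z) 0
    have h5 : (fderiv ℝ Z (Φ 0 (Φ t z))).comp (Y 0 (Φ t z)) = fderiv ℝ Z (Φ t z) := by
      rw [hY0]
      have h6 : Φ 0 (Φ t z) = Φ t z := by
        rw [← flow_add hZ hΦ 0 t z, zero_add]
      rw [h6]
      ext w
      rfl
    rw [h5] at h4
    exact det_deriv (hY0 _) h4
  have h4 : HasDerivAt (fun s => (Y (s - t) (Φ t z)).det)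
      (LinearMap.trace ℝ E (fderiv ℝ Z (Φ t z)).toLinearMap) t := by
    have h5 : HasDerivAt (fun s => (Y s (Φ t z)).det)
      (LinearMap.trace ℝ E (fderiv ℝ Z (Φ t z)).toLinearMap) (t - t) := by
      rw [sub_self]
      exact h3
    exact h5.comp_sub_const t t
  have h5 := h4.mul_const ((Y t z).det)
  have h6 : (fun s => (Y s z).det) = fun s => (Y (s - t) (Φ t z)).det * (Y t z).det := by
    funext s
    exact hdet s
  rw [h6]
  exact h5

private theorem opres_const {E : Type*} [NormedAddCommGroup E] [NormedSpace ℝ E]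
    [FiniteDimensional ℝ E] {Z : E → E} (hZ : ContDiff ℝ 1 Z) {Φ : ℝ → E → E} (hΦ : IsFlow Z Φ)
    {Y : ℝ → E → (E →L[ℝ] E)} (hY : ∀ t z, HasFDerivAt (Φ t) (Y t z) z)
    (hY0 : ∀ z, Y 0 z = ContinuousLinearMap.id ℝ E)
    (hYd : ∀ z t, HasDerivAt (fun s => Y s z) ((fderiv ℝ Z (Φ t z)).comp (Y t z)) t)
    {ρ : E → ℝ} (hρ : ContDiff ℝ 1 ρ)
    (hdiv : ∀ z, fderiv ℝ ρ z (Z z) + ρ z * LinearMap.trace ℝ E (fderiv ℝ Z z).toLinearMap = 0)
    (z : E) (t : ℝ) : ρ (Φ t z) * (Y t z).det = ρ z := by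
  have h1 : ∀ s, HasDerivAt (fun s => ρ (Φ s z) * (Y s z).det) 0 s := by
    intro s
    have h2 : HasDerivAt (fun s => ρ (Φ s z)) (fderiv ℝ ρ (Φ s z) (Z (Φ s z))) s :=
      ((hρ.differentiable one_ne_zero _).hasFDerivAt).comp_hasDerivAt s (hΦ.2 z s)
    have h3 := h2.mul (opres_det hZ hΦ hY hY0 hYd z s)
    have h4 : fderiv ℝ ρ (Φ s z) (Z (Φ s z)) * (Y s z).det +
        ρ (Φ s z) * (LinearMap.trace ℝ E (fderiv ℝ Z (Φ s z)).toLinearMap * (Y s z).det) = 0 := by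
      have h5 := hdiv (Φ s z)
      calc _ = (fderiv ℝ ρ (Φ s z) (Z (Φ s z)) + ρ (Φ s z) *
          LinearMap.trace ℝ E (fderiv ℝ Z (Φ s z)).toLinearMap) * (Y s z).det := by ring
        _ = 0 := by rw [h5, zero_mul]
    rw [← h4]
    exact h3
  have h2 := is_const_of_deriv_eq_zero (fun s => (h1 s).differentiableAt)
    (fun s => (h1 s).deriv) t 0
  have h2' : ρ (Φ t z) * (Y t z).det = ρ (Φ 0 z) * (Y 0 z).det := h2
  rw [h2', hY0, hΦ.1 z]
  have h3 : (ContinuousLinearMap.id ℝ E).det = 1 := by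
    change LinearMap.det (ContinuousLinearMap.id ℝ E).toLinearMap = 1
    exact LinearMap.det_id
  rw [h3, mul_one]

theorem flow_pres {E : Type*} [NormedAddCommGroup E] [NormedSpace ℝ E] [FiniteDimensional ℝ E]
    [MeasurableSpace E] [BorelSpace E] (ν : Measure E) [ν.IsAddHaarMeasure] {Z : E → E}
    (hZ : ContDiff ℝ ∞ Z) {Φ : ℝ → E → E} (hΦ : IsFlow Z Φ) (ρ : E → ℝ) (hρ : ContDiff ℝ 1 ρ)
    (hρ0 : ∀ z, 0 < ρ z)
    (hdiv : ∀ z, fderiv ℝ ρ z (Z z) + ρ z * LinearMap.trace ℝ E (fderiv ℝ Z z).toLinearMap = 0)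
    (t : ℝ) : MeasurePreserving (Φ t) (ν.withDensity fun z => ENNReal.ofReal (ρ z))
      (ν.withDensity fun z => ENNReal.ofReal (ρ z)) := by
  have hZ1 : ContDiff ℝ 1 Z := hZ.of_le (by exact_mod_cast (le_top : (1 : ℕ∞) ≤ ⊤))
  have hZ2 : ContDiff ℝ 2 Z := hZ.of_le (WithTop.coe_le_coe.2 (le_top : (2 : ℕ∞) ≤ ⊤))
  obtain ⟨Y, hYc, hY, hY0, hYd⟩ := flow_c1 hZ2 hΦ
  have hcont : Continuous (Φ t) :=
    continuous_iff_continuousAt.2 fun z => (hY t z).continuousAt
  have hmeas : Measurable (Φ t) := hcont.measurable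
  refine ⟨hmeas, ?_⟩
  ext s hs
  rw [Measure.map_apply hmeas hs, withDensity_apply _ (hmeas hs), withDensity_apply _ hs]
  have himg : Φ t '' (Φ t ⁻¹' s) = s := by
    apply Set.image_preimage_eq
    intro w
    refine ⟨Φ (-t) w, ?_⟩
    have h1 := flow_neg hZ1 hΦ (-t) w
    rwa [neg_neg] at h1
  have hinj : InjOn (Φ t) (Φ t ⁻¹' s) := by
    intro a _ b _ hab
    rw [← flow_neg hZ1 hΦ t a, hab, flow_neg hZ1 hΦ t b]
  have h1 := lintegral_image_eq_lintegral_abs_det_fderiv_mul ν (hmeas hs)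
    (fun z _ => (hY t z).hasFDerivWithinAt) hinj (fun z => ENNReal.ofReal (ρ z))
  rw [himg] at h1
  rw [h1]
  refine lintegral_congr fun z => ?_
  have h2 := opres_const hZ1 hΦ hY hY0 hYd hρ hdiv z t
  have h3 : 0 < (Y t z).det := by
    have h4 : 0 < ρ (Φ t z) * (Y t z).det := by
      rw [h2]
      exact hρ0 z
    exact (pos_iff_pos_of_mul_pos h4).1 (hρ0 _)
  rw [← ENNReal.ofReal_mul (abs_nonneg _), abs_of_pos h3, mul_comm, h2]

end

end Pool.Agent.Work.MP_275abe_gt
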