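import Pool.Agent.Work.MP_275abe_gt.MetB
import Pool.Agent.Work.MP_275abe_gt.OPres

/-!
The geodesic flow preserves the measure det g dx dξ: flow_pres with ρ (x, ξ) = dt G x. The derivative of the spray at
(x, ξ) is (u, w) -> (w, -(D_u Γ)(ξ, ξ) - 2 Γ(ξ, w)), with trace -2 Σ_k Σ_i Γ^k_{k i} ξ_i (trace over the product with the
basis of coordinate vectors); the derivative of ρ along the spray is 2 dt Σ Γ^k_{k i} ξ_i (dt_deriv).
-/

namespace Pool.Agent.Work.MP_275abe_gt

open MeasureTheory Set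
open scoped ContDiff

noncomputable section

theorem triple_smooth : ContDiff ℝ ∞ (fun v : Pt × Pt => ((v.1, v.2, v.2) : Pt × Pt × Pt)) := by
  fun_prop

theorem quad_smooth (G : Met) : ContDiff ℝ ∞ (fun v : Pt × Pt => cV G v.1 v.2 v.2) :=
  ContDiff.comp (g := fun y : Pt × Pt × Pt => cV G y.1 y.2.1 y.2.2)
    (f := fun v : Pt × Pt => ((v.1, v.2, v.2) : Pt × Pt × Pt)) (cV_smooth G) triple_smooth

theorem haar_pt : (volume : Measure Pt).IsAddHaarMeasure := by
  infer_instance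

theorem haar_ptpt : (volume : Measure (Pt × Pt)).IsAddHaarMeasure := by
  rw [Measure.volume_eq_prod]
  have := haar_pt
  exact Measure.prod.instIsAddHaarMeasure _ _

/-- The derivative of the quadratic part of the spray in the direction of a tangent vector. -/
theorem fderiv_quad (G : Met) (z : Pt × Pt) (w : Pt) :
    fderiv ℝ (fun v : Pt × Pt => cV G v.1 v.2 v.2) z (0, w) = (2 : ℝ) • cV G z.1 w z.2 := by
  have hs := quad_smooth G
  have h1 : HasFDerivAt (fun v : Pt × Pt => cV G v.1 v.2 v.2)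
      (fderiv ℝ (fun v : Pt × Pt => cV G v.1 v.2 v.2) z) z :=
    (hs.differentiable (by norm_num) _).hasFDerivAt
  have h2 : HasDerivAt (fun s : ℝ => z + s • ((0, w) : Pt × Pt)) (0, w) 0 := by
    have := ((hasDerivAt_id (0 : ℝ)).smul_const ((0, w) : Pt × Pt)).const_add z
    simpa using this
  have h1' : HasFDerivAt (fun v : Pt × Pt => cV G v.1 v.2 v.2)
      (fderiv ℝ (fun v : Pt × Pt => cV G v.1 v.2 v.2) z) (z + (0 : ℝ) • ((0, w) : Pt × Pt)) := by
    simpa using h1
  have h3 := h1'.comp_hasDerivAt (0 : ℝ) h2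
  have h4 : ((fun v : Pt × Pt => cV G v.1 v.2 v.2) ∘ fun s : ℝ => z + s • ((0, w) : Pt × Pt)) =
      fun s : ℝ => cV G z.1 z.2 z.2 + s • ((2 : ℝ) • cV G z.1 w z.2) + (s * s) • cV G z.1 w w := by
    funext s
    simp only [Function.comp_apply, Prod.fst_add, Prod.smul_mk, smul_zero, add_zero, Prod.snd_add]
    rw [cV_add, cV_smul, cV_symm G z.1 z.2 (z.2 + s • w), cV_symm G z.1 w (z.2 + s • w), cV_add,
      cV_smul, cV_add, cV_smul, cV_symm G z.1 z.2 w]
    module
  rw [h4] at h3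
  have h5 : HasDerivAt (fun s : ℝ => cV G z.1 z.2 z.2 + s • ((2 : ℝ) • cV G z.1 w z.2) +
      (s * s) • cV G z.1 w w) ((2 : ℝ) • cV G z.1 w z.2) 0 := by
    have a := ((hasDerivAt_id (0 : ℝ)).smul_const ((2 : ℝ) • cV G z.1 w z.2)).const_add
      (cV G z.1 z.2 z.2)
    have b := ((hasDerivAt_id (0 : ℝ)).mul (hasDerivAt_id (0 : ℝ))).smul_const (cV G z.1 w w)
    have := a.fun_add b
    simpa using this
  exact h3.unique h5

theorem mu_pres (G : Met) {φ : ℝ → Pt × Pt → Pt × Pt} (hφ : IsFlow (spray G) φ) (t : ℝ) :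
    MeasurePreserving (φ t) (mu G) (mu G) := by
  have := haar_ptpt
  refine flow_pres (volume : Measure (Pt × Pt)) (spray_smooth G) hφ (fun v => dt G v.1)
    (((dt_smooth G).comp contDiff_fst).of_le (by norm_num)) (fun z => dt_pos G z.1) ?_ t
  intro z
  have h1 : fderiv ℝ (fun v : Pt × Pt => dt G v.1) z (spray G z) =
      2 * dt G z.1 * ∑ k, ∑ i, chr G k k i z.1 * z.2 i := by
    have hd : HasFDerivAt (dt G) (fderiv ℝ (dt G) z.1) z.1 :=
      ((dt_smooth G).differentiable (by norm_num) _).hasFDerivAt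
    have hc := hd.comp z (hasFDerivAt_fst (𝕜 := ℝ) (E := Pt) (F := Pt) (p := z))
    have he : fderiv ℝ (fun v : Pt × Pt => dt G v.1) z = _ := hc.fderiv
    rw [he, ← dt_deriv]
    rfl
  have h2 : LinearMap.trace ℝ (Pt × Pt) (fderiv ℝ (spray G) z).toLinearMap =
      -2 * ∑ k, ∑ i, chr G k k i z.1 * z.2 i := by
    have hs := quad_smooth G
    have hf : HasFDerivAt (spray G) ((ContinuousLinearMap.snd ℝ Pt Pt).prod
        (-(fderiv ℝ (fun v : Pt × Pt => cV G v.1 v.2 v.2) z))) z :=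
      hasFDerivAt_snd.prodMk ((hs.differentiable (by norm_num) z).hasFDerivAt.neg)
    rw [hf.fderiv, LinearMap.trace_eq_matrix_trace ℝ
      ((Pi.basisFun ℝ (Fin 2)).prod (Pi.basisFun ℝ (Fin 2)))]
    simp only [Matrix.trace, Matrix.diag, LinearMap.toMatrix_apply, Fintype.sum_sum_type]
    have e : ∀ i : Fin 2, (fderiv ℝ (fun v : Pt × Pt => cV G v.1 v.2 v.2) z) (0, Pi.single i 1) =
        (2 : ℝ) • cV G z.1 (Pi.single i 1) z.2 := fun i => fderiv_quad G z _
    simp [e, cV, Pi.single_apply, Fin.sum_univ_two]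
    ring
  rw [h1, h2]
  ring

end

end Pool.Agent.Work.MP_275abe_gt
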