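import Pool.Agent.Work.MP_275abe_gt.InvK
import Pool.Agent.Work.MP_275abe_gt.LiftF
import Pool.Agent.Work.MP_275abe_gt.FeA

/-!
Every point is at distance at most D of a point where curv <= -κ₀. Let curv G z₀ = -κ₀ < 0 and C the compact set of
cocompact; the straight segment from p in C to z₀ has metric length at most D (continuity, compactness). For general p apply
f⁻¹, f p in C (lengths and the curvature are invariant, curv_act). So for every v with v.2 ≠ 0 there is a C^1 curve c with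
c(0) = v.1, curv (c 1) = -κ₀ and ∫₀¹ nm (c s) (c' s) ds <= D (extend the segment to all s in R). lift_fm (with θ from
exists_dir, curv_eq for K <= 0) gives (T, H)(1) with |T(1)| <= D, |H(1)| <= D. fe_eq.
-/

namespace Pool.Agent.Work.MP_275abe_gt

open MeasureTheory Set
open scoped ContDiff

noncomputable section

theorem obst {G : Met} {Γ : Subgroup (Equiv.Perm Pt)} (hΓ : IsClosedSurf G Γ)
    {φ : ℝ → Pt × Pt → Pt × Pt} (hφ : IsFlow (spray G) φ) (hK : ∀ x, curv G x ≤ 0)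
    (hneg : ∃ x, curv G x < 0) :
    ∃ κ₀ D : ℝ, 0 < κ₀ ∧ 1 ≤ D ∧ ∀ v : Pt × Pt, v.2 ≠ 0 →
      ∃ t h, |t| ≤ D ∧ |h| ≤ D ∧ κ₀ ≤ kap G φ v t h := by
  obtain ⟨z₀, hz₀⟩ := hneg
  obtain ⟨C, hC, hCf⟩ := hΓ.cocompact
  obtain ⟨ψ, hψ⟩ := exists_psi G hφ
  -- the bound on the length
  have hcont : Continuous fun y : Pt × ℝ => (frOf G).nm (y.1 + y.2 • (z₀ - y.1)) (z₀ - y.1) :=
    (frOf G).nm_cont.comp (by fun_prop : Continuous fun y : Pt × ℝ =>
      ((y.1 + y.2 • (z₀ - y.1), z₀ - y.1) : Pt × Pt))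
  obtain ⟨D0, hD0⟩ := (hC.prod (isCompact_Icc (a := (0 : ℝ)) (b := 1))).exists_bound_of_continuousOn
    hcont.continuousOn
  refine ⟨-curv G z₀, max D0 1, by linarith, le_max_right _ _, fun v hv => ?_⟩
  obtain ⟨θ, hθ⟩ := exists_dir G v
  have hsp := sp_pos G v hv
  obtain ⟨f, hf, hfC⟩ := hCf v.1
  have hg : f⁻¹ ∈ Γ := Γ.inv_mem hf
  have hgsm : ContDiff ℝ ∞ (f⁻¹ : Equiv.Perm Pt) := hΓ.smooth _ hg
  have hgd : Differentiable ℝ (f⁻¹ : Equiv.Perm Pt) := hgsm.differentiable (by simp)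
  set p : Pt := f v.1 with hp
  set c : ℝ → Pt := fun s => (f⁻¹ : Equiv.Perm Pt) (p + s • (z₀ - p)) with hc
  set c' : ℝ → Pt := fun s => fderiv ℝ (f⁻¹ : Equiv.Perm Pt) (p + s • (z₀ - p)) (z₀ - p) with hc'
  have hcd : ∀ s, HasDerivAt c (c' s) s := by
    intro s
    have h1 : HasDerivAt (fun s : ℝ => p + s • (z₀ - p)) (z₀ - p) s := by
      simpa using ((hasDerivAt_id s).smul_const (z₀ - p)).const_add p
    exact (hgd _).hasFDerivAt.comp_hasDerivAt s h1
  have hc'c : Continuous c' := by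
    have h1 : Continuous (fderiv ℝ (f⁻¹ : Equiv.Perm Pt)) := hgsm.continuous_fderiv (by simp)
    exact (h1.comp (by fun_prop : Continuous fun s : ℝ => p + s • (z₀ - p))).clm_apply
      continuous_const
  have hnm : ∀ s, (frOf G).nm (c s) (c' s) = (frOf G).nm (p + s • (z₀ - p)) (z₀ - p) := by
    intro s
    rw [nm_frOf, nm_frOf, hΓ.isom _ hg]
  have hnmD : ∀ s ∈ Icc (0 : ℝ) 1, (frOf G).nm (c s) (c' s) ≤ max D0 1 := by
    intro s hs
    rw [hnm]
    exact (le_abs_self _).trans ((hD0 (p, s) ⟨hfC, hs⟩).trans (le_max_left _ _))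
  have hc0 : c 0 = v.1 := by
    simp only [hc, hp, zero_smul, add_zero]
    exact Equiv.symm_apply_apply f v.1
  have hc1 : curv G (c 1) = curv G z₀ := by
    have : c 1 = (f⁻¹ : Equiv.Perm Pt) z₀ := by
      simp only [hc, one_smul, add_sub_cancel]
    rw [this]
    exact curv_act hΓ hφ _ hg z₀
  have hfm0 : (fm ψ (v.1, θ) 0 0).1 = c 0 := by
    rw [hc0]
    simp [fm, hψ.1]
  obtain ⟨T, H, T', H', hT0, hH0, hT, hH, hTH⟩ := lift_fm (frOf G) hψ
    (fun x => by rw [← curv_eq]; exact hK x) (v.1, θ) c c' hcd hc'c 0 0 hfm0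
  have hb : ∀ (U U' : ℝ → ℝ), U 0 = 0 → (∀ s, HasDerivAt U (U' s) s) →
      (∀ s ∈ Icc (0 : ℝ) 1, |U' s| ≤ max D0 1) → |U 1| ≤ max D0 1 := by
    intro U U' h0 hU hU'
    have h1 := norm_image_sub_le_of_norm_deriv_le_segment_01' (f := U) (f' := U')
      (C := max D0 1) (fun x _ => (hU x).hasDerivWithinAt) (fun x hx => hU' x ⟨hx.1, hx.2.le⟩)
    rw [h0, sub_zero] at h1
    exact h1
  refine ⟨T 1, H 1, hb T T' hT0 hT fun s hs => ((hTH s).2.1).trans (hnmD s hs),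
    hb H H' hH0 hH fun s hs => ((hTH s).2.2).trans (hnmD s hs), ?_⟩
  have hv' : v = (v.1, sp G v • unitVec G v.1 θ) := Prod.ext rfl hθ
  have hfe : fe G φ v (T 1) (H 1) = c 1 := by
    rw [← (hTH 1).1]
    conv_lhs => rw [hv']
    exact fe_eq G hφ hψ v.1 θ (sp G v) hsp (T 1) (H 1)
  rw [kap, hfe, hc1, abs_of_neg hz₀]

end

end Pool.Agent.Work.MP_275abe_gt
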