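import Pool.Agent.Work.MP_275abe_gt.RotA
import Pool.Agent.Work.MP_275abe_gt.FibP

/-!
Rotation preserves det g dx dξ: fib_pres with f = id and A_x = cos α id + sin α J_x, J_x = jj G x as a linear map, of
determinant 1 (in the basis a, b it is the rotation matrix, J a = b, J b = -a).
-/

namespace Pool.Agent.Work.MP_275abe_gt

open MeasureTheory Set
open scoped ContDiff

noncomputable section

/-- the left turn in coordinates. -/
private theorem rotp_jj (G : Met) (x u : Pt) :
    jj G x u 0 = (-G.g 0 1 x * u 0 - G.g 1 1 x * u 1) / √(dt G x) ∧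
      jj G x u 1 = (G.g 0 0 x * u 0 + G.g 0 1 x * u 1) / √(dt G x) := by
  have ha := g00_pos G x
  have hD := dt_pos G x
  have hs := G.symm 1 0 x
  have hD2 : dt G x = G.g 0 0 x * G.g 1 1 x - G.g 0 1 x * G.g 0 1 x := by
    unfold dt
    rw [hs]
  obtain ⟨a, ha0, ha2⟩ : ∃ a : ℝ, 0 < a ∧ G.g 0 0 x = a ^ 2 :=
    ⟨√(G.g 0 0 x), Real.sqrt_pos.2 ha, (Real.sq_sqrt ha.le).symm⟩
  obtain ⟨d, hd0, hd2⟩ : ∃ d : ℝ, 0 < d ∧ dt G x = d ^ 2 :=
    ⟨√(dt G x), Real.sqrt_pos.2 hD, (Real.sq_sqrt hD.le).symm⟩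
  have e1 : √(G.g 0 0 x) = a := by rw [ha2, Real.sqrt_sq ha0.le]
  have e2 : √(dt G x) = d := by rw [hd2, Real.sqrt_sq hd0.le]
  have e3 : √(G.g 0 0 x * dt G x) = a * d := by
    rw [ha2, hd2, ← mul_pow, Real.sqrt_sq (mul_pos ha0 hd0).le]
  have e4 : d ^ 2 = a ^ 2 * G.g 1 1 x - G.g 0 1 x * G.g 0 1 x := by
    rw [← hd2, ← ha2, hD2]
  have f1 : ip G x u (fa G x) = (a ^ 2 * u 0 + G.g 0 1 x * u 1) / a := by
    simp only [ip, fa, Fin.sum_univ_two, Matrix.cons_val_zero, Matrix.cons_val_one, e1, hs]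
    rw [ha2]
    field_simp
    ring
  have f2 : ip G x u (fb G x) = u 1 * d / a := by
    simp only [ip, fb, Fin.sum_univ_two, Matrix.cons_val_zero, Matrix.cons_val_one, e3, hs]
    rw [ha2]
    field_simp
    linear_combination (-u 1) * e4
  have f3 : fa G x 0 = 1 / a ∧ fa G x 1 = 0 := by
    simp only [fa, Matrix.cons_val_zero, Matrix.cons_val_one, e1, and_self]
  have f4 : fb G x 0 = -G.g 0 1 x / (a * d) ∧ fb G x 1 = a / d := by
    simp only [fb, Matrix.cons_val_zero, Matrix.cons_val_one, e3, true_and]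
    rw [ha2]
    field_simp
  rw [e2]
  constructor
  · simp only [jj, Pi.sub_apply, Pi.smul_apply, smul_eq_mul, f1, f2, f3.1, f4.1]
    field_simp
    linear_combination (-u 1) * e4
  · simp only [jj, Pi.sub_apply, Pi.smul_apply, smul_eq_mul, f1, f2, f3.2, f4.2, ha2]
    field_simp
    ring

/-- the matrix of the rotation. -/
private def rotp_M (G : Met) (α : ℝ) (x : Pt) : Matrix (Fin 2) (Fin 2) ℝ :=
  !![Real.cos α - Real.sin α * (G.g 0 1 x / √(dt G x)), -(Real.sin α * (G.g 1 1 x / √(dt G x)));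
    Real.sin α * (G.g 0 0 x / √(dt G x)), Real.cos α + Real.sin α * (G.g 0 1 x / √(dt G x))]

private theorem rotp_det (G : Met) (α : ℝ) (x : Pt) : (rotp_M G α x).det = 1 := by
  have hD := dt_pos G x
  have hd0 : 0 < √(dt G x) := Real.sqrt_pos.2 hD
  have hd2 : √(dt G x) ^ 2 = dt G x := Real.sq_sqrt hD.le
  have hD2 : dt G x = G.g 0 0 x * G.g 1 1 x - G.g 0 1 x * G.g 0 1 x := by
    unfold dt
    rw [G.symm 1 0 x]
  have hd3 := hd2.trans hD2
  rw [rotp_M, Matrix.det_fin_two_of]
  field_simp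
  have h := Real.sin_sq_add_cos_sq α
  linear_combination (√(dt G x)) ^ 2 * h - Real.sin α ^ 2 * hd3

private theorem rotp_cont (G : Met) (α : ℝ) : Continuous fun x =>
    LinearMap.toContinuousLinearMap (Matrix.toLin' (rotp_M G α x)) := by
  have h1 : Continuous ((LinearMap.toContinuousLinearMap (𝕜 := ℝ) (E := Pt) (F' := Pt)).toLinearMap ∘ₗ
      (Matrix.toLin' (R := ℝ) (m := Fin 2) (n := Fin 2)).toLinearMap) :=
    LinearMap.continuous_of_finiteDimensional _
  have hg : ∀ i j, Continuous (G.g i j) := fun i j => (G.smooth i j).continuous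
  have hd : Continuous fun x => √(dt G x) := (dt_smooth G).continuous.sqrt
  have hd0 : ∀ x, √(dt G x) ≠ 0 := fun x => (Real.sqrt_pos.2 (dt_pos G x)).ne'
  have h2 : Continuous (rotp_M G α) := by
    refine continuous_matrix fun i j => ?_
    fin_cases i <;> fin_cases j
    · exact continuous_const.sub (continuous_const.mul ((hg 0 1).div hd hd0))
    · exact (continuous_const.mul ((hg 1 1).div hd hd0)).neg
    · exact continuous_const.mul ((hg 0 0).div hd hd0)
    · exact continuous_const.add (continuous_const.mul ((hg 0 1).div hd hd0))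
  exact h1.comp h2

theorem rot_pres (G : Met) (α : ℝ) : MeasurePreserving (rot G α) (mu G) (mu G) := by
  have h := fib_pres (f := id) contDiff_id Function.bijective_id
    (fun x => LinearMap.toContinuousLinearMap (Matrix.toLin' (rotp_M G α x))) (rotp_cont G α)
    (dt G) (dt_smooth G).continuous (dt_pos G) (by
      intro x
      have e1 : (fderiv ℝ (id : Pt → Pt) x).det = 1 := by
        rw [fderiv_id]
        simp [ContinuousLinearMap.det]
      have e2 : (LinearMap.toContinuousLinearMap (Matrix.toLin' (rotp_M G α x))).det = 1 := by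
        rw [ContinuousLinearMap.det]
        simp only [LinearMap.coe_toContinuousLinearMap, LinearMap.det_toLin', rotp_det]
      rw [e1, e2]
      simp)
  have h2 : (fun v : Pt × Pt => (id v.1,
      (LinearMap.toContinuousLinearMap (Matrix.toLin' (rotp_M G α v.1))) v.2)) = rot G α := by
    funext v
    obtain ⟨j0, j1⟩ := rotp_jj G v.1 v.2
    refine Prod.ext rfl (funext fun i => ?_)
    simp only [rot, LinearMap.coe_toContinuousLinearMap', Matrix.toLin'_apply, Pi.add_apply,
      Pi.smul_apply, smul_eq_mul]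
    fin_cases i
    · simp only [rotp_M, Fin.zero_eta, Matrix.mulVec, dotProduct, Fin.sum_univ_two, Matrix.of_apply,
        Matrix.cons_val_zero, Matrix.cons_val_one, Matrix.cons_val', j0]
      ring
    · simp only [rotp_M, Fin.mk_one, Matrix.mulVec, dotProduct, Fin.sum_univ_two, Matrix.of_apply,
        Matrix.cons_val_zero, Matrix.cons_val_one, Matrix.cons_val', j1]
      ring
  rw [h2] at h
  exact h

end

end Pool.Agent.Work.MP_275abe_gt
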