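import Pool.Agent.Work.MP_275abe_gt.QuoA
import Pool.Agent.Work.MP_275abe_gt.RotP

/-!
Continuity of the rotation in measure. For a Borel set B of finite mu-measure, mu (B ∩ (rot b)⁻¹ B) -> mu B as b -> 0: take K
compact inside B inside U open with mu (U \ K) < ε; for small b rot b maps K into U (rot_cont, compactness), and rot b
preserves mu, so mu {v ∈ K | rot b v ∉ K} <= mu (U \ K) < ε. Apply it to B = A ∩ shell ∩ {v | v.1 ∈ D}; rot does not move
the base point nor the speed.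
-/

namespace Pool.Agent.Work.MP_275abe_gt

open MeasureTheory Set
open scoped ContDiff ENNReal

noncomputable section

private theorem rotc_lf (G : Met) : IsLocallyFiniteMeasure (mu G) :=
  IsLocallyFiniteMeasure.withDensity_ofReal ((dt_smooth G).continuous.comp continuous_fst)

private theorem rotc_tendsto (G : Met) {B : Set (Pt × Pt)} (hB : MeasurableSet B)
    (hfin : mu G B ≠ ⊤) :
    Filter.Tendsto (fun b => mu G (B ∩ rot G b ⁻¹' B)) (nhds 0) (nhds (mu G B)) := by
  have hlf := rotc_lf G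
  rw [ENNReal.tendsto_nhds hfin]
  intro ε hε
  have hε2 : ε / 2 ≠ 0 := (ENNReal.half_pos hε.ne').ne'
  obtain ⟨K, hKB, hK, hKd⟩ := hB.exists_isCompact_sdiff_lt hfin hε2
  obtain ⟨U, hBU, hU, -, hUd⟩ := hB.exists_isOpen_sdiff_lt hfin hε2
  have hev : ∀ᶠ b in nhds (0 : ℝ), ∀ v ∈ K, rot G b v ∈ U := by
    refine hK.eventually_forall_of_forall_eventually fun v hv => ?_
    have h1 : ContinuousAt (fun y : ℝ × (Pt × Pt) => rot G y.1 y.2) (0, v) :=
      (rot_cont G).continuousAt
    refine h1.eventually_mem (hU.mem_nhds ?_)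
    change rot G 0 v ∈ U
    rw [rot_zero]
    exact hBU (hKB hv)
  filter_upwards [hev] with b hb
  refine ⟨?_, ?_⟩
  · rw [tsub_le_iff_right]
    have hsub : B ⊆ (B ∩ rot G b ⁻¹' B) ∪ ((B \ K) ∪ rot G b ⁻¹' (U \ B)) := by
      intro v hv
      by_cases h1 : rot G b v ∈ B
      · exact Or.inl ⟨hv, h1⟩
      · by_cases h2 : v ∈ K
        · exact Or.inr (Or.inr ⟨hb v h2, h1⟩)
        · exact Or.inr (Or.inl ⟨hv, h2⟩)
    calc mu G B ≤ mu G ((B ∩ rot G b ⁻¹' B) ∪ ((B \ K) ∪ rot G b ⁻¹' (U \ B))) :=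
          measure_mono hsub
      _ ≤ mu G (B ∩ rot G b ⁻¹' B) + (mu G (B \ K) + mu G (rot G b ⁻¹' (U \ B))) :=
          (measure_union_le _ _).trans (add_le_add le_rfl (measure_union_le _ _))
      _ ≤ mu G (B ∩ rot G b ⁻¹' B) + (ε / 2 + ε / 2) := by
          rw [(rot_pres G b).measure_preimage (hU.measurableSet.diff hB).nullMeasurableSet]
          exact add_le_add le_rfl (add_le_add hKd.le hUd.le)
      _ = mu G (B ∩ rot G b ⁻¹' B) + ε := by rw [ENNReal.add_halves]
  · exact (measure_mono inter_subset_left).trans le_self_add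

theorem rot_tendsto {G : Met} {Γ : Subgroup (Equiv.Perm Pt)} (hΓ : IsClosedSurf G Γ) {D : Set Pt}
    (hD : IsFD Γ D) {A : Set (Pt × Pt)} (hA : MeasurableSet[invMS Γ] A) :
    Filter.Tendsto (fun b => qMu G Γ D (A ∩ rot G b ⁻¹' A)) (nhds 0) (nhds (qMu G Γ D A)) := by
  have hDm : MeasurableSet {v : Pt × Pt | v.1 ∈ D} := measurable_fst hD.1
  have hSm : MeasurableSet (shell G) :=
    ((sp_cont G).measurable measurableSet_Ici).inter ((sp_cont G).measurable measurableSet_Iio)
  have hrc : ∀ b, Continuous (rot G b) := fun b =>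
    (rot_cont G).comp (Continuous.prodMk_right b)
  have hri : ∀ b, MeasurableSet[invMS Γ] (rot G b ⁻¹' A) := by
    intro b
    refine ⟨(hrc b).measurable hA.1, fun f hf => ?_⟩
    ext v
    rw [mem_preimage, mem_preimage, rot_act hΓ f hf b v, mem_preimage,
      ← mem_preimage (f := act f), hA.2 f hf]
  have hfin : mu G (A ∩ (shell G ∩ {v : Pt × Pt | v.1 ∈ D})) ≠ ⊤ := by
    have h1 := (qMu_fin hΓ hD).measure_univ_lt_top
    rw [qMu_apply D MeasurableSet.univ, Measure.restrict_apply_univ] at h1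
    exact ((measure_mono inter_subset_right).trans_lt h1).ne
  have h2 := rotc_tendsto G (hA.1.inter (hSm.inter hDm)) hfin
  have e1 : qMu G Γ D A = mu G (A ∩ (shell G ∩ {v : Pt × Pt | v.1 ∈ D})) := by
    rw [qMu_apply D hA, Measure.restrict_apply hA.1]
  have e2 : (fun b => qMu G Γ D (A ∩ rot G b ⁻¹' A)) = fun b =>
      mu G ((A ∩ (shell G ∩ {v : Pt × Pt | v.1 ∈ D})) ∩
        rot G b ⁻¹' (A ∩ (shell G ∩ {v : Pt × Pt | v.1 ∈ D}))) := by
    funext b
    have h3 : MeasurableSet[invMS Γ] (A ∩ rot G b ⁻¹' A) :=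
      @MeasurableSet.inter _ (invMS Γ) _ _ hA (hri b)
    rw [qMu_apply D h3, Measure.restrict_apply h3.1]
    congr 1
    ext v
    have h4 : rot G b v ∈ shell G ↔ v ∈ shell G := by
      simp only [shell, mem_ofPred_eq, sp_rot]
    have h5 : rot G b v ∈ {v : Pt × Pt | v.1 ∈ D} ↔ v ∈ {v : Pt × Pt | v.1 ∈ D} := Iff.rfl
    simp only [mem_inter_iff, mem_preimage, h4, h5]
    tauto
  rw [e1, e2]
  exact h2

end

end Pool.Agent.Work.MP_275abe_gt
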