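import Pool.Agent.Work.MP_275abe_gt.TayM
import Pool.Agent.Work.MP_275abe_gt.RotC
import Pool.Agent.Work.MP_275abe_gt.Obst
import Pool.Agent.Work.MP_275abe_gt.KapM
import Pool.Agent.Work.MP_275abe_gt.FeT
import Pool.Agent.Work.MP_275abe_gt.MuP
import Pool.Agent.Work.MP_275abe_gt.CFin

/-!
The hypotheses of Core for A = flatVec ∩ shell, field by field; κm: kap_meas. φp, Rp: qMu_pres with mu_pres, rot_pres, phi_act, rot_act, sp_flow, sp_rot.
-/

namespace Pool.Agent.Work.MP_275abe_gt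

open MeasureTheory Set
open scoped ContDiff

noncomputable section

theorem mh_ne {G : Met} {v : Pt × Pt} (hv : v ∈ shell G) : v.2 ≠ 0 := by
  intro h
  have h1 : 1 ≤ sp G v := hv.1
  have h2 : sp G v = 0 := by
    unfold sp ip
    simp [h]
  linarith

theorem mh_spray (G : Met) : ContDiff ℝ 1 (spray G) :=
  (spray_smooth G).of_le (by exact WithTop.coe_le_coe.2 le_top)

theorem mh_phi (G : Met) {φ : ℝ → Pt × Pt → Pt × Pt} (hφ : IsFlow (spray G) φ) (t : ℝ) :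
    Measurable (φ t) := by
  have h := flow_cont (mh_spray G) hφ
  exact (h.comp (Continuous.prodMk_right t)).measurable

theorem mh_rot (G : Met) (b : ℝ) : Measurable (rot G b) :=
  ((rot_cont G).comp (Continuous.prodMk_right b)).measurable

theorem main_hyp {G : Met} {Γ : Subgroup (Equiv.Perm Pt)} (hΓ : IsClosedSurf G Γ)
    {φ : ℝ → Pt × Pt → Pt × Pt} (hφ : IsFlow (spray G) φ) (hK : ∀ x, curv G x ≤ 0)
    (hneg : ∃ x, curv G x < 0) {D : Set Pt} (hD : IsFD Γ D) :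
    @CoreHyp (Pt × Pt) (invMS Γ) (qMu G Γ D) (flatVec G φ ∩ shell G) (sp G) (kap G φ) φ
      (rot G) := by
  have hZ := mh_spray G
  refine @CoreHyp.mk (Pt × Pt) (invMS Γ) _ _ _ _ _ _ (qMu_fin hΓ hD) (flat_meas hΓ hφ)
    (fun v hv => hv.2.1) (fun v hv => hv.2.2) (fun c => sp_meas hΓ hφ c)
    (fun v t h => abs_nonneg _) ?_ (fun L r τ => kap_meas hΓ hφ L r τ) ?_ ?_
    (fun t v _ => sp_flow G hφ t v) (fun u v hv t h => kap_flow G hφ u v (mh_ne hv.2) t h) ?_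
    (fun b v _ => sp_rot G b v) ?_ ?_ ?_ ?_ ?_
  · -- κc
    intro v hv
    have h := kap_cont G hφ
    have h2 : Continuous fun y : ℝ × ℝ => ((v, y) : (Pt × Pt) × (ℝ × ℝ)) := Continuous.prodMk_right v
    have h3 := h.comp h2.continuousOn (s := univ) (fun y _ => ⟨mh_ne hv.2, mem_univ _⟩)
    exact continuousOn_univ.1 h3
  · -- φp
    intro t
    exact qMu_pres hΓ hD (mh_phi G hφ t) (mh_phi G hφ (-t))
      (fun v => by rw [← flow_add hZ hφ, add_neg_cancel, hφ.1])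
      (fun v => flow_neg hZ hφ t v) (mu_pres G hφ t)
      (fun f hf v => phi_act hΓ hφ f hf t v) (fun v => sp_flow G hφ t v)
  · -- φA
    intro t v hv
    exact ⟨flatVec_flow G hφ t v hv.1, by
      show 1 ≤ sp G (φ t v) ∧ sp G (φ t v) < 2
      rw [sp_flow G hφ]
      exact hv.2⟩
  · -- Rp
    intro b
    exact qMu_pres hΓ hD (mh_rot G b) (mh_rot G (-b))
      (fun v => by rw [rot_rot, add_neg_cancel, rot_zero])
      (fun v => by rw [rot_rot, neg_add_cancel, rot_zero]) (rot_pres G b)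
      (fun f hf v => rot_act hΓ f hf b v) (fun v => sp_rot G b v)
  · -- RR
    intro b v
    rw [rot_rot, neg_add_cancel, rot_zero]
  · -- RA
    exact rot_tendsto hΓ hD (flat_meas hΓ hφ)
  · -- TL
    intro v hv σ b τ L w ε hσ hb hb1 hτ hL hw hε hε1 hbw hflat t₀ h₀ ht
    exact kap_TL G hφ hK v (mh_ne hv.2) σ b τ L w ε hσ hb hb1 hτ hL hw hε hε1 hbw hflat t₀ h₀ ht
  · -- F1
    intro ε hε
    obtain ⟨n₀, hn₀⟩ := tay hΓ hφ ε hε
    exact ⟨n₀, fun n hn v hv t h hh => hn₀ n hn v hv.1 (mh_ne hv.2) t h hh⟩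
  · -- F2
    obtain ⟨κ₀, D', h1, h2, h3⟩ := obst hΓ hφ hK hneg
    exact ⟨κ₀, D', h1, h2, fun v hv => h3 v (mh_ne hv.2)⟩

theorem flatVec_null {G : Met} {Γ : Subgroup (Equiv.Perm Pt)} (hΓ : IsClosedSurf G Γ)
    {φ : ℝ → Pt × Pt → Pt × Pt} (hφ : IsFlow (spray G) φ) (hK : ∀ x, curv G x ≤ 0)
    (hneg : ∃ x, curv G x < 0) : mu G (flatVec G φ ∩ shell G) = 0 := by
  obtain ⟨D, hD⟩ := exists_fd hΓ
  have h := main_hyp hΓ hφ hK hneg hD
  have h2 := qMu_null hΓ hD (@CoreHyp.Am (Pt × Pt) (invMS Γ) _ _ _ _ _ _ h)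
    (@core (Pt × Pt) (invMS Γ) _ _ _ _ _ _ h)
  rwa [inter_assoc, inter_self] at h2

end

end Pool.Agent.Work.MP_275abe_gt
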