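import Pool.Agent.Work.MP_275abe_gt.Base

/-!
Basic facts about the metric: positivity, smoothness, symmetry, the inverse matrix.
gi is the inverse of a 2 x 2 matrix: entries g11/dt, -g01/dt, g00/dt (Matrix.inv_def, Matrix.adjugate_fin_two).
-/

namespace Pool.Agent.Work.MP_275abe_gt

open MeasureTheory Set
open scoped ContDiff

noncomputable section

theorem g00_pos (G : Met) (x : Pt) : 0 < G.g 0 0 x := by
  have h := G.pos x ![1, 0] (fun h => by
    have := congrFun h 0
    simp at this)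
  simpa [Fin.sum_univ_two] using h

theorem dt_pos (G : Met) (x : Pt) : 0 < dt G x := by
  have h0 := g00_pos G x
  have hs := G.symm 0 1 x
  have h := G.pos x ![-G.g 0 1 x, G.g 0 0 x] (fun h => by
    have := congrFun h 1
    simp at this
    exact h0.ne' this)
  simp only [Fin.sum_univ_two, Matrix.cons_val_zero, Matrix.cons_val_one] at h
  rw [← hs] at h
  unfold dt
  rw [← hs]
  have h2 : 0 < G.g 0 0 x * (G.g 0 0 x * G.g 1 1 x - G.g 0 1 x * G.g 0 1 x) := by nlinarith
  exact (pos_iff_pos_of_mul_pos h2).1 h0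

theorem dt_smooth (G : Met) : ContDiff ℝ ∞ (dt G) := by
  have h00 := G.smooth 0 0
  have h11 := G.smooth 1 1
  have h01 := G.smooth 0 1
  have h10 := G.smooth 1 0
  exact (h00.mul h11).sub (h01.mul h10)

private theorem meta_gi (G : Met) (x : Pt) : gi G x =
    !![G.g 1 1 x / dt G x, -G.g 0 1 x / dt G x; -G.g 1 0 x / dt G x, G.g 0 0 x / dt G x] := by
  unfold gi
  have hd : (Matrix.of fun i j => G.g i j x : Matrix (Fin 2) (Fin 2) ℝ).det = dt G x := by
    rw [Matrix.det_fin_two]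
    rfl
  rw [Matrix.inv_def, hd, Matrix.adjugate_fin_two]
  ext i j
  fin_cases i <;> fin_cases j <;> simp [Ring.inverse_eq_inv', div_eq_inv_mul]

theorem gi_smooth (G : Met) (k l : Fin 2) : ContDiff ℝ ∞ fun x => gi G x k l := by
  have hd := dt_smooth G
  have hne : ∀ x, dt G x ≠ 0 := fun x => (dt_pos G x).ne'
  simp only [meta_gi]
  fin_cases k <;> fin_cases l
  · exact (G.smooth 1 1).div hd hne
  · exact (G.smooth 0 1).neg.div hd hne
  · exact (G.smooth 1 0).neg.div hd hne
  · exact (G.smooth 0 0).div hd hne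

theorem gi_mul (G : Met) (x : Pt) (k j : Fin 2) :
    ∑ l, gi G x k l * G.g l j x = if k = j then 1 else 0 := by
  have hne : dt G x ≠ 0 := (dt_pos G x).ne'
  have hdd : dt G x = G.g 0 0 x * G.g 1 1 x - G.g 0 1 x * G.g 1 0 x := rfl
  rw [meta_gi, Fin.sum_univ_two]
  fin_cases k <;> fin_cases j <;> simp <;> field_simp <;> (try rw [hdd]) <;> ring

theorem mul_gi (G : Met) (x : Pt) (k j : Fin 2) :
    ∑ l, G.g k l x * gi G x l j = if k = j then 1 else 0 := by
  have hne : dt G x ≠ 0 := (dt_pos G x).ne'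
  have hdd : dt G x = G.g 0 0 x * G.g 1 1 x - G.g 0 1 x * G.g 1 0 x := rfl
  rw [meta_gi, Fin.sum_univ_two]
  fin_cases k <;> fin_cases j <;> simp <;> field_simp <;> (try rw [hdd]) <;> ring

theorem gi_symm (G : Met) (x : Pt) (k j : Fin 2) : gi G x k j = gi G x j k := by
  have hs := G.symm 0 1 x
  rw [meta_gi]
  fin_cases k <;> fin_cases j <;> simp [hs]

theorem pd_smooth {f : Pt → ℝ} (hf : ContDiff ℝ ∞ f) (i : Fin 2) : ContDiff ℝ ∞ (pd i f) :=
  ((contDiff_infty_iff_fderiv.1 hf).2).clm_apply contDiff_const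

theorem fderiv_eq_pd (f : Pt → ℝ) (x u : Pt) : fderiv ℝ f x u = ∑ i, u i * pd i f x := by
  have h : u = ∑ i, u i • (Pi.single i (1 : ℝ) : Pt) := by
    funext j
    simp [Finset.sum_apply, Pi.single_apply]
  conv_lhs => rw [h]
  rw [map_sum]
  refine Finset.sum_congr rfl fun i _ => ?_
  rw [map_smul, smul_eq_mul]
  rfl

theorem chr_smooth (G : Met) (k i j : Fin 2) : ContDiff ℝ ∞ (chr G k i j) := by
  unfold chr
  refine contDiff_const.mul (ContDiff.sum fun l _ => (gi_smooth G k l).mul ?_)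
  exact ((pd_smooth (G.smooth j l) i).add (pd_smooth (G.smooth i l) j)).sub
    (pd_smooth (G.smooth i j) l)

theorem chr_symm (G : Met) (k i j : Fin 2) (x : Pt) : chr G k i j x = chr G k j i x := by
  unfold chr
  congr 1
  refine Finset.sum_congr rfl fun l _ => ?_
  have h : G.g i j = G.g j i := funext fun x => G.symm i j x
  rw [h]
  ring

theorem curv_smooth (G : Met) : ContDiff ℝ ∞ (curv G) := by
  have hr : ∀ l, ContDiff ℝ ∞ (rie G l) := by
    intro l
    unfold rie
    refine ((pd_smooth (chr_smooth G l 1 1) 0).sub (pd_smooth (chr_smooth G l 0 1) 1)).add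
      (ContDiff.sum fun m _ => ?_)
    exact ((chr_smooth G l 0 m).mul (chr_smooth G m 1 1)).sub
      ((chr_smooth G l 1 m).mul (chr_smooth G m 0 1))
  unfold curv
  exact (ContDiff.sum fun l _ => (G.smooth 0 l).mul (hr l)).div (dt_smooth G)
    fun x => (dt_pos G x).ne'

private theorem meta_apply {W : Type} [NormedAddCommGroup W] [NormedSpace ℝ W] {f : W → Pt}
    (hf : ContDiff ℝ ∞ f) (i : Fin 2) : ContDiff ℝ ∞ fun y => f y i :=
  (contDiff_apply ℝ ℝ i).comp hf

theorem cV_smooth (G : Met) : ContDiff ℝ ∞ fun y : Pt × Pt × Pt => cV G y.1 y.2.1 y.2.2 := by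
  have key : ∀ k, ContDiff ℝ ∞ fun y : Pt × Pt × Pt =>
      ∑ i, ∑ j, chr G k i j y.1 * y.2.1 i * y.2.2 j := by
    intro k
    refine ContDiff.sum fun i _ => ContDiff.sum fun j _ => ?_
    have h1 : ContDiff ℝ ∞ fun y : Pt × Pt × Pt => chr G k i j y.1 :=
      (chr_smooth G k i j).comp contDiff_fst
    have h2 : ContDiff ℝ ∞ fun y : Pt × Pt × Pt => y.2.1 i :=
      meta_apply (contDiff_fst.comp contDiff_snd) i
    have h3 : ContDiff ℝ ∞ fun y : Pt × Pt × Pt => y.2.2 j :=
      meta_apply (contDiff_snd.comp contDiff_snd) j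
    exact (h1.mul h2).mul h3
  exact contDiff_pi.2 key

theorem spray_smooth (G : Met) : ContDiff ℝ ∞ (spray G) := by
  have h1 : ContDiff ℝ ∞ fun v : Pt × Pt => ((v.1, (v.2, v.2)) : Pt × Pt × Pt) :=
    contDiff_fst.prodMk (contDiff_snd.prodMk contDiff_snd)
  have h0 := (cV_smooth G).comp h1
  have e : (fun v : Pt × Pt => cV G v.1 v.2 v.2) =
      (fun y : Pt × Pt × Pt => cV G y.1 y.2.1 y.2.2) ∘
        (fun v : Pt × Pt => ((v.1, (v.2, v.2)) : Pt × Pt × Pt)) := rfl
  have h2 : ContDiff ℝ ∞ fun v : Pt × Pt => cV G v.1 v.2 v.2 := by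
    rw [e]
    exact h0
  have h3 : ContDiff ℝ ∞ fun v : Pt × Pt => -cV G v.1 v.2 v.2 := h2.neg
  have h4 : ContDiff ℝ ∞ fun v : Pt × Pt => v.2 := contDiff_snd
  have h5 : ContDiff ℝ ∞ fun v : Pt × Pt => (v.2, -cV G v.1 v.2 v.2) := h4.prodMk h3
  exact h5

theorem cV_symm (G : Met) (x u w : Pt) : cV G x u w = cV G x w u := by
  funext k
  unfold cV
  rw [Finset.sum_comm]
  refine Finset.sum_congr rfl fun i _ => Finset.sum_congr rfl fun j _ => ?_
  rw [chr_symm G k j i x]
  ring

theorem cV_add (G : Met) (x u u' w : Pt) : cV G x (u + u') w = cV G x u w + cV G x u' w := by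
  funext k
  simp only [cV, Pi.add_apply]
  rw [← Finset.sum_add_distrib]
  refine Finset.sum_congr rfl fun i _ => ?_
  rw [← Finset.sum_add_distrib]
  refine Finset.sum_congr rfl fun j _ => ?_
  ring

theorem cV_smul (G : Met) (x : Pt) (c : ℝ) (u w : Pt) : cV G x (c • u) w = c • cV G x u w := by
  funext k
  simp only [cV, Pi.smul_apply, smul_eq_mul]
  rw [Finset.mul_sum]
  refine Finset.sum_congr rfl fun i _ => ?_
  rw [Finset.mul_sum]
  refine Finset.sum_congr rfl fun j _ => ?_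
  ring

theorem ip_symm (G : Met) (x u w : Pt) : ip G x u w = ip G x w u := by
  unfold ip
  rw [Finset.sum_comm]
  refine Finset.sum_congr rfl fun i _ => Finset.sum_congr rfl fun j _ => ?_
  rw [G.symm j i x]
  ring

theorem ip_add (G : Met) (x u u' w : Pt) : ip G x (u + u') w = ip G x u w + ip G x u' w := by
  simp only [ip, Pi.add_apply]
  rw [← Finset.sum_add_distrib]
  refine Finset.sum_congr rfl fun i _ => ?_
  rw [← Finset.sum_add_distrib]
  refine Finset.sum_congr rfl fun j _ => ?_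
  ring

theorem ip_smul (G : Met) (x : Pt) (c : ℝ) (u w : Pt) : ip G x (c • u) w = c * ip G x u w := by
  simp only [ip, Pi.smul_apply, smul_eq_mul]
  rw [Finset.mul_sum]
  refine Finset.sum_congr rfl fun i _ => ?_
  rw [Finset.mul_sum]
  refine Finset.sum_congr rfl fun j _ => ?_
  ring

theorem ip_pos (G : Met) (x u : Pt) (hu : u ≠ 0) : 0 < ip G x u u := G.pos x u hu

theorem ip_smooth (G : Met) : ContDiff ℝ ∞ fun y : Pt × Pt × Pt => ip G y.1 y.2.1 y.2.2 := by
  show ContDiff ℝ ∞ fun y : Pt × Pt × Pt => ∑ i, ∑ j, G.g i j y.1 * y.2.1 i * y.2.2 j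
  refine ContDiff.sum fun i _ => ContDiff.sum fun j _ => ?_
  have h1 : ContDiff ℝ ∞ fun y : Pt × Pt × Pt => G.g i j y.1 :=
    (G.smooth i j).comp contDiff_fst
  have h2 : ContDiff ℝ ∞ fun y : Pt × Pt × Pt => y.2.1 i :=
    meta_apply (contDiff_fst.comp contDiff_snd) i
  have h3 : ContDiff ℝ ∞ fun y : Pt × Pt × Pt => y.2.2 j :=
    meta_apply (contDiff_snd.comp contDiff_snd) j
  exact (h1.mul h2).mul h3

/-- A vector is determined by its inner products. -/
theorem ip_ext (G : Met) (x u u' : Pt) (h : ∀ w, ip G x u w = ip G x u' w) : u = u' := by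
  by_contra hne
  have h1 : u + (-1 : ℝ) • u' ≠ 0 := by
    intro h2
    apply hne
    have h3 : u + -u' = 0 := by simpa using h2
    rwa [← sub_eq_add_neg, sub_eq_zero] at h3
  have h2 := ip_pos G x _ h1
  rw [ip_add, ip_smul, h] at h2
  simp at h2

end

end Pool.Agent.Work.MP_275abe_gt
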