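import Pool.Agent.Work.MP_275abe_gt.MetA

/-!
The Gram-Schmidt frame fa, fb is smooth and orthonormal; expansion of vectors.
-/

namespace Pool.Agent.Work.MP_275abe_gt

open MeasureTheory Set
open scoped ContDiff

noncomputable section

private theorem gd_pos (G : Met) (x : Pt) : 0 < G.g 0 0 x * dt G x :=
  mul_pos (g00_pos G x) (dt_pos G x)

theorem fa_smooth (G : Met) : ContDiff ℝ ∞ (fa G) := by
  rw [contDiff_pi]
  intro i
  fin_cases i
  · change ContDiff ℝ ∞ fun x => 1 / √(G.g 0 0 x)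
    exact contDiff_const.div ((G.smooth 0 0).sqrt fun x => (g00_pos G x).ne')
      fun x => (Real.sqrt_pos.2 (g00_pos G x)).ne'
  · change ContDiff ℝ ∞ fun _ : Pt => (0 : ℝ)
    exact contDiff_const

theorem fb_smooth (G : Met) : ContDiff ℝ ∞ (fb G) := by
  have h : ContDiff ℝ ∞ fun x => √(G.g 0 0 x * dt G x) :=
    ((G.smooth 0 0).mul (dt_smooth G)).sqrt fun x => (gd_pos G x).ne'
  rw [contDiff_pi]
  intro i
  fin_cases i
  · change ContDiff ℝ ∞ fun x => -G.g 0 1 x / √(G.g 0 0 x * dt G x)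
    exact (G.smooth 0 1).neg.div h fun x => (Real.sqrt_pos.2 (gd_pos G x)).ne'
  · change ContDiff ℝ ∞ fun x => G.g 0 0 x / √(G.g 0 0 x * dt G x)
    exact (G.smooth 0 0).div h fun x => (Real.sqrt_pos.2 (gd_pos G x)).ne'

theorem ip_aa (G : Met) (x : Pt) : ip G x (fa G x) (fa G x) = 1 := by
  have h := g00_pos G x
  have h1 := Real.sqrt_pos.2 h
  have h2 := Real.mul_self_sqrt h.le
  simp only [ip, fa, Fin.sum_univ_two, Matrix.cons_val_zero, Matrix.cons_val_one, mul_zero,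
    zero_mul, add_zero]
  field_simp
  rw [sq, h2]

theorem ip_ab (G : Met) (x : Pt) : ip G x (fa G x) (fb G x) = 0 := by
  simp only [ip, fa, fb, Fin.sum_univ_two, Matrix.cons_val_zero, Matrix.cons_val_one, mul_zero,
    zero_mul, add_zero]
  ring

theorem ip_bb (G : Met) (x : Pt) : ip G x (fb G x) (fb G x) = 1 := by
  have h := gd_pos G x
  have h1 := Real.sqrt_pos.2 h
  have h2 := Real.mul_self_sqrt h.le
  simp only [ip, fb, Fin.sum_univ_two, Matrix.cons_val_zero, Matrix.cons_val_one]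
  have h3 : G.g 0 0 x * (-G.g 0 1 x / √(G.g 0 0 x * dt G x)) * (-G.g 0 1 x / √(G.g 0 0 x * dt G x)) +
      G.g 0 1 x * (-G.g 0 1 x / √(G.g 0 0 x * dt G x)) * (G.g 0 0 x / √(G.g 0 0 x * dt G x)) +
      (G.g 1 0 x * (G.g 0 0 x / √(G.g 0 0 x * dt G x)) * (-G.g 0 1 x / √(G.g 0 0 x * dt G x)) +
      G.g 1 1 x * (G.g 0 0 x / √(G.g 0 0 x * dt G x)) * (G.g 0 0 x / √(G.g 0 0 x * dt G x))) =
      G.g 0 0 x * (G.g 0 0 x * G.g 1 1 x - G.g 0 1 x * G.g 1 0 x) /
        (√(G.g 0 0 x * dt G x) * √(G.g 0 0 x * dt G x)) := by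
    field_simp
    ring
  rw [h3, h2]
  exact div_self h.ne'

theorem ab_det (G : Met) (x : Pt) : fa G x 0 * fb G x 1 - fa G x 1 * fb G x 0 = 1 / √(dt G x) := by
  have h := g00_pos G x
  have h1 := Real.sqrt_pos.2 h
  have h2 := Real.mul_self_sqrt h.le
  have h3 := Real.sqrt_pos.2 (dt_pos G x)
  simp only [fa, fb, Matrix.cons_val_zero, Matrix.cons_val_one, zero_mul, sub_zero]
  rw [Real.sqrt_mul h.le]
  field_simp
  rw [sq, h2]

private theorem ip_ua (G : Met) (x u : Pt) :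
    ip G x u (fa G x) = (G.g 0 0 x * u 0 + G.g 1 0 x * u 1) / √(G.g 0 0 x) := by
  simp only [ip, fa, Fin.sum_univ_two, Matrix.cons_val_zero, Matrix.cons_val_one, mul_zero, add_zero]
  ring

private theorem ip_ub (G : Met) (x u : Pt) :
    ip G x u (fb G x) = dt G x * u 1 / √(G.g 0 0 x * dt G x) := by
  simp only [ip, fb, Fin.sum_univ_two, Matrix.cons_val_zero, Matrix.cons_val_one]
  have h : dt G x * u 1 = G.g 0 0 x * u 0 * (-G.g 0 1 x) + G.g 0 1 x * u 0 * G.g 0 0 x +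
      (G.g 1 0 x * u 1 * (-G.g 0 1 x) + G.g 1 1 x * u 1 * G.g 0 0 x) := by
    unfold dt; ring
  rw [h]
  ring

theorem ip_expand (G : Met) (x u : Pt) :
    u = ip G x u (fa G x) • fa G x + ip G x u (fb G x) • fb G x := by
  have h := g00_pos G x
  have h1 := Real.sqrt_pos.2 h
  have h2 := Real.mul_self_sqrt h.le
  have k := gd_pos G x
  have k1 := Real.sqrt_pos.2 k
  have k2 := Real.mul_self_sqrt k.le
  have hs := G.symm 0 1 x
  rw [ip_ua, ip_ub]
  funext i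
  fin_cases i
  · change u 0 = (G.g 0 0 x * u 0 + G.g 1 0 x * u 1) / √(G.g 0 0 x) * (1 / √(G.g 0 0 x)) +
      dt G x * u 1 / √(G.g 0 0 x * dt G x) * (-G.g 0 1 x / √(G.g 0 0 x * dt G x))
    have e1 : (G.g 0 0 x * u 0 + G.g 1 0 x * u 1) / √(G.g 0 0 x) * (1 / √(G.g 0 0 x)) +
      dt G x * u 1 / √(G.g 0 0 x * dt G x) * (-G.g 0 1 x / √(G.g 0 0 x * dt G x)) =
      (G.g 0 0 x * u 0 + G.g 1 0 x * u 1) / (√(G.g 0 0 x) * √(G.g 0 0 x)) -
      dt G x * u 1 * G.g 0 1 x / (√(G.g 0 0 x * dt G x) * √(G.g 0 0 x * dt G x)) := by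
      field_simp
      ring
    have hd := dt_pos G x
    rw [e1, h2, k2, ← hs]
    field_simp
    ring
  · change u 1 = (G.g 0 0 x * u 0 + G.g 1 0 x * u 1) / √(G.g 0 0 x) * 0 +
      dt G x * u 1 / √(G.g 0 0 x * dt G x) * (G.g 0 0 x / √(G.g 0 0 x * dt G x))
    have e1 : (G.g 0 0 x * u 0 + G.g 1 0 x * u 1) / √(G.g 0 0 x) * 0 +
      dt G x * u 1 / √(G.g 0 0 x * dt G x) * (G.g 0 0 x / √(G.g 0 0 x * dt G x)) =
      dt G x * u 1 * G.g 0 0 x / (√(G.g 0 0 x * dt G x) * √(G.g 0 0 x * dt G x)) := by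
      field_simp
      ring
    have hd := dt_pos G x
    rw [e1, k2]
    field_simp

theorem ip_eq (G : Met) (x u w : Pt) : ip G x u w =
    ip G x u (fa G x) * ip G x w (fa G x) + ip G x u (fb G x) * ip G x w (fb G x) := by
  conv_lhs => rw [ip_expand G x u]
  rw [ip_add, ip_smul, ip_smul, ip_symm G x (fa G x) w, ip_symm G x (fb G x) w]

end

end Pool.Agent.Work.MP_275abe_gt
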