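import Pool.Agent.Work.MP_275abe_gt.LiftF

/-!
A geodesic which makes a small angle with the base geodesic is nearly a straight line in Fermi coordinates, as long as it
stays in the strip where |K| < tau. Lift the unit speed geodesic c(s) = (psi s (v.1, v.2 + sigma b)).1 from (0, 0) to
(T, H). With z(s) = psi s (..), angle vartheta(s) = z(s).2, Theta(s) = (fm psi v (T s) (H s)).2 and
chi = vartheta - Theta + pi/2 (chi(0) = sigma b), comparing c' = J T' dir(Theta - pi/2) + H' dir(Theta) with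
c' = dir(vartheta) gives H' = sin chi, J T' = cos chi, and comparing vartheta' = lam(vartheta) =
cos chi lam(Theta - pi/2) + sin chi lam(Theta) with Theta' = T' (J lam(Theta - pi/2) - J') + H' lam(Theta) gives
chi' = J' T' = (J'/J) cos chi. In the strip |H| < w, |T| <= L + 1: J <= 1 + tau w^2, |J'| <= 2 tau w (ode_le), so
|chi - sigma b| <= 2 tau w L =: k, |H - sigma b s| <= L (k + b^3/6), |T - s| <= L ((b + k)^2/2 + tau w^2), all <= eps. First
exit argument: |T| <= L + eps < L + 1 and |H| <= b L + eps < w, so the curve stays in the strip for |s| <= L.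
-/

namespace Pool.Agent.Work.MP_275abe_gt

open MeasureTheory Set
open scoped ContDiff

noncomputable section

theorem near_fst {z : ℝ → Pt × ℝ} {z' : Pt × ℝ} {s : ℝ} (h : HasDerivAt z z' s) :
    HasDerivAt (fun s => (z s).1) z'.1 s :=
  (ContinuousLinearMap.fst ℝ Pt ℝ).hasFDerivAt.comp_hasDerivAt s h

theorem near_snd {z : ℝ → Pt × ℝ} {z' : Pt × ℝ} {s : ℝ} (h : HasDerivAt z z' s) :
    HasDerivAt (fun s => (z s).2) z'.2 s :=
  (ContinuousLinearMap.snd ℝ Pt ℝ).hasFDerivAt.comp_hasDerivAt s h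

/-- Mean value inequality with a bound on the half open interval. -/
theorem near_mvi {f f' : ℝ → ℝ} (hf : ∀ s, HasDerivAt f (f' s) s) {a C : ℝ}
    (hb : ∀ u ∈ Ico 0 a, |f' u| ≤ C) : ∀ u ∈ Icc 0 a, |f u - f 0| ≤ C * u := by
  intro u hu
  have h := norm_image_sub_le_of_norm_deriv_le_segment' (f := f) (f' := f') (a := 0) (b := a)
    (C := C) (fun x _ => (hf x).hasDerivWithinAt) (fun x hx => by simpa using hb x hx) u hu
  simpa using h

theorem near_core {T H χ T' χ' : ℝ → ℝ} {σ b τ L w ε : ℝ} (hσ : σ = 1 ∨ σ = -1) (hb : 0 < b)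
    (hb1 : b ≤ 1) (hτ : 0 < τ) (hL : 1 ≤ L) (hw : 0 < w)
    (hε : ε = L * b ^ 2 + 3 * τ * (1 + w) ^ 2 * L ^ 2) (hε1 : ε < 1 / 2)
    (hT : ∀ s, HasDerivAt T (T' s) s) (hH : ∀ s, HasDerivAt H (Real.sin (χ s)) s)
    (hχ : ∀ s, HasDerivAt χ (χ' s) s) (hT0 : T 0 = 0) (hH0 : H 0 = 0) (hχ0 : χ 0 = σ * b)
    (h1 : ∀ s, |T s| ≤ L + 1 → |H s| < w → |T' s - 1| ≤ χ s ^ 2 / 2 + τ * w ^ 2)
    (h2 : ∀ s, |T s| ≤ L + 1 → |H s| < w → |χ' s| ≤ 2 * τ * w) {a : ℝ} (ha : 0 ≤ a) (haL : a ≤ L)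
    (hP : ∀ u ∈ Ico 0 a, |T u| ≤ L + 1 ∧ |H u| < w) :
    |T a - a| ≤ ε ∧ |H a - σ * b * a| ≤ ε := by
  have hL0 : 0 < L := by linarith
  have hσ2 : |σ| = 1 := by rcases hσ with h | h <;> simp [h]
  -- smallness
  have hq : τ * (1 + w) ^ 2 * L ^ 2 ≤ 1 / 6 := by
    have : 0 ≤ L * b ^ 2 := by positivity
    nlinarith
  have hq1 : τ * (1 + w) ^ 2 * L ≤ τ * (1 + w) ^ 2 * L ^ 2 := by
    have : 0 ≤ τ * (1 + w) ^ 2 * L * (L - 1) := by
      have : 0 ≤ L - 1 := by linarith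
      positivity
    nlinarith
  have hww : w ≤ (1 + w) ^ 2 := by nlinarith
  have hww2 : w ^ 2 ≤ (1 + w) ^ 2 := by nlinarith
  set κ : ℝ := 2 * τ * w * L with hκ
  have hκ0 : 0 ≤ κ := by positivity
  have hχb : ∀ u ∈ Icc 0 a, |χ u - σ * b| ≤ κ := by
    intro u hu
    have h := near_mvi hχ (a := a) (C := 2 * τ * w) (fun u hu => h2 u (hP u hu).1 (hP u hu).2) u hu
    rw [hχ0] at h
    refine h.trans ?_
    rw [hκ]
    exact mul_le_mul_of_nonneg_left (hu.2.trans haL) (by positivity)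
  have hsb : |Real.sin (σ * b) - σ * b| ≤ b ^ 2 / 2 := by
    have hs1 := Real.sin_lt hb
    have hs2 := Real.sin_gt_sub_cube hb
    have hb3 : b ^ 3 / 6 ≤ b ^ 2 / 2 := by nlinarith [sq_nonneg b, mul_nonneg hb.le (sq_nonneg b)]
    rcases hσ with h | h
    · subst h
      rw [one_mul, abs_le]
      constructor <;> linarith
    · subst h
      rw [neg_one_mul, Real.sin_neg, abs_le]
      constructor <;> linarith
  have hHb : |H a - σ * b * a| ≤ (κ + b ^ 2 / 2) * a := by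
    have hd : ∀ s, HasDerivAt (fun s => H s - σ * b * s) (Real.sin (χ s) - σ * b) s := by
      intro s
      exact ((hH s).sub ((hasDerivAt_id s).const_mul (σ * b))).congr_deriv (by simp)
    have h := near_mvi hd (a := a) (C := κ + b ^ 2 / 2) (fun u hu => by
      have e1 := Real.abs_sin_sub_sin_le (χ u) (σ * b)
      have e2 := hχb u ⟨hu.1, hu.2.le⟩
      calc |Real.sin (χ u) - σ * b| = |(Real.sin (χ u) - Real.sin (σ * b)) +
            (Real.sin (σ * b) - σ * b)| := by ring_nf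
        _ ≤ _ := abs_add_le _ _
        _ ≤ _ := by linarith) a ⟨ha, le_rfl⟩
    simpa [hH0] using h
  have hTb : |T a - a| ≤ ((b + κ) ^ 2 / 2 + τ * w ^ 2) * a := by
    have hd : ∀ s, HasDerivAt (fun s => T s - s) (T' s - 1) s := fun s =>
      (hT s).sub (hasDerivAt_id s)
    have h := near_mvi hd (a := a) (C := (b + κ) ^ 2 / 2 + τ * w ^ 2) (fun u hu => by
      have e1 := h1 u (hP u hu).1 (hP u hu).2
      have e2 := hχb u ⟨hu.1, hu.2.le⟩
      have e3 : |χ u| ≤ b + κ := by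
        calc |χ u| = |(χ u - σ * b) + σ * b| := by ring_nf
          _ ≤ |χ u - σ * b| + |σ * b| := abs_add_le _ _
          _ ≤ κ + b := by rw [abs_mul, hσ2, one_mul, abs_of_pos hb]; linarith
          _ = _ := by ring
      have e4 : χ u ^ 2 ≤ (b + κ) ^ 2 := by
        rw [← sq_abs]; exact pow_le_pow_left₀ (abs_nonneg _) e3 2
      linarith) a ⟨ha, le_rfl⟩
    simpa [hT0] using h
  have hκL : κ * L ≤ 2 * (τ * (1 + w) ^ 2 * L ^ 2) := by
    have : κ * L = 2 * (τ * w * L ^ 2) := by rw [hκ]; ring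
    rw [this]
    have : τ * w * L ^ 2 ≤ τ * (1 + w) ^ 2 * L ^ 2 := by
      apply mul_le_mul_of_nonneg_right _ (by positivity)
      exact mul_le_mul_of_nonneg_left hww hτ.le
    linarith
  have hκκ : κ ^ 2 * L ≤ τ * (1 + w) ^ 2 * L ^ 2 := by
    have e1 : κ ^ 2 * L = 4 * (τ * w ^ 2 * L ^ 2) * (τ * L) := by rw [hκ]; ring
    have e2 : τ * w ^ 2 * L ^ 2 ≤ 1 / 6 := by
      refine le_trans ?_ hq
      apply mul_le_mul_of_nonneg_right _ (by positivity)
      exact mul_le_mul_of_nonneg_left hww2 hτ.le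
    have e3 : τ * L ≤ τ * (1 + w) ^ 2 * L ^ 2 := by
      refine le_trans ?_ hq1
      apply mul_le_mul_of_nonneg_right _ hL0.le
      have : 1 ≤ (1 + w) ^ 2 := by nlinarith
      nlinarith
    have e4 : 0 ≤ τ * L := by positivity
    rw [e1]
    nlinarith
  have hτw : τ * w ^ 2 * L ≤ τ * (1 + w) ^ 2 * L ^ 2 := by
    refine le_trans ?_ hq1
    apply mul_le_mul_of_nonneg_right _ hL0.le
    exact mul_le_mul_of_nonneg_left hww2 hτ.le
  constructor
  · refine hTb.trans ?_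
    have e0 : 0 ≤ (b + κ) ^ 2 / 2 + τ * w ^ 2 := by positivity
    have e1 : ((b + κ) ^ 2 / 2 + τ * w ^ 2) * a ≤ ((b + κ) ^ 2 / 2 + τ * w ^ 2) * L :=
      mul_le_mul_of_nonneg_left haL e0
    have e2 : (b + κ) ^ 2 / 2 ≤ b ^ 2 + κ ^ 2 := by nlinarith [sq_nonneg (b - κ)]
    have e3 : (b + κ) ^ 2 / 2 * L ≤ (b ^ 2 + κ ^ 2) * L := mul_le_mul_of_nonneg_right e2 hL0.le
    rw [hε]
    nlinarith
  · refine hHb.trans ?_
    have e1 : (κ + b ^ 2 / 2) * a ≤ (κ + b ^ 2 / 2) * L :=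
      mul_le_mul_of_nonneg_left haL (by positivity)
    have e2 : 0 ≤ L * b ^ 2 := by positivity
    have e3 : 0 ≤ τ * (1 + w) ^ 2 * L ^ 2 := by positivity
    rw [hε]
    nlinarith

theorem near_pos {T H χ T' χ' : ℝ → ℝ} {σ b τ L w ε : ℝ} (hσ : σ = 1 ∨ σ = -1) (hb : 0 < b)
    (hb1 : b ≤ 1) (hτ : 0 < τ) (hL : 1 ≤ L) (hw : 0 < w)
    (hε : ε = L * b ^ 2 + 3 * τ * (1 + w) ^ 2 * L ^ 2) (hε1 : ε < 1 / 2) (hbw : b * L + ε < w)
    (hT : ∀ s, HasDerivAt T (T' s) s) (hH : ∀ s, HasDerivAt H (Real.sin (χ s)) s)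
    (hχ : ∀ s, HasDerivAt χ (χ' s) s) (hT0 : T 0 = 0) (hH0 : H 0 = 0) (hχ0 : χ 0 = σ * b)
    (h1 : ∀ s, |T s| ≤ L + 1 → |H s| < w → |T' s - 1| ≤ χ s ^ 2 / 2 + τ * w ^ 2)
    (h2 : ∀ s, |T s| ≤ L + 1 → |H s| < w → |χ' s| ≤ 2 * τ * w) {a : ℝ} (ha : 0 ≤ a) (haL : a ≤ L) :
    |T a - a| ≤ ε ∧ |H a - σ * b * a| ≤ ε := by
  have hσ2 : |σ| = 1 := by rcases hσ with h | h <;> simp [h]
  apply near_core hσ hb hb1 hτ hL hw hε hε1 hT hH hχ hT0 hH0 hχ0 h1 h2 ha haL
  by_contra hcon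
  push Not at hcon
  -- the closed set of bad times
  let B : Set ℝ := {u | u ∈ Icc 0 a ∧ (L + 1 ≤ |T u| ∨ w ≤ |H u|)}
  have hTc : Continuous T := continuous_iff_continuousAt.2 fun s => (hT s).continuousAt
  have hHc : Continuous H := continuous_iff_continuousAt.2 fun s => (hH s).continuousAt
  have hBc : IsCompact B := by
    apply IsCompact.of_isClosed_subset isCompact_Icc _ (fun u hu => hu.1)
    apply IsClosed.inter isClosed_Icc
    exact (isClosed_le continuous_const (hTc.abs)).union (isClosed_le continuous_const hHc.abs)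
  have hBn : B.Nonempty := by
    obtain ⟨u, hu, hu2⟩ := hcon
    refine ⟨u, ⟨hu.1, hu.2.le⟩, ?_⟩
    by_cases h : |T u| ≤ L + 1
    · exact Or.inr (hu2 h)
    · exact Or.inl (not_le.1 h).le
  obtain ⟨u, hu, hmin⟩ := hBc.exists_isLeast hBn
  have hu0 : 0 ≤ u := hu.1.1
  have huL : u ≤ L := hu.1.2.trans haL
  have hPu : ∀ u' ∈ Ico 0 u, |T u'| ≤ L + 1 ∧ |H u'| < w := by
    intro u' hu'
    by_contra hc
    have : u' ∈ B := by
      refine ⟨⟨hu'.1, hu'.2.le.trans hu.1.2⟩, ?_⟩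
      by_cases h : |T u'| ≤ L + 1
      · right
        by_contra h3
        exact hc ⟨h, not_le.1 h3⟩
      · exact Or.inl (not_le.1 h).le
    exact absurd (hmin this) (not_le.2 hu'.2)
  obtain ⟨g1, g2⟩ := near_core hσ hb hb1 hτ hL hw hε hε1 hT hH hχ hT0 hH0 hχ0 h1 h2 hu0 huL hPu
  rcases hu.2 with h | h
  · have : |T u| ≤ |T u - u| + |u| := by
      calc |T u| = |(T u - u) + u| := by ring_nf
        _ ≤ _ := abs_add_le _ _
    rw [abs_of_nonneg hu0] at this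
    linarith
  · have : |H u| ≤ |H u - σ * b * u| + |σ * b * u| := by
      calc |H u| = |(H u - σ * b * u) + σ * b * u| := by ring_nf
        _ ≤ _ := abs_add_le _ _
    have e : |σ * b * u| ≤ b * L := by
      rw [abs_mul, abs_mul, hσ2, one_mul, abs_of_pos hb, abs_of_nonneg hu0]
      exact mul_le_mul_of_nonneg_left huL hb.le
    linarith

theorem near_all {T H χ T' χ' : ℝ → ℝ} {σ b τ L w ε : ℝ} (hσ : σ = 1 ∨ σ = -1) (hb : 0 < b)
    (hb1 : b ≤ 1) (hτ : 0 < τ) (hL : 1 ≤ L) (hw : 0 < w)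
    (hε : ε = L * b ^ 2 + 3 * τ * (1 + w) ^ 2 * L ^ 2) (hε1 : ε < 1 / 2) (hbw : b * L + ε < w)
    (hT : ∀ s, HasDerivAt T (T' s) s) (hH : ∀ s, HasDerivAt H (Real.sin (χ s)) s)
    (hχ : ∀ s, HasDerivAt χ (χ' s) s) (hT0 : T 0 = 0) (hH0 : H 0 = 0) (hχ0 : χ 0 = σ * b)
    (h1 : ∀ s, |T s| ≤ L + 1 → |H s| < w → |T' s - 1| ≤ χ s ^ 2 / 2 + τ * w ^ 2)
    (h2 : ∀ s, |T s| ≤ L + 1 → |H s| < w → |χ' s| ≤ 2 * τ * w) {a : ℝ} (haL : |a| ≤ L) :
    |T a - a| ≤ ε ∧ |H a - σ * b * a| ≤ ε := by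
  rcases le_total 0 a with ha | ha
  · rw [abs_of_nonneg ha] at haL
    exact near_pos hσ hb hb1 hτ hL hw hε hε1 hbw hT hH hχ hT0 hH0 hχ0 h1 h2 ha haL
  · rw [abs_of_nonpos ha] at haL
    have key := near_pos (T := fun s => -T (-s)) (H := fun s => -H (-s)) (χ := fun s => χ (-s))
      (T' := fun s => T' (-s)) (χ' := fun s => -χ' (-s)) (a := -a)
      hσ hb hb1 hτ hL hw hε hε1 hbw
      (fun s => by
        have := ((hT (-s)).comp s (hasDerivAt_neg s)).neg
        exact this.congr_deriv (by simp))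
      (fun s => by
        have := ((hH (-s)).comp s (hasDerivAt_neg s)).neg
        exact this.congr_deriv (by simp))
      (fun s => by
        have := ((hχ (-s)).comp s (hasDerivAt_neg s))
        exact this.congr_deriv (by simp))
      (by simp [hT0]) (by simp [hH0]) (by simp [hχ0])
      (fun s hs hs' => by
        rw [abs_neg] at hs hs'
        exact h1 (-s) hs hs')
      (fun s hs hs' => by
        rw [abs_neg] at hs hs' ⊢
        exact h2 (-s) hs hs')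
      (by linarith) haL
    simp only [neg_neg] at key
    obtain ⟨k1, k2⟩ := key
    constructor
    · rw [← abs_neg]
      convert k1 using 2
      ring
    · rw [← abs_neg]
      convert k2 using 2
      ring

theorem near_line (F : Fr) {ψ : ℝ → Pt × ℝ → Pt × ℝ} (hψ : IsFlow F.X ψ) (hK : ∀ x, F.K x ≤ 0)
    (v : Pt × ℝ) (σ b τ L w ε : ℝ) (hσ : σ = 1 ∨ σ = -1) (hb : 0 < b) (hb1 : b ≤ 1) (hτ : 0 < τ)
    (hL : 1 ≤ L) (hw : 0 < w) (hε : ε = L * b ^ 2 + 3 * τ * (1 + w) ^ 2 * L ^ 2) (hε1 : ε < 1 / 2)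
    (hbw : b * L + ε < w)
    (hflat : ∀ t h, |t| ≤ L + 1 → |h| < w → |F.K (fm ψ v t h).1| < τ) (s : ℝ) (hs : |s| ≤ L) :
    ∃ t h, (fm ψ v t h).1 = (ψ s (v.1, v.2 + σ * b)).1 ∧ |t - s| ≤ ε ∧ |h - σ * b * s| ≤ ε := by
  obtain ⟨J, J', hJ0, hJ0', hJ, hJ', hfm⟩ := jac F hψ v
  have hz : ∀ s, HasDerivAt (fun s => ψ s (v.1, v.2 + σ * b)) (F.X (ψ s (v.1, v.2 + σ * b))) s :=
    fun s => hψ.2 _ s
  have hz1 : ∀ s, HasDerivAt (fun s => (ψ s (v.1, v.2 + σ * b)).1)
      (F.dir (ψ s (v.1, v.2 + σ * b)).1 (ψ s (v.1, v.2 + σ * b)).2) s := fun s =>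
    near_fst (hz s)
  have hz2 : ∀ s, HasDerivAt (fun s => (ψ s (v.1, v.2 + σ * b)).2)
      (F.lam (ψ s (v.1, v.2 + σ * b)).1 (ψ s (v.1, v.2 + σ * b)).2) s := fun s =>
    near_snd (hz s)
  have hzc : Continuous fun s => ψ s (v.1, v.2 + σ * b) :=
    continuous_iff_continuousAt.2 fun s => (hz s).continuousAt
  have hc' : Continuous fun s => F.dir (ψ s (v.1, v.2 + σ * b)).1 (ψ s (v.1, v.2 + σ * b)).2 :=
    F.dir_smooth.continuous.comp hzc
  have h00 : (fm ψ v 0 0).1 = (ψ 0 (v.1, v.2 + σ * b)).1 := by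
    simp [fm, hψ.1]
  obtain ⟨T, H, T', H', hT0, hH0, hT, hH, hlift⟩ := lift_fm F hψ hK v
    (fun s => (ψ s (v.1, v.2 + σ * b)).1) _ hz1 hc' 0 0 h00
  -- the curve in the unit vectors
  have hq : ∀ s, HasDerivAt (fun s => fm ψ v (T s) (H s))
      (T' s • (J (T s) (H s) • F.dir (fm ψ v (T s) (H s)).1 ((fm ψ v (T s) (H s)).2 - Real.pi / 2),
          J (T s) (H s) * F.lam (fm ψ v (T s) (H s)).1 ((fm ψ v (T s) (H s)).2 - Real.pi / 2) -
            J' (T s) (H s)) + H' s • F.X (fm ψ v (T s) (H s))) s := by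
    intro s
    have h := (hfm (T s) (H s)).comp_hasDerivAt s ((hT s).prodMk (hH s))
    exact h.congr_deriv (by simp)
  have hq1 : ∀ s, HasDerivAt (fun s => (fm ψ v (T s) (H s)).1)
      (T' s • (J (T s) (H s) •
        F.dir (fm ψ v (T s) (H s)).1 ((fm ψ v (T s) (H s)).2 - Real.pi / 2)) +
        H' s • F.dir (fm ψ v (T s) (H s)).1 (fm ψ v (T s) (H s)).2) s := fun s =>
    (near_fst (hq s)).congr_deriv rfl
  have hq2 : ∀ s, HasDerivAt (fun s => (fm ψ v (T s) (H s)).2)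
      (T' s * (J (T s) (H s) *
        F.lam (fm ψ v (T s) (H s)).1 ((fm ψ v (T s) (H s)).2 - Real.pi / 2) - J' (T s) (H s)) +
        H' s * F.lam (fm ψ v (T s) (H s)).1 (fm ψ v (T s) (H s)).2) s := fun s =>
    (near_snd (hq s)).congr_deriv rfl
  set χ : ℝ → ℝ := fun s => (ψ s (v.1, v.2 + σ * b)).2 - (fm ψ v (T s) (H s)).2 + Real.pi / 2
    with hχdef
  have hdir : ∀ (x : Pt) (Θ c : ℝ), F.dir x (Θ - Real.pi / 2 + c) =
      Real.cos c • F.dir x (Θ - Real.pi / 2) + Real.sin c • F.dir x Θ := by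
    intro x Θ c
    have e1 : Real.cos (Θ - Real.pi / 2) = Real.sin Θ := Real.cos_sub_pi_div_two Θ
    have e2 : Real.sin (Θ - Real.pi / 2) = -Real.cos Θ := Real.sin_sub_pi_div_two Θ
    simp only [Fr.dir, Real.cos_add, Real.sin_add, e1, e2]
    ext i
    simp only [Pi.add_apply, Pi.smul_apply, smul_eq_mul]
    ring
  have hlam : ∀ (x : Pt) (Θ c : ℝ), F.lam x (Θ - Real.pi / 2 + c) =
      Real.cos c * F.lam x (Θ - Real.pi / 2) + Real.sin c * F.lam x Θ := by
    intro x Θ c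
    have e1 : Real.cos (Θ - Real.pi / 2) = Real.sin Θ := Real.cos_sub_pi_div_two Θ
    have e2 : Real.sin (Θ - Real.pi / 2) = -Real.cos Θ := Real.sin_sub_pi_div_two Θ
    simp only [Fr.lam, Real.cos_add, Real.sin_add, e1, e2]
    ring
  have hang : ∀ s, (ψ s (v.1, v.2 + σ * b)).2 =
      (fm ψ v (T s) (H s)).2 - Real.pi / 2 + χ s := by
    intro s
    simp only [hχdef]
    ring
  have hcomp : ∀ s, T' s * J (T s) (H s) = Real.cos (χ s) ∧ H' s = Real.sin (χ s) := by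
    intro s
    have e := (hlift s).1
    have h1 := hq1 s
    have h2 := hz1 s
    have h3 : (fun s => (fm ψ v (T s) (H s)).1) = fun s => (ψ s (v.1, v.2 + σ * b)).1 :=
      funext fun s => (hlift s).1
    rw [h3] at h1
    have h4 := h1.unique h2
    rw [← e, hang s, hdir, smul_smul] at h4
    exact F.comb_inj _ _ _ _ _ _ h4
  have hχ' : ∀ s, HasDerivAt χ (T' s * J' (T s) (H s)) s := by
    intro s
    have h := ((hz2 s).sub (hq2 s)).add_const (Real.pi / 2)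
    refine h.congr_deriv ?_
    obtain ⟨c1, c2⟩ := hcomp s
    rw [← (hlift s).1, hang s, hlam, ← c1, ← c2]
    ring
  have hH2 : ∀ s, HasDerivAt H (Real.sin (χ s)) s := fun s => by
    rw [← (hcomp s).2]; exact hH s
  have hk : ∀ t h, F.K (fm ψ v t h).1 ≤ 0 := fun t h => hK _
  have hJ1 : ∀ t h, 1 ≤ J t h := fun t h =>
    ode_ge (k := fun h => F.K (fm ψ v t h).1) (hk t) (hJ0 t) (hJ0' t) (hJ t) (hJ' t) h
  have hτw : τ * w ^ 2 ≤ 1 / 4 := by
    have e1 : 0 ≤ L * b ^ 2 := by positivity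
    have e2 : τ * w ^ 2 ≤ τ * (1 + w) ^ 2 := mul_le_mul_of_nonneg_left (by nlinarith) hτ.le
    have e3 : τ * (1 + w) ^ 2 ≤ τ * (1 + w) ^ 2 * L ^ 2 := by
      have : 1 ≤ L ^ 2 := by nlinarith
      exact le_mul_of_one_le_right (by positivity) this
    nlinarith
  have hJ2 : ∀ t h, |t| ≤ L + 1 → |h| < w → J t h ≤ 1 + τ * h ^ 2 ∧ |J' t h| ≤ 2 * τ * |h| := by
    intro t h ht hh
    refine ode_le (k := fun h => F.K (fm ψ v t h).1) hτ hw hτw (hk t) ?_ (hJ0 t) (hJ0' t)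
      (hJ t) (hJ' t) h hh
    intro h hh
    have := (abs_lt.1 (hflat t h ht hh)).1
    linarith
  have hχ0 : χ 0 = σ * b := by
    simp only [hχdef, hT0, hH0, fm, hψ.1]
    ring
  have key := near_all (T := T) (H := H) (χ := χ) (T' := T') (χ' := fun s => T' s * J' (T s) (H s))
    hσ hb hb1 hτ hL hw hε hε1 hbw hT hH2 hχ' hT0 hH0 hχ0
    (fun s hs hs' => by
      obtain ⟨j1, j2⟩ := hJ2 _ _ hs hs'
      have j0 := hJ1 (T s) (H s)
      have jpos : 0 < J (T s) (H s) := by linarith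
      have c1 := (hcomp s).1
      have hT's : T' s = Real.cos (χ s) / J (T s) (H s) := by
        rw [← c1]; field_simp
      have hcos := Real.one_sub_sq_div_two_le_cos (x := χ s)
      have hcos1 := Real.cos_le_one (χ s)
      have hw2 : H s ^ 2 ≤ w ^ 2 := by
        rw [← sq_abs]; exact pow_le_pow_left₀ (abs_nonneg _) hs'.le 2
      have j3 : J (T s) (H s) - 1 ≤ τ * w ^ 2 := by nlinarith
      have h5 : T' s - 1 = (T' s - Real.cos (χ s)) + (Real.cos (χ s) - 1) := by ring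
      have h6 : |T' s - Real.cos (χ s)| ≤ J (T s) (H s) - 1 := by
        have e : T' s - Real.cos (χ s) = -(Real.cos (χ s) * (J (T s) (H s) - 1) /
            J (T s) (H s)) := by
          rw [hT's]; field_simp; ring
        rw [e, abs_neg, abs_div, abs_mul, abs_of_pos jpos, abs_of_nonneg (by linarith :
          0 ≤ J (T s) (H s) - 1), div_le_iff₀ jpos]
        have : |Real.cos (χ s)| ≤ 1 := Real.abs_cos_le_one _
        have e2 : 0 ≤ J (T s) (H s) - 1 := by linarith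
        nlinarith [mul_le_mul_of_nonneg_right this e2]
      have h7 : |Real.cos (χ s) - 1| ≤ χ s ^ 2 / 2 := by
        rw [abs_le]; constructor <;> nlinarith [sq_nonneg (χ s)]
      rw [h5]
      refine (abs_add_le _ _).trans ?_
      linarith)
    (fun s hs hs' => by
      obtain ⟨j1, j2⟩ := hJ2 _ _ hs hs'
      have j0 := hJ1 (T s) (H s)
      have jpos : 0 < J (T s) (H s) := by linarith
      have c1 := (hcomp s).1
      have hT1 : |T' s| ≤ 1 := by
        have : T' s = Real.cos (χ s) / J (T s) (H s) := by rw [← c1]; field_simp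
        rw [this, abs_div, abs_of_pos jpos, div_le_one jpos]
        exact (Real.abs_cos_le_one _).trans j0
      rw [abs_mul]
      calc |T' s| * |J' (T s) (H s)| ≤ 1 * |J' (T s) (H s)| :=
            mul_le_mul_of_nonneg_right hT1 (abs_nonneg _)
        _ = |J' (T s) (H s)| := one_mul _
        _ ≤ 2 * τ * |H s| := j2
        _ ≤ 2 * τ * w := mul_le_mul_of_nonneg_left hs'.le (by positivity)) hs
  exact ⟨T s, H s, (hlift s).1, key.1, key.2⟩

end

end Pool.Agent.Work.MP_275abe_gt
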