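import Pool.Agent.Work.MP_275abe_gt.KzM
import Pool.Agent.Work.MP_275abe_gt.MuP

/-!
mu {v | kz j v = 0, kz (j+1) v ≠ 0} = 0: along every orbit the zeros of g(t) = kz j (φ t v) with g'(t) ≠ 0 are isolated,
hence countable, so for N = this set, ∫₀¹ 1_N(φ t v) dt = 0 for every v; integrate over v, exchange (Tonelli, joint
measurability from flow_cont, mu is sigma-finite) and use mu_pres.
-/

namespace Pool.Agent.Work.MP_275abe_gt

open MeasureTheory Set
open scoped ContDiff

noncomputable section

/-- The zeros with nonzero derivative are countable. -/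
theorem countable_simple_zeros {g g' : ℝ → ℝ} (hg : ∀ t, HasDerivAt g (g' t) t) :
    {t | g t = 0 ∧ g' t ≠ 0}.Countable := by
  have hd : DiscreteTopology {t | g t = 0 ∧ g' t ≠ 0} := by
    rw [discreteTopology_subtype_iff]
    rintro x ⟨hx0, hx1⟩
    have h := (hg x).eventually_ne (c := 0) hx1
    rw [Filter.inf_principal_eq_bot]
    filter_upwards [h] with z hz hz2
    exact hz hz2.1
  have : Countable {t | g t = 0 ∧ g' t ≠ 0} :=
    TopologicalSpace.separableSpace_iff_countable.1 inferInstance
  exact this.to_set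

theorem null_kz (G : Met) {φ : ℝ → Pt × Pt → Pt × Pt} (hφ : IsFlow (spray G) φ) (j : ℕ) :
    mu G {v | kz G j v = 0 ∧ kz G (j + 1) v ≠ 0} = 0 := by
  set N : Set (Pt × Pt) := {v | kz G j v = 0 ∧ kz G (j + 1) v ≠ 0} with hN
  have hNm : MeasurableSet N := by
    refine MeasurableSet.inter ?_ ?_
    · exact (isClosed_eq (kz_smooth G j).continuous continuous_const).measurableSet
    · exact (isOpen_ne_fun (kz_smooth G (j + 1)).continuous continuous_const).measurableSet
  have hc := flow_cont ((spray_smooth G).of_le (by norm_num)) hφ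
  have hS : MeasurableSet ((fun y : ℝ × (Pt × Pt) => φ y.1 y.2) ⁻¹' N) := hc.measurable hNm
  have : SFinite (mu G) := by unfold mu; infer_instance
  have h1 := Measure.prod_apply (μ := (volume : Measure ℝ).restrict (Icc 0 1)) (ν := mu G) hS
  have h2 := Measure.prod_apply_symm (μ := (volume : Measure ℝ).restrict (Icc 0 1)) (ν := mu G) hS
  have h3 : ∀ t : ℝ, mu G (Prod.mk t ⁻¹' ((fun y : ℝ × (Pt × Pt) => φ y.1 y.2) ⁻¹' N)) = mu G N := by
    intro t
    exact (mu_pres G hφ t).measure_preimage hNm.nullMeasurableSet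
  have h4 : ∀ v : Pt × Pt, (volume : Measure ℝ).restrict (Icc 0 1)
      ((fun t => (t, v)) ⁻¹' ((fun y : ℝ × (Pt × Pt) => φ y.1 y.2) ⁻¹' N)) = 0 := by
    intro v
    refine Countable.measure_zero ?_ _
    exact countable_simple_zeros (fun t => kz_flow G hφ j v t)
  simp only [h3] at h1
  simp only [h4, lintegral_zero] at h2
  rw [h2] at h1
  simp at h1
  exact h1.symm

end

end Pool.Agent.Work.MP_275abe_gt
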