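import Pool.Agent.Work.MP_275abe_gt.Base

/-!
Linear equations with continuous coefficients have solutions for all times. On [-T, T] with C = sup |A|: apply
Picard-Lindelof (Mathlib IsPicardLindelof, which wants L T <= a - r with L a bound of the field on the ball of radius a) to the
field A(t) (min(1, R / |y|) y), bounded by C R and Lipschitz, and R large (Gronwall: the solution stays in |y| <= |x| exp(C T)
< R, so it solves the linear equation); or glue steps of length 1 / (2 C). Glue the solutions on [-n, n] by uniqueness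
(Mathlib ODE_solution_unique_of_mem_Ioo).
-/

namespace Pool.Agent.Work.MP_275abe_gt

open MeasureTheory Set
open scoped ContDiff

noncomputable section

/-- Picard iterates of a linear equation -/
private def olinIt {F : Type*} [NormedAddCommGroup F] [NormedSpace ℝ F]
    (A : ℝ → F →L[ℝ] F) (x : F) : ℕ → ℝ → F
  | 0 => fun _ => x
  | n + 1 => fun t => ∫ s in (0 : ℝ)..t, A s (olinIt A x n s)

section
variable {F : Type*} [NormedAddCommGroup F] [NormedSpace ℝ F] [CompleteSpace F]
  (A : ℝ → F →L[ℝ] F) (hA : Continuous A) (x : F)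

include hA in
private theorem olin_cont (n : ℕ) : Continuous (olinIt A x n) := by
  induction n with
  | zero => exact continuous_const
  | succ n ih =>
    have hc : Continuous fun s => A s (olinIt A x n s) := hA.clm_apply ih
    exact intervalIntegral.continuous_primitive (fun a b => hc.intervalIntegrable a b) 0

include hA in
private theorem olin_deriv (n : ℕ) (t : ℝ) :
    HasDerivAt (olinIt A x (n + 1)) (A t (olinIt A x n t)) t := by
  have hc : Continuous fun s => A s (olinIt A x n s) := hA.clm_apply (olin_cont A hA x n)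
  exact (hc.integral_hasStrictDerivAt 0 t).hasDerivAt

include hA in
private theorem olin_bd (T C : ℝ) (hC : 0 ≤ C) (hb : ∀ s ∈ Icc (-T) T, ‖A s‖ ≤ C) (n : ℕ) :
    ∀ t ∈ Icc (-T) T, ‖olinIt A x n t‖ ≤ ‖x‖ * (C ^ n * |t| ^ n / (n.factorial : ℝ)) := by
  induction n with
  | zero => intro t _; simp [olinIt]
  | succ n ih =>
    intro t ht
    have hc : Continuous fun s => A s (olinIt A x n s) := hA.clm_apply (olin_cont A hA x n)
    have hsub : ∀ s ∈ uIoc 0 t, s ∈ Icc (-T) T := by
      intro s hs
      rw [mem_uIoc] at hs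
      obtain ⟨h1, h2⟩ := ht
      rcases hs with hs | hs
      · exact ⟨by linarith [hs.1, hs.2], by linarith [hs.1, hs.2]⟩
      · exact ⟨by linarith [hs.1, hs.2], by linarith [hs.1, hs.2]⟩
    have hpt : ∀ s ∈ uIoc 0 t, ‖A s (olinIt A x n s)‖ ≤
        (‖x‖ * (C ^ (n + 1) / (n.factorial : ℝ))) * |s - 0| ^ n := by
      intro s hs
      have h1 := (A s).le_opNorm (olinIt A x n s)
      have h2 := hb s (hsub s hs)
      have h3 := ih s (hsub s hs)
      calc ‖A s (olinIt A x n s)‖ ≤ ‖A s‖ * ‖olinIt A x n s‖ := h1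
        _ ≤ C * (‖x‖ * (C ^ n * |s| ^ n / (n.factorial : ℝ))) :=
          mul_le_mul h2 h3 (norm_nonneg _) hC
        _ = _ := by rw [sub_zero]; ring
    have hR : ∫ s in uIoc 0 t, (‖x‖ * (C ^ (n + 1) / (n.factorial : ℝ))) * |s - 0| ^ n =
        ‖x‖ * (C ^ (n + 1) * |t| ^ (n + 1) / ((n + 1).factorial : ℝ)) := by
      rw [integral_const_mul, integral_pow_abs_sub_uIoc, sub_zero, Nat.factorial_succ]
      push_cast
      have h1 : (n.factorial : ℝ) ≠ 0 := by positivity
      have h2 : ((n : ℝ) + 1) ≠ 0 := by positivity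
      field_simp
    show ‖∫ s in (0 : ℝ)..t, A s (olinIt A x n s)‖ ≤ _
    rw [← hR]
    refine (intervalIntegral.norm_integral_le_integral_norm_uIoc).trans ?_
    refine setIntegral_mono_on ?_ ?_ measurableSet_uIoc hpt
    · have h1 := (hc.norm.intervalIntegrable (μ := volume) 0 t)
      exact intervalIntegrable_iff.1 h1
    · have h1 : Continuous fun s : ℝ => (‖x‖ * (C ^ (n + 1) / (n.factorial : ℝ))) * |s - 0| ^ n := by
        fun_prop
      exact intervalIntegrable_iff.1 (h1.intervalIntegrable (μ := volume) 0 t)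

end

theorem lin_exists {F : Type*} [NormedAddCommGroup F] [NormedSpace ℝ F] [CompleteSpace F]
    (A : ℝ → F →L[ℝ] F) (hA : Continuous A) (x : F) :
    ∃ γ : ℝ → F, γ 0 = x ∧ ∀ t, HasDerivAt γ (A t (γ t)) t := by
  refine ⟨fun t => ∑' n, olinIt A x n t, ?_, fun t => ?_⟩
  · show ∑' n, olinIt A x n 0 = x
    rw [tsum_eq_single 0]
    · rfl
    · intro n hn
      obtain ⟨k, rfl⟩ := Nat.exists_eq_succ_of_ne_zero hn
      show ∫ s in (0 : ℝ)..0, A s (olinIt A x k s) = 0
      exact intervalIntegral.integral_same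
  set T : ℝ := |t| + 1 with hT
  have hTpos : 0 ≤ T := by positivity
  obtain ⟨C0, hC0⟩ := (isCompact_Icc (a := -T) (b := T)).exists_bound_of_continuousOn
    hA.continuousOn
  set C : ℝ := max C0 0 with hCdef
  have hC : 0 ≤ C := le_max_right _ _
  have hb : ∀ s ∈ Icc (-T) T, ‖A s‖ ≤ C := fun s hs => (hC0 s hs).trans (le_max_left _ _)
  have hbd := olin_bd A hA x T C hC hb
  have ht : t ∈ Ioo (-T) T := by
    rw [hT]
    exact ⟨by linarith [neg_abs_le t], by linarith [le_abs_self t]⟩
  -- the majorant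
  have hbd2 : ∀ n, ∀ s ∈ Icc (-T) T, ‖olinIt A x n s‖ ≤ ‖x‖ * ((C * T) ^ n / (n.factorial : ℝ)) := by
    intro n s hs
    refine (hbd n s hs).trans (mul_le_mul_of_nonneg_left ?_ (norm_nonneg x))
    rw [mul_pow]
    refine div_le_div_of_nonneg_right ?_ (by positivity)
    refine mul_le_mul_of_nonneg_left ?_ (pow_nonneg hC n)
    exact pow_le_pow_left₀ (abs_nonneg s) (abs_le.2 hs) n
  have hsum0 : Summable fun n : ℕ => ‖x‖ * ((C * T) ^ n / (n.factorial : ℝ)) :=
    (Real.summable_pow_div_factorial (C * T)).mul_left _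
  have hsφ : ∀ s ∈ Icc (-T) T, Summable fun n => olinIt A x n s := fun s hs =>
    Summable.of_norm_bounded hsum0 (fun n => hbd2 n s hs)
  -- derivatives
  set g' : ℕ → ℝ → F := fun n s => Nat.rec 0 (fun k _ => A s (olinIt A x k s)) n with hg'
  have hg'0 : ∀ s, g' 0 s = 0 := fun s => rfl
  have hg's : ∀ n s, g' (n + 1) s = A s (olinIt A x n s) := fun n s => rfl
  set u : ℕ → ℝ := fun n => Nat.rec 0 (fun k _ => C * (‖x‖ * ((C * T) ^ k / (k.factorial : ℝ)))) n
    with hu
  have hus : ∀ n, u (n + 1) = C * (‖x‖ * ((C * T) ^ n / (n.factorial : ℝ))) := fun n => rfl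
  have husum : Summable u := by
    rw [← summable_nat_add_iff 1]
    exact hsum0.mul_left C
  have hder : ∀ n s, s ∈ Ioo (-T) T → HasDerivAt (olinIt A x n) (g' n s) s := by
    intro n s _
    cases n with
    | zero => exact hasDerivAt_const s x
    | succ n => exact olin_deriv A hA x n s
  have hg'b : ∀ n s, s ∈ Ioo (-T) T → ‖g' n s‖ ≤ u n := by
    intro n s hs
    have hs' : s ∈ Icc (-T) T := Ioo_subset_Icc_self hs
    cases n with
    | zero =>
      rw [hg'0, norm_zero]
      exact le_refl (0 : ℝ)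
    | succ n =>
      rw [hg's, hus]
      exact ((A s).le_opNorm _).trans (mul_le_mul (hb s hs') (hbd2 n s hs') (norm_nonneg _) hC)
  have hmain := hasDerivAt_tsum_of_isPreconnected husum isOpen_Ioo isPreconnected_Ioo hder hg'b ht
    (hsφ t (Ioo_subset_Icc_self ht)) ht
  have heq : ∑' n, g' n t = A t (∑' n, olinIt A x n t) := by
    have hs1 : Summable fun n => g' n t := Summable.of_norm_bounded husum (fun n => hg'b n t ht)
    rw [hs1.tsum_eq_zero_add, hg'0, zero_add]
    simp only [hg's]
    exact ((A t).map_tsum (hsφ t (Ioo_subset_Icc_self ht))).symm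
  rw [heq] at hmain
  exact hmain

end

end Pool.Agent.Work.MP_275abe_gt
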