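import Pool.Agent.Work.MP_275abe_gt.OLip
import Pool.Agent.Work.MP_275abe_gt.OLin

/-!
C^1 dependence. For fixed z let Y(., z) be the solution of Y' = DZ(Phi t z) o Y, Y(0) = id (lin_exists with F = E ->L E and
A(t) = left composition with DZ(Phi t z)). (1) |Phi t (z + w) - Phi t z - Y(t, z) w| = o(|w|) for every t: for
d(t) = Phi t (z + w) - Phi t z - Y(t, z) w one has |d'| <= C |d| + omega(|w|) |w|, because
|Z(x + u) - Z(x) - DZ(x) u| <= C' |u|^2 on a large ball (Z is C^2) and |Phi t (z + w) - Phi t z| <= C'' |w| (flow_lip);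
Gronwall (Mathlib norm_le_gronwallBound_of_norm_deriv_right_le). (2) Joint continuity of Y: (z, W) -> (Z z, DZ(z) o W) is a
C^1 vector field on E x (E ->L E) whose complete flow is (t, (z, W)) -> (Phi t z, Y(t, z) o W) (IsFlow); apply flow_cont to
it and put W = id.
-/

namespace Pool.Agent.Work.MP_275abe_gt

open MeasureTheory Set
open scoped ContDiff

noncomputable section

/-- the remainder in the Taylor formula is uniformly small along a compact piece of curve -/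
private theorem oc1_unif {E : Type*} [NormedAddCommGroup E] [NormedSpace ℝ E]
    {Z : E → E} (hZ : ContDiff ℝ 1 Z) (c : ℝ → E) (hc : Continuous c) (T ε : ℝ) (hε : 0 < ε) :
    ∀ᶠ u in nhds (0 : E), ∀ s ∈ Icc (-T) T,
      ‖Z (c s + u) - Z (c s) - fderiv ℝ Z (c s) u‖ ≤ ε * ‖u‖ := by
  refine IsCompact.eventually_forall_of_forall_eventually isCompact_Icc fun s₀ _ => ?_
  have hstr : HasStrictFDerivAt Z (fderiv ℝ Z (c s₀)) (c s₀) :=
    (hZ.contDiffAt).hasStrictFDerivAt (by norm_num)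
  have h1 := hstr.isLittleO.def (half_pos hε)
  have hf : Filter.Tendsto (fun p : E × ℝ => (c p.2 + p.1, c p.2)) (nhds (0, s₀))
      (nhds (c s₀, c s₀)) := by
    have hcont : Continuous (fun p : E × ℝ => (c p.2 + p.1, c p.2)) := by fun_prop
    have := hcont.tendsto (0, s₀)
    simpa using this
  have h2 := hf.eventually h1
  have hd : Continuous fun p : E × ℝ => ‖fderiv ℝ Z (c p.2) - fderiv ℝ Z (c s₀)‖ := by
    have h3 : Continuous (fderiv ℝ Z) := hZ.continuous_fderiv (by norm_num)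
    exact ((h3.comp (hc.comp continuous_snd)).sub continuous_const).norm
  have h4 : ∀ᶠ p : E × ℝ in nhds (0, s₀), ‖fderiv ℝ Z (c p.2) - fderiv ℝ Z (c s₀)‖ < ε / 2 := by
    have h5 := hd.tendsto (0, s₀)
    simp only [sub_self, norm_zero] at h5
    exact h5.eventually (gt_mem_nhds (half_pos hε))
  filter_upwards [h2, h4] with p hp1 hp2
  have e1 : c p.2 + p.1 - c p.2 = p.1 := by abel
  have e2 : Z (c p.2 + p.1) - Z (c p.2) - fderiv ℝ Z (c p.2) p.1 =
      (Z (c p.2 + p.1) - Z (c p.2) - fderiv ℝ Z (c s₀) p.1) -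
      (fderiv ℝ Z (c p.2) - fderiv ℝ Z (c s₀)) p.1 := by
    rw [ContinuousLinearMap.sub_apply]
    abel
  rw [e2]
  simp only [e1] at hp1
  calc ‖(Z (c p.2 + p.1) - Z (c p.2) - fderiv ℝ Z (c s₀) p.1) -
      (fderiv ℝ Z (c p.2) - fderiv ℝ Z (c s₀)) p.1‖
      ≤ ‖Z (c p.2 + p.1) - Z (c p.2) - fderiv ℝ Z (c s₀) p.1‖ +
        ‖(fderiv ℝ Z (c p.2) - fderiv ℝ Z (c s₀)) p.1‖ := norm_sub_le _ _
    _ ≤ ε / 2 * ‖p.1‖ + ‖fderiv ℝ Z (c p.2) - fderiv ℝ Z (c s₀)‖ * ‖p.1‖ :=
        add_le_add hp1 (ContinuousLinearMap.le_opNorm _ _)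
    _ ≤ ε / 2 * ‖p.1‖ + ε / 2 * ‖p.1‖ := by
        have := mul_le_mul_of_nonneg_right hp2.le (norm_nonneg p.1)
        linarith
    _ = ε * ‖p.1‖ := by ring

/-- Gronwall in both directions -/
private theorem oc1_gron {E : Type*} [NormedAddCommGroup E] [NormedSpace ℝ E]
    (d d' : ℝ → E) (T C ε : ℝ) (hC : 0 < C) (hε : 0 ≤ ε) (hd0 : d 0 = 0)
    (hd : ∀ s, HasDerivAt d (d' s) s) (hb : ∀ s ∈ Icc (-T) T, ‖d' s‖ ≤ C * ‖d s‖ + ε) :
    ∀ s ∈ Icc (-T) T, ‖d s‖ ≤ ε * (Real.exp (C * T) / C) := by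
  have hval : ∀ x, x ≤ T → gronwallBound 0 C ε x ≤ ε * (Real.exp (C * T) / C) := by
    intro x hx
    simp only [gronwallBound_of_K_ne_0 hC.ne', zero_mul, zero_add]
    have h1 : Real.exp (C * x) - 1 ≤ Real.exp (C * T) := by
      have : Real.exp (C * x) ≤ Real.exp (C * T) :=
        Real.exp_le_exp.2 (mul_le_mul_of_nonneg_left hx hC.le)
      linarith
    calc ε / C * (Real.exp (C * x) - 1) ≤ ε / C * Real.exp (C * T) :=
          mul_le_mul_of_nonneg_left h1 (by positivity)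
      _ = _ := by ring
  intro s hs
  rcases le_total 0 s with h0 | h0
  · have hT : (0 : ℝ) ≤ T := h0.trans hs.2
    have := norm_le_gronwallBound_of_norm_deriv_right_le (f := d) (f' := d') (δ := 0) (K := C)
      (ε := ε) (a := 0) (b := T) (fun x _ => (hd x).continuousAt.continuousWithinAt)
      (fun x _ => (hd x).hasDerivWithinAt) (by rw [hd0, norm_zero])
      (fun x hx => hb x ⟨by linarith [hx.1], hx.2.le⟩) s ⟨h0, hs.2⟩
    rw [sub_zero] at this
    exact this.trans (hval s hs.2)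
  · have hT : (0 : ℝ) ≤ T := by linarith [hs.1]
    have hd2 : ∀ x, HasDerivAt (fun x => d (-x)) (-d' (-x)) x := by
      intro x
      have h1 := (hd (-x)).scomp x (hasDerivAt_neg x)
      rw [neg_smul, one_smul] at h1
      exact h1
    have := norm_le_gronwallBound_of_norm_deriv_right_le (f := fun x => d (-x))
      (f' := fun x => -d' (-x)) (δ := 0) (K := C)
      (ε := ε) (a := 0) (b := T) (fun x _ => (hd2 x).continuousAt.continuousWithinAt)
      (fun x _ => (hd2 x).hasDerivWithinAt) (by rw [neg_zero, hd0, norm_zero])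
      (fun x hx => by
        rw [norm_neg]
        exact hb (-x) ⟨by linarith [hx.2], by linarith [hx.1]⟩) (-s)
      ⟨by linarith, by linarith [hs.1]⟩
    rw [sub_zero, neg_neg] at this
    exact this.trans (hval (-s) (by linarith [hs.1]))

private theorem oc1_diff {E : Type*} [NormedAddCommGroup E] [NormedSpace ℝ E]
    [FiniteDimensional ℝ E] {Z : E → E} (hZ : ContDiff ℝ 1 Z) {Φ : ℝ → E → E} (hΦ : IsFlow Z Φ)
    (z : E) (Y : ℝ → E →L[ℝ] E) (hY0 : Y 0 = ContinuousLinearMap.id ℝ E)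
    (hY : ∀ t, HasDerivAt Y ((fderiv ℝ Z (Φ t z)).comp (Y t)) t) (t : ℝ) :
    HasFDerivAt (Φ t) (Y t) z := by
  have hcc : Continuous fun s => Φ s z := by
    rw [continuous_iff_continuousAt]
    exact fun s => (hΦ.2 z s).continuousAt
  obtain ⟨δ, hδ, L, hL, hlip⟩ := flow_lip hZ hΦ |t| z
  obtain ⟨C0, hC0⟩ := (isCompact_Icc (a := -|t|) (b := |t|)).exists_bound_of_continuousOn
    (f := fun s => fderiv ℝ Z (Φ s z))
    ((hZ.continuous_fderiv (by norm_num)).comp hcc).continuousOn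
  set C : ℝ := max C0 1 with hCdef
  have hC : 0 < C := lt_of_lt_of_le one_pos (le_max_right _ _)
  set M : ℝ := Real.exp (C * |t|) / C with hM
  have hMpos : 0 < M := by positivity
  rw [hasFDerivAt_iff_isLittleO_nhds_zero, Asymptotics.isLittleO_iff]
  intro e he
  -- choose the accuracy
  set ε : ℝ := e / ((L + 1) * M) with hεdef
  have hε : 0 < ε := by positivity
  have hun := oc1_unif hZ (fun s => Φ s z) hcc |t| ε hε
  rw [Metric.eventually_nhds_iff] at hun
  obtain ⟨ρ, hρ, hun⟩ := hun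
  have hev1 : ∀ᶠ w in nhds (0 : E), ‖w‖ < δ := by
    have := (continuous_norm (E := E)).tendsto 0
    rw [norm_zero] at this
    exact this.eventually (gt_mem_nhds hδ)
  have hev2 : ∀ᶠ w in nhds (0 : E), (L + 1) * ‖w‖ < ρ := by
    have h1 : Continuous fun w : E => (L + 1) * ‖w‖ := by fun_prop
    have := h1.tendsto 0
    rw [norm_zero, mul_zero] at this
    exact this.eventually (gt_mem_nhds hρ)
  filter_upwards [hev1, hev2] with w hw1 hw2
  have hΦb : ∀ s ∈ Icc (-|t|) |t|, ‖Φ s (z + w) - Φ s z‖ ≤ L * ‖w‖ := by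
    intro s hs
    have := hlip (z + w) (by rw [mem_ball_iff_norm, add_sub_cancel_left]; exact hw1) z
      (Metric.mem_ball_self hδ) s (abs_le.2 hs)
    rwa [add_sub_cancel_left] at this
  have hwn : 0 ≤ ‖w‖ := norm_nonneg w
  have hder : ∀ s, HasDerivAt (fun s => Φ s (z + w) - Φ s z - Y s w)
      (Z (Φ s (z + w)) - Z (Φ s z) - (fderiv ℝ Z (Φ s z)) (Y s w)) s := by
    intro s
    have h1 := (hΦ.2 (z + w) s).sub (hΦ.2 z s)
    have h2 : HasDerivAt (fun s => Y s w) (((fderiv ℝ Z (Φ s z)).comp (Y s)) w) s := by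
      have h3 := (hY s).clm_apply (hasDerivAt_const s w)
      simpa using h3
    exact h1.sub h2
  have hg := oc1_gron (fun s => Φ s (z + w) - Φ s z - Y s w)
    (fun s => Z (Φ s (z + w)) - Z (Φ s z) - (fderiv ℝ Z (Φ s z)) (Y s w)) |t| C
    (ε * ((L + 1) * ‖w‖)) hC (by positivity) (by rw [hΦ.1, hΦ.1, hY0]; simp) hder
    (fun s hs => by
      set u := Φ s (z + w) - Φ s z with hu
      have hun1 : ‖u‖ ≤ (L + 1) * ‖w‖ := (hΦb s hs).trans (by nlinarith)
      have h1 := hun (y := u) (by rw [dist_zero_right]; linarith) s hs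
      have e1 : Φ s z + u = Φ s (z + w) := by rw [hu]; abel
      simp only [e1] at h1
      have e2 : Z (Φ s (z + w)) - Z (Φ s z) - (fderiv ℝ Z (Φ s z)) (Y s w) =
          (Z (Φ s (z + w)) - Z (Φ s z) - (fderiv ℝ Z (Φ s z)) u) +
          (fderiv ℝ Z (Φ s z)) (u - Y s w) := by
        rw [(fderiv ℝ Z (Φ s z)).map_sub u (Y s w)]
        abel
      show ‖Z (Φ s (z + w)) - Z (Φ s z) - (fderiv ℝ Z (Φ s z)) (Y s w)‖ ≤
        C * ‖u - Y s w‖ + ε * ((L + 1) * ‖w‖)
      rw [e2]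
      refine (norm_add_le _ _).trans ?_
      have h2 : ‖(fderiv ℝ Z (Φ s z)) (u - Y s w)‖ ≤ C * ‖u - Y s w‖ :=
        (ContinuousLinearMap.le_opNorm _ _).trans
          (mul_le_mul_of_nonneg_right ((hC0 s hs).trans (le_max_left _ _)) (norm_nonneg _))
      have h3 : ε * ‖u‖ ≤ ε * ((L + 1) * ‖w‖) := mul_le_mul_of_nonneg_left hun1 hε.le
      linarith) t (abs_le.1 le_rfl)
  refine hg.trans (le_of_eq ?_)
  rw [← hM, hεdef]
  field_simp

theorem flow_c1 {E : Type*} [NormedAddCommGroup E] [NormedSpace ℝ E] [FiniteDimensional ℝ E]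
    {Z : E → E} (hZ : ContDiff ℝ 2 Z) {Φ : ℝ → E → E} (hΦ : IsFlow Z Φ) :
    ∃ Y : ℝ → E → (E →L[ℝ] E), Continuous (fun y : ℝ × E => Y y.1 y.2) ∧
      (∀ t z, HasFDerivAt (Φ t) (Y t z) z) ∧ (∀ z, Y 0 z = ContinuousLinearMap.id ℝ E) ∧
      ∀ z t, HasDerivAt (fun s => Y s z) ((fderiv ℝ Z (Φ t z)).comp (Y t z)) t := by
  have hZ1 : ContDiff ℝ 1 Z := hZ.of_le (by norm_num)
  have hcc : ∀ z, Continuous fun s => Φ s z := by
    intro z
    rw [continuous_iff_continuousAt]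
    exact fun s => (hΦ.2 z s).continuousAt
  have hcomplete : CompleteSpace E := FiniteDimensional.complete ℝ E
  have hex : ∀ z, ∃ γ : ℝ → (E →L[ℝ] E), γ 0 = ContinuousLinearMap.id ℝ E ∧
      ∀ t, HasDerivAt γ ((fderiv ℝ Z (Φ t z)).comp (γ t)) t := by
    intro z
    have hA : Continuous fun t => ContinuousLinearMap.compL ℝ E E E (fderiv ℝ Z (Φ t z)) :=
      (ContinuousLinearMap.compL ℝ E E E).continuous.comp
        ((hZ1.continuous_fderiv (by norm_num)).comp (hcc z))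
    obtain ⟨γ, h0, h1⟩ := lin_exists _ hA (ContinuousLinearMap.id ℝ E)
    exact ⟨γ, h0, fun t => h1 t⟩
  choose γ hγ0 hγ using hex
  refine ⟨fun t z => γ z t, ?_, fun t z => oc1_diff hZ1 hΦ z (γ z) (hγ0 z) (hγ z) t, hγ0, hγ⟩
  -- the extended field
  have hZ2 : ContDiff ℝ 1 (fun p : E × (E →L[ℝ] E) => (Z p.1, (fderiv ℝ Z p.1).comp p.2)) := by
    refine (hZ1.comp contDiff_fst).prodMk ?_
    have h1 : ContDiff ℝ 1 (fderiv ℝ Z) := hZ.fderiv_right (by norm_num)
    exact (h1.comp contDiff_fst).clm_comp contDiff_snd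
  have hfl : IsFlow (fun p : E × (E →L[ℝ] E) => (Z p.1, (fderiv ℝ Z p.1).comp p.2))
      (fun t p => (Φ t p.1, (γ p.1 t).comp p.2)) := by
    constructor
    · rintro ⟨z, W⟩
      show (Φ 0 z, (γ z 0).comp W) = (z, W)
      rw [hΦ.1, hγ0, ContinuousLinearMap.id_comp]
    · rintro ⟨z, W⟩ t
      refine (hΦ.2 z t).prodMk ?_
      have h1 := (hγ z t).clm_comp (hasDerivAt_const t W)
      have h2 : ((fderiv ℝ Z (Φ t z)).comp (γ z t)).comp W + (γ z t).comp (0 : E →L[ℝ] E) =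
          (fderiv ℝ Z (Φ t z)).comp ((γ z t).comp W) := by
        rw [ContinuousLinearMap.comp_zero, add_zero]
        rfl
      rw [h2] at h1
      exact h1
  have hcont := flow_cont hZ2 hfl
  have h1 : Continuous fun y : ℝ × E =>
      ((Φ y.1 y.2, (γ y.2 y.1).comp (ContinuousLinearMap.id ℝ E)) : E × (E →L[ℝ] E)) :=
    hcont.comp (f := fun y : ℝ × E => ((y.1, (y.2, ContinuousLinearMap.id ℝ E)) :
      ℝ × (E × (E →L[ℝ] E)))) (by fun_prop)
  have h2 := continuous_snd.comp h1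
  exact h2

end

end Pool.Agent.Work.MP_275abe_gt
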