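import Pool.Agent.Work.MP_275abe_gt.OUniq

/-!
Local Lipschitz dependence on the initial value. Fix z0 and T. The curve Phi([-T, T], z0) is compact; on a large
ball B (convex, compact closure) which contains its 1-neighbourhood Z is C-Lipschitz. For |z - z0| < exp(-C T) / 2 the
curve of z stays in the 1-neighbourhood for |t| <= T (exit time argument with Gronwall, Mathlib
dist_le_of_trajectories_ODE_of_mem; negative times with -Z), so |Phi t z - Phi t z'| <= exp(C T) |z - z'| for two such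
points. Continuity follows.
-/

namespace Pool.Agent.Work.MP_275abe_gt

open MeasureTheory Set
open scoped ContDiff

noncomputable section

private lemma flow_lip_fwd {E : Type*} [NormedAddCommGroup E] [NormedSpace ℝ E]
    [FiniteDimensional ℝ E] {Z : E → E} (hZ : ContDiff ℝ 1 Z) {Φ : ℝ → E → E} (hΦ : IsFlow Z Φ)
    (T : ℝ) (hT : 0 ≤ T) (z₀ : E) :
    ∃ δ > 0, ∃ C ≥ 0, ∀ z ∈ Metric.ball z₀ δ, ∀ z' ∈ Metric.ball z₀ δ, ∀ t ∈ Icc 0 T,
      ‖Φ t z - Φ t z'‖ ≤ C * ‖z - z'‖ := by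
  haveI : ProperSpace E := FiniteDimensional.proper ℝ E
  have hcont : ∀ z, Continuous fun t => Φ t z := fun z =>
    continuous_iff_continuousAt.2 fun t => (hΦ.2 z t).continuousAt
  obtain ⟨R, hR⟩ := (isCompact_Icc (a := (0 : ℝ)) (b := T)).exists_bound_of_continuousOn
    (hcont z₀).continuousOn
  obtain ⟨K, hK⟩ := hZ.contDiffOn.exists_lipschitzOnWith (s := Metric.closedBall (0 : E) (R + 1))
    one_ne_zero (convex_closedBall _ _) (isCompact_closedBall _ _)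
  have hexp : 0 < Real.exp (K * T) := Real.exp_pos _
  -- the basic estimate as long as the curves stay in the ball
  have hgr : ∀ z z' : E, ∀ t₁, 0 ≤ t₁ → t₁ ≤ T →
      (∀ t ∈ Ico 0 t₁, Φ t z ∈ Metric.closedBall (0 : E) (R + 1)) →
      (∀ t ∈ Ico 0 t₁, Φ t z' ∈ Metric.closedBall (0 : E) (R + 1)) →
      ‖Φ t₁ z - Φ t₁ z'‖ ≤ Real.exp (K * T) * ‖z - z'‖ := by
    intro z z' t₁ h0 h1 hz hz'
    have := dist_le_of_trajectories_ODE_of_mem (v := fun _ => Z) (K := K)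
      (s := fun _ => Metric.closedBall (0 : E) (R + 1)) (f := fun t => Φ t z)
      (g := fun t => Φ t z') (a := 0) (b := t₁) (δ := ‖z - z'‖) (fun _ _ => hK)
      (hcont z).continuousOn (fun t _ => (hΦ.2 z t).hasDerivWithinAt) hz
      (hcont z').continuousOn (fun t _ => (hΦ.2 z' t).hasDerivWithinAt) hz'
      (by rw [hΦ.1, hΦ.1, dist_eq_norm]) t₁ ⟨h0, le_rfl⟩
    rw [dist_eq_norm, sub_zero] at this
    refine this.trans ?_
    rw [mul_comm]
    refine mul_le_mul_of_nonneg_right (Real.exp_le_exp.2 ?_) (norm_nonneg _)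
    exact mul_le_mul_of_nonneg_left h1 K.2
  -- curves starting close to `z₀` stay in the ball
  have hstay : ∀ z ∈ Metric.ball z₀ (Real.exp (K * T))⁻¹, ∀ t ∈ Icc 0 T,
      Φ t z ∈ Metric.closedBall (0 : E) (R + 1) := by
    intro z hz
    have hz0 : Real.exp (K * T) * ‖z - z₀‖ < 1 := by
      rw [Metric.mem_ball, dist_eq_norm] at hz
      calc Real.exp (K * T) * ‖z - z₀‖ < Real.exp (K * T) * (Real.exp (K * T))⁻¹ :=
            mul_lt_mul_of_pos_left hz hexp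
        _ = 1 := mul_inv_cancel₀ hexp.ne'
    have hin : ∀ t ∈ Icc 0 T, ‖Φ t z - Φ t z₀‖ < 1 →
        Φ t z ∈ Metric.closedBall (0 : E) (R + 1) := by
      intro t ht h
      rw [mem_closedBall_zero_iff]
      calc ‖Φ t z‖ = ‖Φ t z₀ + (Φ t z - Φ t z₀)‖ := by rw [add_sub_cancel]
        _ ≤ ‖Φ t z₀‖ + ‖Φ t z - Φ t z₀‖ := norm_add_le _ _
        _ ≤ R + 1 := add_le_add (hR t ht) h.le
    suffices h : ∀ t ∈ Icc 0 T, ‖Φ t z - Φ t z₀‖ < 1 from fun t ht => hin t ht (h t ht)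
    by_contra hcon
    push Not at hcon
    obtain ⟨t₂, ht₂, hge⟩ := hcon
    set S : Set ℝ := {t | t ∈ Icc 0 T ∧ 1 ≤ ‖Φ t z - Φ t z₀‖} with hS
    have hSc : IsClosed S := by
      have h1 : IsClosed {t : ℝ | 1 ≤ ‖Φ t z - Φ t z₀‖} :=
        isClosed_le continuous_const ((hcont z).sub (hcont z₀)).norm
      exact isClosed_Icc.inter h1
    have hSne : S.Nonempty := ⟨t₂, ht₂, hge⟩
    have hSb : BddBelow S := ⟨0, fun t ht => ht.1.1⟩
    have hm : sInf S ∈ S := hSc.csInf_mem hSne hSb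
    have hbelow : ∀ t ∈ Ico 0 (sInf S), ‖Φ t z - Φ t z₀‖ < 1 := by
      intro t ht
      by_contra h
      exact absurd (csInf_le hSb ⟨⟨ht.1, ht.2.le.trans hm.1.2⟩, not_lt.1 h⟩) (not_le.2 ht.2)
    have h2 := hgr z z₀ (sInf S) hm.1.1 hm.1.2
      (fun t ht => hin t ⟨ht.1, ht.2.le.trans hm.1.2⟩ (hbelow t ht))
      (fun t ht => by
        rw [mem_closedBall_zero_iff]
        exact (hR t ⟨ht.1, ht.2.le.trans hm.1.2⟩).trans (by linarith))
    exact absurd (hm.2.trans h2) (not_le.2 hz0)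
  refine ⟨(Real.exp (K * T))⁻¹, inv_pos.2 hexp, Real.exp (K * T), hexp.le, fun z hz z' hz' t ht => ?_⟩
  exact hgr z z' t ht.1 ht.2 (fun u hu => hstay z hz u ⟨hu.1, hu.2.le.trans ht.2⟩)
    (fun u hu => hstay z' hz' u ⟨hu.1, hu.2.le.trans ht.2⟩)

theorem flow_lip {E : Type*} [NormedAddCommGroup E] [NormedSpace ℝ E] [FiniteDimensional ℝ E]
    {Z : E → E} (hZ : ContDiff ℝ 1 Z) {Φ : ℝ → E → E} (hΦ : IsFlow Z Φ) (T : ℝ) (z₀ : E) :
    ∃ δ > 0, ∃ C ≥ 0, ∀ z ∈ Metric.ball z₀ δ, ∀ z' ∈ Metric.ball z₀ δ, ∀ t, |t| ≤ T →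
      ‖Φ t z - Φ t z'‖ ≤ C * ‖z - z'‖ := by
  by_cases hT : 0 ≤ T
  · obtain ⟨δ₁, hδ₁, C₁, hC₁, h₁⟩ := flow_lip_fwd hZ hΦ T hT z₀
    have hΦ' : IsFlow (fun z => -Z z) (fun t => Φ (-t)) := by
      refine ⟨fun z => by simp only [neg_zero]; exact hΦ.1 z, fun z t => ?_⟩
      have := (hΦ.2 z (-t)).scomp t (hasDerivAt_neg t)
      simpa [Function.comp_def] using this
    obtain ⟨δ₂, hδ₂, C₂, hC₂, h₂⟩ := flow_lip_fwd hZ.neg hΦ' T hT z₀
    refine ⟨min δ₁ δ₂, lt_min hδ₁ hδ₂, max C₁ C₂, le_max_of_le_left hC₁, ?_⟩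
    intro z hz z' hz' t ht
    have hz1 : z ∈ Metric.ball z₀ δ₁ := Metric.ball_subset_ball (min_le_left _ _) hz
    have hz2 : z ∈ Metric.ball z₀ δ₂ := Metric.ball_subset_ball (min_le_right _ _) hz
    have hz1' : z' ∈ Metric.ball z₀ δ₁ := Metric.ball_subset_ball (min_le_left _ _) hz'
    have hz2' : z' ∈ Metric.ball z₀ δ₂ := Metric.ball_subset_ball (min_le_right _ _) hz'
    rcases le_total 0 t with h | h
    · rw [abs_of_nonneg h] at ht
      exact (h₁ z hz1 z' hz1' t ⟨h, ht⟩).trans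
        (mul_le_mul_of_nonneg_right (le_max_left _ _) (norm_nonneg _))
    · rw [abs_of_nonpos h] at ht
      have := h₂ z hz2 z' hz2' (-t) ⟨neg_nonneg.2 h, ht⟩
      simp only [neg_neg] at this
      exact this.trans (mul_le_mul_of_nonneg_right (le_max_right _ _) (norm_nonneg _))
  · refine ⟨1, one_pos, 0, le_rfl, fun z _ z' _ t ht => ?_⟩
    exact absurd ((abs_nonneg t).trans ht) hT

theorem flow_cont {E : Type*} [NormedAddCommGroup E] [NormedSpace ℝ E] [FiniteDimensional ℝ E]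
    {Z : E → E} (hZ : ContDiff ℝ 1 Z) {Φ : ℝ → E → E} (hΦ : IsFlow Z Φ) :
    Continuous fun y : ℝ × E => Φ y.1 y.2 := by
  rw [continuous_iff_continuousAt]
  rintro ⟨t₀, z₀⟩
  obtain ⟨δ, hδ, C, hC, h⟩ := flow_lip hZ hΦ (|t₀| + 1) z₀
  have h1 : Filter.Tendsto (fun y : ℝ × E => C * ‖y.2 - z₀‖ + ‖Φ y.1 z₀ - Φ t₀ z₀‖)
      (nhds (t₀, z₀)) (nhds 0) := by
    have hc : Continuous fun t => Φ t z₀ :=
      continuous_iff_continuousAt.2 fun t => (hΦ.2 z₀ t).continuousAt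
    have : Continuous fun y : ℝ × E => C * ‖y.2 - z₀‖ + ‖Φ y.1 z₀ - Φ t₀ z₀‖ := by
      have h2 : Continuous fun y : ℝ × E => Φ y.1 z₀ := hc.comp continuous_fst
      fun_prop
    have h3 := this.tendsto (t₀, z₀)
    simpa using h3
  have h2 : ∀ᶠ y : ℝ × E in nhds (t₀, z₀),
      ‖Φ y.1 y.2 - Φ t₀ z₀‖ ≤ C * ‖y.2 - z₀‖ + ‖Φ y.1 z₀ - Φ t₀ z₀‖ := by
    have ha : ∀ᶠ y : ℝ × E in nhds (t₀, z₀), y.2 ∈ Metric.ball z₀ δ :=
      (continuous_snd.tendsto (t₀, z₀)) (Metric.ball_mem_nhds _ hδ)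
    have hb : ∀ᶠ y : ℝ × E in nhds (t₀, z₀), |y.1| < |t₀| + 1 := by
      have : Continuous fun y : ℝ × E => |y.1| := continuous_fst.abs
      exact this.tendsto (t₀, z₀) (Iio_mem_nhds (by simp))
    filter_upwards [ha, hb] with y hy hy'
    calc ‖Φ y.1 y.2 - Φ t₀ z₀‖ = ‖(Φ y.1 y.2 - Φ y.1 z₀) + (Φ y.1 z₀ - Φ t₀ z₀)‖ := by
          rw [sub_add_sub_cancel]
      _ ≤ ‖Φ y.1 y.2 - Φ y.1 z₀‖ + ‖Φ y.1 z₀ - Φ t₀ z₀‖ := norm_add_le _ _
      _ ≤ _ := add_le_add_left (h y.2 hy z₀ (Metric.mem_ball_self hδ) y.1 hy'.le) _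
  show Filter.Tendsto _ _ _
  rw [tendsto_iff_norm_sub_tendsto_zero]
  exact squeeze_zero' (Filter.Eventually.of_forall fun _ => norm_nonneg _) h2 h1

end

end Pool.Agent.Work.MP_275abe_gt
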