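import Pool.Agent.Work.MP_275abe_gt.ActP
import Pool.Agent.Work.MP_275abe_gt.FunD

/-!
The measure on invariant sets. qMu A = mu (A ∩ shell ∩ {v | v.1 ∈ D}) for invariant Borel A (trim). Finite: D is bounded
and the vectors of speed < 2 over D are bounded (compactness of the closure of D). qMu_pres: Γ acts on tangent vectors by act,
preserving mu, and {v | v.1 ∈ D} is a fundamental domain (Mathlib IsFundamentalDomain; countable_group); T commutes with the
action and preserves mu, so T⁻¹{v | v.1 ∈ D} is one too, and for invariant A: mu (A ∩ s) = mu (A ∩ t) for two fundamental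
domains s, t (IsFundamentalDomain.measure_set_eq).
-/

namespace Pool.Agent.Work.MP_275abe_gt

open MeasureTheory Set
open scoped ContDiff Pointwise

noncomputable section

theorem qMu_apply {G : Met} {Γ : Subgroup (Equiv.Perm Pt)} (D : Set Pt) {A : Set (Pt × Pt)}
    (hA : MeasurableSet[invMS Γ] A) :
    qMu G Γ D A = ((mu G).restrict (shell G ∩ {v | v.1 ∈ D})) A :=
  trim_measurableSet_eq (invMS_le Γ) hA

private theorem quoa_shell (G : Met) : MeasurableSet (shell G) :=
  ((sp_cont G).measurable measurableSet_Ici).inter ((sp_cont G).measurable measurableSet_Iio)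

private theorem quoa_base {D : Set Pt} (hD : MeasurableSet D) :
    MeasurableSet {v : Pt × Pt | v.1 ∈ D} := measurable_fst hD

private theorem quoa_fin (G : Met) {D : Set Pt} (hD : Bornology.IsBounded D) :
    mu G (shell G ∩ {v | v.1 ∈ D}) < ⊤ := by
  have hK : IsCompact (closure D) := hD.isCompact_closure
  obtain ⟨m, hm, hmb⟩ : ∃ m : ℝ, 0 < m ∧ ∀ x ∈ closure D, ∀ u : Pt, ‖u‖ = 1 → m ≤ sp G (x, u) := by
    rcases (closure D ×ˢ Metric.sphere (0 : Pt) 1).eq_empty_or_nonempty with he | hne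
    · refine ⟨1, one_pos, fun x hx u hu => ?_⟩
      have : (x, u) ∈ closure D ×ˢ Metric.sphere (0 : Pt) 1 :=
        ⟨hx, by rw [mem_sphere_zero_iff_norm]; exact hu⟩
      rw [he] at this
      exact absurd this (notMem_empty _)
    · obtain ⟨z, hz, hmin⟩ := (hK.prod (isCompact_sphere (0 : Pt) 1)).exists_isMinOn hne
        (sp_cont G).continuousOn
      refine ⟨sp G z, sp_pos G z ?_, fun x hx u hu => ?_⟩
      · intro h0
        have h1 := mem_sphere_zero_iff_norm.1 hz.2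
        rw [h0, norm_zero] at h1
        exact zero_ne_one h1
      · exact hmin ⟨hx, by rw [mem_sphere_zero_iff_norm]; exact hu⟩
  have hsub : shell G ∩ {v : Pt × Pt | v.1 ∈ D} ⊆
      closure D ×ˢ Metric.closedBall (0 : Pt) (2 / m) := by
    rintro ⟨x, u⟩ ⟨h1, h2⟩
    refine ⟨subset_closure h2, ?_⟩
    rw [mem_closedBall_zero_iff]
    by_cases hu : u = 0
    · rw [hu, norm_zero]
      positivity
    · have hn : 0 < ‖u‖ := norm_pos_iff.2 hu
      have e1 : sp G (x, u) = ‖u‖ * sp G (x, ‖u‖⁻¹ • u) := by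
        rw [sp_smul, abs_of_pos (inv_pos.2 hn), ← mul_assoc, mul_inv_cancel₀ hn.ne', one_mul]
      have e2 := hmb x (subset_closure h2) (‖u‖⁻¹ • u) (by
        rw [norm_smul, norm_inv, norm_norm, inv_mul_cancel₀ hn.ne'])
      have e3 : sp G (x, u) < 2 := h1.2
      rw [le_div_iff₀ hm]
      calc ‖u‖ * m ≤ ‖u‖ * sp G (x, ‖u‖⁻¹ • u) := mul_le_mul_of_nonneg_left e2 hn.le
        _ = sp G (x, u) := e1.symm
        _ ≤ 2 := e3.le
  have hC : IsCompact (closure D ×ˢ Metric.closedBall (0 : Pt) (2 / m)) :=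
    hK.prod (isCompact_closedBall _ _)
  refine (measure_mono hsub).trans_lt ?_
  rw [mu, withDensity_apply _ hC.measurableSet]
  exact setLIntegral_lt_top_of_isCompact hC.measure_lt_top.ne hC
    (f := fun v : Pt × Pt => (dt G v.1).toNNReal)
    (continuous_real_toNNReal.comp ((dt_smooth G).continuous.comp continuous_fst))

theorem qMu_fin {G : Met} {Γ : Subgroup (Equiv.Perm Pt)} (hΓ : IsClosedSurf G Γ) {D : Set Pt}
    (hD : IsFD Γ D) : @IsFiniteMeasure (Pt × Pt) (invMS Γ) (qMu G Γ D) := by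
  have h1 : IsFiniteMeasure ((mu G).restrict (shell G ∩ {v | v.1 ∈ D})) := by
    refine ⟨?_⟩
    rw [Measure.restrict_apply_univ]
    exact quoa_fin G hD.2.1
  exact isFiniteMeasure_trim (invMS_le Γ)

/-- tangent vectors, a copy of the type (the type itself has another action of Γ). -/
private def quoa_TV : Type := Pt × Pt

private instance : MeasurableSpace quoa_TV := inferInstanceAs (MeasurableSpace (Pt × Pt))

/-- the action of the group on tangent vectors. -/
@[reducible] private def quoa_act {G : Met} {Γ : Subgroup (Equiv.Perm Pt)}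
    (hΓ : IsClosedSurf G Γ) : MulAction Γ quoa_TV where
  smul f v := act f.1 v
  one_smul v := act_one v
  mul_smul f g v := act_mul (hΓ.smooth f.1 f.2) (hΓ.smooth g.1 g.2) v

private def quoa_mu (G : Met) : Measure quoa_TV := mu G

private theorem quoa_meas1 {G : Met} {Γ : Subgroup (Equiv.Perm Pt)} (hΓ : IsClosedSurf G Γ) :
    let _ := quoa_act hΓ
    MeasurableConstSMul Γ quoa_TV := by
  intro _
  exact ⟨fun f => (act_pres hΓ f.1 f.2).measurable⟩

private theorem quoa_meas2 {G : Met} {Γ : Subgroup (Equiv.Perm Pt)} (hΓ : IsClosedSurf G Γ) :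
    let _ := quoa_act hΓ
    SMulInvariantMeasure Γ quoa_TV (quoa_mu G) := by
  intro _
  exact ⟨fun f s hs => (act_pres hΓ f.1 f.2).measure_preimage hs.nullMeasurableSet⟩

private theorem quoa_fd {G : Met} {Γ : Subgroup (Equiv.Perm Pt)} (hΓ : IsClosedSurf G Γ)
    {D : Set Pt} (hD : IsFD Γ D) {T : Pt × Pt → Pt × Pt} (hT : Measurable T)
    (he : ∀ f ∈ Γ, ∀ v, T (act f v) = act f (T v)) :
    let _ := quoa_act hΓ
    IsFundamentalDomain Γ (T ⁻¹' {v : Pt × Pt | v.1 ∈ D} : Set quoa_TV) (quoa_mu G) := by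
  intro _
  refine IsFundamentalDomain.mk' ?_ fun v => ?_
  · exact MeasurableSet.nullMeasurableSet (hT (quoa_base hD.1))
  obtain ⟨f, ⟨hf, hfD⟩, huniq⟩ := hD.2.2 (T v).1
  have hval : ∀ g : Γ, (g • v ∈ (T ⁻¹' {v : Pt × Pt | v.1 ∈ D} : Set quoa_TV)) ↔
      g.1 (T v).1 ∈ D := by
    intro g
    have e1 : T (g • v) = act g.1 (T v) := he g.1 g.2 v
    change (T (g • v)).1 ∈ D ↔ _
    rw [e1]
    rfl
  exact ⟨⟨f, hf⟩, (hval _).2 hfD, fun g hg => Subtype.ext (huniq g.1 ⟨g.2, (hval g).1 hg⟩)⟩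

private theorem quoa_eq {G : Met} {Γ : Subgroup (Equiv.Perm Pt)} (hΓ : IsClosedSurf G Γ)
    {D : Set Pt} (hD : IsFD Γ D) {T : Pt × Pt → Pt × Pt} (hT : Measurable T)
    (he : ∀ f ∈ Γ, ∀ v, T (act f v) = act f (T v)) {A : Set (Pt × Pt)} (hA : MeasurableSet A)
    (hAi : ∀ f ∈ Γ, act f ⁻¹' A = A) :
    mu G (A ∩ {v : Pt × Pt | v.1 ∈ D}) = mu G (A ∩ T ⁻¹' {v : Pt × Pt | v.1 ∈ D}) := by
  let _ := quoa_act hΓ
  have hcount := countable_group hΓ
  have i1 := quoa_meas1 hΓ
  have i2 := quoa_meas2 hΓ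
  have f1 := quoa_fd hΓ hD (T := id) measurable_id fun _ _ _ => rfl
  have f2 := quoa_fd hΓ hD hT he
  exact f1.measure_set_eq f2 hA fun g => hAi g.1 g.2

private theorem quoa_zero {G : Met} {Γ : Subgroup (Equiv.Perm Pt)} (hΓ : IsClosedSurf G Γ)
    {D : Set Pt} (hD : IsFD Γ D) {A : Set (Pt × Pt)}
    (hAi : ∀ f ∈ Γ, act f ⁻¹' A = A) (h0 : mu G (A ∩ {v : Pt × Pt | v.1 ∈ D}) = 0) :
    mu G A = 0 := by
  let _ := quoa_act hΓ
  have hcount := countable_group hΓ
  have i1 := quoa_meas1 hΓ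
  have i2 := quoa_meas2 hΓ
  have f1 := quoa_fd hΓ hD (T := id) measurable_id fun _ _ _ => rfl
  have key : ∀ A' : Set quoa_TV, (∀ g : Γ, (fun x : quoa_TV => g • x) ⁻¹' A' = A') →
      ∀ g : Γ, g • A' = A' := by
    intro A' h g
    have e2 := h g⁻¹
    rw [preimage_smul, inv_inv] at e2
    exact e2
  exact f1.measure_zero_of_invariant A (key A fun g => hAi g.1 g.2) h0

private theorem quoa_inv {G : Met} {Γ : Subgroup (Equiv.Perm Pt)} (hΓ : IsClosedSurf G Γ)
    (f : Equiv.Perm Pt) (hf : f ∈ Γ) : act f ⁻¹' shell G = shell G := by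
  ext v
  simp only [shell, mem_preimage, mem_ofPred_eq, sp_act G (hΓ.isom f hf)]

theorem qMu_pres {G : Met} {Γ : Subgroup (Equiv.Perm Pt)} (hΓ : IsClosedSurf G Γ) {D : Set Pt}
    (hD : IsFD Γ D) {T S : Pt × Pt → Pt × Pt} (hT : Measurable T) (hS : Measurable S)
    (hTS : ∀ v, T (S v) = v) (hST : ∀ v, S (T v) = v) (hp : MeasurePreserving T (mu G) (mu G))
    (he : ∀ f ∈ Γ, ∀ v, T (act f v) = act f (T v)) (hs : ∀ v, sp G (T v) = sp G v) :
    @MeasurePreserving _ _ (invMS Γ) (invMS Γ) T (qMu G Γ D) (qMu G Γ D) := by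
  have hTi : ∀ A, MeasurableSet[invMS Γ] A → MeasurableSet[invMS Γ] (T ⁻¹' A) := by
    intro A hA
    refine ⟨hT hA.1, fun f hf => ?_⟩
    ext v
    have h1 := hA.2 f hf
    rw [mem_preimage, mem_preimage, he f hf v, mem_preimage, ← mem_preimage (f := act f), h1]
  have hTm : @Measurable _ _ (invMS Γ) (invMS Γ) T := fun A hA => hTi A hA
  refine @MeasurePreserving.mk _ _ (invMS Γ) (invMS Γ) T _ _ hTm ?_
  refine @Measure.ext _ (invMS Γ) _ _ fun A hA => ?_
  rw [@Measure.map_apply _ _ (invMS Γ) (invMS Γ) _ _ hTm _ hA, qMu_apply D (hTi A hA),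
    qMu_apply D hA, Measure.restrict_apply (hTi A hA).1, Measure.restrict_apply hA.1]
  have h1 := quoa_eq hΓ hD hT he (A := T ⁻¹' A ∩ shell G) ((hTi A hA).1.inter (quoa_shell G))
    (by
      intro f hf
      rw [preimage_inter, (hTi A hA).2 f hf, quoa_inv hΓ f hf])
  have h2 : T ⁻¹' shell G = shell G := by
    ext v
    simp only [shell, mem_preimage, mem_ofPred_eq, hs]
  have h3 : T ⁻¹' A ∩ shell G ∩ T ⁻¹' {v : Pt × Pt | v.1 ∈ D} =
      T ⁻¹' (A ∩ (shell G ∩ {v : Pt × Pt | v.1 ∈ D})) := by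
    rw [preimage_inter, preimage_inter, h2, inter_assoc]
  rw [← inter_assoc, h1, h3, hp.measure_preimage
    (hA.1.inter ((quoa_shell G).inter (quoa_base hD.1))).nullMeasurableSet]

/-- Invariant null sets of `qMu` are null. -/
theorem qMu_null {G : Met} {Γ : Subgroup (Equiv.Perm Pt)} (hΓ : IsClosedSurf G Γ) {D : Set Pt}
    (hD : IsFD Γ D) {A : Set (Pt × Pt)} (hA : MeasurableSet[invMS Γ] A) (h0 : qMu G Γ D A = 0) :
    mu G (A ∩ shell G) = 0 := by
  rw [qMu_apply D hA, Measure.restrict_apply hA.1, ← inter_assoc] at h0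
  exact quoa_zero hΓ hD (fun f hf => by
    rw [preimage_inter, hA.2 f hf, quoa_inv hΓ f hf]) h0

end

end Pool.Agent.Work.MP_275abe_gt
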