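import Pool.Agent.Work.MP_275abe_gt.FlatV
import Pool.Agent.Work.MP_275abe_gt.FeA

/-!
Flatness of tubes. For v in flatVec with v.2 ≠ 0, t real: u = rot (π/2) (φ t (v.1, v.2 / sp v)) is a unit vector at a flat
point, g(h) = curv (φ h u).1 = kz 0 (φ h u) satisfies g^(j)(h) = kz j (φ h u) (kz_flow), all g^(j)(0) = 0, and
|g^(N)| <= C_N by inv_bdd (kz_act, sp_flow), so |g(h)| <= C_N |h|^N (induction on N with the mean value inequality). For
|h| <= 2^(-ε n): |g(h)| <= C_N 2^(-ε n N) < 2^(-10 n) for N > 11/ε and n large.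
-/

namespace Pool.Agent.Work.MP_275abe_gt

open MeasureTheory Set
open scoped ContDiff

noncomputable section

/-- Taylor estimate for a chain of derivatives vanishing at `0`. -/
private theorem taym_chain (g : ℕ → ℝ → ℝ) (hd : ∀ j h, HasDerivAt (g j) (g (j + 1) h) h)
    (h0 : ∀ j, g j 0 = 0) (N : ℕ) (C : ℝ) (hC : ∀ h, |g N h| ≤ C) :
    ∀ k j : ℕ, j + k = N → ∀ h, |g j h| ≤ C * |h| ^ k := by
  intro k
  induction k with
  | zero =>
    intro j hj h
    rw [pow_zero, mul_one]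
    have : j = N := by omega
    rw [this]
    exact hC h
  | succ k ih =>
    intro j hj h
    have hC0 : 0 ≤ C := (abs_nonneg _).trans (hC 0)
    have hb : ∀ s ∈ segment ℝ (0 : ℝ) h, ‖g (j + 1) s‖ ≤ C * |h| ^ k := by
      intro s hs
      have h1 : |s| ≤ |h| := by
        obtain ⟨a, b, ha, hb, hab, rfl⟩ := hs
        rw [smul_zero, zero_add, smul_eq_mul, abs_mul, abs_of_nonneg hb]
        have : b ≤ 1 := by linarith
        exact mul_le_of_le_one_left (abs_nonneg _) this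
      have h2 := ih (j + 1) (by omega) s
      rw [Real.norm_eq_abs]
      refine h2.trans ?_
      gcongr
    have h3 := (convex_segment (0 : ℝ) h).norm_image_sub_le_of_norm_hasDerivWithin_le
      (f := g j) (f' := g (j + 1)) (C := C * |h| ^ k)
      (fun s _ => (hd j s).hasDerivWithinAt) hb (left_mem_segment ℝ 0 h) (right_mem_segment ℝ 0 h)
    rw [h0, sub_zero, sub_zero, Real.norm_eq_abs, Real.norm_eq_abs] at h3
    rw [pow_succ, ← mul_assoc]
    exact h3

theorem tay {G : Met} {Γ : Subgroup (Equiv.Perm Pt)} (hΓ : IsClosedSurf G Γ)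
    {φ : ℝ → Pt × Pt → Pt × Pt} (hφ : IsFlow (spray G) φ) (ε : ℝ) (hε : 0 < ε) :
    ∃ n₀ : ℕ, ∀ n ≥ n₀, ∀ v ∈ flatVec G φ, v.2 ≠ 0 → ∀ t h : ℝ, |h| ≤ (2 : ℝ) ^ (-ε * n) →
      kap G φ v t h < (2 : ℝ) ^ (-(10 : ℝ) * n) := by
  obtain ⟨N, hN⟩ := exists_nat_gt (11 / ε)
  obtain ⟨C, hC⟩ := inv_bdd hΓ (kz_smooth G N).continuous
    (fun f hf v => kz_act hΓ hφ f hf N v) 1
  obtain ⟨n₀, hn₀⟩ := pow_unbounded_of_one_lt C (one_lt_two : (1 : ℝ) < 2)
  refine ⟨n₀, fun n hn v hv hv2 t h hh => ?_⟩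
  have hsp := sp_pos G v hv2
  set w : Pt × Pt := φ t (v.1, (sp G v)⁻¹ • v.2) with hw
  set u : Pt × Pt := rot G (Real.pi / 2) w with hu
  have hu1 : u.1 = (φ ((sp G v)⁻¹ * t) v).1 := by
    rw [hu, hw, rot]
    dsimp only
    rw [phi_scale G hφ]
  have hflat : ∀ j, kz G j u = 0 := by
    intro j
    have h1 : u.1 ∈ flatPts G := by
      rw [hu1]
      exact hv _
    exact h1 j u.2
  have hspu : sp G u = 1 := by
    rw [hu, sp_rot, hw, sp_flow G hφ, sp_smul, abs_of_pos (inv_pos.2 hsp)]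
    exact inv_mul_cancel₀ hsp.ne'
  have hchain := taym_chain (fun j s => kz G j (φ s u)) (fun j s => kz_flow G hφ j u s)
    (fun j => by rw [hφ.1]; exact hflat j) N C
    (fun s => hC _ (by rw [sp_flow G hφ, hspu])) N 0 (by omega) h
  have hk : kap G φ v t h = |kz G 0 (φ h u)| := by
    rw [kz_zero]
    rfl
  rw [hk]
  refine lt_of_le_of_lt hchain ?_
  have hC0 : 0 ≤ C := (abs_nonneg _).trans (hC u (by rw [hspu]))
  have h2n : (0 : ℝ) < (2 : ℝ) ^ (-ε * n) := Real.rpow_pos_of_pos two_pos _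
  calc C * |h| ^ N ≤ C * ((2 : ℝ) ^ (-ε * n)) ^ N := by gcongr
    _ = C * (2 : ℝ) ^ (-ε * n * N) := by rw [← Real.rpow_mul_natCast two_pos.le]
    _ ≤ C * (2 : ℝ) ^ (-(11 : ℝ) * n) := by
        refine mul_le_mul_of_nonneg_left (Real.rpow_le_rpow_of_exponent_le one_le_two ?_) hC0
        have h3 : 11 ≤ ε * N := by
          rw [div_lt_iff₀ hε] at hN
          linarith
        have h4 : (0 : ℝ) ≤ n := Nat.cast_nonneg n
        nlinarith
    _ < (2 : ℝ) ^ (n : ℝ) * (2 : ℝ) ^ (-(11 : ℝ) * n) := by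
        refine mul_lt_mul_of_pos_right ?_ (Real.rpow_pos_of_pos two_pos _)
        calc C < (2 : ℝ) ^ n₀ := hn₀
          _ ≤ (2 : ℝ) ^ n := pow_le_pow_right₀ (by norm_num) hn
          _ = (2 : ℝ) ^ (n : ℝ) := (Real.rpow_natCast 2 n).symm
    _ = (2 : ℝ) ^ (-(10 : ℝ) * n) := by
        rw [← Real.rpow_add two_pos]
        congr 1
        ring

end

end Pool.Agent.Work.MP_275abe_gt
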